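import Pool.Agent.Lib.FCC.Peak91

/-! The peak lemma. -/

set_option linter.unusedSectionVars false

namespace Pool.Agent.Lib.FCC.P91

open Finset

variable {X T : Finset Pt} {g : Pt → Pt}

/-- The directions in which the atom is extreme. -/
def Sx (X : Finset Pt) (h : Pt) : Finset Pt := ax.filter fun d => ∀ k ∈ X, dt d k ≤ dt d h

/-- The extreme slice. -/
def Zd (X : Finset Pt) (d : Pt) : Finset Pt := X.filter fun h => ∀ k ∈ X, dt d k ≤ dt d h

/-- The sites above the extreme slice. -/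
def Ud (X : Finset Pt) (d : Pt) : Finset Pt := (halo X).filter fun q => ∀ k ∈ X, dt d k < dt d q

/-- The sites above some extreme slice. -/
def Ps (X : Finset Pt) : Finset Pt := (halo X).filter fun q => ∃ d ∈ ax, ∀ k ∈ X, dt d k < dt d q

def up (X : Finset Pt) (h : Pt) : ℕ := ((Ps X).filter (adj h ·)).card

def rs (X T : Finset Pt) (g : Pt → Pt) (h : Pt) : ℕ :=
  ∑ p ∈ (T \ Ps X).filter fun p => g p = h, inn X p

/-- The local loss. -/
def psi (X T : Finset Pt) (g : Pt → Pt) (h : Pt) : ℤ :=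
  (out X h : ℤ) + up X h + rs X T g h - bb T g h

def eX (X : Finset Pt) (d h : Pt) : ℕ := ∑ u ∈ dirs.filter (dt d · = 0), ni X (h + u)

lemma total (A : Asg X T g) : ∑ h ∈ X, psi X T g h + ∑ q ∈ halo X \ (Ps X ∪ T), (inn X q : ℤ) =
    2 * bd X - (3 * T.card + 3 * (T.image g).card) := by
  have h1 : ∑ h ∈ X, up X h = ∑ q ∈ Ps X, inn X q := by
    simp only [up, inn_eq_card, card_filter]
    rw [sum_comm]
    simp only [adj_comm]
  have h2 : ∑ h ∈ X, rs X T g h = ∑ q ∈ T \ Ps X, inn X q :=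
    sum_fiberwise_of_maps_to (fun p hp => A.mem p (mem_sdiff.1 hp).1) _
  have h3 := sum_sdiff (f := inn X) (show Ps X ∪ T ⊆ halo X from
    union_subset (filter_subset _ _) A.halo)
  rw [← union_sdiff_self_eq_union, sum_union disjoint_sdiff, union_sdiff_self_eq_union,
    ← bd_eq_halo] at h3
  have h4 := sum_bb A
  simp only [psi, sum_add_distrib, sum_sub_distrib, ← Nat.cast_sum, h1, h2, h4]
  unfold bd at *
  omega

lemma dt_le : ∀ d ∈ ax, ∀ u ∈ dirs, dt d u ≤ 1 := by decide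

/-- A site above a slice is adjacent only to atoms of the slice. -/
lemma ext_of_adj {d q k : Pt} (hd : d ∈ ax) (hq : ∀ k ∈ X, dt d k < dt d q) (ha : adj k q) :
    ∀ k' ∈ X, dt d k' ≤ dt d k := fun k' hk' => by
  have h1 := dt_le d hd _ ((adj_iff_dirs _ _).1 ha)
  have := hq k' hk'
  rw [dt_sub] at h1
  omega

lemma up_mem {d h u : Pt} (hh : h ∈ X) (hd : ∀ k ∈ X, dt d k ≤ dt d h) (hu : u ∈ dirs)
    (h1 : dt d u = 1) : h + u ∈ Ud X d := by
  have h2 : ∀ k ∈ X, dt d k < dt d (h + u) := fun k hk => by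
    have := hd k hk
    rw [dt_add]
    omega
  exact mem_filter.2 ⟨mem_halo.2 ⟨fun m => lt_irrefl _ (h2 _ m), h, hh, (adj_add_dir _ _).2 hu⟩, h2⟩

def Sq (S : Finset Pt) : Finset Pt := dirs.filter fun u => ∃ d ∈ S, dt d u = 1

def wt (S : Finset Pt) (u : Pt) : ℕ := (S.filter (dt · u = 0)).card

lemma table : ∀ S ∈ ax.powerset, (∀ d ∈ S, -d ∉ S) → (∀ u ∈ dirs, wt S u ≤ 1) ∧
    (1 ≤ S.card → 8 ≤ (Sq S).card + ((Sq S).filter (wt S · = 0)).card) ∧
    (2 ≤ S.card → 9 ≤ (Sq S).card + ((Sq S).filter (wt S · = 0)).card) := by decide +kernel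

lemma local_ge {h : Pt} (hh : h ∈ X) (hn : ∀ d ∈ Sx X h, -d ∉ Sx X h) :
    ∑ d ∈ Sx X h, eX X d h + ((Sq (Sx X h)).card +
      ((Sq (Sx X h)).filter (wt (Sx X h) · = 0)).card) ≤ out X h + up X h := by
  have hS : ∀ u ∈ Sq (Sx X h), h + u ∈ Ps X := fun u hu => by
    obtain ⟨h1, d, h2, h3⟩ := mem_filter.1 hu
    rw [Sx, mem_filter] at h2
    have := mem_filter.1 (up_mem hh h2.2 h1 h3)
    exact mem_filter.2 ⟨this.1, d, h2.1, this.2⟩
  have h1 : (Sq (Sx X h)).card ≤ up X h :=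
    card_le_card_of_injOn (h + ·) (fun u hu => mem_filter.2 ⟨hS u hu,
      (adj_add_dir _ _).2 (mem_filter.1 hu).1⟩) (add_right_injective h).injOn
  have h2 : ∑ d ∈ Sx X h, eX X d h = ∑ u ∈ dirs, wt (Sx X h) u * ni X (h + u) := by
    simp only [eX, wt, sum_filter, card_filter, sum_mul]
    rw [sum_comm]
    simp
  have h3 : ((Sq (Sx X h)).filter (wt (Sx X h) · = 0)).card =
      ∑ u ∈ dirs, if u ∈ Sq (Sx X h) ∧ wt (Sx X h) u = 0 then 1 else 0 := by
    rw [← card_filter]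
    congr 1
    ext u
    simp only [mem_filter, Sq]
    tauto
  have h4 := (table (Sx X h) (mem_powerset.2 (filter_subset _ _)) hn).1
  have h5 : ∑ u ∈ dirs, (wt (Sx X h) u * ni X (h + u) +
      if u ∈ Sq (Sx X h) ∧ wt (Sx X h) u = 0 then 1 else 0) ≤ out X h := by
    rw [out_eq_ni]
    refine sum_le_sum fun u hu => ?_
    split_ifs with h6
    · rw [h6.2, ni_of_not (mem_halo.1 (mem_filter.1 (hS u h6.1)).1).1]
    · have := Nat.mul_le_mul_right (ni X (h + u)) (h4 u hu)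
      omega
  rw [sum_add_distrib] at h5
  omega

/-- The share of the local loss given to a direction. -/
def cd (X T : Finset Pt) (g : Pt → Pt) (d h : Pt) : ℤ :=
  if Sx X h = {d} then psi X T g h else eX X d h

lemma psi_of_empty (A : Asg X T g) {h : Pt} (h0 : Sx X h = ∅) : up X h = 0 ∧
    rs X T g h = ∑ p ∈ T.filter fun p => g p = h, inn X p := by
  have h1 : ∀ q ∈ Ps X, ¬adj h q := fun q hq ha => by
    obtain ⟨-, d, h2, h3⟩ := mem_filter.1 hq
    exact eq_empty_iff_forall_notMem.1 h0 d (mem_filter.2 ⟨h2, ext_of_adj h2 h3 ha⟩)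
  refine ⟨card_eq_zero.2 (filter_eq_empty_iff.2 h1), ?_⟩
  unfold rs
  congr 1
  ext p
  simp only [mem_filter, mem_sdiff]
  exact ⟨fun m => ⟨m.1.1, m.2⟩, fun m => ⟨⟨m.1, fun m2 => h1 p m2 (m.2 ▸ A.adj p m.1)⟩, m.2⟩⟩

lemma rem_nonneg (A : Asg X T g) {h : Pt} (hh : h ∈ X) (hn : ∀ d ∈ Sx X h, -d ∉ Sx X h) :
    ∑ d ∈ Sx X h, cd X T g d h ≤ psi X T g h := by
  rcases (by omega : (Sx X h).card = 0 ∨ (Sx X h).card = 1 ∨ 2 ≤ (Sx X h).card) with e | e | e
  · rw [card_eq_zero] at e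
    have h1 := psi_of_empty A e
    have h2 := bond A hh
    rw [e, sum_empty, psi, h1.1, h1.2]
    omega
  · obtain ⟨d, hd⟩ := card_eq_one.1 e
    rw [hd, sum_singleton, cd, if_pos hd]
  · have h1 := local_ge hh hn
    have h2 := (table (Sx X h) (mem_powerset.2 (filter_subset _ _)) hn).2.2 e
    have h3 := (bb_le A h).2.1
    have h4 : ∑ d ∈ Sx X h, cd X T g d h = ∑ d ∈ Sx X h, (eX X d h : ℤ) :=
      sum_congr rfl fun d _ => if_neg fun m => by rw [m, card_singleton] at e; omega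
    rw [h4, ← Nat.cast_sum, psi]
    omega

open Classical in
/-- The atom a site is counted for. -/
noncomputable def phi (X T : Finset Pt) (g : Pt → Pt) (q : Pt) : Pt :=
  if q ∈ T then g q else epsilon fun k => k ∈ X ∧ adj k q

lemma phi_spec (A : Asg X T g) {q : Pt} (hq : q ∈ halo X) :
    phi X T g q ∈ X ∧ adj (phi X T g q) q := by
  unfold phi
  split_ifs with h
  · exact ⟨A.mem q h, A.adj q h⟩
  · exact Classical.epsilon_spec (p := fun k => k ∈ X ∧ adj k q) (mem_halo.1 hq).2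

lemma two_ax : ∀ d ∈ ax, ∀ d' ∈ ax, d' ≠ d → d' ≠ -d → d + d' ∈ dirs ∧ dt d (d + d') = 1 ∧
    dt d' (d + d') = 1 ∧ ∀ u ∈ dirs, 1 ≤ dt d u → 1 ≤ dt d' u → u = d + d' := by decide

lemma cd_ge (A : Asg X T g) {d h : Pt} (hh : h ∈ X) (hn : ∀ d ∈ Sx X h, -d ∉ Sx X h)
    (hd : d ∈ Sx X h) : (eX X d h : ℤ) - 1 ≤ cd X T g d h ∧ (eX X d h : ℤ) + 1 ≤ cd X T g d h +
      ((Ud X d).filter fun q => phi X T g q = h).card := by
  unfold cd
  split_ifs with e
  · have h1 := local_ge hh hn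
    have h2 := (table (Sx X h) (mem_powerset.2 (filter_subset _ _)) hn).2.1 (by simp [e])
    have h3 := bb_le A h
    have h4 : (T.filter fun p => g p = h).card ≤ ((T \ Ps X).filter fun p => g p = h).card +
        ((Ud X d).filter fun q => phi X T g q = h).card := by
      refine (card_le_card fun p hp => ?_).trans (card_union_le _ _)
      simp only [mem_union, mem_filter, mem_sdiff] at hp ⊢
      by_cases m : p ∈ Ps X
      · obtain ⟨m1, d', m2, m3⟩ := mem_filter.1 m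
        have : d' ∈ Sx X h := mem_filter.2 ⟨m2, ext_of_adj m2 m3 (hp.2 ▸ A.adj p hp.1)⟩
        rw [e, mem_singleton] at this
        exact .inr ⟨mem_filter.2 ⟨m1, this ▸ m3⟩, by rw [phi, if_pos hp.1, hp.2]⟩
      · exact .inl ⟨⟨hp.1, m⟩, hp.2⟩
    have h5 : ((T \ Ps X).filter fun p => g p = h).card ≤ rs X T g h :=
      card_le_inn A ((filter_subset _ _).trans sdiff_subset)
    rw [show ∑ d ∈ Sx X h, eX X d h = eX X d h by rw [e, sum_singleton]] at h1
    unfold psi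
    omega
  · obtain ⟨d', h1, h2⟩ : ∃ d' ∈ Sx X h, d' ≠ d := by
      by_contra m
      push Not at m
      exact e (eq_singleton_iff_unique_mem.2 ⟨hd, m⟩)
    have k := mem_filter.1 hd
    have k' := mem_filter.1 h1
    obtain ⟨a1, a2, a3, a4⟩ := two_ax d k.1 d' k'.1 h2 (by rintro rfl; exact hn d hd h1)
    have hq := up_mem hh k.2 a1 a2
    obtain ⟨b1, b2⟩ := phi_spec A (mem_filter.1 hq).1
    have b3 := a4 _ ((adj_iff_dirs _ _).1 b2)
      (by have := k.2 _ b1; rw [dt_sub, dt_add]; omega)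
      (by have := k'.2 _ b1; rw [dt_sub, dt_add]; omega)
    have : 0 < ((Ud X d).filter fun q => phi X T g q = h).card :=
      card_pos.2 ⟨_, mem_filter.2 ⟨hq, by linear_combination -b3⟩⟩
    omega

lemma frame : ∀ d ∈ ax, dirs.filter (dt d · = 0) =
      {fb d + fc d, fb d - fc d, -fb d + fc d, -fb d - fc d} ∧
    [fb d + fc d, fb d - fc d, -fb d + fc d, -fb d - fc d].Nodup ∧
    (∀ u ∈ dirs, 1 ≤ dt d u → u = d + fb d ∨ u = d - fb d ∨ u = d + fc d ∨ u = d - fc d) ∧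
    dt (fb d) (fb d) = 1 ∧ dt (fb d) (fc d) = 0 ∧ dt (fc d) (fb d) = 0 ∧
    dt (fc d) (fc d) = 1 := by decide

lemma frame_inj {d p q : Pt} (hd : d ∈ ax) (h1 : dt d p = dt d q)
    (h2 : dt (fb d) p = dt (fb d) q) (h3 : dt (fc d) p = dt (fc d) q) : p = q := by
  obtain ⟨a, b, c⟩ := p
  obtain ⟨a', b', c'⟩ := q
  simp only [ax, mem_insert, mem_singleton] at hd
  rcases hd with rfl | rfl | rfl | rfl | rfl | rfl <;> simp [dt, fb, fc] at h1 h2 h3 <;>
    simp [h1, h2, h3]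

lemma ed_eq {d h : Pt} (hd : d ∈ ax) (hh : h ∈ Zd X d) :
    ed (Zd X d) (fb d) (fc d) h = eX X d h := by
  have h1 : eX X d h = ∑ u ∈ dirs.filter (dt d · = 0), ni (Zd X d) (h + u) := by
    refine sum_congr rfl fun u hu => ?_
    have h2 := (mem_filter.1 hu).2
    have h3 := (mem_filter.1 hh).2
    simp only [ni, Zd, mem_filter, dt_add, h2, add_zero, and_iff_left h3]
  obtain ⟨h2, h3, -⟩ := frame d hd
  simp only [List.nodup_cons, List.mem_cons, not_or] at h3
  rw [h1, h2, sum_insert (by simp [h3]), sum_insert (by simp [h3]), sum_pair h3.2.2.1.1, ed]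
  omega

lemma slice (A : Asg X T g) (hX : X.Nonempty) (hn : ∀ h ∈ X, ∀ d ∈ Sx X h, -d ∉ Sx X h) {d : Pt}
    (hd : d ∈ ax) : 4 ≤ ∑ h ∈ Zd X d, cd X T g d h ∨ ∃ v, Zd X d = {v} ∧ Sx X v = {d} ∧
      eX X d v = 4 ∧ 3 ≤ psi X T g v ∧ ∑ h ∈ Zd X d, cd X T g d h = psi X T g v := by
  have k : ∀ h ∈ Zd X d, _ := fun h hh => cd_ge A (d := d) (mem_filter.1 hh).1
    (hn h (mem_filter.1 hh).1) (mem_filter.2 ⟨hd, (mem_filter.1 hh).2⟩)
  obtain ⟨f0, -, f1, f2, f3, f4, f5⟩ := frame d hd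
  have hE : ∑ h ∈ Zd X d, ed (Zd X d) (fb d) (fc d) h = ∑ h ∈ Zd X d, eX X d h :=
    sum_congr rfl fun h hh => ed_eq hd hh
  by_cases h0 : ∃ o ∈ Zd X d, ed (Zd X d) (fb d) (fc d) o = 0
  · obtain ⟨o, h1, h2⟩ := h0
    have h3 := case2 (β := dot (fb d)) (γ := dot (fc d)) f2 f3 f4 f5 h1 h2 d (Ud X d) fun q hq => by
      obtain ⟨m1, m2⟩ := mem_filter.1 hq
      obtain ⟨-, p, m3, m4⟩ := mem_halo.1 m1
      have m5 : p ∈ Zd X d := mem_filter.2 ⟨m3, ext_of_adj hd m2 m4⟩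
      have m6 := f1 _ ((adj_iff_dirs _ _).1 m4) (by have := m2 p m3; rw [dt_sub]; omega)
      rcases m6 with e | e | e | e
      · exact .inl (by rwa [show q - d - fb d = p by linear_combination e])
      · exact .inr (.inl (by rwa [show q - d + fb d = p by linear_combination e]))
      · exact .inr (.inr (.inl (by rwa [show q - d - fc d = p by linear_combination e])))
      · exact .inr (.inr (.inr (by rwa [show q - d + fc d = p by linear_combination e])))
    have h4 : (Ud X d).card = ∑ h ∈ Zd X d, ((Ud X d).filter fun q => phi X T g q = h).card :=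
      card_eq_sum_card_fiberwise fun q hq => by
        obtain ⟨m1, m2⟩ := mem_filter.1 hq
        exact mem_filter.2 ⟨(phi_spec A m1).1, ext_of_adj hd m2 (phi_spec A m1).2⟩
    have h5 := sum_le_sum fun h hh => (k h hh).2
    simp only [sum_add_distrib, ← Nat.cast_sum, ← h4, sum_const, nsmul_eq_mul, mul_one] at h5
    left
    omega
  push Not at h0
  by_cases h1 : 2 ≤ (Zd X d).card
  · have h3 := case1 (Z := Zd X d) (β := dot (fb d)) (γ := dot (fc d)) f2 f3 f4 f5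
      (fun p hp q hq => by
        rw [Zd, mem_filter] at hp hq
        exact frame_inj hd (le_antisymm (hq.2 p hp.1) (hp.2 q hq.1))) h1 h0
    have h5 := sum_le_sum fun h hh => (k h hh).1
    simp only [sum_sub_distrib, ← Nat.cast_sum, sum_const, nsmul_eq_mul, mul_one] at h5
    left
    omega
  obtain ⟨v, m1, m2⟩ := exists_max_image X (dt d) hX
  have hv : v ∈ Zd X d := mem_filter.2 ⟨m1, m2⟩
  have h2 : Zd X d = {v} := eq_singleton_iff_unique_mem.2
    ⟨hv, fun p hp => card_le_one.1 (by omega) p hp v hv⟩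
  have h3 : eX X d v = 4 := by
    have h4 : ∀ d ∈ ax, (dirs.filter (dt d · = 0)).card = 4 := by decide
    rw [eX, ← h4 d hd, card_eq_sum_ones]
    refine sum_congr rfl fun u hu => ni_of_not fun m => ?_
    have h5 : v + u ∈ Zd X d := mem_filter.2 ⟨m, by simpa [dt_add, (mem_filter.1 hu).2] using m2⟩
    rw [h2, mem_singleton, add_eq_left] at h5
    exact zero_not_mem (h5 ▸ (mem_filter.1 hu).1)
  have h4 := (k v hv).1
  rw [h2, sum_singleton]
  unfold cd at h4 ⊢
  split_ifs at h4 ⊢ with e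
  · exact .inr ⟨v, rfl, e, h3, by omega, rfl⟩
  · exact .inl (by omega)

/-- **Peak lemma.** -/
theorem peak (A : Asg X T g) (hX : 19 ≤ X.card)
    (hD : 2 * bd X ≤ 3 * T.card + 3 * (T.image g).card + 18) :
    2 * bd X = 3 * T.card + 3 * (T.image g).card + 18 ∧
    (∀ d ∈ ax, ∃ v, Zd X d = {v} ∧ Sx X v = {d} ∧ eX X d v = 4 ∧ psi X T g v = 3) ∧
    (∀ h ∈ X, Sx X h = ∅ →
      out X h + ∑ p ∈ T.filter fun p => g p = h, inn X p = bb T g h) ∧
    ∀ q ∈ halo X, q ∈ Ps X ∨ q ∈ T := by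
  have hn : ∀ h ∈ X, ∀ d ∈ Sx X h, -d ∉ Sx X h := fun h hh d h1 h2 => by
    have k1 := mem_filter.1 h1
    have k2 := (mem_filter.1 h2).2
    simp only [dt_neg, neg_le_neg_iff] at k2
    have := flat A k1.1 fun p hp q hq => by
      have := k1.2 p hp; have := k1.2 q hq; have := k2 p hp; have := k2 q hq; omega
    omega
  have hne : X.Nonempty := card_pos.1 (by omega)
  have h1 := total A
  have h2 : ∑ h ∈ X, ∑ d ∈ Sx X h, cd X T g d h = ∑ d ∈ ax, ∑ h ∈ Zd X d, cd X T g d h := by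
    simp only [Sx, Zd, sum_filter]
    exact sum_comm
  have h3 : ∀ d ∈ ax, (3 : ℤ) ≤ ∑ h ∈ Zd X d, cd X T g d h := fun d hd => by
    rcases slice A hne hn hd with h | ⟨v, -, -, -, h, h'⟩ <;> omega
  have h4 := sum_le_sum h3
  have h5 := fun h hh => rem_nonneg A hh (hn h hh)
  have h6 := sum_le_sum h5
  rw [← Nat.cast_sum] at h1
  have h8 : ∑ _ ∈ ax, (3 : ℤ) = 18 := by decide
  refine ⟨by omega, fun d hd => ?_, fun h hh h0 => ?_, fun q hq => ?_⟩
  · have := (sum_eq_sum_iff_of_le h3).1 (by omega) d hd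
    rcases slice A hne hn hd with h | ⟨v, a1, a2, a3, -, a4⟩
    · omega
    · exact ⟨v, a1, a2, a3, by omega⟩
  · have := (sum_eq_sum_iff_of_le h5).1 (by omega) h hh
    rw [h0, sum_empty, psi, (psi_of_empty A h0).1, (psi_of_empty A h0).2] at this
    omega
  · by_contra m
    have h9 : ∑ q ∈ halo X \ (Ps X ∪ T), inn X q = 0 := by omega
    exact (mem_halo'.1 hq).2 (sum_eq_zero_iff.1 h9 q (mem_sdiff.2 ⟨hq, by rwa [mem_union]⟩))

end Pool.Agent.Lib.FCC.P91
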