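import Pool.Agent.Lib.FCC.Blue
import Pool.Agent.Lib.FCC.Peak91B

/-! Block A1: the equality case of the peak inequality. -/

set_option linter.unusedSectionVars false

namespace Pool.Agent.Lib.FCC

open Finset

namespace P91

variable {X T : Finset Pt} {g : Pt → Pt} {h u v : Pt}

lemma bowl (hh : h ∈ X) (hu : u ∈ dirs) (hp : h + u ∉ X)
    (e : inn X (h + u) ≤ ((cap u).filter fun c => h + c ∈ X).card + 1) :
    ∀ q ∈ X, adj (h + u) q → q = h ∨ adj q h := by
  intro q hq ha
  have h1 := eq_of_subset_of_card_le (cap_sub hh hu hp) (by rwa [← inn_eq_card, card_ins])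
  have h2 : q ∈ X.filter (adj (h + u) ·) := mem_filter.2 ⟨hq, ha⟩
  rw [← h1, mem_image] at h2
  obtain ⟨c, hc, rfl⟩ := h2
  rcases mem_insert.1 hc with rfl | hc
  · exact .inl (add_zero h)
  · exact .inr (adj_symm ((adj_add_dir _ _).2 (mem_filter.1 (mem_filter.1 hc).1).1))

lemma outl {C : Finset Pt} (hC : C ⊆ dirs) (e : out X h ≤ (C.filter fun c => h + c ∉ X).card) :
    ∀ w ∉ X, adj h w → w - h ∈ C := by
  intro w hw ha
  have h1 := eq_of_subset_of_card_le (filter_subset_filter (fun c => h + c ∉ X) hC)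
    (by rwa [← out_eq_card])
  have h2 : w - h ∈ dirs.filter fun c => h + c ∉ X :=
    mem_filter.2 ⟨(adj_iff_dirs _ _).1 ha, by simpa using hw⟩
  rw [← h1] at h2
  exact (mem_filter.1 h2).1

lemma of_cap {w : Pt} (m : w - h ∈ cap u) : w = h + u ∨ adj w (h + u) := by
  rcases (mem_filter.1 m).2 with e | e
  · exact .inl (by linear_combination e)
  · exact .inr (adj_symm ((adj_iff_dirs _ _).2 (by rwa [← sub_sub])))

lemma eq1 (hh : h ∈ X) (hu : u ∈ dirs) (hp : h + u ∉ X) (e : out X h + inn X (h + u) = 6) :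
    (∀ q ∈ X, adj (h + u) q → q = h ∨ adj q h) ∧
      ∀ w ∉ X, adj h w → w = h + u ∨ adj w (h + u) := by
  have h1 := inn_ge hh hu hp
  have h2 := card_filter_add_card_filter_not (s := cap u) fun c => h + c ∈ X
  have h3 : ((cap u).filter fun c => h + c ∉ X).card ≤ out X h :=
    out_eq_card X h ▸ card_le_card (filter_subset_filter _ (filter_subset _ _))
  rw [card_cap u hu] at h2
  exact ⟨bowl hh hu hp (by omega), fun w hw ha =>
    of_cap (outl (C := cap u) (filter_subset _ _) (by omega) w hw ha)⟩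

lemma card_cap3 : ∀ u ∈ dirs, ∀ v ∈ dirs, u ≠ v → (cap u ∪ cap v).card ≤ 7 → v - u ∈ dirs := by
  decide

lemma eq2 (hh : h ∈ X) (hu : u ∈ dirs) (hp : h + u ∉ X) (hv : v ∈ dirs) (hq : h + v ∉ X)
    (hne : u ≠ v) (e : out X h + (inn X (h + u) + inn X (h + v)) = 9) :
    (∀ q ∈ X, adj (h + u) q → q = h ∨ adj q h) ∧ adj (h + u) (h + v) ∧
      (∀ w, adj w (h + u) → adj w (h + v) → adj w h → w ∉ X) ∧
      ∀ w ∉ X, adj h w → w = h + u ∨ w = h + v ∨ adj w (h + u) ∨ adj w (h + v) := by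
  have h1 := inn_ge hh hu hp
  have h1' := inn_ge hh hv hq
  have h2 := card_filter_add_card_filter_not (s := cap u ∪ cap v) fun c => h + c ∈ X
  have hC : cap u ∪ cap v ⊆ dirs := union_subset (filter_subset _ _) (filter_subset _ _)
  have h3 : ((cap u ∪ cap v).filter fun c => h + c ∉ X).card ≤ out X h :=
    out_eq_card X h ▸ card_le_card (filter_subset_filter _ hC)
  have h4 := card_cap2 u hu v hv hne
  rw [filter_union] at h2
  have h5 := card_union_add_card_inter ((cap u).filter fun c => h + c ∈ X)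
    ((cap v).filter fun c => h + c ∈ X)
  refine ⟨bowl hh hu hp (by omega), ?_, fun w a1 a2 a3 hw => ?_, fun w hw ha => ?_⟩
  · rw [adj_iff_dirs, add_sub_add_left_eq_sub]
    exact card_cap3 u hu v hv hne (by omega)
  · have b : ∀ u, adj w (h + u) → w - h ∈ (cap u).filter fun c => h + c ∈ X := fun u a =>
      mem_filter.2 ⟨mem_filter.2 ⟨(adj_iff_dirs _ _).1 (adj_symm a3),
        .inr (by rw [sub_sub]; exact (adj_iff_dirs _ _).1 (adj_symm a))⟩, by simpa using hw⟩
    have := card_pos.2 ⟨_, mem_inter.2 ⟨b u a1, b v a2⟩⟩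
    omega
  · rcases mem_union.1 (outl hC (by omega) w hw ha) with m | m
    · exact (of_cap m).imp_right fun a => .inr (.inl a)
    · exact .inr ((of_cap m).imp_right .inr)

lemma card_half : ∀ d ∈ ax, (dirs.filter (0 ≤ dt d ·)).card = 8 ∧ (Sq {d}).card = 4 := by
  decide +kernel

/-- The structure at an extreme atom. -/
lemma vertex (A : Asg X T g) {d : Pt} (hd : d ∈ ax) (h1 : Zd X d = {v}) (h2 : Sx X v = {d})
    (h4 : psi X T g v = 3) : v ∈ X ∧ (∀ k ∈ X, k ≠ v → dt d k < dt d v) ∧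
    (∀ e ∈ dirs, dt d e = -1 → v + e ∈ X) ∧ (T.filter fun p => g p = v).card = 2 ∧
    ∀ p ∈ T, g p = v → p ∈ Ud X d := by
  have hv : v ∈ Zd X d := h1 ▸ mem_singleton_self v
  rw [Zd, mem_filter] at hv
  have h5 : ∀ k ∈ X, k ≠ v → dt d k < dt d v := fun k hk hne => by
    refine (hv.2 k hk).lt_of_ne fun e => hne ?_
    have : k ∈ Zd X d := mem_filter.2 ⟨hk, e ▸ hv.2⟩
    rwa [h1, mem_singleton] at this
  obtain ⟨t1, t2⟩ := card_half d hd
  have h6 : dirs.filter (0 ≤ dt d ·) ⊆ dirs.filter fun c => v + c ∉ X := fun c hc => by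
    rw [mem_filter] at hc ⊢
    refine ⟨hc.1, fun m => ?_⟩
    have := h5 _ m fun e => zero_not_mem (add_eq_left.1 e ▸ hc.1)
    rw [dt_add] at this
    omega
  have h7 := card_le_card h6
  rw [← out_eq_card, t1] at h7
  have h8 : (Sq {d}).card ≤ up X v :=
    card_le_card_of_injOn (v + ·) (fun u hu => by
      obtain ⟨a1, d', a2, a3⟩ := mem_filter.1 hu
      rw [mem_singleton.1 a2] at a3
      have := mem_filter.1 (up_mem hv.1 hv.2 a1 a3)
      exact mem_filter.2 ⟨mem_filter.2 ⟨this.1, d, hd, this.2⟩, (adj_add_dir _ _).2 a1⟩)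
      (add_right_injective v).injOn
  rw [t2] at h8
  have h9 := bb_le A v
  have h10 : ((T \ Ps X).filter fun p => g p = v).card ≤ rs X T g v :=
    card_le_inn A ((filter_subset _ _).trans sdiff_subset)
  unfold psi at h4
  refine ⟨hv.1, h5, fun e he h11 => ?_, h9.2.2 (by omega), fun p hp e => ?_⟩
  · by_contra m
    have h12 : out X v ≤ ((dirs.filter (0 ≤ dt d ·)).filter fun c => v + c ∉ X).card := by
      rw [filter_true_of_mem fun c hc => (mem_filter.1 (h6 hc)).2, t1]
      omega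
    have h13 := outl (filter_subset _ _) h12 (v + e) m ((adj_add_dir _ _).2 he)
    rw [add_sub_cancel_left, mem_filter] at h13
    omega
  · have m : p ∈ Ps X := by
      by_contra m
      have : 0 < ((T \ Ps X).filter fun p => g p = v).card :=
        card_pos.2 ⟨p, mem_filter.2 ⟨mem_sdiff.2 ⟨hp, m⟩, e⟩⟩
      omega
    obtain ⟨m1, d', m2, m3⟩ := mem_filter.1 m
    have : d' ∈ Sx X v := mem_filter.2 ⟨m2, ext_of_adj m2 m3 (e ▸ A.adj p hp)⟩
    rw [h2, mem_singleton] at this
    exact mem_filter.2 ⟨m1, this ▸ m3⟩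

lemma dot_eq (p d : Pt) : FCC.dot p d = dt d p := by simp [FCC.dot, dt, mul_comm]

end P91

open P91 in
theorem stA1 : St_A1 := by
  intro X T g _ B hX hD
  have A : P91.Asg X T g := ⟨B.out, B.mem, fun p hp => adj_symm (B.nbr p hp), B.two⟩
  obtain ⟨-, h1, h2, h3⟩ := peak A hX hD
  choose! v v1 v2 _ v4 using h1
  have V := fun d hd => vertex A hd (v1 d hd) (v2 d hd) (v4 d hd)
  have hU : ∀ d ∈ ax, ∀ p ∈ Ud X d, dt d p = dt d (v d) + 1 ∧ ∀ q ∈ X, adj q p → q = v d := by
    intro d hd p hp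
    obtain ⟨m1, m2⟩ := mem_filter.1 hp
    have k : ∀ q ∈ X, adj q p → q = v d := fun q hq ha => by
      have : q ∈ Zd X d := mem_filter.2 ⟨hq, ext_of_adj hd m2 ha⟩
      rwa [v1 d hd, mem_singleton] at this
    obtain ⟨-, q, m3, m4⟩ := mem_halo.1 m1
    have := dt_le d hd _ ((adj_iff_dirs _ _).1 m4)
    have := m2 q m3
    rw [← k q m3 m4, dt_sub] at *
    exact ⟨by omega, fun q' hq' ha => (k q' hq' ha)⟩
  have hS : ∀ h ∈ X, (∀ d ∈ ax, h ≠ v d) →
      out X h + ∑ p ∈ T.filter fun p => g p = h, inn X p = bb T g h := fun h hh hn =>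
    h2 h hh (eq_empty_iff_forall_notMem.2 fun d hd => by
      have hd' := mem_filter.1 hd
      have : h ∈ Zd X d := mem_filter.2 ⟨hh, hd'.2⟩
      rw [v1 d hd'.1, mem_singleton] at this
      exact hn d hd'.1 this)
  have hd : ∀ p ∈ T, p - g p ∈ dirs ∧ g p + (p - g p) ∉ X := fun p hp =>
    ⟨(adj_iff_dirs _ _).1 (A.adj p hp), by simpa using A.out p hp⟩
  have k1 : ∀ p ∈ T, (∀ p' ∈ T, g p' = g p → p' = p) → (∀ q ∈ X, adj p q → q = g p ∨ adj q (g p)) ∧
      ∀ u ∉ X, adj (g p) u → u = p ∨ adj u p := fun p hp ho => by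
    have e : (T.filter fun p' => g p' = g p) = {p} :=
      eq_singleton_iff_unique_mem.2 ⟨by simp [hp], fun p' m => ho p' (mem_filter.1 m).1
        (mem_filter.1 m).2⟩
    have := hS _ (A.mem p hp) fun d hd e' => by
      have := (V d hd).2.2.2.1
      rw [← e', e] at this
      simp at this
    rw [bb, e, if_pos (mem_image_of_mem g hp), sum_singleton, card_singleton] at this
    simpa using eq1 (A.mem p hp) (hd p hp).1 (hd p hp).2 (by simpa using this)
  have k2 : ∀ p ∈ T, ∀ p' ∈ T, g p = g p' → p ≠ p' → (∀ d ∈ ax, g p ≠ v d) →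
      (∀ q ∈ X, adj p q → q = g p ∨ adj q (g p)) ∧ adj p p' ∧
      (∀ u, adj u p → adj u p' → adj u (g p) → u ∉ X) ∧
      ∀ u ∉ X, adj (g p) u → u = p ∨ u = p' ∨ adj u p ∨ adj u p' := fun p hp p' hp' e hne hn => by
    have e1 : (T.filter fun q => g q = g p) = {p, p'} :=
      (eq_of_subset_of_card_le (by simp [insert_subset_iff, hp, hp', e])
        (by rw [card_pair hne]; exact A.two _)).symm
    have := hS _ (A.mem p hp) hn
    rw [bb, e1, if_pos (mem_image_of_mem g hp), sum_pair hne, card_pair hne] at this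
    simpa using eq2 (v := p' - g p) (A.mem p hp) (hd p hp).1 (hd p hp).2 (e ▸ (hd p' hp').1)
      (by simpa using A.out p' hp') (by simpa using hne) (by simpa using this)
  refine ⟨v, fun d hd => (V d hd).1, fun d hd h hh hne => ?_, fun d hd e he m => ?_,
    fun d hd p hp e => ?_, fun d hd => (V d hd).2.2.2.1, fun u hu => ?_, fun h hh m => ?_,
    fun p hp => ?_, fun p hp ho => (k1 p hp ho).2, fun p hp p' hp' e hne hn =>
      (k2 p hp p' hp' e hne hn).2⟩
  · rw [dot_eq, dot_eq]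
    exact (V d hd).2.1 h hh hne
  · exact (V d hd).2.2.1 e he (dot_eq e d ▸ m)
  · rw [dot_eq, dot_eq]
    exact (hU d hd p ((V d hd).2.2.2.2 p hp e)).1
  · refine (h3 u hu).symm.imp_right fun m => ?_
    obtain ⟨-, d, m1, m2⟩ := mem_filter.1 m
    exact ⟨d, m1, by rw [dot_eq, dot_eq]; exact (hU d m1 u (mem_filter.2 ⟨hu, m2⟩)).1⟩
  · have e : (T.filter fun p => g p = h) = ∅ :=
      filter_eq_empty_iff.2 fun p hp e => m (e ▸ mem_image_of_mem g hp)
    have := hS h hh fun d hd e' => by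
      have := (V d hd).2.2.2.1
      rw [← e', e] at this
      simp at this
    rw [bb, e, if_neg m] at this
    simpa using this
  · by_cases hn : ∀ d ∈ ax, g p ≠ v d
    · by_cases ho : ∀ p' ∈ T, g p' = g p → p' = p
      · exact (k1 p hp ho).1
      · push Not at ho
        obtain ⟨p', hp', e, hne⟩ := ho
        exact (k2 p hp p' hp' e.symm hne.symm hn).1
    · push Not at hn
      obtain ⟨d, hd, e⟩ := hn
      exact fun q hq ha => .inl (e ▸ (hU d hd p ((V d hd).2.2.2.2 p hp e)).2 q hq (adj_symm ha))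

end Pool.Agent.Lib.FCC
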