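import Pool.Agent.Lib.FCC.Blue

/-! The parts of the peak inequality. -/

namespace Pool.Agent.Lib.FCC

open Finset

/-- No point of `X` lies beyond `h` in direction `d`. -/
def Top (X : Finset Pt) (d h : Pt) : Prop := ∀ q ∈ X, dot q d ≤ dot h d

instance (X : Finset Pt) (d h : Pt) : Decidable (Top X d h) := by unfold Top; infer_instance

/-- The directions in which `h` is extreme. -/
def dl (X : Finset Pt) (h : Pt) : Finset Pt := axes.filter (Top X · h)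

/-- The number of neighbours outside `X` at the same height. -/
def lat (X : Finset Pt) (d h : Pt) : ℕ := ((nb h).filter fun q => q ∉ X ∧ dot q d = dot h d).card

def upS (d h : Pt) : Finset Pt := (nb h).filter fun q => dot q d = dot h d + 1

def Sq (X : Finset Pt) (h : Pt) : Finset Pt :=
  (nb h).filter fun q => ∃ d ∈ dl X h, dot q d = dot h d + 1

def bw (A : Finset Pt) : ℤ := 3 * A.card + if A = ∅ then 0 else 3

def psi (X A : Finset Pt) (h : Pt) : ℤ :=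
  out X h + (Sq X h).card + ∑ p ∈ A \ Sq X h, (inn X p : ℤ) - bw A

def del (X A : Finset Pt) (h : Pt) : ℤ := out X h + ∑ p ∈ A, (inn X p : ℤ) - bw A

def LocA (X A : Finset Pt) (h : Pt) : Prop := h ∈ X ∧ (∀ p ∈ A, p ∉ X ∧ adj p h) ∧ A.card ≤ 2

def St_SLICE : Prop := ∀ (X : Finset Pt), X.Nonempty → (∀ p ∈ X, ev p) → ∀ d ∈ axes,
  ∀ (w : Pt → ℤ) (K : Pt → Finset Pt),
  (∀ h ∈ X, Top X d h → K h ⊆ upS d h ∧ (lat X d h : ℤ) - 1 ≤ w h ∧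
    (lat X d h : ℤ) + 1 ≤ w h + (K h).card) →
  (∀ h ∈ X, ∀ h' ∈ X, Top X d h → Top X d h' → h ≠ h' → Disjoint (K h) (K h')) →
  4 ≤ ∑ h ∈ X.filter (Top X d), w h ∨ ∃ v, X.filter (Top X d) = {v} ∧ lat X d v = 4

def St_LOC0 : Prop := ∀ (X A : Finset Pt) (h : Pt), LocA X A h → 0 ≤ del X A h ∧
  (del X A h = 0 → (A = ∅ → out X h = 0) ∧ (∀ p ∈ A, ∀ q ∈ X, adj p q → q = h ∨ adj q h) ∧
    (∀ p, A = {p} → ∀ u ∉ X, adj h u → u = p ∨ adj u p) ∧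
    ∀ p ∈ A, ∀ p' ∈ A, p ≠ p' → adj p p' ∧ (∀ u, adj u p → adj u p' → adj u h → u ∉ X) ∧
      ∀ u ∉ X, adj h u → u = p ∨ u = p' ∨ adj u p ∨ adj u p')

def St_LOC1 : Prop := ∀ (X A : Finset Pt) (h d : Pt), LocA X A h → dl X h = {d} →
  (lat X d h : ℤ) - 1 ≤ psi X A h ∧ (lat X d h : ℤ) + 1 ≤ psi X A h + (A ∩ upS d h).card ∧
    (psi X A h = (lat X d h : ℤ) - 1 → A.card = 2 ∧ A ⊆ upS d h ∧
      ∀ e ∈ dirs, dot e d = -1 → h + e ∈ X)

def St_LOC2 : Prop := ∀ (X A : Finset Pt) (h : Pt), LocA X A h → 2 ≤ (dl X h).card →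
  (∀ d ∈ dl X h, -d ∉ dl X h) → ∑ d ∈ dl X h, (lat X d h : ℤ) ≤ psi X A h ∧
    ∀ d ∈ dl X h, ∃ u ∈ upS d h, ∀ q ∈ X, adj q u → q = h

def St_LOCF : Prop := ∀ (X A : Finset Pt) (h : Pt), LocA X A h → ∀ d ∈ axes,
  (∀ q ∈ X, dot q d = dot h d) → 1 ≤ del X A h

def St_ACC : Prop := ∀ (X T : Finset Pt) (g : Pt → Pt), Asg X T g →
  ∑ h ∈ X, del X (T.filter (g · = h)) h ≤
      2 * (bd X : ℤ) - (3 * T.card + 3 * (T.image g).card) ∧
    ∑ h ∈ X, psi X (T.filter (g · = h)) h +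
      ∑ u ∈ halo X \ (T ∪ X.biUnion (Sq X)), (inn X u : ℤ) =
        2 * (bd X : ℤ) - (3 * T.card + 3 * (T.image g).card)

end Pool.Agent.Lib.FCC
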