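import Pool.Agent.Lib.FCC.Blue

/-! The equality case of the peak inequality is an octahedron. -/

namespace Pool.Agent.Lib.FCC

open Finset

namespace A2

theorem adj_add' {p q c : Pt} : adj (c + p) (c + q) ↔ adj p q := by
  rw [add_comm c, add_comm c, adj_add]

theorem ex_dir {p q : Pt} (h : adj p q) : ∃ e ∈ dirs, q = p + e :=
  ⟨q - p, (adj_iff_dirs p q).1 h, by simp⟩

theorem dot_add (p q d : Pt) : dot (p + q) d = dot p d + dot q d := by
  simp only [dot, Prod.fst_add, Prod.snd_add]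
  ring

/-! ### Finite facts on the twelve steps -/

theorem dot_dir : ∀ d ∈ axes, ∀ e ∈ dirs, dot e d ≤ 1 := by decide

theorem sq_three : ∀ d ∈ axes, ∃ a ∈ dirs, ∃ b ∈ dirs, ∃ c ∈ dirs,
    dot a d = 1 ∧ dot b d = 1 ∧ dot c d = 1 ∧ a ≠ b ∧ a ≠ c ∧ b ≠ c := by decide

theorem sq_far : ∀ d ∈ axes, ∀ a ∈ dirs, ∃ e ∈ dirs, dot e d = 1 ∧ e ≠ a ∧ ¬ adj e a := by
  decide

theorem apex : ∀ a ∈ dirs, ∀ b ∈ dirs, adj a b → ∀ c ∈ dirs, adj a c → adj b c →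
    ∀ e ∈ dirs, adj a e → adj b e → e = c := by decide

theorem tet_low : ∀ a ∈ dirs, ∀ b ∈ dirs, adj a b → ∀ c ∈ dirs, adj a c → adj b c →
    ∀ d ∈ axes, dot a d < 0 → dot b d = -1 ∨ dot c d = -1 := by decide

theorem tet_far1 : ∀ a ∈ dirs, ∀ b ∈ dirs, adj a b → ∀ c ∈ dirs, adj a c → adj b c →
    c - b ∈ dirs ∧ adj c (c - b) ∧ c - b ≠ a ∧ ¬ adj (c - b) a := by decide

theorem tet_far2 : ∀ b ∈ dirs, ∀ c ∈ dirs, adj b c → c - b ≠ b ∧ ¬ adj (c - b) b := by decide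

theorem tet_far3 : ∀ a ∈ dirs, ∀ b ∈ dirs, adj a b → ∀ c ∈ dirs, adj a c → adj b c →
    ∀ e ∈ dirs, adj b e → adj (c - b) e → e = a ∨ e = c := by decide

theorem tet_far4 : ∀ b ∈ dirs, ∀ c ∈ dirs, adj b c → ¬ adj b (c - b) := by decide

theorem lat : ∀ d ∈ axes, ∀ a ∈ dirs, dot a d = 0 → ∃ b ∈ dirs, ∃ c ∈ dirs,
    dot b d = 1 ∧ dot c d = 1 ∧ adj a b ∧ adj a c ∧ adj b c := by decide

theorem up_nb : ∀ d ∈ axes, ∀ a ∈ dirs, dot a d = 1 → ∀ b ∈ dirs, adj a b →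
    dot b d = 0 ∨ dot b d = 1 := by decide

theorem low_eq : ∀ d ∈ axes, ∀ d' ∈ axes, d' ≠ d → ∃ e ∈ dirs, dot e d' = -1 ∧
    (dot e d = 0 ∨ dot e d = 1) := by decide

theorem nrm_dir : ∀ e ∈ dirs, nrm e = 2 := by decide

theorem nrm_sub_le (p e : Pt) : nrm p ≤ nrm (p + e) + nrm e := by
  simp only [nrm, Prod.fst_add, Prod.snd_add]
  omega

theorem lin {p : Pt} {B : ℤ} (h : (nrm p : ℤ) ≤ B) :
    (p.1 + p.2.1 + p.2.2 ≤ B ∧ p.1 + p.2.1 - p.2.2 ≤ B ∧ p.1 - p.2.1 + p.2.2 ≤ B ∧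
      p.1 - p.2.1 - p.2.2 ≤ B) ∧ -p.1 + p.2.1 + p.2.2 ≤ B ∧ -p.1 + p.2.1 - p.2.2 ≤ B ∧
      -p.1 - p.2.1 + p.2.2 ≤ B ∧ -p.1 - p.2.1 - p.2.2 ≤ B := by
  simp only [nrm] at h
  omega

/-! ### Local rules -/

variable {X T : Finset Pt} {g v : Pt → Pt}

/-- A site next to `X` is assigned or touches a vertex only. -/
theorem memT (hc : Clean X T g v) {u h : Pt} (hu : u ∉ X) (hh : h ∈ X) (a : adj h u) :
    u ∈ T ∨ ∃ d ∈ axes, ∀ q ∈ X, adj q u → q = v d := by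
  rcases hc.site u (mem_halo.2 ⟨hu, h, hh, a⟩) with h1 | ⟨d, hd, h1⟩
  · exact Or.inl h1
  · refine Or.inr ⟨d, hd, fun q hq a => ?_⟩
    by_contra hne
    obtain ⟨e, he, rfl⟩ := ex_dir a
    have := hc.vtop d hd q hq hne
    have := dot_dir d hd e he
    rw [dot_add] at h1
    omega

/-- A site with two neighbours in `X` is assigned. -/
theorem memT2 (hc : Clean X T g v) {u h h' : Pt} (hu : u ∉ X) (hh : h ∈ X) (hh' : h' ∈ X)
    (a : adj h u) (a' : adj h' u) (ne : h ≠ h') : u ∈ T := by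
  rcases memT hc hu hh a with h1 | ⟨d, -, h1⟩
  · exact h1
  · exact absurd ((h1 h hh a).trans (h1 h' hh' a').symm) ne

/-- A site below a full square of atoms is an atom. -/
theorem r1 (ha : Asg X T g) (hc : Clean X T g v) {u d : Pt} (hd : d ∈ axes)
    (h : ∀ e ∈ dirs, dot e d = 1 → u + e ∈ X) : u ∈ X := by
  by_contra hu
  obtain ⟨a, a1, b, b1, -, -, a2, b2, -, ab, -⟩ := sq_three d hd
  have hT := memT2 hc hu (h a a1 a2) (h b b1 b2) (adj_symm ((adj_add_dir _ _).2 a1))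
    (adj_symm ((adj_add_dir _ _).2 b1)) (by simpa using ab)
  obtain ⟨e0, he0, hg⟩ := ex_dir (ha.nbr u hT)
  obtain ⟨e, e1, e2, e3, e4⟩ := sq_far d hd e0 he0
  rcases hc.bow u hT (u + e) (h e e1 e2) ((adj_add_dir _ _).2 e1) with h1 | h1
  · rw [hg] at h1
    exact e3 (add_left_cancel h1)
  · rw [hg, adj_add'] at h1
    exact e4 h1

/-- In a tetrahedron with two atoms and two sites each site is assigned to one of the atoms. -/
theorem tet_g (ha : Asg X T g) (hc : Clean X T g v) {h h' p p' : Pt} (hh : h ∈ X) (hh' : h' ∈ X)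
    (hp : p ∉ X) (hp' : p' ∉ X) (a1 : adj h h') (a2 : adj h p) (a3 : adj h p') (a4 : adj h' p)
    (a5 : adj h' p') (a6 : adj p p') : p ∈ T ∧ (g p = h ∨ g p = h') := by
  have hT := memT2 hc hp hh hh' a2 a4 (fun e => adj_irrefl _ (e ▸ a1))
  refine ⟨hT, ?_⟩
  rcases hc.bow p hT h hh (adj_symm a2) with h1 | h1
  · exact Or.inl h1.symm
  rcases hc.bow p hT h' hh' (adj_symm a4) with h2 | h2
  · exact Or.inr h2.symm
  have h3 := ha.mem p hT
  obtain ⟨e, he, hg⟩ := ex_dir (ha.nbr p hT)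
  obtain ⟨a, ha1, rfl⟩ := ex_dir (adj_symm a2)
  obtain ⟨b, hb1, rfl⟩ := ex_dir (adj_symm a4)
  obtain ⟨c, hc1, rfl⟩ := ex_dir a6
  rw [hg] at h1 h2 h3
  rw [adj_add'] at a1 a3 a5 h1 h2
  exact absurd (apex a ha1 b hb1 a1 c hc1 a3 a5 e he h1 h2 ▸ h3) hp'

/-- An atom of such a tetrahedron is not a vertex. -/
theorem tet_v (hc : Clean X T g v) {h h' p p' : Pt} (hh' : h' ∈ X)
    (hp : p ∉ X) (hp' : p' ∉ X) (a1 : adj h h') (a2 : adj h p) (a3 : adj h p') (a4 : adj h' p)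
    (a5 : adj h' p') (a6 : adj p p') : ∀ d ∈ axes, h ≠ v d := by
  rintro d hd rfl
  have h1 := hc.vtop d hd h' hh' (fun e => adj_irrefl _ (e ▸ a1))
  obtain ⟨a, ha1, rfl⟩ := ex_dir a1
  obtain ⟨b, hb1, rfl⟩ := ex_dir a2
  obtain ⟨c, hc1, rfl⟩ := ex_dir a3
  rw [adj_add'] at a4 a5 a6
  rw [dot_add] at h1
  rcases tet_low a ha1 b hb1 a4 c hc1 a5 a6 d hd (by omega) with h2 | h2
  · exact hp (hc.vlow d hd b hb1 h2)
  · exact hp' (hc.vlow d hd c hc1 h2)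

theorem tet_aux (ha : Asg X T g) (hc : Clean X T g v) {h h' p p' : Pt} (hh : h ∈ X)
    (hh' : h' ∈ X) (hp : p ∉ X) (hp' : p' ∉ X) (a1 : adj h h') (a2 : adj h p) (a3 : adj h p')
    (a4 : adj h' p) (a5 : adj h' p') (a6 : adj p p') (e : g p = h) : False := by
  have hT := (tet_g ha hc hh hh' hp hp' a1 a2 a3 a4 a5 a6).1
  obtain ⟨hT', e'⟩ := tet_g ha hc hh hh' hp' hp a1 a3 a2 a5 a4 (adj_symm a6)
  have hv : ∀ d ∈ axes, g p ≠ v d := e ▸ tet_v hc hh' hp hp' a1 a2 a3 a4 a5 a6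
  rcases e' with e' | e'
  · exact (hc.pair p hT p' hT' (e.trans e'.symm) (fun e => adj_irrefl _ (e ▸ a6)) hv).2.1 h'
      a4 a5 (e ▸ adj_symm a1) hh'
  obtain ⟨a, ha1, rfl⟩ := ex_dir a1
  obtain ⟨b, hb1, rfl⟩ := ex_dir a2
  obtain ⟨c, hc1, rfl⟩ := ex_dir a3
  rw [adj_add'] at a4 a5 a6
  obtain ⟨w1, w2, w3, w4⟩ := tet_far1 a ha1 b hb1 a4 c hc1 a5 a6
  obtain ⟨w5, w6⟩ := tet_far2 b hb1 c hc1 a6
  have w7 : ∀ e ∈ dirs, adj b e → e ≠ a → e ≠ c → c - b ≠ e ∧ ¬ adj (c - b) e :=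
    fun e e1 e2 e3 e4 => ⟨fun r => tet_far4 b hb1 c hc1 a6 (r ▸ e2),
      fun r => (tet_far3 a ha1 b hb1 a4 c hc1 a5 a6 e e1 e2 r).elim e3 e4⟩
  generalize c - b = w at w1 w2 w3 w4 w5 w6 w7
  have hw : h + w ∉ X := fun hw => by
    rcases hc.bow _ hT' _ hw (adj_add'.2 w2) with h1 | h1
    · exact w3 (add_left_cancel (h1.trans e'))
    · rw [e', adj_add'] at h1
      exact w4 h1
  have aw : adj (g (h + b)) (h + w) := by
    rw [e]
    exact (adj_add_dir _ _).2 w1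
  by_cases h1 : ∀ q ∈ T, g q = g (h + b) → q = h + b
  · rcases hc.one _ hT h1 _ hw aw with h2 | h2
    · exact w5 (add_left_cancel h2)
    · exact w6 (adj_add'.1 h2)
  push Not at h1
  obtain ⟨q, q1, q2, q3⟩ := h1
  obtain ⟨k1, -, k3⟩ := hc.pair _ hT q q1 q2.symm q3.symm hv
  have q4 := ha.nbr q q1
  rw [q2, e] at q4
  obtain ⟨f, hf, rfl⟩ := ex_dir (adj_symm q4)
  obtain ⟨k4, k5⟩ := w7 f hf (adj_add'.1 k1) (fun r => ha.out _ q1 (r ▸ hh')) (fun r => by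
    subst r
    rw [e', e] at q2
    exact adj_irrefl h (by simpa only [q2] using (adj_add_dir h a).2 ha1))
  rcases k3 _ hw aw with h2 | h2 | h2 | h2
  · exact w5 (add_left_cancel h2)
  · exact k4 (add_left_cancel h2)
  · exact w6 (adj_add'.1 h2)
  · exact k5 (adj_add'.1 h2)

/-- No tetrahedron has two atoms and two sites. -/
theorem r3 (ha : Asg X T g) (hc : Clean X T g v) {h h' p p' : Pt} (hh : h ∈ X)
    (hh' : h' ∈ X) (hp : p ∉ X) (hp' : p' ∉ X) (a1 : adj h h') (a2 : adj h p) (a3 : adj h p')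
    (a4 : adj h' p) (a5 : adj h' p') (a6 : adj p p') : False := by
  rcases (tet_g ha hc hh hh' hp hp' a1 a2 a3 a4 a5 a6).2 with e | e
  · exact tet_aux ha hc hh hh' hp hp' a1 a2 a3 a4 a5 a6 e
  · exact tet_aux ha hc hh' hh hp hp' (adj_symm a1) a4 a5 a2 a3 a6 e

/-- An atom other than the vertex has an atom above it. -/
theorem r2 (ha : Asg X T g) (hc : Clean X T g v) {h d : Pt} (hh : h ∈ X) (hd : d ∈ axes)
    (ne : h ≠ v d) : ∃ e ∈ dirs, dot e d = 1 ∧ h + e ∈ X := by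
  by_contra hn
  push Not at hn
  have hl : ∀ e ∈ dirs, dot e d = 0 ∨ dot e d = 1 → h + e ∉ X := by
    rintro a a1 (a2 | a2)
    · obtain ⟨b, b1, c, c1, b2, c2, ab, ac, bc⟩ := lat d hd a a1 a2
      exact fun hx => r3 ha hc hh hx (hn b b1 b2) (hn c c1 c2) ((adj_add_dir _ _).2 a1)
        ((adj_add_dir _ _).2 b1) ((adj_add_dir _ _).2 c1) (adj_add'.2 ab) (adj_add'.2 ac)
        (adj_add'.2 bc)
    · exact hn a a1 a2
  have hu : ∀ e ∈ dirs, dot e d = 1 → h + e ∈ T.filter (g · = h) := by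
    intro e e1 e2
    have ae := (adj_add_dir h e).2 e1
    rcases memT hc (hn e e1 e2) hh ae with h1 | ⟨d', hd', h1⟩
    · refine mem_filter.2 ⟨h1, ?_⟩
      rcases hc.bow _ h1 h hh (adj_symm ae) with h2 | h2
      · exact h2.symm
      · obtain ⟨b, b1, b2⟩ := ex_dir h2
        have h3 := ha.nbr _ h1
        have h4 := ha.mem _ h1
        rw [b2] at h3 h4
        exact absurd h4 (hl b b1 (up_nb d hd e e1 e2 b b1 (adj_add'.1 h3)))
    · have h2 := h1 h hh ae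
      obtain ⟨b, b1, b2, b3⟩ := low_eq d hd d' hd' (fun r => ne (r ▸ h2))
      exact absurd (h2 ▸ hc.vlow d' hd' b b1 b2) (hl b b1 b3)
  obtain ⟨a, a1, b, b1, c, c1, a2, b2, c2, ab, ac, bc⟩ := sq_three d hd
  have := ha.two h
  have := two_lt_card.2 ⟨_, hu a a1 a2, _, hu b b1 b2, _, hu c c1 c2, by simpa using ab,
    by simpa using ac, by simpa using bc⟩
  omega

/-! ### The global shape -/

/-- The atoms lie in the cone below each vertex. -/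
theorem cone (ha : Asg X T g) (hc : Clean X T g v) {d : Pt} (hd : d ∈ axes) {h : Pt}
    (hh : h ∈ X) : (nrm (h - v d) : ℤ) ≤ 2 * (dot (v d) d - dot h d) := by
  have key : ∀ n : ℕ, ∀ h ∈ X, dot (v d) d = dot h d + n → nrm (h - v d) ≤ 2 * n := by
    intro n
    induction n with
    | zero =>
      intro h hh e
      by_cases ne : h = v d
      · simp [ne, nrm]
      · have := hc.vtop d hd h hh ne
        omega
    | succ n ih =>
      intro h hh e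
      obtain ⟨f, f1, f2, f3⟩ := r2 ha hc hh hd (fun r => by rw [r] at e; omega)
      have h1 := ih _ f3 (by rw [dot_add]; omega)
      have h2 := nrm_sub_le (h - v d) f
      rw [nrm_dir f f1, ← add_sub_right_comm] at h2
      omega
  by_cases ne : h = v d
  · simp [ne, nrm]
  · have h1 := hc.vtop d hd h hh ne
    have := key (dot (v d) d - dot h d).toNat h hh (by omega)
    omega

theorem verts (ha : Asg X T g) (hc : Clean X T g v) :
    ∃ (c : Pt) (m : ℕ), ∀ d ∈ axes, v d = c + (m : ℤ) • d := by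
  have k := fun d hd d' hd' => lin (cone ha hc (d := d) hd (hc.vmem d' hd'))
  have x1 : ((1, 0, 0) : Pt) ∈ axes := by decide
  have x2 : ((-1, 0, 0) : Pt) ∈ axes := by decide
  have y1 : ((0, 1, 0) : Pt) ∈ axes := by decide
  have y2 : ((0, -1, 0) : Pt) ∈ axes := by decide
  have z1 : ((0, 0, 1) : Pt) ∈ axes := by decide
  have z2 : ((0, 0, -1) : Pt) ∈ axes := by decide
  have p1 := And.intro (k _ x1 _ y1) (k _ y1 _ x1)
  have p2 := And.intro (k _ x1 _ y2) (k _ y2 _ x1)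
  have p3 := And.intro (k _ x1 _ z1) (k _ z1 _ x1)
  have p4 := And.intro (k _ x1 _ z2) (k _ z2 _ x1)
  have p5 := And.intro (k _ y1 _ z1) (k _ z1 _ y1)
  have p6 := And.intro (k _ y2 _ z1) (k _ z1 _ y2)
  have p7 := And.intro (k _ y1 _ z2) (k _ z2 _ y1)
  have p8 := And.intro (k _ x2 _ y1) (k _ y1 _ x2)
  have p9 := And.intro (k _ x2 _ z1) (k _ z1 _ x2)
  suffices h : ∃ (c : Pt) (m : ℕ), v (1, 0, 0) = c + (m : ℤ) • (1, 0, 0) ∧
      v (-1, 0, 0) = c + (m : ℤ) • (-1, 0, 0) ∧ v (0, 1, 0) = c + (m : ℤ) • (0, 1, 0) ∧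
      v (0, -1, 0) = c + (m : ℤ) • (0, -1, 0) ∧ v (0, 0, 1) = c + (m : ℤ) • (0, 0, 1) ∧
      v (0, 0, -1) = c + (m : ℤ) • (0, 0, -1) by
    simpa only [axes, mem_insert, mem_singleton, forall_eq_or_imp, forall_eq] using h
  clear k
  generalize v (1, 0, 0) = A at *
  generalize v (-1, 0, 0) = B at *
  generalize v (0, 1, 0) = C at *
  generalize v (0, -1, 0) = D at *
  generalize v (0, 0, 1) = E at *
  generalize v (0, 0, -1) = F at *
  obtain ⟨a1, a2, a3⟩ := A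
  obtain ⟨b1, b2, b3⟩ := B
  obtain ⟨c1, c2, c3⟩ := C
  obtain ⟨d1, d2, d3⟩ := D
  obtain ⟨e1, e2, e3⟩ := E
  obtain ⟨f1, f2, f3⟩ := F
  simp only [dot, Prod.mk_sub_mk] at p1 p2 p3 p4 p5 p6 p7 p8 p9
  replace p1 : a3 = c3 ∧ a1 - c1 = c2 - a2 ∧ c1 ≤ a1 := by
    clear p2 p3 p4 p5 p6 p7 p8 p9; omega
  replace p2 : a3 = d3 ∧ a1 - d1 = a2 - d2 := by clear p3 p4 p5 p6 p7 p8 p9; omega
  replace p3 : a2 = e2 ∧ a1 - e1 = e3 - a3 := by clear p4 p5 p6 p7 p8 p9; omega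
  replace p4 : a2 = f2 ∧ a1 - f1 = a3 - f3 := by clear p5 p6 p7 p8 p9; omega
  replace p5 : c1 = e1 := by clear p6 p7 p8 p9; omega
  replace p6 : d1 = e1 := by clear p7 p8 p9; omega
  replace p7 : c1 = f1 := by clear p8 p9; omega
  replace p8 : b3 = c3 ∧ c1 - b1 = c2 - b2 := by clear p9; omega
  replace p9 : b2 = e2 := by omega
  refine ⟨(c1, a2, a3), (a1 - c1).toNat, ?_⟩
  simp only [Prod.smul_mk, smul_eq_mul, Prod.mk_add_mk, Prod.mk.injEq]
  omega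

/-- The local rules fill the octahedron. -/
theorem fill {m : ℕ} {Y : ℤ → ℤ → ℤ → Prop} (sub : ∀ x y z, Y x y z → nrm (x, y, z) ≤ m)
    (t1 : Y 0 0 m) (t2 : Y 0 0 (-m))
    (q1 : ∀ x y z w, w = 1 ∨ w = -1 → Y (x + 1) y (z + w) → Y (x - 1) y (z + w) →
      Y x (y + 1) (z + w) → Y x (y - 1) (z + w) → Y x y z)
    (q2 : ∀ x y z s, s = 1 ∨ s = -1 → z ≠ 0 → Y x y z → Y (x + s) (y + 1) z ∨
      Y (x + s) (y - 1) z ∨ Y (x + s) y (z + 1) ∨ Y (x + s) y (z - 1))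
    (q3 : ∀ x y z s t w, s = 1 ∨ s = -1 → t = 1 ∨ t = -1 → w = 1 ∨ w = -1 →
      Y (x + s) (y - t) z → Y x (y - t) (z + w) → Y (x + s) y (z + w) ∨ Y x y z) :
    ∀ x y z, InO m (x, y, z) → Y x y z := by
  simp only [InO, nrm] at sub ⊢
  have key : ∀ n k : ℕ, ∀ x y z : ℤ, z.natAbs + n = m → y.natAbs = k →
      x.natAbs + y.natAbs + z.natAbs ≤ m → (x.natAbs + y.natAbs + z.natAbs) % 2 = m % 2 →
      Y x y z := by
    intro n
    induction n with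
    | zero =>
      intro k x y z h1 h2 h3 h4
      obtain rfl : x = 0 := by omega
      obtain rfl : y = 0 := by omega
      rcases (by omega : z = m ∨ z = -m) with rfl | rfl
      exacts [t1, t2]
    | succ n ih =>
      have inner : ∀ x y z w : ℤ, z.natAbs + (n + 1) = m → w = 1 ∧ 0 ≤ z ∨ w = -1 ∧ z ≤ 0 →
          x.natAbs + y.natAbs + z.natAbs + 2 ≤ m →
          (x.natAbs + y.natAbs + z.natAbs) % 2 = m % 2 → Y x y z := by
        intro x y z w h1 hw h3 h4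
        refine q1 x y z w (by omega) ?_ ?_ ?_ ?_ <;>
          exact ih _ _ _ _ (by omega) rfl (by omega) (by omega)
      intro k
      induction k with
      | zero =>
        intro x y z h1 h2 h3 h4
        obtain rfl : y = 0 := by omega
        obtain ⟨w, hw⟩ : ∃ w : ℤ, w = 1 ∧ 0 ≤ z ∨ w = -1 ∧ z ≤ 0 :=
          (le_total 0 z).elim (fun h => ⟨1, Or.inl ⟨rfl, h⟩⟩) fun h => ⟨-1, Or.inr ⟨rfl, h⟩⟩
        obtain ⟨s, hs⟩ : ∃ s : ℤ, s = 1 ∧ 0 ≤ x ∨ s = -1 ∧ x ≤ 0 :=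
          (le_total 0 x).elim (fun h => ⟨1, Or.inl ⟨rfl, h⟩⟩) fun h => ⟨-1, Or.inr ⟨rfl, h⟩⟩
        by_cases h5 : x.natAbs + (0 : ℤ).natAbs + z.natAbs + 2 ≤ m
        · exact inner x 0 z w h1 hw h5 h4
        have h6 := q2 (x - s) 0 (z + w) s (by omega) (by omega)
          (ih _ _ _ _ (by omega) rfl (by omega) (by omega))
        rw [sub_add_cancel] at h6
        rcases h6 with h6 | h6 | h6 | h6
        · have := sub _ _ _ h6
          omega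
        · have := sub _ _ _ h6
          omega
        · have := sub _ _ _ h6
          rwa [show z + w + 1 = z by omega] at h6
        · have := sub _ _ _ h6
          rwa [show z + w - 1 = z by omega] at h6
      | succ k ihk =>
        intro x y z h1 h2 h3 h4
        obtain ⟨w, hw⟩ : ∃ w : ℤ, w = 1 ∧ 0 ≤ z ∨ w = -1 ∧ z ≤ 0 :=
          (le_total 0 z).elim (fun h => ⟨1, Or.inl ⟨rfl, h⟩⟩) fun h => ⟨-1, Or.inr ⟨rfl, h⟩⟩
        obtain ⟨s, hs⟩ : ∃ s : ℤ, s = 1 ∧ 0 ≤ x ∨ s = -1 ∧ x ≤ 0 :=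
          (le_total 0 x).elim (fun h => ⟨1, Or.inl ⟨rfl, h⟩⟩) fun h => ⟨-1, Or.inr ⟨rfl, h⟩⟩
        obtain ⟨t, ht⟩ : ∃ t : ℤ, t = 1 ∧ 0 ≤ y ∨ t = -1 ∧ y ≤ 0 :=
          (le_total 0 y).elim (fun h => ⟨1, Or.inl ⟨rfl, h⟩⟩) fun h => ⟨-1, Or.inr ⟨rfl, h⟩⟩
        by_cases h5 : x.natAbs + y.natAbs + z.natAbs + 2 ≤ m
        · exact inner x y z w h1 hw h5 h4
        refine (q3 x y z s t w (by omega) (by omega) (by omega)
          (ihk _ _ _ h1 (by omega) (by omega) (by omega))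
          (ih _ _ _ _ (by omega) rfl (by omega) (by omega))).resolve_left fun h6 => ?_
        have := sub _ _ _ h6
        omega
  intro x y z h
  exact key (m - z.natAbs) _ x y z (by omega) rfl h.1 h.2

theorem sq_z : ∀ w : ℤ, w = 1 ∨ w = -1 → ((0, 0, w) : Pt) ∈ axes ∧ ∀ e ∈ dirs,
    dot e (0, 0, w) = 1 → e = (1, 0, w) ∨ e = (-1, 0, w) ∨ e = (0, 1, w) ∨ e = (0, -1, w) := by
  rintro w (rfl | rfl) <;> decide

theorem sq_x : ∀ s : ℤ, s = 1 ∨ s = -1 → ((s, 0, 0) : Pt) ∈ axes ∧ ∀ e ∈ dirs,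
    dot e (s, 0, 0) = 1 → e = (s, 1, 0) ∨ e = (s, -1, 0) ∨ e = (s, 0, 1) ∨ e = (s, 0, -1) := by
  rintro w (rfl | rfl) <;> decide

end A2

open A2 in
theorem stA2 : St_A2 := by
  intro X T g v hev ha hc
  obtain ⟨c, m, hv⟩ := verts ha hc
  refine ⟨c, m, ?_, hv⟩
  have sub : ∀ p, c + p ∈ X → InO m p := by
    rintro ⟨x, y, z⟩ hp
    have x1 : ((1, 0, 0) : Pt) ∈ axes := by decide
    have x2 : ((-1, 0, 0) : Pt) ∈ axes := by decide
    have h1 := cone ha hc x1 hp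
    have h2 := cone ha hc x2 hp
    have h3 := hev _ (hc.vmem _ x1)
    have h4 := hev _ hp
    rw [hv _ x1] at h1 h3
    rw [hv _ x2] at h2
    obtain ⟨c1, c2, c3⟩ := c
    simp only [nrm, dot, ev, InO, Prod.smul_mk, smul_eq_mul, Prod.mk_add_mk,
      Prod.mk_sub_mk] at h1 h2 h3 h4 ⊢
    omega
  have hf := fill (m := m) (Y := fun x y z => c + (x, y, z) ∈ X) (fun x y z h => (sub _ h).1)
    (by simpa [hv _ (sq_z 1 (Or.inl rfl)).1] using hc.vmem _ (sq_z 1 (Or.inl rfl)).1)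
    (by simpa [hv _ (sq_z (-1) (Or.inr rfl)).1] using hc.vmem _ (sq_z (-1) (Or.inr rfl)).1)
    ?_ ?_ ?_
  · intro p
    refine ⟨fun h => sub _ (by simpa using h), fun h => ?_⟩
    have : c + (p - c) ∈ X := hf (p - c).1 (p - c).2.1 (p - c).2.2 h
    simpa using this
  · intro x y z w hw h1 h2 h3 h4
    refine r1 ha hc (sq_z w hw).1 fun e e1 e2 => ?_
    rcases (sq_z w hw).2 e e1 e2 with rfl | rfl | rfl | rfl <;>
      simpa [add_assoc, sub_eq_add_neg]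
  · intro x y z s hs hz h
    obtain ⟨e, e1, e2, e3⟩ := r2 ha hc h (sq_x s hs).1 (by
      rw [hv _ (sq_x s hs).1]
      simp [hz])
    rcases (sq_x s hs).2 e e1 e2 with rfl | rfl | rfl | rfl <;>
      simp only [add_assoc, Prod.mk_add_mk, add_zero, ← sub_eq_add_neg] at e3 <;> simp [e3]
  · intro x y z s t w hs ht hw h1 h2
    by_contra hn
    push Not at hn
    refine r3 ha hc h1 h2 hn.1 hn.2 ?_ ?_ ?_ ?_ ?_ ?_ <;> rw [adj_add'] <;> unfold adj <;>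
      dsimp only <;> omega

end Pool.Agent.Lib.FCC
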