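import Pool.Agent.Lib.FCC.Blue

/-! Counting the atoms, the boundary edges and the rings of an octahedron. -/

namespace Pool.Agent.Lib.FCC

open Finset

namespace A3

theorem card_sym (P Q : Pt → Prop) [DecidablePred P] [DecidablePred Q] (L : ℕ) (σ τ : Pt → Pt)
    (h1 : ∀ p, σ (τ p) = p) (h2 : ∀ p, τ (σ p) = p) (hn : ∀ p, nrm (σ p) = nrm p)
    (h : ∀ p, P p ↔ Q (σ p)) : ((octa L).filter P).card = ((octa L).filter Q).card := by
  refine card_nbij' σ τ ?_ ?_ (fun p _ => h2 p) (fun p _ => h1 p)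
  · intro p hp
    simp only [mem_coe, mem_filter, mem_octa, InO] at hp ⊢
    rw [hn, ← h]
    exact hp
  · intro p hp
    simp only [mem_coe, mem_filter, mem_octa, InO] at hp ⊢
    rw [h, ← hn (τ p), h1]
    exact hp

theorem slice (L : ℕ) (z : ℤ) (hz : z.natAbs ≤ L) :
    ((octa L).filter fun p => p.2.2 = z).card = (L - z.natAbs + 1) ^ 2 := by
  obtain ⟨r, hr⟩ : ∃ r, L = z.natAbs + r := ⟨L - z.natAbs, by omega⟩
  have e : L - z.natAbs = r := by omega
  rw [e, pow_two, ← card_range (r + 1), ← card_product]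
  refine card_nbij' (fun p => (((p.1 + p.2.1 + r) / 2).toNat, ((p.1 - p.2.1 + r) / 2).toNat))
    (fun q => ((q.1 : ℤ) + q.2 - r, (q.1 : ℤ) - q.2, z)) ?_ ?_ ?_ ?_
  · rintro ⟨a, b, c⟩ hp
    simp only [mem_coe, mem_filter, mem_octa, InO, nrm, mem_product, mem_range] at hp ⊢
    omega
  · rintro ⟨u, v⟩ hp
    simp only [mem_coe, mem_filter, mem_octa, InO, nrm, mem_product, mem_range, and_true] at hp ⊢
    omega
  · rintro ⟨a, b, c⟩ hp
    simp only [mem_coe, mem_filter, mem_octa, InO, nrm, Prod.mk.injEq] at hp ⊢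
    omega
  · rintro ⟨u, v⟩ hp
    simp only [mem_coe, mem_product, mem_range, Prod.mk.injEq] at hp ⊢
    omega

theorem sum_abs (g : ℕ → ℕ) (n : ℕ) :
    ∑ z ∈ Icc (-(n : ℤ)) n, g z.natAbs = g 0 + 2 * ∑ i ∈ range n, g (i + 1) := by
  induction n with
  | zero => simp
  | succ n ih =>
    have e : Icc (-((n + 1 : ℕ) : ℤ)) ((n + 1 : ℕ) : ℤ) =
        insert (-((n + 1 : ℕ) : ℤ)) (insert ((n + 1 : ℕ) : ℤ) (Icc (-(n : ℤ)) n)) := by
      ext z
      simp only [mem_insert, mem_Icc]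
      omega
    rw [e, sum_insert, sum_insert, ih, sum_range_succ, Int.natAbs_neg, Int.natAbs_natCast]
    · omega
    · simp only [mem_Icc]
      omega
    · simp only [mem_insert, mem_Icc]
      omega

theorem sum_sq (n : ℕ) : 6 * ∑ i ∈ range n, (i + 1) ^ 2 = 2 * n ^ 3 + 3 * n ^ 2 + n := by
  induction n with
  | zero => simp
  | succ n ih => rw [sum_range_succ, mul_add, ih]; ring

theorem card_octa (L : ℕ) : 3 * (octa L).card = 2 * L ^ 3 + 6 * L ^ 2 + 7 * L + 3 := by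
  have h1 : (octa L).card =
      ∑ z ∈ Icc (-(L : ℤ)) L, ((octa L).filter fun p => p.2.2 = z).card := by
    refine card_eq_sum_card_fiberwise ?_
    intro p hp
    simp only [mem_coe, mem_octa, InO, nrm, mem_Icc] at hp ⊢
    omega
  have h2 : ∑ z ∈ Icc (-(L : ℤ)) L, ((octa L).filter fun p => p.2.2 = z).card =
      ∑ z ∈ Icc (-(L : ℤ)) L, (L - z.natAbs + 1) ^ 2 := by
    refine sum_congr rfl fun z hz => slice L z ?_
    simp only [mem_Icc] at hz
    omega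
  have h3 : ∑ i ∈ range L, (L - (i + 1) + 1) ^ 2 = ∑ i ∈ range L, (i + 1) ^ 2 := by
    rw [← sum_range_reflect (fun i => (i + 1) ^ 2) L]
    refine sum_congr rfl fun i _ => ?_
    have e : L - (i + 1) = L - 1 - i := by omega
    rw [e]
  have h4 := sum_sq L
  rw [h1, h2, sum_abs (fun i => (L - i + 1) ^ 2) L, h3]
  have h5 : (L - 0 + 1) ^ 2 = L ^ 2 + 2 * L + 1 := by rw [Nat.sub_zero]; ring
  rw [h5]
  omega

theorem exit0 (L : ℕ) :
    ((octa L).filter fun p => p + (1, 1, 0) ∉ octa L).card = (L + 1) ^ 2 := by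
  rw [pow_two, ← card_range (L + 1), ← card_product]
  refine card_nbij' (fun p => ((p.1 + max p.2.2 0).toNat, (p.1 + max (-p.2.2) 0).toNat))
    (fun q => (((min q.1 q.2 : ℕ) : ℤ), (L : ℤ) - (max q.1 q.2 : ℕ), (q.1 : ℤ) - q.2)) ?_ ?_ ?_ ?_
  · rintro ⟨a, b, c⟩ hp
    simp only [mem_coe, mem_filter, mem_octa, InO, nrm, mem_product, mem_range,
      Prod.mk_add_mk] at hp ⊢
    omega
  · rintro ⟨u, v⟩ hp
    simp only [mem_coe, mem_filter, mem_octa, InO, nrm, mem_product, mem_range,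
      Prod.mk_add_mk] at hp ⊢
    omega
  · rintro ⟨a, b, c⟩ hp
    simp only [mem_coe, mem_filter, mem_octa, InO, nrm, Prod.mk.injEq, Prod.mk_add_mk] at hp ⊢
    omega
  · rintro ⟨u, v⟩ hp
    simp only [mem_coe, mem_product, mem_range, Prod.mk.injEq] at hp ⊢
    omega

theorem exit_of (L : ℕ) (d : Pt) (σ τ : Pt → Pt) (h1 : ∀ p, σ (τ p) = p) (h2 : ∀ p, τ (σ p) = p)
    (hn : ∀ p, nrm (σ p) = nrm p) (h : ∀ p, σ (p + d) = σ p + (1, 1, 0)) :
    ((octa L).filter fun p => p + d ∉ octa L).card = (L + 1) ^ 2 := by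
  rw [← exit0 L]
  refine card_sym _ _ L σ τ h1 h2 hn fun p => ?_
  rw [← h, mem_octa, mem_octa, InO, InO, hn]

theorem exit1 (L : ℕ) (s t : ℤ) (hs : s * s = 1) (ht : t * t = 1) :
    ((octa L).filter fun p => p + (s, t, 0) ∉ octa L).card = (L + 1) ^ 2 ∧
    ((octa L).filter fun p => p + (s, 0, t) ∉ octa L).card = (L + 1) ^ 2 ∧
    ((octa L).filter fun p => p + (0, s, t) ∉ octa L).card = (L + 1) ^ 2 := by
  have hs1 : s.natAbs = 1 := by
    rcases Int.eq_one_or_neg_one_of_mul_eq_one hs with h | h <;> simp [h]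
  have ht1 : t.natAbs = 1 := by
    rcases Int.eq_one_or_neg_one_of_mul_eq_one ht with h | h <;> simp [h]
  have es : ∀ x, s * (s * x) = x := fun x => by rw [← mul_assoc, hs, one_mul]
  have et : ∀ x, t * (t * x) = x := fun x => by rw [← mul_assoc, ht, one_mul]
  refine ⟨exit_of L _ (fun p => (s * p.1, t * p.2.1, p.2.2)) (fun p => (s * p.1, t * p.2.1, p.2.2))
      ?_ ?_ ?_ ?_,
    exit_of L _ (fun p => (s * p.1, t * p.2.2, p.2.1)) (fun p => (s * p.1, p.2.2, t * p.2.1))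
      ?_ ?_ ?_ ?_,
    exit_of L _ (fun p => (s * p.2.1, t * p.2.2, p.1)) (fun p => (p.2.2, s * p.1, t * p.2.1))
      ?_ ?_ ?_ ?_⟩ <;> rintro ⟨a, b, c⟩ <;>
    simp only [es, et, nrm, Int.natAbs_mul, hs1, ht1, one_mul, Prod.mk_add_mk, mul_add, hs, ht,
      add_zero] <;> omega

theorem bd_octa (L : ℕ) : bd (octa L) = 12 * (L + 1) ^ 2 := by
  have h1 : bd (octa L) = ∑ d ∈ dirs, ((octa L).filter fun p => p + d ∉ octa L).card := by
    rw [bd, sum_congr rfl fun p _ => out_eq_sum (octa L) p, sum_comm]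
    refine sum_congr rfl fun d _ => ?_
    rw [card_filter]
    exact sum_congr rfl fun p _ => (ite_not _ _ _).symm
  obtain ⟨a1, a2, a3⟩ := exit1 L 1 1 rfl rfl
  obtain ⟨b1, b2, b3⟩ := exit1 L 1 (-1) rfl rfl
  obtain ⟨c1, c2, c3⟩ := exit1 L (-1) 1 rfl rfl
  obtain ⟨d1, d2, d3⟩ := exit1 L (-1) (-1) rfl rfl
  rw [h1, sum_dirs, a1, a2, a3, b1, b2, b3, c1, c2, c3, d1, d2, d3]
  omega

theorem ring0 (n k : ℕ) (hk : 1 ≤ k) :
    ((octa (n + k)).filter fun p => nrm p = n + k ∧ p.2.2 = n).card = 4 * k := by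
  have h1 : ((range (k + 1) ×ˢ range (k + 1)) \ (Ioo 0 k ×ˢ Ioo 0 k)).card = 4 * k := by
    rw [card_sdiff_of_subset, card_product, card_product, card_range, Nat.card_Ioo]
    · obtain ⟨j, rfl⟩ : ∃ j, k = j + 1 := ⟨k - 1, by omega⟩
      have e : j + 1 - 0 - 1 = j := by omega
      rw [e]
      have e2 : (j + 1 + 1) * (j + 1 + 1) = j * j + 4 * (j + 1) := by ring
      omega
    · rintro ⟨u, v⟩ h
      simp only [mem_product, mem_range, mem_Ioo] at h ⊢
      omega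
  rw [← h1]
  refine card_nbij' (fun p => (((p.1 + p.2.1 + k) / 2).toNat, ((p.1 - p.2.1 + k) / 2).toNat))
    (fun q => ((q.1 : ℤ) + q.2 - k, (q.1 : ℤ) - q.2, (n : ℤ))) ?_ ?_ ?_ ?_
  · rintro ⟨a, b, c⟩ hp
    simp only [mem_coe, mem_filter, mem_octa, InO, nrm, mem_product, mem_range, mem_sdiff,
      mem_Ioo] at hp ⊢
    omega
  · rintro ⟨u, v⟩ hp
    simp only [mem_coe, mem_filter, mem_octa, InO, nrm, mem_product, mem_range, mem_sdiff,
      mem_Ioo, and_true] at hp ⊢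
    omega
  · rintro ⟨a, b, c⟩ hp
    simp only [mem_coe, mem_filter, mem_octa, InO, nrm, Prod.mk.injEq] at hp ⊢
    omega
  · rintro ⟨u, v⟩ hp
    simp only [mem_coe, mem_product, mem_range, mem_sdiff, mem_Ioo, Prod.mk.injEq] at hp ⊢
    omega

theorem ring_of (n k : ℕ) (hk : 1 ≤ k) (d : Pt) (σ τ : Pt → Pt) (h1 : ∀ p, σ (τ p) = p)
    (h2 : ∀ p, τ (σ p) = p) (hn : ∀ p, nrm (σ p) = nrm p) (h : ∀ p, dot p d = (σ p).2.2) :
    ((octa (n + k)).filter fun p => nrm p = n + k ∧ dot p d = n).card = 4 * k := by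
  rw [← ring0 n k hk]
  refine card_sym _ _ _ σ τ h1 h2 hn fun p => ?_
  rw [hn, h]

end A3

theorem stA3 : St_A3 := fun L => ⟨A3.card_octa L, A3.bd_octa L⟩

theorem stA4 : St_A4 := by
  intro d hd n k hk
  simp only [axes, mem_insert, mem_singleton] at hd
  rcases hd with rfl | rfl | rfl | rfl | rfl | rfl
  · refine A3.ring_of n k hk _ (fun p => (p.2.2, p.2.1, p.1)) (fun p => (p.2.2, p.2.1, p.1))
      ?_ ?_ ?_ ?_ <;> rintro ⟨a, b, c⟩ <;> simp only [nrm, dot] <;> omega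
  · refine A3.ring_of n k hk _ (fun p => (p.2.2, p.2.1, -p.1)) (fun p => (-p.2.2, p.2.1, p.1))
      ?_ ?_ ?_ ?_ <;> rintro ⟨a, b, c⟩ <;> simp only [nrm, dot, neg_neg] <;> omega
  · refine A3.ring_of n k hk _ (fun p => (p.1, p.2.2, p.2.1)) (fun p => (p.1, p.2.2, p.2.1))
      ?_ ?_ ?_ ?_ <;> rintro ⟨a, b, c⟩ <;> simp only [nrm, dot] <;> omega
  · refine A3.ring_of n k hk _ (fun p => (p.1, p.2.2, -p.2.1)) (fun p => (p.1, -p.2.2, p.2.1))
      ?_ ?_ ?_ ?_ <;> rintro ⟨a, b, c⟩ <;> simp only [nrm, dot, neg_neg] <;> omega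
  · refine A3.ring_of n k hk _ (fun p => p) (fun p => p)
      ?_ ?_ ?_ ?_ <;> rintro ⟨a, b, c⟩ <;> simp only [nrm, dot] <;> omega
  · refine A3.ring_of n k hk _ (fun p => (p.1, p.2.1, -p.2.2)) (fun p => (p.1, p.2.1, -p.2.2))
      ?_ ?_ ?_ ?_ <;> rintro ⟨a, b, c⟩ <;> simp only [nrm, dot, neg_neg] <;> omega

end Pool.Agent.Lib.FCC
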