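import Pool.Agent.Lib.FCC.A1Blue

/-! Double counting for the peak inequality. -/

namespace Pool.Agent.Lib.FCC

open Finset

namespace ACC

variable {X T : Finset Pt} {g : Pt → Pt}

theorem fib (hA : Asg X T g) (S : Finset Pt) (hS : S ⊆ T) (F : Pt → ℤ) :
    ∑ h ∈ X, ∑ p ∈ S.filter (g · = h), F p = ∑ p ∈ S, F p :=
  sum_fiberwise_of_maps_to (fun p hp => hA.mem p (hS hp)) F

theorem sum_bw (hA : Asg X T g) :
    ∑ h ∈ X, bw (T.filter (g · = h)) = 3 * T.card + 3 * (T.image g).card := by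
  have h1 : ∑ h ∈ X, ((T.filter (g · = h)).card : ℤ) = T.card := by
    simpa using fib hA T subset_rfl fun _ => 1
  have h2 : T.image g = X.filter fun h => T.filter (g · = h) ≠ ∅ := by
    ext h
    simp only [mem_image, mem_filter, ← nonempty_iff_ne_empty, filter_nonempty_iff]
    exact ⟨fun ⟨p, hp, e⟩ => ⟨e ▸ hA.mem p hp, p, hp, e⟩, fun h => h.2⟩
  simp only [bw, sum_add_distrib, ← mul_sum, h1]
  rw [h2, card_filter, Nat.cast_sum, mul_sum]
  refine congrArg _ (sum_congr rfl fun h _ => ?_)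
  by_cases e : T.filter (g · = h) = ∅ <;> simp [e]

theorem not_mem {h u : Pt} (hu : u ∈ Sq X h) : u ∉ X := fun hx => by
  obtain ⟨-, d, hd, e⟩ := mem_filter.1 hu
  have := (mem_filter.1 hd).2 u hx
  omega

theorem dot_le {u h d : Pt} (hd : d ∈ axes) (a : adj h u) : dot u d ≤ dot h d + 1 := by
  simp only [axes, mem_insert, mem_singleton] at hd
  unfold adj at a
  rcases hd with rfl | rfl | rfl | rfl | rfl | rfl <;> simp only [dot] <;> omega

theorem mem_Sq {h u : Pt} (hu : u ∈ X.biUnion (Sq X)) (hh : h ∈ X) : u ∈ Sq X h ↔ adj h u := by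
  refine ⟨fun h1 => mem_nb.1 (mem_filter.1 h1).1, fun a => ?_⟩
  obtain ⟨h', hh', h1⟩ := mem_biUnion.1 hu
  obtain ⟨-, d, hd, e⟩ := mem_filter.1 h1
  obtain ⟨h2, h3⟩ := mem_filter.1 hd
  have h4 := h3 h hh
  have h5 := dot_le h2 a
  refine mem_filter.2 ⟨mem_nb.2 a, d, mem_filter.2 ⟨h2, fun q hq => ?_⟩, by omega⟩
  have := h3 q hq
  omega

theorem sum_Sq (X : Finset Pt) :
    ∑ h ∈ X, ((Sq X h).card : ℤ) = ∑ u ∈ X.biUnion (Sq X), (inn X u : ℤ) := by
  have h1 : ∀ h ∈ X, ((Sq X h).card : ℤ) =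
      ∑ u ∈ X.biUnion (Sq X), if adj u h then 1 else 0 := by
    intro h hh
    rw [sum_boole]
    refine congrArg (fun s : Finset Pt => (s.card : ℤ)) (Finset.ext fun u => ?_)
    rw [mem_filter, adj_comm]
    exact ⟨fun hu => ⟨mem_biUnion.2 ⟨h, hh, hu⟩, mem_nb.1 (mem_filter.1 hu).1⟩,
      fun hu => (mem_Sq hu.1 hh).2 hu.2⟩
  rw [sum_congr rfl h1, sum_comm]
  exact sum_congr rfl fun u _ => by rw [sum_boole, inn_eq_card]

end ACC

open ACC in
theorem stACC : St_ACC := by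
  intro X T g hA
  have h1 : ∑ h ∈ X, (out X h : ℤ) = bd X := by rw [bd, Nat.cast_sum]
  have h2 := sum_bw hA
  constructor
  · have h3 : ∑ p ∈ T, (inn X p : ℤ) ≤ bd X := by exact_mod_cast sum_inn_le hA.out
    simp only [del, sum_sub_distrib, sum_add_distrib, h1, h2, fib hA T subset_rfl]
    omega
  · have h3 : ∀ h ∈ X, T.filter (g · = h) \ Sq X h =
        (T \ X.biUnion (Sq X)).filter (g · = h) := by
      intro h hh
      ext p
      simp only [mem_sdiff, mem_filter]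
      refine ⟨fun ⟨⟨a, b⟩, c⟩ => ⟨⟨a, fun d => c ((mem_Sq d hh).2 (b ▸ adj_symm (hA.nbr p a)))⟩, b⟩,
        fun ⟨⟨a, c⟩, b⟩ => ⟨⟨a, b⟩, fun d => c (mem_biUnion.2 ⟨h, hh, d⟩)⟩⟩
    have h4 : ∑ h ∈ X, ∑ p ∈ T.filter (g · = h) \ Sq X h, (inn X p : ℤ) =
        ∑ p ∈ T \ X.biUnion (Sq X), (inn X p : ℤ) := by
      rw [← fib hA _ sdiff_subset]
      exact sum_congr rfl fun h hh => by rw [h3 h hh]
    have h5 : T ∪ X.biUnion (Sq X) ⊆ halo X := by
      intro u hu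
      rcases mem_union.1 hu with hu | hu
      · exact mem_halo.2 ⟨hA.out u hu, _, hA.mem u hu, adj_symm (hA.nbr u hu)⟩
      · obtain ⟨h, hh, h6⟩ := mem_biUnion.1 hu
        exact mem_halo.2 ⟨not_mem h6, h, hh, mem_nb.1 (mem_filter.1 h6).1⟩
    have h6 := sum_sdiff (f := fun u => (inn X u : ℤ)) h5
    have h7 := sum_sdiff (f := fun u => (inn X u : ℤ))
      (subset_union_right (s₁ := T) (s₂ := X.biUnion (Sq X)))
    rw [union_sdiff_right] at h7
    have h8 : ∑ u ∈ halo X, (inn X u : ℤ) = bd X := by rw [bd_eq_halo, Nat.cast_sum]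
    simp only [psi, sum_sub_distrib, sum_add_distrib, h1, h2, h4, sum_Sq]
    omega

end Pool.Agent.Lib.FCC
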