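import Pool.Agent.Lib.FCC.B0a

/-! From a folding with small boundary to pieces on an octahedron. -/

namespace Pool.Agent.Lib.FCC

open Finset
open Pool.Agent.Lib.MP_dec383_lc (hs bonds lt_of_getD mem_hs)

namespace B0

theorem sum_getD (ps : List (ℕ × ℕ)) :
    ∑ i ∈ range ps.length, (ps.getD i (1, 1)).2 = (ps.map Prod.snd).sum := by
  induction ps with
  | nil => rfl
  | cons k ps ih =>
    rw [List.length_cons, sum_range_succ', List.map_cons, List.sum_cons, ← ih, add_comm]
    rfl

theorem card_shift {X : Finset Pt} {c : Pt} {m : ℕ} (h : ∀ p, p ∈ X ↔ InO m (p - c)) :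
    X.card = (octa m).card :=
  card_bij (fun p _ => p - c) (fun p hp => mem_octa.2 ((h p).1 hp))
    (fun _ _ _ _ e => sub_left_injective e)
    fun q hq => ⟨q + c, (h _).2 (by simpa using mem_octa.1 hq), by simp⟩

theorem radius_eq (h3 : St_A3) {m L : ℕ} (h : (octa m).card = (octa L).card) : m = L := by
  have h1 := (h3 m).1
  have h2 := (h3 L).1
  rcases lt_trichotomy m L with e | e | e
  · have := Nat.pow_le_pow_left e.le 3
    have := Nat.pow_le_pow_left e.le 2
    omega
  · exact e
  · have := Nat.pow_le_pow_left e.le 3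
    have := Nat.pow_le_pow_left e.le 2
    omega

/-- The geometric part: abstract pieces inside a set with small boundary. -/
theorem core (h1 : St_A1) (h2 : St_A2) (h3 : St_A3) {L M : ℕ} {a : ℕ → ℕ} {H S : ℕ → ℕ → Pt}
    {X : Finset Pt} (hL : 3 ≤ L) (hev : ∀ p ∈ X, ev p) (hX : X.card = (octa L).card)
    (hbd : bd X ≤ 12 * (L + 1) ^ 2)
    (hinj : ∀ i < M, ∀ t < max (a i) 1, ∀ i' < M, ∀ t' < max (a i') 1,
      H i t = H i' t' → i = i' ∧ t = t')
    (sinj : ∀ i < M, ∀ t ≤ a i, ∀ i' < M, ∀ t' ≤ a i', S i t = S i' t' → i = i' ∧ t = t')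
    (hmem : ∀ i < M, ∀ t < max (a i) 1, H i t ∈ X) (smem : ∀ i < M, ∀ t ≤ a i, S i t ∉ X)
    (adj1 : ∀ i < M, ∀ t < max (a i) 1, adj (S i t) (H i t))
    (adj2 : ∀ i < M, ∀ t < a i, adj (H i t) (S i (t + 1)))
    (c1 : 4 * L ^ 2 + 16 * L ≤ ∑ i ∈ range M, (a i + 1))
    (c2 : 4 * L ^ 2 + 2 ≤ ∑ i ∈ range M, max (a i) 1) :
    ∃ c, Pieces L M a (fun i t => H i t - c) fun i t => S i t - c := by
  classical
  let I := (range M).sigma fun i => range (a i + 1)
  have mI : ∀ e, e ∈ I ↔ e.1 < M ∧ e.2 ≤ a e.1 := fun e => by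
    simp only [I, mem_sigma, mem_range, Nat.lt_succ_iff]
  let T := I.image fun e => S e.1 e.2
  have mT : ∀ p, p ∈ T ↔ ∃ i < M, ∃ t ≤ a i, S i t = p := fun p => by
    simp only [T, mem_image, mI]
    exact ⟨fun ⟨e, h, h'⟩ => ⟨_, h.1, _, h.2, h'⟩, fun ⟨i, h, t, h', e⟩ => ⟨⟨i, t⟩, ⟨h, h'⟩, e⟩⟩
  have hg : ∀ p, ∃ q : Pt, ∀ i < M, ∀ t ≤ a i, S i t = p → q = H i (t - 1) := fun p => by
    by_cases hp : p ∈ T
    · obtain ⟨i, hi, t, ht, rfl⟩ := (mT p).1 hp
      refine ⟨H i (t - 1), fun i' hi' t' ht' e => ?_⟩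
      obtain ⟨rfl, rfl⟩ := sinj _ hi' _ ht' _ hi _ ht e
      rfl
    · exact ⟨0, fun i hi t ht e => absurd ((mT p).2 ⟨i, hi, t, ht, e⟩) hp⟩
  choose g hg using hg
  have gS : ∀ i < M, ∀ t ≤ a i, g (S i t) = H i (t - 1) := fun i hi t ht => hg _ i hi t ht rfl
  have fib : ∀ p ∈ T, ∀ i < M, ∀ t < max (a i) 1, g p = H i t →
      p = S i (t + 1) ∧ t < a i ∨ p = S i 0 ∧ t = 0 := by
    intro p hp i hi t ht e
    obtain ⟨i', hi', t', ht', rfl⟩ := (mT p).1 hp
    rw [gS _ hi' _ ht'] at e
    obtain ⟨rfl, rfl⟩ := hinj _ hi' _ (by omega) _ hi _ ht e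
    rcases t' with _ | t'
    · exact .inr ⟨rfl, rfl⟩
    · exact .inl ⟨rfl, by omega⟩
  have hA : Asg X T g := by
    refine ⟨fun p hp => ?_, fun p hp => ?_, fun p hp => ?_, fun h => ?_⟩
    · obtain ⟨i, hi, t, ht, rfl⟩ := (mT p).1 hp
      exact smem i hi t ht
    · obtain ⟨i, hi, t, ht, rfl⟩ := (mT p).1 hp
      rw [gS i hi t ht]
      exact hmem i hi _ (by omega)
    · obtain ⟨i, hi, t, ht, rfl⟩ := (mT p).1 hp
      rw [gS i hi t ht]
      rcases t with _ | t
      · exact adj1 i hi 0 (by omega)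
      · exact adj_symm (adj2 i hi t ht)
    · rcases (T.filter (g · = h)).eq_empty_or_nonempty with e | ⟨p, hp⟩
      · simp [e]
      · rw [mem_filter] at hp
        obtain ⟨i, hi, t, ht, rfl⟩ := (mT p).1 hp.1
        have e := hp.2
        rw [gS i hi t ht] at e
        subst e
        refine (card_le_card (t := {S i (t - 1 + 1), S i 0}) fun q hq => ?_).trans card_le_two
        rw [mem_filter] at hq
        rcases fib q hq.1 i hi _ (by omega) hq.2 with e | e <;> simp [e.1]
  have cT : T.card = ∑ i ∈ range M, (a i + 1) := by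
    rw [card_image_of_injOn, card_sigma]
    · simp
    · rintro ⟨i, t⟩ he ⟨i', t'⟩ he' e
      rw [mem_coe, mI] at he he'
      obtain ⟨rfl, rfl⟩ := sinj _ he.1 _ he.2 _ he'.1 _ he'.2 e
      rfl
  have cG : ∑ i ∈ range M, max (a i) 1 ≤ (T.image g).card := by
    have : ∑ i ∈ range M, max (a i) 1 = ((range M).sigma fun i => range (max (a i) 1)).card := by
      simp
    rw [this]
    refine card_le_card_of_injOn (fun e => H e.1 e.2) ?_ ?_
    · rintro ⟨i, t⟩ he
      simp only [coe_sigma, Set.mem_sigma_iff, mem_coe, mem_range] at he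
      by_cases h0 : t < a i
      · exact mem_image.2 ⟨_, (mT _).2 ⟨i, he.1, t + 1, h0, rfl⟩, gS i he.1 _ h0⟩
      · obtain rfl : t = 0 := by omega
        exact mem_image.2 ⟨_, (mT _).2 ⟨i, he.1, 0, by omega, rfl⟩, gS i he.1 _ (by omega)⟩
    · rintro ⟨i, t⟩ he ⟨i', t'⟩ he' e
      simp only [coe_sigma, Set.mem_sigma_iff, mem_coe, mem_range] at he he'
      obtain ⟨rfl, rfl⟩ := hinj _ he.1 _ he.2 _ he'.1 _ he'.2 e
      rfl
  have h19 : 19 ≤ X.card := by
    have := (h3 L).1
    have := Nat.pow_le_pow_left hL 3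
    omega
  obtain ⟨v, hC⟩ := h1 X T g hev hA h19 (by
    have : (L + 1) ^ 2 = L ^ 2 + 2 * L + 1 := by ring
    omega)
  obtain ⟨c, m, hc, hv⟩ := h2 X T g v hev hA hC
  obtain rfl : m = L := radius_eq h3 ((card_shift hc).symm.trans hX)
  have n1 : ∀ i < M, ∀ t < max (a i) 1, nrm (H i t - c) = m ∧ nrm (S i t - c) = m + 2 :=
    fun i hi t ht => shell (adj_sub.2 (adj1 i hi t ht)) ((hc _).1 (hmem i hi t ht))
      fun h => smem i hi t (by omega) ((hc _).2 h)
  refine ⟨c, fun i hi t ht i' hi' t' ht' e => hinj i hi t ht i' hi' t' ht' (sub_left_injective e),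
    fun i hi t ht => (n1 i hi t ht).1, fun i hi t ht => ?_,
    fun i hi t ht => adj_sub.2 (adj1 i hi t ht), fun i hi t ht => adj_sub.2 (adj2 i hi t ht),
    fun u hu hd => ?_, fun d hd => ?_⟩
  · rcases t with _ | t
    · exact (n1 i hi 0 (by omega)).2
    · exact (shell (adj_sub.2 (adj_symm (adj2 i hi t ht))) ((hc _).1 (hmem i hi t (by omega)))
        fun h => smem i hi _ ht ((hc _).2 h)).2
  · obtain ⟨p, hp, hpu⟩ := exists_nbr hu hd
    have : u + c ∈ halo X := mem_halo.2 ⟨fun h => by
      have := ((hc _).1 h).1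
      rw [add_sub_cancel_right] at this
      omega, p + c, (hc _).2 (by simpa using hp), adj_add.2 hpu⟩
    rcases hC.site _ this with h | ⟨d, h, e⟩
    · obtain ⟨i, hi, t, ht, e⟩ := (mT _).1 h
      exact ⟨i, hi, t, ht, by rw [e, add_sub_cancel_right]⟩
    · have := hd d h
      rw [hv d h, dot_add, dot_add, dot_axis h] at e
      omega
  · obtain ⟨p, p', hne, e⟩ := card_eq_two.1 (hC.vtwo d hd)
    have hp : p ∈ T.filter (g · = v d) := by simp [e]
    have hp' : p' ∈ T.filter (g · = v d) := by simp [e]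
    rw [mem_filter] at hp hp'
    obtain ⟨i, hi, t, ht, rfl⟩ := (mT p).1 hp.1
    have e1 : v d = H i (t - 1) := hp.2.symm.trans (gS i hi t ht)
    have f1 := fib _ hp.1 i hi _ (by omega) (hp.2.trans e1)
    have f2 := fib _ hp'.1 i hi _ (by omega) (hp'.2.trans e1)
    have f3 : t - 1 = 0 ∧ 0 < a i := by
      rcases f1 with f1 | f1 <;> rcases f2 with f2 | f2
      · exact absurd (f1.1.trans f2.1.symm) hne
      · omega
      · omega
      · exact absurd (f1.1.trans f2.1.symm) hne
    rw [f3.1] at e1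
    have up : ∀ t ≤ 1, dot (S i t - c) d = m + 1 := fun t ht => by
      have := hC.vup d hd _ ((mT _).2 ⟨i, hi, t, by omega, rfl⟩) (by
        rw [gS i hi t (by omega), show t - 1 = 0 by omega, e1])
      rw [hv d hd, dot_add, dot_axis hd] at this
      rw [dot_sub]
      omega
    have e2 : H i 0 - c = (m : ℤ) • d := by rw [← e1, hv d hd, add_sub_cancel_left]
    refine ⟨i, hi, ?_, e2, up 0 (by omega), up 1 le_rfl⟩
    by_contra h
    have := eq_vertex hd (adj_sub.2 (adj_symm (adj1 i hi 1 (by omega)))) (n1 i hi 1 (by omega)).1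
      (up 1 le_rfl)
    have := (hinj i hi 1 (by omega) i hi 0 (by omega) (sub_left_injective (this.trans e2.symm))).2
    omega

end B0

open B0 in
theorem stB0 (h1 : St_A1) (h2 : St_A2) (h3 : St_A3) (hW : St_WORD) : St_B0 := by
  intro L J F ps f hL hT hF hf hb
  have hlen := hT.len
  have hne : ps ≠ [] := fun e => by rw [e] at hlen; simp at hlen; omega
  have hg := hf.sub (f 0)
  have hb' : bd ((hs (bits (full F ps))).image fun i => f i - f 0) ≤ 12 * (L + 1) ^ 2 := by
    have e1 := con_add hf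
    have e2 := con_add hg
    rw [con_sub] at e2
    omega
  set σ := bits (full F ps) with hσ
  set g : ℕ → Pt := fun i => f i - f 0 with hgd
  set a : ℕ → ℕ := fun i => (ps.getD i (1, 1)).2 with ha
  have lσ : σ.length = F + 1 + (lw ps).length + (F + 1) := length_full F ps
  have a0 : a 0 = 0 := congrArg Prod.snd hT.first
  have o0 : o ps 0 = 0 := by
    have := congrArg Prod.fst hT.first
    obtain ⟨k, ps, rfl⟩ := List.exists_cons_of_ne_nil hne
    exact this
  have aM : a (ps.length - 1) = 0 := hT.last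
  have oM : o ps (ps.length - 1) + 2 * a (ps.length - 1) + 1 = (lw ps).length :=
    o_last ps _ (by omega)
  have apos : ∀ i, 0 < i → i + 1 < ps.length → 1 ≤ a i := hT.pos
  have olt : ∀ i j, i < j → j < ps.length → o ps i + 2 * a i + 1 ≤ o ps j :=
    fun i j => o_lt ps
  have ole : ∀ i < ps.length, o ps i + 2 * a i + 1 ≤ (lw ps).length := fun i => o_le ps
  let hq : ℕ → ℕ → ℕ := fun i t => if i = 0 then F else F + 1 + o ps i + (2 * t + 1)
  let sq' : ℕ → ℕ → ℕ := fun i t => F + 1 + o ps i + 2 * t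
  have hH : ∀ i < ps.length, ∀ t < max (a i) 1, σ.getD (hq i t) false = true := by
    intro i hi t ht
    by_cases h0 : i = 0
    · simp only [hq, h0, if_true]
      exact full_left F ps
    · simp only [hq, h0, if_false]
      by_cases h4 : i + 1 < ps.length
      · have := apos i (by omega) h4
        exact (full_mid F ps hi (show 2 * t + 1 ≤ 2 * a i by omega)).2 (by omega)
      · obtain rfl : i = ps.length - 1 := by omega
        rw [show F + 1 + o ps (ps.length - 1) + (2 * t + 1) = F + 1 + (lw ps).length by omega]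
        exact full_right F ps
  have hS : ∀ i < ps.length, ∀ t ≤ a i, sq' i t < σ.length ∧ ¬ σ.getD (sq' i t) false = true := by
    intro i hi t ht
    have := ole i hi
    exact ⟨by simp only [sq']; omega,
      fun h => by have := (full_mid F ps hi (show 2 * t ≤ 2 * a i by omega)).1 h; omega⟩
  have sa : ∑ i ∈ range ps.length, a i = 4 * L ^ 2 := (sum_getD ps).trans hT.sum
  obtain ⟨c, hP⟩ := core h1 h2 h3 (M := ps.length) (a := a) (H := fun i t => g (hq i t))
    (S := fun i t => g (sq' i t)) (X := (hs σ).image g) hL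
    (fun p hp => by
      obtain ⟨i, hi, rfl⟩ := mem_image.1 hp
      exact hg.ev (by simp [ev, hgd]) i (lt_of_getD (mem_hs.1 hi)))
    (by rw [hg.card_image, (hW F ps hne).1, hT.sum, hF]) hb'
    (fun i hi t ht i' hi' t' ht' e => by
      have e1 := hg.1 _ (lt_of_getD (hH i hi t ht)) _ (lt_of_getD (hH i' hi' t' ht')) e
      have := apos i
      have := apos i'
      have := olt i i'
      have := olt i' i
      simp only [hq] at e1
      by_cases e2 : i = i'
      · subst e2
        split_ifs at e1 with x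
        · subst x
          omega
        · omega
      · split_ifs at e1 <;> omega)
    (fun i hi t ht i' hi' t' ht' e => by
      have e1 := hg.1 _ (hS i hi t ht).1 _ (hS i' hi' t' ht').1 e
      have := olt i i'
      have := olt i' i
      simp only [sq'] at e1
      by_cases e2 : i = i'
      · subst e2
        omega
      · omega)
    (fun i hi t ht => mem_image_of_mem _ (mem_hs.2 (hH i hi t ht)))
    (fun i hi t ht h => by
      obtain ⟨n, hn, e⟩ := mem_image.1 h
      have := hg.1 _ (lt_of_getD (mem_hs.1 hn)) _ (hS i hi t ht).1 e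
      exact (hS i hi t ht).2 (this ▸ mem_hs.1 hn))
    (fun i hi t ht => by
      have := lt_of_getD (hH i hi t ht)
      by_cases h0 : i = 0
      · subst h0
        obtain rfl : t = 0 := by omega
        simp only [hq, sq', if_true, o0]
        exact adj_symm (hg.2 F (by omega))
      · simp only [hq, sq', h0, if_false] at this ⊢
        exact hg.2 _ this)
    (fun i hi t ht => by
      have h0 : i ≠ 0 := fun e => by rw [e] at ht; omega
      have := (hS i hi (t + 1) ht).1
      simp only [hq, sq', h0, if_false] at this ⊢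
      exact hg.2 _ this)
    (by rw [sum_add_distrib, sa]; simp [hlen])
    (by
      have e : ∀ i ∈ range ps.length, max (a i) 1 =
          a i + ((if i = 0 then 1 else 0) + if i = ps.length - 1 then 1 else 0) := fun i hi => by
        have := apos i
        rw [mem_range] at hi
        split_ifs with x y y
        · omega
        · rw [x]; omega
        · rw [y]; omega
        · omega
      rw [sum_congr rfl e, sum_add_distrib, sum_add_distrib, sa, sum_ite_eq', sum_ite_eq',
        if_pos (mem_range.2 (by omega)), if_pos (mem_range.2 (by omega))])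
  refine ⟨_, _, hP, fun i hi hi' d hd => ?_⟩
  have e1 := o_succ ps i (by omega)
  have e2 := apos i hi (by omega)
  have e3 := lt_of_getD (hH (i + 1) (by omega) 0 (by omega))
  have e4 : hq (i + 1) 0 = hq i (a i - 1) + ((ps.getD (i + 1) (1, 1)).1 + 3) := by
    simp only [hq, hi.ne', if_false, Nat.succ_ne_zero]
    change o ps (i + 1) = o ps i + 2 * a i + 1 + _ at e1
    omega
  have := dot_walk hg hd (hq i (a i - 1)) _ (e4 ▸ e3)
  rw [← e4] at this
  simp only [dot_sub] at this ⊢
  push_cast at this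
  change dot (g (hq i (a i - 1))) d - _ ≤ _
  omega

end Pool.Agent.Lib.FCC
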