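import Pool.Agent.Lib.FCC.Calc

/-! Positions of the pieces in the chain. -/

namespace Pool.Agent.Lib.FCC.B0

theorem length_pc (a : ℕ) : (pc a).length = 2 * a + 1 := by
  induction a with
  | zero => rfl
  | succ a ih => rw [pc_succ, List.length_cons, List.length_cons, ih]; ring

theorem getD_pc : ∀ (a r : ℕ), r ≤ 2 * a → (pc a).getD r 3 = if r % 2 = 0 then 1 else 0
  | 0, r, h => by obtain rfl : r = 0 := by omega
                  rfl
  | a + 1, 0, _ => by rw [pc_succ]; rfl
  | a + 1, 1, _ => by rw [pc_succ]; rfl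
  | a + 1, r + 2, h => by
    rw [pc_succ, List.getD_cons_succ, List.getD_cons_succ, getD_pc a r (by omega),
      Nat.add_mod_right]

/-- The start of piece `i`. -/
def o : List (ℕ × ℕ) → ℕ → ℕ
  | [], _ => 0
  | k :: _, 0 => k.1
  | k :: ps, i + 1 => k.1 + 2 * k.2 + 1 + o ps i

theorem lw_cons (k : ℕ × ℕ) (ps : List (ℕ × ℕ)) :
    lw (k :: ps) = List.replicate k.1 2 ++ (pc k.2 ++ lw ps) := by simp [lw, tw]

theorem o_succ : ∀ (ps : List (ℕ × ℕ)) (i : ℕ), i + 1 < ps.length →
    o ps (i + 1) = o ps i + 2 * (ps.getD i (1, 1)).2 + 1 + (ps.getD (i + 1) (1, 1)).1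
  | [], _, h => by simp at h
  | [_], _, h => by simp at h
  | k :: k' :: ps, 0, _ => by simp [o]
  | k :: k' :: ps, i + 1, h => by
    have := o_succ (k' :: ps) i (by simpa using h)
    rw [o, this, o, List.getD_cons_succ (x := k), List.getD_cons_succ (x := k)]
    omega

theorem o_last : ∀ (ps : List (ℕ × ℕ)) (i : ℕ), i + 1 = ps.length →
    o ps i + 2 * (ps.getD i (1, 1)).2 + 1 = (lw ps).length
  | [], _, h => by simp at h
  | k :: ps, 0, h => by
    obtain rfl : ps = [] := List.eq_nil_of_length_eq_zero (by simpa using h.symm)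
    simp [o, tw, length_pc, lw, add_assoc]
  | k :: ps, i + 1, h => by
    have := o_last ps i (by simpa using h)
    rw [o, lw_cons, List.getD_cons_succ, List.length_append, List.length_append, length_pc,
      List.length_replicate]
    omega

theorem o_lt (ps : List (ℕ × ℕ)) {i j : ℕ} (h : i < j) (hj : j < ps.length) :
    o ps i + 2 * (ps.getD i (1, 1)).2 + 1 ≤ o ps j := by
  induction j with
  | zero => omega
  | succ j ih =>
    have := o_succ ps j hj
    rcases Nat.lt_succ_iff_lt_or_eq.1 h with h1 | rfl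
    · have := ih h1 (by omega)
      omega
    · omega

theorem o_le (ps : List (ℕ × ℕ)) {i : ℕ} (h : i < ps.length) :
    o ps i + 2 * (ps.getD i (1, 1)).2 + 1 ≤ (lw ps).length := by
  have h1 := o_last ps (ps.length - 1) (by omega)
  rcases Nat.lt_or_ge i (ps.length - 1) with h2 | h2
  · have := o_lt ps h2 (by omega)
    omega
  · obtain rfl : i = ps.length - 1 := by omega
    omega

theorem getD_lw : ∀ (ps : List (ℕ × ℕ)) (i r : ℕ), i < ps.length →
    r ≤ 2 * (ps.getD i (1, 1)).2 → (lw ps).getD (o ps i + r) 3 = if r % 2 = 0 then 1 else 0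
  | [], _, _, h, _ => by simp at h
  | k :: ps, 0, r, _, h => by
    rw [List.getD_cons_zero] at h
    rw [o, lw_cons, List.getD_append_right _ _ _ _ (by simp), List.length_replicate,
      Nat.add_sub_cancel_left, List.getD_append _ _ _ _ (by rw [length_pc]; omega), getD_pc _ _ h]
  | k :: ps, i + 1, r, hi, h => by
    rw [List.getD_cons_succ] at h
    rw [o, lw_cons, List.getD_append_right _ _ _ _ (by simp; omega), List.length_replicate,
      List.getD_append_right _ _ _ _ (by rw [length_pc]; omega), length_pc,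
      ← getD_lw ps i r (by simpa using hi) h]
    congr 1
    omega

theorem getD_bits (l : List ℕ) (n : ℕ) : (bits l).getD n false = true ↔ l.getD n 3 = 0 := by
  have := List.getD_map l 3 (n := n) fun x => decide (x = 0)
  rw [bits, show false = decide ((3 : ℕ) = 0) from rfl, this, decide_eq_true_eq]

theorem length_full (F : ℕ) (ps : List (ℕ × ℕ)) :
    (bits (full F ps)).length = F + 1 + (lw ps).length + (F + 1) := by
  simp [bits, full, add_assoc]

theorem full_mid (F : ℕ) (ps : List (ℕ × ℕ)) {i r : ℕ} (hi : i < ps.length)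
    (hr : r ≤ 2 * (ps.getD i (1, 1)).2) :
    (bits (full F ps)).getD (F + 1 + o ps i + r) false = true ↔ r % 2 = 1 := by
  have := o_le ps hi
  rw [getD_bits, full, List.getD_append _ _ _ _ (by simp; omega),
    List.getD_append_right _ _ _ _ (by simp; omega), List.length_replicate,
    show F + 1 + o ps i + r - (F + 1) = o ps i + r by omega, getD_lw ps i r hi hr]
  split_ifs <;> simp <;> omega

theorem full_left (F : ℕ) (ps : List (ℕ × ℕ)) : (bits (full F ps)).getD F false = true := by
  rw [getD_bits, full, List.getD_append _ _ _ _ (by simp; omega),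
    List.getD_append _ _ _ _ (by simp), List.getD_replicate _ (by omega)]

theorem full_right (F : ℕ) (ps : List (ℕ × ℕ)) :
    (bits (full F ps)).getD (F + 1 + (lw ps).length) false = true := by
  rw [getD_bits, full, List.getD_append_right _ _ _ _ (by simp), List.getD_replicate _ (by simp)]

theorem dot_adj {p q d : Pt} (hd : d ∈ axes) (h : adj p q) : dot p d ≤ dot q d + 1 := by
  simp only [axes, Finset.mem_insert, Finset.mem_singleton] at hd
  unfold adj at h
  rcases hd with rfl | rfl | rfl | rfl | rfl | rfl <;> simp only [dot] <;> omega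

theorem dot_walk {n : ℕ} {f : ℕ → Pt} (hf : Walk n f) {d : Pt} (hd : d ∈ axes) (i : ℕ) :
    ∀ s, i + s < n → dot (f i) d ≤ dot (f (i + s)) d + s
  | 0, _ => by simp
  | s + 1, h => by
    have h1 := dot_walk hf hd i s (by omega)
    have h2 := dot_adj hd (hf.2 (i + s) h)
    rw [← add_assoc]
    push_cast
    omega

theorem dot_add (p q d : Pt) : dot (p + q) d = dot p d + dot q d := by
  simp only [dot, Prod.fst_add, Prod.snd_add]; ring

theorem dot_sub (p q d : Pt) : dot (p - q) d = dot p d - dot q d := by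
  simp only [dot, Prod.fst_sub, Prod.snd_sub]; ring

theorem dot_axis {d : Pt} (hd : d ∈ axes) (m : ℤ) : dot (m • d) d = m := by
  simp only [axes, Finset.mem_insert, Finset.mem_singleton] at hd
  rcases hd with rfl | rfl | rfl | rfl | rfl | rfl <;> simp [dot]

theorem shell {L : ℕ} {p q : Pt} (h : adj q p) (h1 : InO L p) (h2 : ¬ InO L q) :
    nrm p = L ∧ nrm q = L + 2 := by
  unfold adj at h
  unfold InO nrm at *
  omega

theorem exists_nbr {L : ℕ} {u : Pt} (h1 : nrm u = L + 2) (h2 : ∀ d ∈ axes, dot u d ≤ L) :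
    ∃ p, InO L p ∧ adj p u := by
  obtain ⟨x, y, z⟩ := u
  simp only [axes, Finset.mem_insert, Finset.mem_singleton, forall_eq_or_imp, forall_eq,
    dot] at h2
  simp only [nrm] at h1
  by_cases hz : z = 0
  · refine ⟨(x - if 0 < x then 1 else -1, y - if 0 < y then 1 else -1, z), ?_, ?_⟩ <;>
      (first | unfold InO nrm | unfold adj) <;> dsimp only <;> split_ifs <;> omega
  · by_cases hy : y = 0
    · refine ⟨(x - if 0 < x then 1 else -1, y, z - if 0 < z then 1 else -1), ?_, ?_⟩ <;>
        (first | unfold InO nrm | unfold adj) <;> dsimp only <;> split_ifs <;> omega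
    · refine ⟨(x, y - if 0 < y then 1 else -1, z - if 0 < z then 1 else -1), ?_, ?_⟩ <;>
        (first | unfold InO nrm | unfold adj) <;> dsimp only <;> split_ifs <;> omega

theorem eq_vertex {L : ℕ} {p q d : Pt} (hd : d ∈ axes) (h : adj p q) (h1 : nrm p = L)
    (h2 : dot q d = L + 1) : p = (L : ℤ) • d := by
  obtain ⟨x, y, z⟩ := p
  simp only [axes, Finset.mem_insert, Finset.mem_singleton] at hd
  unfold adj at h
  rcases hd with rfl | rfl | rfl | rfl | rfl | rfl <;>
    simp only [dot, nrm, Prod.smul_mk, smul_eq_mul, Prod.mk.injEq] at * <;> omega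

end Pool.Agent.Lib.FCC.B0
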