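import Pool.Agent.Lib.FCC.Blue

/-! Counting the pieces in the rings around the vertices of the octahedron. -/

namespace Pool.Agent.Lib.FCC

open Finset
open scoped Classical

namespace B1

theorem geo {d h u : Pt} (hd : d ∈ axes) (hn : nrm u = nrm h + 2) (ha : adj u h)
    (hp : 0 < dot u d) : dot h d = dot u d ∨ dot h d + 1 = dot u d := by
  simp only [axes, mem_insert, mem_singleton] at hd
  unfold adj at ha
  unfold nrm at hn
  rcases hd with rfl | rfl | rfl | rfl | rfl | rfl <;> simp only [dot] at hp ⊢ <;> omega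

theorem two {d d' u : Pt} (hd : d ∈ axes) (hd' : d' ∈ axes) (h : d ≠ d') :
    dot u d + dot u d' ≤ nrm u := by
  simp only [axes, mem_insert, mem_singleton] at hd hd'
  rcases hd with rfl | rfl | rfl | rfl | rfl | rfl <;>
    rcases hd' with rfl | rfl | rfl | rfl | rfl | rfl <;>
    first | exact absurd rfl h | (simp only [dot, nrm]; omega)

theorem top {d h : Pt} {L : ℕ} (hd : d ∈ axes) (hn : nrm h = L) (e : dot h d = L) :
    h = (L : ℤ) • d := by
  simp only [axes, mem_insert, mem_singleton] at hd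
  obtain ⟨x, y, z⟩ := h
  rcases hd with rfl | rfl | rfl | rfl | rfl | rfl <;>
    simp only [dot, nrm, Prod.smul_mk, smul_eq_mul, Prod.mk.injEq] at hn e ⊢ <;> omega

variable {L M J : ℕ} {a : ℕ → ℕ} {H S : ℕ → ℕ → Pt}

/-- All sites of the piece lie in ring `j`. -/
def Cp (L : ℕ) (a : ℕ → ℕ) (S : ℕ → ℕ → Pt) (d : Pt) (j i : ℕ) : Prop :=
  1 ≤ a i ∧ ∀ t ≤ a i, dot (S i t) d + j = L + 1

/-- The atoms of ring `j` have their sites in ring `j`. -/
def Inv (L M : ℕ) (a : ℕ → ℕ) (H S : ℕ → ℕ → Pt) (d : Pt) (j : ℕ) : Prop :=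
  ∀ i < M, ∀ t < max (a i) 1, dot (H i t) d + j = L →
    dot (S i t) d + j = L + 1 ∧ (t < a i → dot (S i (t + 1)) d + j = L + 1)

theorem uniq (P : Pieces L M a H S) (hJ : 2 * J < L) {d d' : Pt} {j j' i : ℕ} (hi : i < M)
    (hd : d ∈ axes) (hd' : d' ∈ axes) (hj : j ≤ J) (hj' : j' ≤ J) (h : Cp L a S d j i)
    (h' : Cp L a S d' j' i) : d = d' ∧ j = j' := by
  have e := h.2 0 (Nat.zero_le _)
  have e' := h'.2 0 (Nat.zero_le _)
  obtain rfl : d = d' := by
    by_contra n
    have := two (u := S i 0) hd hd' n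
    rw [P.snrm i hi 0 (Nat.zero_le _)] at this
    omega
  exact ⟨rfl, by omega⟩

theorem inv0 (P : Pieces L M a H S) {d : Pt} (hd : d ∈ axes) : Inv L M a H S d 0 := by
  intro i hi t ht e
  obtain ⟨i', h1, h2, h3, h4, h5⟩ := P.vert d hd
  obtain ⟨rfl, rfl⟩ := P.hinj i hi t ht i' h1 0 (by omega)
    ((top hd (P.hnrm i hi t ht) (by simpa using e)).trans h3.symm)
  exact ⟨by simpa using h4, fun _ => by simpa using h5⟩

theorem ring (hA : St_A4) (P : Pieces L M a H S) (hJ : 2 * J < L) {d : Pt} (hd : d ∈ axes) {j : ℕ}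
    (hj : j + 1 ≤ J) (hI : Inv L M a H S d j) (big : ∀ i < M, Cp L a S d (j + 1) i → j + 1 ≤ a i) :
    Inv L M a H S d (j + 1) ∧ ((range M).filter (Cp L a S d (j + 1))).card = 4 ∧
      ∀ i < M, Cp L a S d (j + 1) i → a i = j + 1 := by
  have k1 : ∀ i < M, ∀ t < max (a i) 1, dot (S i t) d + (j + 1 : ℕ) = L + 1 →
      dot (H i t) d + (j + 1 : ℕ) = L := fun i hi t ht e => by
    have := geo hd ((P.snrm i hi t (by omega)).trans (by rw [P.hnrm i hi t ht]))
      (P.adj1 i hi t ht) (by omega)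
    have := fun x => (hI i hi t ht x).1
    omega
  have k2 : ∀ i < M, ∀ t < a i, dot (S i (t + 1)) d + (j + 1 : ℕ) = L + 1 →
      dot (H i t) d + (j + 1 : ℕ) = L := fun i hi t ht e => by
    have := geo hd ((P.snrm i hi (t + 1) (by omega)).trans (by rw [P.hnrm i hi t (by omega)]))
      (adj_symm (P.adj2 i hi t ht)) (by omega)
    have := fun x => (hI i hi t (by omega) x).2 ht
    omega
  let A : ℕ → Finset ℕ := fun i =>
    (range (max (a i) 1)).filter fun t => dot (H i t) d + (j + 1 : ℕ) = L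
  let T : ℕ → Finset ℕ := fun i =>
    (range (a i + 1)).filter fun t => dot (S i t) d + (j + 1 : ℕ) = L + 1
  have c1 : ∑ i ∈ range M, (A i).card ≤ 4 * (j + 1) := by
    rw [← hA d hd (L - (j + 1)) (j + 1) (by omega), ← card_sigma]
    refine card_le_card_of_injOn (fun x => H x.1 x.2) ?_ ?_
    · rintro ⟨i, t⟩ m
      simp only [A, coe_sigma, Set.mem_sigma_iff, mem_coe, mem_range, mem_filter] at m
      have := P.hnrm i m.1 t m.2.1
      simp only [mem_coe, mem_filter, mem_octa, InO]
      omega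
    · rintro ⟨i, t⟩ m ⟨i', t'⟩ m' e
      simp only [A, coe_sigma, Set.mem_sigma_iff, mem_coe, mem_range, mem_filter] at m m'
      obtain ⟨rfl, rfl⟩ := P.hinj i m.1 t m.2.1 i' m'.1 t' m'.2.1 e
      rfl
  have c2 : 4 * (j + 2) ≤ ∑ i ∈ range M, (T i).card := by
    rw [← hA d hd (L - j) (j + 2) (by omega), ← card_sigma]
    refine card_le_card_of_surjOn (fun x => S x.1 x.2) fun u m => ?_
    simp only [mem_coe, mem_filter] at m
    obtain ⟨i, hi, t, ht, rfl⟩ := P.cov u (by omega) fun d' hd' => by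
      by_cases e : d = d'
      · subst e; omega
      · have := two (u := u) hd hd' e
        omega
    refine ⟨⟨i, t⟩, ?_, rfl⟩
    simp only [T, coe_sigma, Set.mem_sigma_iff, mem_coe, mem_range, mem_filter]
    omega
  have c3 : ∀ i < M, Cp L a S d (j + 1) i → (A i).card = a i := fun i hi h => by
    have := h.1
    simp only [A]
    rw [filter_true_of_mem fun t m => k1 i hi t (mem_range.1 m) (h.2 t (by
      have := mem_range.1 m; omega)), card_range]
    omega
  have c4 : ∀ i ∈ range M, (T i).card ≤ (A i).card + if Cp L a S d (j + 1) i then 1 else 0 := by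
    intro i hi
    rw [mem_range] at hi
    split_ifs with h
    · rw [c3 i hi h]
      exact (card_filter_le _ _).trans (card_range _).le
    obtain ⟨s, s1, s2⟩ : ∃ s, s ≤ max (a i) 1 ∧ s ∉ T i := by
      by_cases e : a i = 0
      · exact ⟨1, by omega, by simp [T, e]⟩
      · simp only [Cp, not_and, not_forall] at h
        obtain ⟨s, s1, s2⟩ := h (by omega)
        exact ⟨s, by omega, by simp only [T, mem_filter]; exact fun x => s2 x.2⟩
    rw [add_zero]
    refine card_le_card_of_injOn (fun t => if t < s then t else t - 1) (fun t m => ?_)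
      fun t m t' m' e => ?_
    · have n : t ≠ s := fun e => s2 (e ▸ m)
      simp only [T, A, mem_coe, mem_filter, mem_range] at m ⊢
      split_ifs with e
      · exact ⟨by omega, k1 i hi t (by omega) m.2⟩
      · obtain ⟨t, rfl⟩ : ∃ x, t = x + 1 := ⟨t - 1, by omega⟩
        exact ⟨by omega, k2 i hi t (by omega) m.2⟩
    · have n : t ≠ s := fun e => s2 (e ▸ m)
      have n' : t' ≠ s := fun e => s2 (e ▸ m')
      simp only at e
      split_ifs at e <;> omega
  have c5 := sum_le_sum c4
  rw [sum_add_distrib, ← sum_filter, ← card_eq_sum_ones] at c5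
  change _ ≤ _ + ((range M).filter (Cp L a S d (j + 1))).card at c5
  have c6 : ∀ i ∈ range M, (if Cp L a S d (j + 1) i then j + 1 else 0) ≤ (A i).card := fun i hi => by
    split_ifs with h
    · rw [c3 i (mem_range.1 hi) h]
      exact big i (mem_range.1 hi) h
    · exact Nat.zero_le _
  have c7 := sum_le_sum c6
  have c8 : ∑ i ∈ range M, (if Cp L a S d (j + 1) i then j + 1 else 0) =
      ((range M).filter (Cp L a S d (j + 1))).card * (j + 1) := by
    rw [← sum_filter, sum_const, smul_eq_mul]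
  have c9 : ((range M).filter (Cp L a S d (j + 1))).card = 4 :=
    le_antisymm (Nat.le_of_mul_le_mul_right (c8 ▸ c7.trans c1) j.succ_pos) (by omega)
  have c10 := (sum_eq_sum_iff_of_le c6).1 (le_antisymm c7 (by rw [c8, c9]; exact c1))
  refine ⟨fun i hi t ht e => ?_, c9, fun i hi h => ?_⟩
  · have := c10 i (mem_range.2 hi)
    split_ifs at this with h
    · exact ⟨h.2 t (by have := h.1; omega), fun x => h.2 _ x⟩
    · exact absurd (card_eq_zero.1 this.symm ▸ (mem_filter.2 ⟨mem_range.2 ht, e⟩ : t ∈ A i))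
        (notMem_empty t)
  · have := c10 i (mem_range.2 hi)
    rw [if_pos h, c3 i hi h] at this
    exact this.symm

theorem use (P : Pieces L M a H S) (hJ : 2 * J < L) {j : ℕ} (hj : j ≤ J)
    (hc : ((range M).filter (a · = j)).card ≤ if j = 1 then 30 else 24)
    (h : ∀ d ∈ axes, ((range M).filter (Cp L a S d j)).card = 4 ∧
      ∀ i < M, Cp L a S d j i → a i = j) :
    ∀ i < M, a i = j → ∃ d ∈ axes, Cp L a S d j i ∨ j = 1 ∧ Cp L a S d 0 i := by
  let W : Pt → Finset ℕ := fun d =>
    (range M).filter fun i => a i = j ∧ (Cp L a S d j i ∨ j = 1 ∧ Cp L a S d 0 i)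
  have w0 : ∀ d ∈ axes, (range M).filter (Cp L a S d j) ⊆ W d := fun d hd i m => by
    rw [mem_filter] at m
    exact mem_filter.2 ⟨m.1, (h d hd).2 i (mem_range.1 m.1) m.2, .inl m.2⟩
  have w1 : ∀ d ∈ axes, (if j = 1 then 5 else 4) ≤ (W d).card := fun d hd => by
    split_ifs with e
    · obtain ⟨i, i1, i2, -, i3, i4⟩ := P.vert d hd
      have c : Cp L a S d 0 i := ⟨i2.ge, fun t ht => by
        obtain rfl | rfl : t = 0 ∨ t = 1 := by omega
        exacts [by simpa using i3, by simpa using i4]⟩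
      have := card_le_card (insert_subset (mem_filter.2 ⟨mem_range.2 i1, i2.trans e.symm,
        .inr ⟨e, c⟩⟩) (w0 d hd))
      rwa [card_insert_of_notMem fun m => by
        have := (uniq P hJ i1 hd hd hj (Nat.zero_le _) (mem_filter.1 m).2 c).2
        omega, (h d hd).1] at this
    · exact (h d hd).1 ▸ card_le_card (w0 d hd)
  have w2 : axes.biUnion W = (range M).filter (a · = j) := by
    refine eq_of_subset_of_card_le (biUnion_subset.2 fun d _ i m => ?_) (hc.trans ?_)
    · rw [mem_filter] at m ⊢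
      exact ⟨m.1, m.2.1⟩
    rw [card_biUnion fun d hd d' hd' n => disjoint_left.2 fun i m m' => n (by
      simp only [W, mem_filter, mem_range] at m m'
      rcases m.2.2 with x | ⟨-, x⟩ <;> rcases m'.2.2 with y | ⟨-, y⟩ <;>
        exact (uniq P hJ m.1 hd hd' (by omega) (by omega) x y).1)]
    have := card_nsmul_le_sum _ _ _ w1
    rw [show axes.card = 6 by decide, smul_eq_mul] at this
    split_ifs at this ⊢ <;> omega
  intro i hi e
  obtain ⟨d, hd, m⟩ := mem_biUnion.1 (w2 ▸ mem_filter.2 ⟨mem_range.2 hi, e⟩ : i ∈ axes.biUnion W)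
  exact ⟨d, hd, (mem_filter.1 m).2.2⟩

end B1

open B1 in
theorem stB1 (hA : St_A4) : St_B1 := by
  intro L M J a H S P hJ hc
  have key : ∀ j ≤ J, (∀ d ∈ axes, Inv L M a H S d j) ∧ (1 ≤ j → ∀ d ∈ axes,
      ((range M).filter (Cp L a S d j)).card = 4 ∧ ∀ i < M, Cp L a S d j i → a i = j) ∧
      ∀ i < M, 1 ≤ a i → a i ≤ j →
        ∃ d ∈ axes, Cp L a S d (a i) i ∨ a i = 1 ∧ Cp L a S d 0 i := by
    intro j
    induction j with
    | zero => exact fun _ => ⟨fun d => inv0 P, by omega, by omega⟩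
    | succ j ih =>
      intro hj
      obtain ⟨i1, -, i2⟩ := ih (by omega)
      have r := fun d hd => ring hA P hJ hd hj (i1 d hd) fun i hi h => by
        by_contra n
        obtain ⟨d', hd', x | ⟨-, x⟩⟩ := i2 i hi h.1 (by omega) <;>
          have := (uniq P hJ hi hd hd' hj (by omega) h x).2 <;> omega
      refine ⟨fun d hd => (r d hd).1, fun _ d hd => (r d hd).2, fun i hi h1 h2 => ?_⟩
      by_cases e : a i = j + 1
      · rw [e]
        exact use P hJ hj (hc _ (by omega) hj) (fun d hd => (r d hd).2) i hi e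
      · exact i2 i hi h1 (by omega)
  choose! ver v1 v2 using (key J le_rfl).2.2
  refine ⟨ver, fun i hi h1 h2 => ⟨v1 i hi h1 h2, fun t ht => ?_⟩, fun d hd j h1 h2 => ?_⟩
  · have g := geo (v1 i hi h1 h2) ((P.snrm i hi t ht.le).trans
      (by rw [P.hnrm i hi t (by omega)])) (P.adj1 i hi t (by omega))
    obtain x | ⟨-, x⟩ := v2 i hi h1 h2 <;> have := x.2 t ht.le <;> have := g (by omega) <;> omega
  · obtain ⟨k1, k2⟩ := (key j h2).2.1 (by omega) d hd
    rw [← k1]
    refine congrArg card (filter_congr fun i hi => ?_)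
    rw [mem_range] at hi
    constructor
    · rintro ⟨rfl, rfl⟩
      exact (v2 i hi (by omega) h2).resolve_right fun x => by omega
    · intro h
      have e := k2 i hi h
      refine ⟨e, ?_⟩
      obtain x | ⟨-, x⟩ := v2 i hi h.1 (by omega) <;>
        exact (uniq P hJ hi (v1 i hi h.1 (by omega)) hd (by omega) h2 x h).1

end Pool.Agent.Lib.FCC
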