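import Pool.Agent.Lib.FCC.Fold
import Pool.Agent.Lib.MP_dec383_lc.UN

/-! Blueprint for the NP-hardness of folding on the face-centred cubic lattice. -/

namespace Pool.Agent.Lib.FCC

open Finset
open Pool.Agent.Lib.MP_dec383_lc (hs bonds)
open Pool.Agent.Lib.helper82

/-! ### Octahedra -/

def dot (p q : Pt) : ℤ := p.1 * q.1 + p.2.1 * q.2.1 + p.2.2 * q.2.2

def axes : Finset Pt := {(1, 0, 0), (-1, 0, 0), (0, 1, 0), (0, -1, 0), (0, 0, 1), (0, 0, -1)}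

def nrm (p : Pt) : ℕ := p.1.natAbs + p.2.1.natAbs + p.2.2.natAbs

def InO (L : ℕ) (p : Pt) : Prop := nrm p ≤ L ∧ nrm p % 2 = L % 2

instance (L : ℕ) : DecidablePred (InO L) := fun _ => by unfold InO; infer_instance

noncomputable def octa (L : ℕ) : Finset Pt :=
  (Icc (-(L : ℤ)) L ×ˢ Icc (-(L : ℤ)) L ×ˢ Icc (-(L : ℤ)) L).filter (InO L)

theorem mem_octa {L : ℕ} {p : Pt} : p ∈ octa L ↔ InO L p := by
  simp only [octa, mem_filter, mem_product, mem_Icc, InO, nrm]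
  omega

/-! ### Part A: the shape is forced -/

/-- Every site of `T` lies outside `X` and is assigned to a neighbour in `X`; an atom receives
at most two sites. -/
structure Asg (X T : Finset Pt) (g : Pt → Pt) : Prop where
  out : ∀ p ∈ T, p ∉ X
  mem : ∀ p ∈ T, g p ∈ X
  nbr : ∀ p ∈ T, adj p (g p)
  two : ∀ h, (T.filter (g · = h)).card ≤ 2

/-- The equality case of the peak inequality; `v d` is the extreme atom in direction `d`. -/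
structure Clean (X T : Finset Pt) (g v : Pt → Pt) : Prop where
  vmem : ∀ d ∈ axes, v d ∈ X
  vtop : ∀ d ∈ axes, ∀ h ∈ X, h ≠ v d → dot h d < dot (v d) d
  vlow : ∀ d ∈ axes, ∀ e ∈ dirs, dot e d = -1 → v d + e ∈ X
  vup : ∀ d ∈ axes, ∀ p ∈ T, g p = v d → dot p d = dot (v d) d + 1
  vtwo : ∀ d ∈ axes, (T.filter (g · = v d)).card = 2
  site : ∀ u ∈ halo X, u ∈ T ∨ ∃ d ∈ axes, dot u d = dot (v d) d + 1
  free : ∀ h ∈ X, h ∉ T.image g → out X h = 0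
  bow : ∀ p ∈ T, ∀ q ∈ X, adj p q → q = g p ∨ adj q (g p)
  one : ∀ p ∈ T, (∀ p' ∈ T, g p' = g p → p' = p) → ∀ u ∉ X, adj (g p) u → u = p ∨ adj u p
  pair : ∀ p ∈ T, ∀ p' ∈ T, g p = g p' → p ≠ p' → (∀ d ∈ axes, g p ≠ v d) →
    adj p p' ∧ (∀ u, adj u p → adj u p' → adj u (g p) → u ∉ X) ∧
      ∀ u ∉ X, adj (g p) u → u = p ∨ u = p' ∨ adj u p ∨ adj u p'

def St_A1 : Prop := ∀ (X T : Finset Pt) (g : Pt → Pt), (∀ p ∈ X, ev p) → Asg X T g →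
  19 ≤ X.card → 2 * bd X ≤ 3 * T.card + 3 * (T.image g).card + 18 → ∃ v, Clean X T g v

def St_A2 : Prop := ∀ (X T : Finset Pt) (g v : Pt → Pt), (∀ p ∈ X, ev p) → Asg X T g →
  Clean X T g v → ∃ (c : Pt) (m : ℕ), (∀ p, p ∈ X ↔ InO m (p - c)) ∧
    ∀ d ∈ axes, v d = c + (m : ℤ) • d

def St_A3 : Prop := ∀ L : ℕ, 3 * (octa L).card = 2 * L ^ 3 + 6 * L ^ 2 + 7 * L + 3 ∧
  bd (octa L) = 12 * (L + 1) ^ 2

def St_A4 : Prop := ∀ d ∈ axes, ∀ n k : ℕ, 1 ≤ k →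
  ((octa (n + k)).filter fun p => nrm p = n + k ∧ dot p d = n).card = 4 * k

/-! ### The source problem -/

/-- Positive one-in-three satisfiability of a flat list of triples. -/
def X3 (w : List ℕ) : Prop := ∃ al : ℕ → Bool, ∀ i, 3 * i + 2 < w.length →
  (al (w.getD (3 * i) 0)).toNat + (al (w.getD (3 * i + 1) 0)).toNat +
    (al (w.getD (3 * i + 2) 0)).toNat = 1

def WF (w : List ℕ) : Prop := (∃ m, 1 ≤ m ∧ w.length = 3 * m) ∧ ∀ v ∈ w, v < w.length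

def St_X3 : Prop := ∀ L ∈ N68a2faeb.NP, ∃ F : List Bool → List ℕ, PT F ∧
  ∀ x, WF (F x) ∧ (L x = true ↔ X3 (F x))

/-! ### The chain; letters `0` (an `H`), `1` (a `P` bonded to an `H`), `2` (another `P`) -/

/-- The piece `P (H P)^a`. -/
def pc (a : ℕ) : List ℕ := 1 :: (List.replicate a [0, 1]).flatten

def pw (l : List ℕ) : List ℕ := l.flatMap pc

/-- A token is a gap length and the size of the piece that follows the gap. -/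
def tw (k : ℕ × ℕ) : List ℕ := List.replicate k.1 2 ++ pc k.2

def lw (ps : List (ℕ × ℕ)) : List ℕ := ps.flatMap tw

def full (F : ℕ) (ps : List (ℕ × ℕ)) : List ℕ :=
  List.replicate (F + 1) 0 ++ lw ps ++ List.replicate (F + 1) 0

def bits (l : List ℕ) : List Bool := l.map fun x => decide (x = 0)

/-- Pieces without gaps, after one gap `g`. -/
def sq (g : ℕ) (l : List ℕ) : List (ℕ × ℕ) := (l.take 1).map (g, ·) ++ l.tail.map (0, ·)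

def un (j : ℕ) : List ℕ := [j, j, j + 1, j + 1]

def ow (j n : ℕ) : List ℕ := (List.range n).flatMap fun i => un (j + 2 * i)

def ballw (k : ℕ) : List ℕ := (ow 1 (3 * k)).reverse ++ 1 :: ow 1 (3 * k)

def windw (k : ℕ) : List ℕ := (List.range (2 * k)).map (4 * k - 1 - ·) ++
  (List.range (2 * k)).map (4 * k - ·) ++ (List.range (2 * k + 1)).map (2 * k + ·)

def aw (k m : ℕ) : List ℕ :=
  ow (2 * m + 1) (3 * k - m - 1) ++ [6 * k - 1, 6 * k - 1, 6 * k, 6 * k - 1]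

def p1a (k m : ℕ) : List ℕ := aw k m ++ windw k

def p1b (k m : ℕ) : List ℕ := windw k ++ ballw k ++ windw k ++ ballw k ++ windw k ++
  (ow (2 * m + 1) (3 * k - m)).reverse

def p2a (k : ℕ) : List ℕ := (1 :: ow 1 (3 * k)) ++ windw k ++ ballw k ++ windw k

def p2b (k m : ℕ) : List ℕ := windw k ++ ballw k ++ windw k ++ (aw k m).reverse

section
variable (w : List ℕ)

def pm : ℕ := w.length / 3

def pK : ℕ := 6 * pm w + 4

def pk : ℕ := pK w * w.length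

def pL : ℕ := 12 * pk w + 1

def pF : ℕ := 576 * pk w ^ 3 + 2 * pk w

/-- The gap before item `o`: short after an earlier occurrence of the same variable. -/
def gap (o : ℕ) : ℕ :=
  if o < w.length ∧ (List.range o).any (fun o' => decide (w.getD o' 0 = w.getD o 0)) then
    2 * pK w * (o + 1) else 4 * pL w * (o + 1)

/-- The occurrences of the variable `v`. -/
def occ (v : ℕ) : List ℕ := (List.range w.length).filter fun o => decide (w.getD o 0 = v)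

def ord : List ℕ := (List.range w.length).flatMap (occ w)

def utok (o : ℕ) : List (ℕ × ℕ) := sq (gap w o) (un (2 * (o / 3) + 1))

def toks : List (ℕ × ℕ) :=
  [(0, 0)] ++ (sq (gap w w.length) (p1a (pk w) (pm w)) ++ sq 3 (p1b (pk w) (pm w))) ++
    [(gap w (w.length + 1), 1)] ++ (ord w).flatMap (utok w) ++
    (sq (gap w (w.length + 2)) (p2a (pk w)) ++ sq 3 (p2b (pk w) (pm w))) ++
    [(gap w (w.length + 3), 0)]

def chain : List Bool := bits (full (pF w) (toks w))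

def target : ℕ := 5760 * pk w ^ 3 + 2592 * pk w ^ 2 + 308 * pk w + 12

end

def St_R : Prop := PT fun w : List ℕ => (chain w, target w)

/-- The shape of a token list. -/
structure Tok (L J : ℕ) (ps : List (ℕ × ℕ)) : Prop where
  len : ps.length = 16 * L
  sum : (ps.map Prod.snd).sum = 4 * L ^ 2
  first : ps.getD 0 (1, 1) = (0, 0)
  last : (ps.getD (ps.length - 1) (1, 1)).2 = 0
  pos : ∀ i, 0 < i → i + 1 < ps.length → 1 ≤ (ps.getD i (1, 1)).2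
  cnt : ∀ j, 1 ≤ j → j ≤ J → (ps.map Prod.snd).count j = if j = 1 then 30 else 24

def St_CNT : Prop := ∀ w, WF w → Tok (pL w) (2 * pm w) (toks w)

def St_WORD : Prop := ∀ (F : ℕ) (ps : List (ℕ × ℕ)), ps ≠ [] →
  (hs (bits (full F ps))).card = 2 * F + 2 + (ps.map Prod.snd).sum ∧
  bonds (bits (full F ps)) = 2 * F ∧
  (full F ps).count 0 = 2 * F + 2 + (ps.map Prod.snd).sum ∧
  (full F ps).count 1 = ps.length + (ps.map Prod.snd).sum ∧ ∀ x ∈ full F ps, x ≤ 2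

/-! ### Part B: soundness -/

/-- The pieces on the surface of the octahedron: piece `i` has the sites `S i t`, `t ≤ a i`, and
the atoms `H i t`, `t < max (a i) 1`; a piece of size `0` is a door. -/
structure Pieces (L M : ℕ) (a : ℕ → ℕ) (H S : ℕ → ℕ → Pt) : Prop where
  hinj : ∀ i < M, ∀ t < max (a i) 1, ∀ i' < M, ∀ t' < max (a i') 1,
    H i t = H i' t' → i = i' ∧ t = t'
  hnrm : ∀ i < M, ∀ t < max (a i) 1, nrm (H i t) = L
  snrm : ∀ i < M, ∀ t ≤ a i, nrm (S i t) = L + 2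
  adj1 : ∀ i < M, ∀ t < max (a i) 1, adj (S i t) (H i t)
  adj2 : ∀ i < M, ∀ t < a i, adj (H i t) (S i (t + 1))
  cov : ∀ u, nrm u = L + 2 → (∀ d ∈ axes, dot u d ≤ L) → ∃ i < M, ∃ t ≤ a i, S i t = u
  vert : ∀ d ∈ axes, ∃ i < M, a i = 1 ∧ H i 0 = (L : ℤ) • d ∧ dot (S i 0) d = L + 1 ∧
    dot (S i 1) d = L + 1

def St_B0 : Prop := ∀ (L J F : ℕ) (ps : List (ℕ × ℕ)) (f : ℕ → Pt), 3 ≤ L → Tok L J ps →
  (octa L).card = 2 * F + 2 + 4 * L ^ 2 → Walk (bits (full F ps)).length f →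
  bd ((hs (bits (full F ps))).image f) ≤ 12 * (L + 1) ^ 2 →
  ∃ H S, Pieces L ps.length (fun i => (ps.getD i (1, 1)).2) H S ∧
    ∀ i, 0 < i → i + 2 < ps.length → ∀ d ∈ axes,
      dot (H i ((ps.getD i (1, 1)).2 - 1)) d ≤ dot (H (i + 1) 0) d + (ps.getD (i + 1) (1, 1)).1 + 3

def St_B1 : Prop := ∀ (L M J : ℕ) (a : ℕ → ℕ) (H S : ℕ → ℕ → Pt), Pieces L M a H S → 2 * J < L →
  (∀ j, 1 ≤ j → j ≤ J → ((range M).filter (a · = j)).card ≤ if j = 1 then 30 else 24) →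
  ∃ ver : ℕ → Pt, (∀ i < M, 1 ≤ a i → a i ≤ J → ver i ∈ axes ∧
      ∀ t < a i, (L : ℤ) ≤ dot (H i t) (ver i) + J) ∧
    ∀ d ∈ axes, ∀ j, 2 ≤ j → j ≤ J → ((range M).filter fun i => a i = j ∧ ver i = d).card = 4

/-- A labelling of the tokens by vertices of the octahedron. -/
structure Lab (G J : ℕ) (ps : List (ℕ × ℕ)) (ver : ℕ → Pt) : Prop where
  mem : ∀ i < ps.length, 1 ≤ (ps.getD i (1, 1)).2 → (ps.getD i (1, 1)).2 ≤ J → ver i ∈ axes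
  same : ∀ i, i + 1 < ps.length → 1 ≤ (ps.getD i (1, 1)).2 → (ps.getD i (1, 1)).2 ≤ J →
    1 ≤ (ps.getD (i + 1) (1, 1)).2 → (ps.getD (i + 1) (1, 1)).2 ≤ J →
    (ps.getD (i + 1) (1, 1)).1 ≤ G → ver i = ver (i + 1)
  four : ∀ d ∈ axes, ∀ j, 2 ≤ j → j ≤ J →
    ((range ps.length).filter fun i => (ps.getD i (1, 1)).2 = j ∧ ver i = d).card = 4

def St_S : Prop := ∀ w, WF w → ∀ ver, Lab (2 * pk w) (2 * pm w) (toks w) ver → X3 w

def St_SOUND : Prop := ∀ w, WF w → ∀ f, Walk (chain w).length f →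
  bd ((hs (chain w)).image f) ≤ 12 * (pL w + 1) ^ 2 → X3 w

/-! ### Part C: completeness -/

/-- A walk from `u` to `v` that spells `w`, visits `CH` with letter `0` and `CS` with letter `1`,
and whose letters `2` sit on distinct points of `T`. -/
def Seg (w : List ℕ) (u v : Pt) (CH CS T : Set Pt) : Prop :=
  ∃ l : List (ℕ × Pt), l.map Prod.fst = w ∧ (l.map Prod.snd).IsChain adj ∧
    (l.map Prod.snd).head? = some u ∧ (l.map Prod.snd).getLast? = some v ∧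
    (∀ x ∈ CH, (0, x) ∈ l) ∧ (∀ x ∈ CS, (1, x) ∈ l) ∧
    (l.filter fun e => decide (e.1 = 2)).Nodup ∧ ∀ x, (2, x) ∈ l → x ∈ T

/-- The eighteen points of norm `L + 2` that stay empty. -/
def bad (L : ℕ) : List Pt :=
  [(L + 2, 0, 0), (-(L + 2), 0, 0), (0, L + 2, 0), (0, -(L + 2), 0), (0, 0, L + 2),
    (0, 0, -(L + 2)), (-(L + 1), 1, 0), (-(L + 1), -1, 0), (1, -(L + 1), 0), (-1, -(L + 1), 0),
    (0, 1, L + 1), (0, -1, L + 1), (0, 1, -(L + 1)), (0, -1, -(L + 1)), (0, L + 1, 1),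
    (0, L + 1, -1), (L + 1, 0, 1), (L + 1, 0, -1)]

def St_FINAL : Prop := ∀ (L : ℕ) (w : List ℕ) (u v : Pt) (T : Set Pt),
  Seg w u v {p | InO L p} {p | nrm p = L + 2 ∧ p ∉ bad L} T → (∀ p ∈ T, L + 4 ≤ nrm p) →
  (∀ x ∈ w, x ≤ 2) → w.count 0 ≤ (octa L).card → w.count 1 ≤ 4 * L ^ 2 + 16 * L →
  ∃ f, Walk (bits w).length f ∧ (hs (bits w)).image f = octa L

/-- The pendant site of the edge atom of level `k` below the north pole. -/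
def sp (L k : ℕ) : Pt := ((k : ℤ) + 1, 0, (L : ℤ) - k + 1)

def hp (p : Pt) : Prop := 0 < p.2.1 ∨ p.2.1 = 0 ∧ 0 < p.1

def HA (L j k : ℕ) : Set Pt :=
  {p | nrm p = L ∧ hp p ∧ (L : ℤ) - k ≤ p.2.2 ∧ p.2.2 ≤ (L : ℤ) - j}

def HS (L j k : ℕ) : Set Pt :=
  {p | nrm p = L + 2 ∧ hp p ∧ (L : ℤ) - k + 1 ≤ p.2.2 ∧ p.2.2 ≤ (L : ℤ) - j + 1}

def St_OW : Prop := ∀ L j n k : ℕ, 1 ≤ j → 1 ≤ n → k + 1 = j + 2 * n → k ≤ L →
  Seg (pw (ow j n)) (sp L j) (sp L k) (HA L j k) (HS L j k) ∅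

def St_AW : Prop := ∀ L j n k : ℕ, 1 ≤ j → k = j + 2 * n + 1 → k ≤ L →
  Seg (pw (ow j n ++ [k - 1, k - 1, k, k - 1])) (sp L j) (k, 1, (L : ℤ) - k + 1)
    (HA L j k \ {((k : ℤ), 0, (L : ℤ) - k)}) (HS L j k \ {sp L k}) ∅

def St_HALF : Prop := ∀ L n : ℕ, 1 ≤ n → 2 * n ≤ L →
  Seg (pw (1 :: ow 1 n)) (1, 0, (L : ℤ) + 1) (-(2 * n + 1 : ℤ), 0, (L : ℤ) - 2 * n + 1)
    {p | nrm p = L ∧ ¬ hp p ∧ (L : ℤ) - 2 * n ≤ p.2.2}
    {p | nrm p = L + 2 ∧ (L : ℤ) - 2 * n + 1 ≤ p.2.2 ∧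
      (¬ hp p ∧ p.2.2 ≤ L ∨ p.2.2 = L + 1 ∧ p.2.1 = 0)} ∅

def St_BALL : Prop := ∀ L n : ℕ, 1 ≤ n → 2 * n ≤ L →
  Seg (pw ((ow 1 n).reverse ++ 1 :: ow 1 n)) (2 * n + 1, 0, (L : ℤ) - 2 * n + 1)
    (-(2 * n + 1 : ℤ), 0, (L : ℤ) - 2 * n + 1) {p | nrm p = L ∧ (L : ℤ) - 2 * n ≤ p.2.2}
    {p | nrm p = L + 2 ∧ (L : ℤ) - 2 * n + 1 ≤ p.2.2 ∧
      (p.2.2 ≤ L ∨ p.2.2 = L + 1 ∧ p.2.1 = 0)} ∅

/-- The points of the positive octant with coordinate sum `s` and coordinates at most `r`. -/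
def Tri (s r : ℤ) : Set Pt :=
  {p | p.1 + p.2.1 + p.2.2 = s ∧ 1 ≤ p.1 ∧ p.1 ≤ r ∧ 1 ≤ p.2.1 ∧ p.2.1 ≤ r ∧
    1 ≤ p.2.2 ∧ p.2.2 ≤ r}

def St_WIND : Prop := ∀ k : ℕ, 1 ≤ k →
  Seg (pw (windw k)) (1, 6 * k + 1, 6 * k + 1) (6 * k + 1, 1, 6 * k + 1)
    (Tri (12 * k + 1) (6 * k)) (Tri (12 * k + 3) (6 * k + 1)) ∅

def St_FILL : Prop := ∀ k : ℕ, 1 ≤ k → ∃ v,
  Seg (List.replicate (576 * k ^ 3 + 2 * k) 0) (6 * k - 1, 6 * k, 0) v
    {p | InO (12 * k - 1) p ∧ (p.2.2 < 0 ∨ p.2.2 = 0 ∧ p.1 < p.2.1)} ∅ ∅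

/-- Ports: `1 ≤ u ≤ L + 1` on the edge from `(0, L, 0)` to `(L, 0, 0)`, and `L + 3 ≤ u` on the
edge from `(L, 0, 0)` to `(0, -L, 0)`. -/
def psite (L u : ℕ) : Pt :=
  if u ≤ L + 1 then (u, (L : ℤ) + 2 - u, 0) else (2 * (L : ℤ) + 4 - u, (L : ℤ) + 2 - u, 0)

def plen (L u : ℕ) : ℕ := 2 * (u - (L + 2))

def Port (L u : ℕ) : Prop := 1 ≤ u ∧ u ≠ L + 2 ∧ u ≤ 2 * L + 2

/-- Twice the port that owns a cell of the plane `z = 0`. -/
def pid (L : ℕ) (p : Pt) : ℤ :=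
  if (L : ℤ) + 2 ≤ p.1 + p.2.1 then p.1 - p.2.1 + L + 2
  else max (p.1 - p.2.1 + L + 2) (3 * L + 6 - (p.1 + p.2.1))

/-- The cells of the columns of the ports in `P` and of the lanes with heights in `E`. -/
def GT (L : ℕ) (P E : Set ℕ) : Set Pt :=
  {p | 1 ≤ p.1 ∧ L + 4 ≤ nrm p ∧ (p.2.2 = 0 ∧ (∃ u ∈ P, pid L p = 2 * u) ∨
    p.2.2 = 1 ∧ ∃ e ∈ E, p.1 + p.2.1 = L + 3 + 2 * e)}

def St_LINK : Prop := ∀ L u1 u2 e r G : ℕ, Port L u1 → Port L u2 → u1 ≠ u2 → 1 ≤ e → r ≤ 1 →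
  G = plen L u1 + plen L u2 + (u1 - u2) + (u2 - u1) + 2 * e + r →
  ∃ a b, Seg (List.replicate G 2) a b ∅ ∅ (GT L {u1, u2} {e}) ∧ adj (psite L u1) a ∧
    adj b (psite L u2)

/-- The three slots for a unit. -/
def fr : ℕ → Pt → Pt
  | 0, p => (p.1, p.2.2, p.2.1)
  | 1, p => (p.2.2, p.1, -p.2.1)
  | _, p => (p.2.2, -p.1, p.2.1)

def St_PATHS : Prop := ∀ k m L : ℕ, 1 ≤ m → m < k → L = 12 * k + 1 → ∃ A1 S1 A2 S2 : Set Pt,
  Seg (pw (p1a k m) ++ List.replicate 3 2 ++ pw (p1b k m)) (psite L (2 * m + 2))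
    (psite L (L + 2 * m + 4)) A1 S1 {p | 2 ≤ p.2.2 ∧ L + 4 ≤ nrm p} ∧
  Seg (pw (p2a k) ++ List.replicate 3 2 ++ pw (p2b k m)) (psite L 1)
    (psite L (L - 2 * m)) A2 S2 {p | p.1 < 0 ∧ p.2.2 ≤ 1 ∧ L + 4 ≤ nrm p} ∧
  (∀ p, nrm p = L → p ∈ A1 ∨ p ∈ A2 ∨ p = (6 * (k : ℤ), 6 * (k : ℤ) + 1, 0) ∨
    p = (6 * (k : ℤ) + 1, 6 * (k : ℤ), 0) ∨ p = ((L : ℤ), 0, 0) ∨
    ∃ i < m, ∃ s < 3, p ∈ fr s '' HA L (2 * i + 1) (2 * i + 2)) ∧
  ∀ p, nrm p = L + 2 → p ∉ bad L → p ∈ S1 ∨ p ∈ S2 ∨ p = psite L (6 * k + 1) ∨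
    p = psite L (6 * k + 2) ∨ p = psite L (L + 1) ∨ p = psite L (L + 3) ∨
    ∃ i < m, ∃ s < 3, p ∈ fr s '' HS L (2 * i + 1) (2 * i + 2)

def St_COMPLETE : Prop := ∀ w, WF w → X3 w →
  ∃ f, Walk (chain w).length f ∧ (hs (chain w)).image f = octa (pL w)

end Pool.Agent.Lib.FCC
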