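import Pool.Agent.Lib.FCC.Blue

/-! Counting letters of the chain and sizes of the tokens. -/

namespace Pool.Agent.Lib.FCC

open Finset
open Pool.Agent.Lib.MP_dec383_lc (hs bonds)

namespace CNT

theorem card_hs (l : List ℕ) : (hs (bits l)).card = l.count 0 := by
  induction l with
  | nil => simp [hs, bits]
  | cons a l ih =>
    unfold hs at ih ⊢
    rw [card_filter] at ih ⊢
    have e : (bits (a :: l)).length = (bits l).length + 1 := by simp [bits]
    rw [e, sum_range_succ', List.count_cons, ← ih]
    have e1 : ∀ i, (bits (a :: l)).getD (i + 1) false = (bits l).getD i false := fun i => by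
      simp [bits]
    have e2 : (bits (a :: l)).getD 0 false = decide (a = 0) := by simp [bits]
    simp only [e1, e2, decide_eq_true_eq, beq_iff_eq]

theorem bonds_cons (a : ℕ) (l : List ℕ) : bonds (bits (a :: l)) =
    bonds (bits l) + if a = 0 ∧ l.head? = some 0 then 1 else 0 := by
  unfold bonds
  rw [card_filter, card_filter]
  have e : (bits (a :: l)).length = (bits l).length + 1 := by simp [bits]
  have e1 : ∀ i, (bits (a :: l)).getD (i + 1) false = (bits l).getD i false := fun i => by
    simp [bits]
  have e2 : (bits (a :: l)).getD 0 false = decide (a = 0) := by simp [bits]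
  have e3 : (bits l).getD 0 false = true ↔ l.head? = some 0 := by
    cases l <;> simp [bits]
  rw [e, sum_range_succ']
  simp only [e1, e2, e3, decide_eq_true_eq]

theorem bonds_rep2 (g : ℕ) (t : List ℕ) :
    bonds (bits (List.replicate g 2 ++ t)) = bonds (bits t) := by
  induction g with
  | zero => simp
  | succ g ih => rw [List.replicate_succ, List.cons_append, bonds_cons, ih]; simp

theorem bonds_fl (a : ℕ) (t : List ℕ) :
    bonds (bits ((List.replicate a [0, 1]).flatten ++ t)) = bonds (bits t) := by
  induction a with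
  | zero => simp
  | succ a ih =>
    rw [List.replicate_succ, List.flatten_cons, List.append_assoc, List.cons_append,
      List.cons_append, List.nil_append, bonds_cons, bonds_cons, ih]
    simp

theorem bonds_lw (ps : List (ℕ × ℕ)) (t : List ℕ) :
    bonds (bits (lw ps ++ t)) = bonds (bits t) := by
  induction ps with
  | nil => simp [lw]
  | cons p ps ih =>
    have e : lw (p :: ps) ++ t = List.replicate p.1 2 ++
        (1 :: ((List.replicate p.2 [0, 1]).flatten ++ (lw ps ++ t))) := by
      simp [lw, tw, pc]
    rw [e, bonds_rep2, bonds_cons, bonds_fl, ih]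
    simp

theorem bonds_rep0 (F : ℕ) (t : List ℕ) (ht : t.head? ≠ some 0) :
    bonds (bits (List.replicate (F + 1) 0 ++ t)) = F + bonds (bits t) := by
  induction F with
  | zero => simp [bonds_cons, ht]
  | succ F ih =>
    rw [List.replicate_succ, List.cons_append, bonds_cons, ih]
    simp [List.replicate_succ]
    omega

theorem head_lw (ps : List (ℕ × ℕ)) (h : ps ≠ []) (t : List ℕ) : (lw ps ++ t).head? ≠ some 0 := by
  obtain ⟨⟨g, a⟩, ps, rfl⟩ := List.exists_cons_of_ne_nil h
  cases g <;> simp [lw, tw, pc, List.replicate_succ]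

theorem count_fl (a x : ℕ) : ((List.replicate a [0, 1]).flatten : List ℕ).count x =
    if x = 0 ∨ x = 1 then a else 0 := by
  induction a with
  | zero => simp
  | succ a ih =>
    rw [List.replicate_succ, List.flatten_cons, List.count_append, ih]
    rcases x with _ | _ | x <;> simp <;> omega

theorem count_lw0 (ps : List (ℕ × ℕ)) : (lw ps).count 0 = (ps.map Prod.snd).sum := by
  induction ps with
  | nil => simp [lw]
  | cons p ps ih =>
    have e : lw (p :: ps) = List.replicate p.1 2 ++
        (1 :: ((List.replicate p.2 [0, 1]).flatten ++ lw ps)) := by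
      simp [lw, tw, pc]
    rw [e, List.count_append, List.count_cons, List.count_append, count_fl, ih]
    simp [List.count_replicate]

theorem count_lw1 (ps : List (ℕ × ℕ)) :
    (lw ps).count 1 = ps.length + (ps.map Prod.snd).sum := by
  induction ps with
  | nil => simp [lw]
  | cons p ps ih =>
    have e : lw (p :: ps) = List.replicate p.1 2 ++
        (1 :: ((List.replicate p.2 [0, 1]).flatten ++ lw ps)) := by
      simp [lw, tw, pc]
    rw [e, List.count_append, List.count_cons, List.count_append, count_fl, ih]
    simp [List.count_replicate]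
    omega

theorem le_lw (ps : List (ℕ × ℕ)) : ∀ x ∈ lw ps, x ≤ 2 := by
  intro x hx
  simp only [lw, tw, pc, List.mem_flatMap, List.mem_append, List.mem_replicate, List.mem_cons,
    List.mem_flatten] at hx
  obtain ⟨p, -, h | h | ⟨l, ⟨-, rfl⟩, h⟩⟩ := hx
  · omega
  · omega
  · simp only [List.mem_cons, List.not_mem_nil, or_false] at h
    omega

/-! ### Sizes -/

theorem snd_sq (g : ℕ) (l : List ℕ) : (sq g l).map Prod.snd = l := by
  cases l <;> simp [sq, Function.comp_def]

theorem ow_succ (j n : ℕ) : ow j (n + 1) = ow j n ++ un (j + 2 * n) := by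
  simp [ow, List.range_succ]

theorem len_ow (j n : ℕ) : (ow j n).length = 4 * n := by
  induction n with
  | zero => simp [ow]
  | succ n ih => rw [ow_succ, List.length_append, ih]; simp [un]; omega

theorem sum_ow (j n : ℕ) : (ow j n).sum + 2 * n = 4 * n * j + 4 * n ^ 2 := by
  induction n with
  | zero => simp [ow]
  | succ n ih =>
    rw [ow_succ, List.sum_append]
    simp only [un, List.sum_cons, List.sum_nil]
    nlinarith

theorem count_un (a j : ℕ) : (un a).count j = if a ≤ j ∧ j < a + 2 then 2 else 0 := by
  simp only [un, List.count_cons, List.count_nil, beq_iff_eq]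
  split_ifs <;> omega

theorem count_ow (a n j : ℕ) : (ow a n).count j = if a ≤ j ∧ j < a + 2 * n then 2 else 0 := by
  induction n with
  | zero => simp [ow]
  | succ n ih =>
    rw [ow_succ, List.count_append, ih, count_un]
    split_ifs <;> omega

theorem le_ow {a n x : ℕ} (h : x ∈ ow a n) : a ≤ x := by
  have := List.count_pos_iff.2 h
  rw [count_ow] at this
  split_ifs at this <;> omega

theorem le_windw {k x : ℕ} (h : x ∈ windw k) : 2 * k ≤ x := by
  simp only [windw, List.mem_append, List.mem_map, List.mem_range] at h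
  rcases h with (⟨i, h, rfl⟩ | ⟨i, h, rfl⟩) | ⟨i, h, rfl⟩ <;> omega

theorem len_windw (k : ℕ) : (windw k).length = 6 * k + 1 := by
  simp [windw]
  omega

theorem sum_sub (c n : ℕ) (h : n ≤ c + 1) :
    2 * ((List.range n).map (c - ·)).sum + n * n = 2 * n * c + n := by
  induction n with
  | zero => simp
  | succ n ih =>
    have := ih (by omega)
    rw [List.range_succ, List.map_append, List.sum_append]
    obtain ⟨d, rfl⟩ : ∃ d, c = n + d := ⟨c - n, by omega⟩
    simp only [List.map_cons, List.map_nil, List.sum_cons, List.sum_nil, Nat.add_sub_cancel_left]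
    nlinarith

theorem sum_add (c n : ℕ) :
    2 * ((List.range n).map (c + ·)).sum + n = 2 * n * c + n * n := by
  induction n with
  | zero => simp
  | succ n ih =>
    rw [List.range_succ, List.map_append, List.sum_append]
    simp only [List.map_cons, List.map_nil, List.sum_cons, List.sum_nil]
    nlinarith

theorem sum_windw (k : ℕ) (hk : 1 ≤ k) : (windw k).sum = 18 * k ^ 2 + 3 * k := by
  have h1 := sum_sub (4 * k - 1) (2 * k) (by omega)
  have h2 := sum_sub (4 * k) (2 * k) (by omega)
  have h3 := sum_add (2 * k) (2 * k + 1)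
  obtain ⟨d, rfl⟩ : ∃ d, k = d + 1 := ⟨k - 1, by omega⟩
  have e : 4 * (d + 1) - 1 = 4 * d + 3 := by omega
  unfold windw
  rw [e] at h1 ⊢
  rw [List.sum_append, List.sum_append]
  nlinarith

theorem perm_ord {w : List ℕ} (h : WF w) : (ord w).Perm (List.range w.length) := by
  refine (List.perm_ext_iff_of_nodup ?_ List.nodup_range).2 fun o => ?_
  · refine List.nodup_flatMap.2 ⟨fun v _ => List.nodup_range.filter _, ?_⟩
    refine List.nodup_range.imp fun {a b} hab => ?_
    intro x hx hx'
    simp only [occ, List.mem_filter, decide_eq_true_eq] at hx hx'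
    exact hab (hx.2.symm.trans hx'.2)
  · simp only [ord, occ, List.mem_flatMap, List.mem_filter, List.mem_range, decide_eq_true_eq]
    refine ⟨fun ⟨v, _, h, _⟩ => h, fun ho => ⟨_, h.2 _ ?_, ho, rfl⟩⟩
    rw [List.getD_eq_getElem _ _ ho]
    exact List.getElem_mem ho

theorem perm_units (m : ℕ) : ((List.range (3 * m)).flatMap fun o => un (2 * (o / 3) + 1)).Perm
    (ow 1 m ++ ow 1 m ++ ow 1 m) := by
  refine List.perm_iff_count.2 fun j => ?_
  induction m with
  | zero => simp [ow]
  | succ m ih =>
    have e : List.range (3 * (m + 1)) = List.range (3 * m) ++ [3 * m, 3 * m + 1, 3 * m + 2] := by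
      rw [show 3 * (m + 1) = 3 * m + 1 + 1 + 1 by ring, List.range_succ, List.range_succ,
        List.range_succ]
      simp
    have e0 : 2 * (3 * m / 3) + 1 = 1 + 2 * m := by omega
    have e1 : 2 * ((3 * m + 1) / 3) + 1 = 1 + 2 * m := by omega
    have e2 : 2 * ((3 * m + 2) / 3) + 1 = 1 + 2 * m := by omega
    rw [e, List.flatMap_append, List.count_append, ih, ow_succ]
    simp only [List.flatMap_cons, List.flatMap_nil, e0, e1, e2, List.count_append, List.count_nil]
    omega

/-- The sizes of the inner tokens. -/
def mid (w : List ℕ) : List ℕ :=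
  (p1a (pk w) (pm w) ++ p1b (pk w) (pm w)) ++ [1] ++
    ((ord w).flatMap fun o => un (2 * (o / 3) + 1)) ++ (p2a (pk w) ++ p2b (pk w) (pm w))

theorem snd_toks (w : List ℕ) : (toks w).map Prod.snd = 0 :: (mid w ++ [0]) := by
  have e : ((ord w).flatMap (utok w)).map Prod.snd =
      (ord w).flatMap fun o => un (2 * (o / 3) + 1) := by
    rw [List.map_flatMap]
    simp only [utok, snd_sq]
  simp only [toks, mid, List.map_append, snd_sq, e, List.map_cons, List.map_nil, List.cons_append,
    List.nil_append]

theorem perm_mid {w : List ℕ} (h : WF w) : (mid w).Perm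
    ((p1a (pk w) (pm w) ++ p1b (pk w) (pm w)) ++ [1] ++
      (ow 1 (pm w) ++ ow 1 (pm w) ++ ow 1 (pm w)) ++ (p2a (pk w) ++ p2b (pk w) (pm w))) := by
  refine List.Perm.append_right _ (List.Perm.append_left _ ?_)
  refine ((perm_ord h).flatMap_right _).trans ?_
  obtain ⟨m, -, hm⟩ := h.1
  have : pm w = m := by unfold pm; omega
  rw [this, hm]
  exact perm_units m

theorem params {w : List ℕ} (h : WF w) : 1 ≤ pm w ∧ pm w < pk w := by
  obtain ⟨m, h1, hm⟩ := h.1
  have e : pm w = m := by unfold pm; omega
  unfold pk pK
  rw [e, hm]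
  exact ⟨h1, by nlinarith⟩

end CNT

open CNT

theorem stWORD : St_WORD := by
  intro F ps h
  have h0 : (full F ps).count 0 = 2 * F + 2 + (ps.map Prod.snd).sum := by
    simp only [full, List.count_append, count_lw0, List.count_replicate_self]
    omega
  refine ⟨by rw [card_hs, h0], ?_, h0, ?_, ?_⟩
  · have e := bonds_rep0 F [] (by simp)
    rw [List.append_nil] at e
    rw [full, List.append_assoc, bonds_rep0 _ _ (head_lw ps h _), bonds_lw, e]
    simp [bonds, bits]
    omega
  · simp [full, List.count_append, count_lw1, List.count_replicate]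
  · intro x hx
    simp only [full, List.mem_append, List.mem_replicate] at hx
    rcases hx with (hx | hx) | hx
    · omega
    · exact le_lw ps x hx
    · omega

theorem stCNT : St_CNT := by
  intro w h
  obtain ⟨hm, hk⟩ := params h
  have hp := perm_mid h
  have hs := snd_toks w
  have hl : (toks w).length = (mid w).length + 2 := by
    rw [← List.length_map (f := Prod.snd), hs]
    simp
  have hg : ∀ i, ((toks w).getD i (1, 1)).2 = (0 :: (mid w ++ [0])).getD i 1 := fun i => by
    rw [← hs]
    exact (List.getD_map (toks w) (1, 1) Prod.snd).symm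
  generalize hk' : pk w = k at *
  generalize hm' : pm w = m at *
  obtain ⟨n, hn⟩ : ∃ n, 3 * k = m + n + 1 := ⟨3 * k - m - 1, by omega⟩
  have e1 : 3 * k - m - 1 = n := by omega
  have e2 : 3 * k - m = n + 1 := by omega
  refine ⟨?_, ?_, ?_, ?_, ?_, ?_⟩
  · rw [hl, hp.length_eq, pL, hk']
    simp only [p1a, p1b, p2a, p2b, aw, ballw, List.length_append, List.length_reverse, len_ow,
      len_windw, List.length_cons, List.length_nil]
    omega
  · rw [hs, List.sum_cons, List.sum_append, hp.sum_eq, pL, hk']
    have s1 := sum_ow 1 (3 * k)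
    have s2 := sum_ow 1 m
    have s3 := sum_ow (2 * m + 1) n
    have s4 := sum_ow (2 * m + 1) (n + 1)
    have s5 := sum_windw k (by omega)
    have e3 : 6 * k - 1 = 2 * m + 2 * n + 1 := by omega
    simp only [p1a, p1b, p2a, p2b, aw, ballw, List.sum_append, List.sum_reverse, List.sum_cons,
      List.sum_nil, e1, e3, s5]
    simp only [e2]
    have e4 : 9 * k ^ 2 = (m + n + 1) ^ 2 := by rw [← hn]; ring
    nlinarith
  · simp [toks]
  · rw [hg, hl]
    simp
  · intro i hi hi'
    rw [hg]
    obtain ⟨i, rfl⟩ : ∃ j, i = j + 1 := ⟨i - 1, by omega⟩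
    have hi2 : i < (mid w).length := by omega
    rw [List.getD_cons_succ, List.getD_append _ _ _ _ hi2, List.getD_eq_getElem _ _ hi2]
    have hx := hp.subset (List.getElem_mem hi2)
    generalize (mid w)[i] = x at hx
    have a1 : ∀ {a n}, x ∈ ow (a + 1) n → 1 ≤ x := fun hx => by have := le_ow hx; omega
    have a0 : ∀ {n}, x ∈ ow 1 n → 1 ≤ x := fun hx => le_ow hx
    have a2 : x ∈ windw k → 1 ≤ x := fun hx => by have := le_windw hx; omega
    by_contra hc
    have b1 : ∀ a n, x ∉ ow (a + 1) n := fun _ _ hx => hc (a1 hx)
    have b0 : ∀ n, x ∉ ow 1 n := fun _ hx => hc (a0 hx)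
    have b2 : x ∉ windw k := fun hx => hc (a2 hx)
    simp only [p1a, p1b, p2a, p2b, aw, ballw, List.mem_append, List.mem_reverse, List.mem_cons,
      List.not_mem_nil, b0, b1, b2, false_or, or_false] at hx
    omega
  · intro j h1 h2
    have c0 : (windw k).count j = 0 :=
      List.count_eq_zero.2 fun hx => by have := le_windw hx; omega
    have c1 : ∀ n, (ow (2 * m + 1) n).count j = 0 := fun n =>
      List.count_eq_zero.2 fun hx => by have := le_ow hx; omega
    have c2 : (ow 1 m).count j = 2 := by rw [count_ow, if_pos (by omega)]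
    have c3 : (ow 1 (3 * k)).count j = 2 := by rw [count_ow, if_pos (by omega)]
    rw [hs, List.count_cons, List.count_append, hp.count_eq]
    simp only [p1a, p1b, p2a, p2b, aw, ballw, List.count_append, List.count_reverse,
      List.count_cons, List.count_nil, c0, c1, c2, c3, beq_iff_eq]
    split_ifs <;> omega

end Pool.Agent.Lib.FCC
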