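import Pool.Agent.Lib.FCC.Calc

/-! Completeness: a satisfying assignment gives a folding whose `H` set is the octahedron. -/

namespace Pool.Agent.Lib.FCC

open Pool.Agent.Lib.MP_dec383_lc (hs bonds)

namespace COMPLETE

/-- The items: words, ports, covered sets, private cells and private heights. -/
structure Items where
  L : ℕ
  n : ℕ
  I : ℕ → List ℕ
  G : ℕ → ℕ
  st : ℕ → ℕ
  en : ℕ → ℕ
  A : ℕ → Set Pt
  S : ℕ → Set Pt
  B : ℕ → Set Pt
  HE : ℕ → Set ℕ

namespace Items

variable (X : Items)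

structure Ok : Prop where
  hs : ∀ o < X.n, ∀ o' < X.n, X.st o = X.st o' → o = o'
  he : ∀ o < X.n, ∀ o' < X.n, X.en o = X.en o' → o = o'
  hc : ∀ o < X.n, ∀ o' < X.n, X.en o = X.st o' → o = o'
  hH : ∀ o < X.n, ∀ o' < X.n, o ≠ o' → Disjoint (X.HE o) (X.HE o')
  hB : ∀ o o', o ≠ o' → Disjoint (X.B o) (X.B o')
  hG : ∀ o P E, Disjoint (GT X.L P E) (X.B o)
  far : ∀ o, ∀ p ∈ X.B o, X.L + 4 ≤ nrm p

def TT (D : Set ℕ) (p : ℕ) : Set Pt :=
  GT X.L {u | ∃ o ∈ D, u = X.st o ∨ o ≠ p ∧ u = X.en o} {e | ∃ o ∈ D, e ∈ X.HE o} ∪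
    {x | ∃ o ∈ D, x ∈ X.B o}

def Lk (p o : ℕ) : Prop := X.en p ≠ X.st p ∧ ∃ a b, ∃ e ∈ X.HE o,
  Seg (List.replicate (X.G o) 2) a b ∅ ∅ (GT X.L {X.en p, X.st o} {e}) ∧
    adj (psite X.L (X.en p)) a ∧ adj b (psite X.L (X.st o))

def Sg (o : ℕ) : Prop :=
  Seg (X.I o) (psite X.L (X.st o)) (psite X.L (X.en o)) (X.A o) (X.S o) (X.B o)

variable {X}

theorem step (h : X.Ok) {W : List ℕ} {u : Pt} {p o : ℕ} {A S : Set Pt} {D : Set ℕ}
    (h0 : Seg W u (psite X.L (X.en p)) A S (X.TT D p)) (hp : p ∈ D) (hD : ∀ o ∈ D, o < X.n)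
    (ho : o < X.n) (hn : o ∉ D) (hl : X.Lk p o) (hg : X.Sg o) :
    Seg (W ++ (List.replicate (X.G o) 2 ++ X.I o)) u (psite X.L (X.en o)) (A ∪ X.A o)
      (S ∪ X.S o) (X.TT (insert o D) o) := by
  obtain ⟨hne, a, b, e, he, h1, h2, h3⟩ := hl
  refine (h0.append (h1.append hg h3 (h.hG o _ _)) h2 ?_).mono (by simp) (by simp) ?_
  · refine Set.disjoint_union_left.2 ⟨Set.disjoint_union_right.2 ⟨GT_disjoint ?_ ?_, h.hG o _ _⟩,
      Set.disjoint_union_right.2 ⟨?_, ?_⟩⟩
    · rw [Set.disjoint_left]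
      rintro _ ⟨q, hq, rfl | ⟨h4, rfl⟩⟩ (h5 | h5)
      · obtain rfl := h.hc p (hD p hp) q (hD q hq) h5.symm
        exact hne h5.symm
      · exact hn (h.hs q (hD q hq) o ho h5 ▸ hq)
      · exact h4 (h.he q (hD q hq) p (hD p hp) h5)
      · exact hn (h.hc q (hD q hq) o ho h5 ▸ hq)
    · rw [Set.disjoint_left]
      rintro _ ⟨q, hq, h4⟩ rfl
      exact Set.disjoint_left.1 (h.hH q (hD q hq) o ho fun e => hn (e ▸ hq)) h4 he
    · rw [Set.disjoint_left]
      rintro x ⟨q, -, h4⟩ h5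
      exact Set.disjoint_left.1 (h.hG q _ _) h5 h4
    · rw [Set.disjoint_left]
      rintro x ⟨q, hq, h4⟩
      exact Set.disjoint_left.1 (h.hB q o fun e => hn (e ▸ hq)) h4
  · rintro x ((hx | ⟨q, hq, hx⟩) | hx | hx)
    · refine .inl (GT_mono ?_ ?_ hx)
      · rintro _ ⟨q, hq, rfl | ⟨-, rfl⟩⟩
        exacts [⟨q, .inr hq, .inl rfl⟩, ⟨q, .inr hq, .inr ⟨fun e => hn (e ▸ hq), rfl⟩⟩]
      · rintro _ ⟨q, hq, h4⟩
        exact ⟨q, .inr hq, h4⟩
    · exact .inr ⟨q, .inr hq, hx⟩
    · refine .inl (GT_mono ?_ ?_ hx)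
      · rintro _ (rfl | rfl)
        exacts [⟨p, .inr hp, .inr ⟨fun e => hn (e ▸ hp), rfl⟩⟩, ⟨o, .inl rfl, .inl rfl⟩]
      · rintro _ rfl
        exact ⟨o, .inl rfl, he⟩
    · exact .inr ⟨o, .inl rfl, hx⟩

theorem run (h : X.Ok) {u : Pt} (l : List ℕ) : ∀ (W : List ℕ) (p : ℕ) (A S : Set Pt) (D : Set ℕ),
    Seg W u (psite X.L (X.en p)) A S (X.TT D p) → p ∈ D → (∀ o ∈ D, o < X.n) →
    (∀ o ∈ l, o < X.n ∧ o ∉ D ∧ X.Sg o) → l.Nodup → (p :: l).IsChain X.Lk →
    Seg (W ++ l.flatMap fun o => List.replicate (X.G o) 2 ++ X.I o) u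
      (psite X.L (X.en (l.getLastD p))) (A ∪ {x | ∃ o ∈ l, x ∈ X.A o})
      (S ∪ {x | ∃ o ∈ l, x ∈ X.S o}) {x | X.L + 4 ≤ nrm x} := by
  induction l with
  | nil =>
    intro W p A S D h0 _ _ _ _ _
    refine h0.congr (by simp) rfl rfl (by simp) (by simp) ?_
    rintro x (hx | ⟨q, -, hx⟩)
    exacts [hx.2.1, h.far q x hx]
  | cons o l ih =>
    intro W p A S D h0 hp hD hl hn hc
    obtain ⟨h1, h2, h3⟩ := hl o (by simp)
    rw [List.isChain_cons_cons] at hc
    rw [List.nodup_cons] at hn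
    refine (ih _ o _ _ (insert o D) (step h h0 hp hD h1 h2 hc.1 h3) (.inl rfl) ?_ ?_ hn.2
      hc.2).congr (by simp) rfl (by rw [List.getLastD_cons]) ?_ ?_ subset_rfl
    · rintro q (rfl | hq)
      exacts [h1, hD q hq]
    · intro q hq
      obtain ⟨h4, h5, h6⟩ := hl q (by simp [hq])
      refine ⟨h4, ?_, h6⟩
      rintro (rfl | h7)
      exacts [hn.1 hq, h5 h7]
    all_goals
      rintro x (hx | ⟨q, hq, hx⟩)
      · exact .inl (.inl hx)
      · rcases List.mem_cons.1 hq with rfl | hq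
        exacts [.inl (.inr hx), .inr ⟨q, hq, hx⟩]

end Items

/-! The order of the occurrences -/

theorem mem_occ {w : List ℕ} {v o : ℕ} : o ∈ occ w v ↔ o < w.length ∧ w.getD o 0 = v := by
  simp [occ]

theorem mem_ord {w : List ℕ} (hw : WF w) {o : ℕ} : o ∈ ord w ↔ o < w.length := by
  simp only [ord, List.mem_flatMap, mem_occ, List.mem_range]
  refine ⟨fun ⟨_, _, h, _⟩ => h, fun h => ⟨_, hw.2 _ ?_, h, rfl⟩⟩
  rw [List.getD_eq_getElem _ _ h]
  exact List.getElem_mem h

theorem nodup_ord (w : List ℕ) : (ord w).Nodup := by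
  rw [ord, List.nodup_flatMap]
  refine ⟨fun v _ => List.nodup_range.filter _, List.nodup_range.imp fun {a b} e => ?_⟩
  intro o h1 h2
  exact e ((mem_occ.1 h1).2.symm.trans (mem_occ.1 h2).2)

/-- A repeated variable is preceded by an occurrence of the same variable. -/
def Rp (w : List ℕ) (p o : ℕ) : Prop := (∃ o' < o, w.getD o' 0 = w.getD o 0) →
  p < w.length ∧ w.getD p 0 = w.getD o 0

theorem chain_occ (w : List ℕ) (v x : ℕ) : (x :: occ w v).IsChain (Rp w) := by
  rw [List.isChain_cons]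
  refine ⟨fun h hh => ?_, List.Pairwise.isChain (List.pairwise_of_forall_mem_list ?_)⟩
  · rintro ⟨o, h1, h2⟩
    have h3 : (occ w v).Pairwise (· < ·) := List.pairwise_lt_range.filter _
    have h4 := mem_occ.1 (List.mem_of_mem_head? hh)
    have h5 : o ∈ occ w v := mem_occ.2 ⟨h1.trans h4.1, h2.trans h4.2⟩
    rw [← List.cons_head?_tail hh] at h3 h5
    rcases List.mem_cons.1 h5 with rfl | h5
    · omega
    · have := (List.pairwise_cons.1 h3).1 o h5
      omega
  · exact fun a ha b hb _ => ⟨(mem_occ.1 ha).1, (mem_occ.1 ha).2.trans (mem_occ.1 hb).2.symm⟩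

theorem chain_ord (w : List ℕ) (vs : List ℕ) :
    ∀ x, (x :: vs.flatMap (occ w)).IsChain (Rp w) := by
  induction vs with
  | nil => simp
  | cons v vs ih =>
    intro x
    rw [List.flatMap_cons, ← List.cons_append, List.isChain_append]
    refine ⟨chain_occ w v x, (ih x).tail, fun a _ b hb => ?_⟩
    exact (List.isChain_cons.1 (ih a)).1 b hb

/-! Slots -/

theorem exists_slot {w : List ℕ} (hw : WF w) (hx : X3 w) : ∃ sl : ℕ → ℕ, (∀ o, sl o < 3) ∧
    (∀ o o', o / 3 = o' / 3 → sl o = sl o' → o = o') ∧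
    (∀ i, ∀ s < 3, ∃ o, o / 3 = i ∧ sl o = s) ∧
    ∀ o < w.length, ∀ o' < w.length, w.getD o 0 = w.getD o' 0 → (sl o = 0 ↔ sl o' = 0) := by
  obtain ⟨al, h⟩ := hx
  obtain ⟨⟨m, -, hm⟩, -⟩ := hw
  have : ∀ i, ∃ t < 3, 3 * i + 2 < w.length → ∀ r < 3,
      (al (w.getD (3 * i + r) 0) = true ↔ r = t) := by
    intro i
    by_cases hi : 3 * i + 2 < w.length
    · have := h i hi
      cases h0 : al (w.getD (3 * i) 0) <;> cases h1 : al (w.getD (3 * i + 1) 0) <;>
        cases h2 : al (w.getD (3 * i + 2) 0) <;> simp only [h0, h1, h2] at this <;>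
        try exact absurd this (by decide)
      · refine ⟨2, by omega, fun _ r hr => ?_⟩
        interval_cases r <;> simp only [Nat.add_zero, h0, h1, h2] <;> decide
      · refine ⟨1, by omega, fun _ r hr => ?_⟩
        interval_cases r <;> simp only [Nat.add_zero, h0, h1, h2] <;> decide
      · refine ⟨0, by omega, fun _ r hr => ?_⟩
        interval_cases r <;> simp only [Nat.add_zero, h0, h1, h2] <;> decide
    · exact ⟨0, by omega, fun h => absurd h hi⟩
  choose t ht h3 using this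
  have key : ∀ o < w.length, ((o % 3 + 3 - t (o / 3)) % 3 = 0 ↔ al (w.getD o 0) = true) := by
    intro o ho
    have := h3 (o / 3) (by omega) (o % 3) (by omega)
    rw [show 3 * (o / 3) + o % 3 = o by omega] at this
    have := ht (o / 3)
    rw [‹al _ = true ↔ _›]
    omega
  refine ⟨fun o => (o % 3 + 3 - t (o / 3)) % 3, fun o => Nat.mod_lt _ (by omega),
    fun o o' e h => ?_,
    fun i s hs => ⟨3 * i + (s + t i) % 3, by omega, ?_⟩, fun o ho o' ho' e => ?_⟩
  · simp only [e] at h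
    have := ht (o' / 3)
    omega
  · have := ht i
    simp only [show (3 * i + (s + t i) % 3) / 3 = i by omega]
    omega
  · simp only [key o ho, key o' ho', e]

/-! The items of the chain -/

section
variable (w : List ℕ) (sl : ℕ → ℕ) (A1 S1 A2 S2 : Set Pt)

def sel {α : Type} (o : ℕ) (a b c d e f : α) : α :=
  if o < w.length then a else if o = w.length then b else if o = w.length + 1 then c
  else if o = w.length + 2 then d else if o = w.length + 3 then e else f

def tri (s a b c : ℕ) : ℕ := if s = 0 then a else if s = 1 then b else c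

def items : Items where
  L := pL w
  n := w.length + 5
  I o := sel w o (pw (un (2 * (o / 3) + 1)))
    (pw (p1a (pk w) (pm w)) ++ List.replicate 3 2 ++ pw (p1b (pk w) (pm w))) (pc 1)
    (pw (p2a (pk w)) ++ List.replicate 3 2 ++ pw (p2b (pk w) (pm w))) (pc 0) (pc 0)
  G := gap w
  st o := sel w o (tri (sl o) (2 * (o / 3) + 2) (pL w - 2 * (o / 3)) (pL w + 2 * (o / 3) + 4))
    (2 * pm w + 2) (pL w + 3) 1 (6 * pk w + 2) 0
  en o := sel w o (tri (sl o) (2 * (o / 3) + 3) (pL w - 2 * (o / 3) - 1) (pL w + 2 * (o / 3) + 5))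
    (pL w + 2 * pm w + 4) (pL w + 1) (pL w - 2 * pm w) (6 * pk w + 2) (6 * pk w + 1)
  A o := sel w o (fr (sl o) '' HA (pL w) (2 * (o / 3) + 1) (2 * (o / 3) + 2)) A1
    {((pL w : ℤ), 0, 0)} A2 ∅ ∅
  S o := sel w o (fr (sl o) '' HS (pL w) (2 * (o / 3) + 1) (2 * (o / 3) + 2)) S1
    {psite (pL w) (pL w + 3), psite (pL w) (pL w + 1)} S2 {psite (pL w) (6 * pk w + 2)} ∅
  B o := sel w o ∅ {p | 2 ≤ p.2.2 ∧ pL w + 4 ≤ nrm p} ∅
    {p | p.1 < 0 ∧ p.2.2 ≤ 1 ∧ pL w + 4 ≤ nrm p} ∅ ∅
  HE o := {e | o < w.length ∧ pK w * o + 1 ≤ e ∧ e ≤ pK w * (o + 1) ∨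
    2 * (pL w * (o + 1)) ≤ e + pL w ∧ e ≤ 2 * (pL w * (o + 1))}

variable {w} {α : Type} {a b c d e f : α}

theorem sel0 {o : ℕ} (h : o < w.length) : sel w o a b c d e f = a := if_pos h

theorem sel1 : sel w w.length a b c d e f = b := by simp [sel]

theorem sel2 : sel w (w.length + 1) a b c d e f = c := by simp [sel]

theorem sel3 : sel w (w.length + 2) a b c d e f = d := by simp [sel]

theorem sel4 : sel w (w.length + 3) a b c d e f = e := by simp [sel]

theorem sel5 : sel w (w.length + 4) a b c d e f = f := by simp [sel]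

theorem nums (hw : WF w) : w.length = 3 * pm w ∧ 1 ≤ pm w ∧ pK w = 6 * pm w + 4 ∧
    pL w = 12 * pk w + 1 ∧ 30 * pm w ≤ pk w := by
  obtain ⟨⟨m, h1, h2⟩, -⟩ := hw
  have h3 : pm w = m := by rw [pm]; omega
  refine ⟨by omega, by omega, rfl, rfl, ?_⟩
  rw [pk, pK, h3, h2]
  nlinarith

theorem ports (o : ℕ) (ho : o < w.length + 5) (h3 : sl o < 3) :
    let s := (items w sl A1 S1 A2 S2).st o
    let e := (items w sl A1 S1 A2 S2).en o
    o < w.length ∧ (sl o = 0 ∧ s = 2 * (o / 3) + 2 ∧ e = 2 * (o / 3) + 3 ∨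
      sl o = 1 ∧ s = pL w - 2 * (o / 3) ∧ e = pL w - 2 * (o / 3) - 1 ∨
      sl o = 2 ∧ s = pL w + 2 * (o / 3) + 4 ∧ e = pL w + 2 * (o / 3) + 5) ∨
    o = w.length ∧ s = 2 * pm w + 2 ∧ e = pL w + 2 * pm w + 4 ∨
    o = w.length + 1 ∧ s = pL w + 3 ∧ e = pL w + 1 ∨
    o = w.length + 2 ∧ s = 1 ∧ e = pL w - 2 * pm w ∨
    o = w.length + 3 ∧ s = 6 * pk w + 2 ∧ e = 6 * pk w + 2 ∨
    o = w.length + 4 ∧ s = 0 ∧ e = 6 * pk w + 1 := by
  by_cases h : o < w.length
  · refine .inl ⟨h, ?_⟩
    simp only [items, sel0 h]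
    generalize sl o = s at h3
    interval_cases s <;> simp [tri]
  · have : o = w.length ∨ o = w.length + 1 ∨ o = w.length + 2 ∨ o = w.length + 3 ∨
      o = w.length + 4 := by omega
    rcases this with rfl | rfl | rfl | rfl | rfl <;>
      simp only [items, sel1, sel2, sel3, sel4, sel5, and_true, true_or, or_true]

variable {sl}

theorem ok (hw : WF w) (h3 : ∀ o, sl o < 3)
    (hi : ∀ o o', o / 3 = o' / 3 → sl o = sl o' → o = o') : (items w sl A1 S1 A2 S2).Ok := by
  obtain ⟨n1, n2, n3, n4, n5⟩ := nums hw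
  have hH : ∀ o o', o < o' → Disjoint ((items w sl A1 S1 A2 S2).HE o)
      ((items w sl A1 S1 A2 S2).HE o') := by
    intro o o' h
    rw [Set.disjoint_left]
    have a1 : pK w * (o + 1) ≤ pK w * o' := Nat.mul_le_mul_left _ h
    have a2 : pL w * (o + 1 + 1) ≤ pL w * (o' + 1) := Nat.mul_le_mul_left _ (by omega)
    have a3 : pL w ≤ pL w * (o + 1) := Nat.le_mul_of_pos_right _ (by omega)
    have a4 : ∀ x < w.length, pK w * (x + 1) ≤ pk w := fun x hx => Nat.mul_le_mul_left _ hx
    rw [Nat.mul_succ (pL w) (o + 1)] at a2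
    rintro e (⟨h1, h2⟩ | h1) (⟨h4, h5⟩ | h4)
    · omega
    · have := a4 o h1
      omega
    · have := a4 o' h4
      omega
    · omega
  refine ⟨?_, ?_, ?_, fun o _ o' _ e => ?_, fun o o' e => ?_, fun o P E => ?_, fun o p => ?_⟩
  iterate 3
    intro o ho o' ho' e
    have a1 := ports sl A1 S1 A2 S2 o ho (h3 o)
    have a2 := ports sl A1 S1 A2 S2 o' ho' (h3 o')
    have a3 := hi o o'
    dsimp only at a1 a2
    omega
  · rcases Nat.lt_or_gt_of_ne e with h | h
    exacts [hH _ _ h, (hH _ _ h).symm]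
  · rw [Set.disjoint_left]
    intro p
    simp only [items, sel]
    split_ifs <;> simp only [Set.mem_empty_iff_false, Set.mem_ofPred_eq, not_false_eq_true,
      implies_true, false_imp_iff] <;> omega
  · rw [Set.disjoint_left]
    rintro p ⟨h1, -, h2⟩
    simp only [items, sel]
    split_ifs <;> simp only [Set.mem_empty_iff_false, Set.mem_ofPred_eq, not_false_eq_true] <;>
      omega
  · simp only [items, sel]
    split_ifs <;> simp only [Set.mem_empty_iff_false, Set.mem_ofPred_eq, false_imp_iff] <;> omega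

theorem lk (hL : St_LINK) (hw : WF w) (h3 : ∀ o, sl o < 3)
    (hi : ∀ o o', o / 3 = o' / 3 → sl o = sl o' → o = o')
    (hz : ∀ o < w.length, ∀ o' < w.length, w.getD o 0 = w.getD o' 0 → (sl o = 0 ↔ sl o' = 0))
    {p o : ℕ} (hp : p < w.length + 5) (hp' : p ≠ w.length + 3) (ho : o < w.length + 4)
    (hr : o < w.length → Rp w p o) : (items w sl A1 S1 A2 S2).Lk p o := by
  obtain ⟨n1, n2, n3, n4, n5⟩ := nums hw
  have a1 := ports sl A1 S1 A2 S2 p hp (h3 p)
  have a2 := ports sl A1 S1 A2 S2 o (Nat.lt_succ_of_lt ho) (h3 o)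
  have a3 := hi p o
  dsimp only at a1 a2
  refine ⟨by omega, ?_⟩
  generalize (items w sl A1 S1 A2 S2).en p = u1 at *
  generalize (items w sl A1 S1 A2 S2).st o = u2 at *
  have b1 : Port (pL w) u1 := by unfold Port; omega
  have b2 : Port (pL w) u2 := by unfold Port; omega
  have b3 : u1 ≠ u2 := by omega
  obtain ⟨d, hd⟩ : ∃ d, d = plen (pL w) u1 + plen (pL w) u2 + (u1 - u2) + (u2 - u1) := ⟨_, rfl⟩
  have key : d + 2 ≤ gap w o ∧ (gap w o - d) / 2 ∈ (items w sl A1 S1 A2 S2).HE o := by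
    simp only [items, Set.mem_ofPred_eq]
    unfold plen at hd
    rw [gap]
    split_ifs with h
    · obtain ⟨h1, h2⟩ := h
      simp only [List.any_eq_true, List.mem_range, decide_eq_true_eq] at h2
      obtain ⟨h4, h5⟩ := hr h1 h2
      have := hz p h4 o h1 h5
      have b4 : d + 2 ≤ 2 * pK w := by omega
      rw [Nat.mul_assoc, Nat.mul_succ (pK w) o]
      omega
    · have b4 : d ≤ 2 * pL w := by omega
      have a4 : pL w ≤ pL w * (o + 1) := Nat.le_mul_of_pos_right _ (by omega)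
      rw [Nat.mul_assoc]
      omega
  obtain ⟨a, b, h⟩ := hL (pL w) u1 u2 ((gap w o - d) / 2) ((gap w o - d) % 2) (gap w o) b1 b2 b3
    (by omega) (by omega) (by omega)
  exact ⟨a, b, _, key.2, h⟩

theorem fr_adj (s : ℕ) (p q : Pt) (h : adj p q) : adj (fr s p) (fr s q) := by
  unfold adj at *
  rcases s with _ | _ | s <;> simp only [fr] <;> omega

theorem fr_inj (s : ℕ) : Function.Injective (fr s) := by
  rintro ⟨a, b, c⟩ ⟨d, e, f⟩ h
  rcases s with _ | _ | s <;> simp only [fr, Prod.mk.injEq] at h ⊢ <;> omega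

theorem sg_unit (hO : St_OW) (hw : WF w) (h3 : ∀ o, sl o < 3) {o : ℕ} (ho : o < w.length) :
    (items w sl A1 S1 A2 S2).Sg o := by
  obtain ⟨n1, n2, n3, n4, n5⟩ := nums hw
  have := (hO (pL w) (2 * (o / 3) + 1) 1 (2 * (o / 3) + 2) (by omega) le_rfl rfl (by omega)).map _
    (fr_adj (sl o)) (fr_inj _)
  simp only [Items.Sg, items, sel0 ho]
  have h := h3 o
  refine this.congr (by simp [ow]) ?_ ?_ subset_rfl subset_rfl (by simp) <;>
  · generalize sl o = s at h
    interval_cases s <;> simp only [fr, sp, psite, tri, if_true, one_ne_zero, if_false,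
      OfNat.ofNat_ne_zero, OfNat.ofNat_ne_one] <;> split_ifs <;>
      refine Prod.ext ?_ (Prod.ext ?_ ?_) <;> dsimp only <;> omega

theorem word (hw : WF w) : lw (toks w) = pc 0 ++
    (w.length :: (w.length + 1) :: (ord w ++ [w.length + 2, w.length + 3])).flatMap fun o =>
      List.replicate ((items w sl A1 S1 A2 S2).G o) 2 ++ (items w sl A1 S1 A2 S2).I o := by
  have e : ((ord w).flatMap fun o => lw (utok w o)) = (ord w).flatMap fun o =>
      List.replicate ((items w sl A1 S1 A2 S2).G o) 2 ++ (items w sl A1 S1 A2 S2).I o :=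
    List.flatMap_congr fun o ho => by
      simp only [items, sel0 ((mem_ord hw).1 ho)]
      exact lw_sq _ (by simp [un])
  rw [List.flatMap_cons, List.flatMap_cons, List.flatMap_append, ← e, toks]
  simp only [lw_append, lw_single, lw_flatMap]
  rw [lw_sq _ (by simp [p1a, aw]), lw_sq _ (by simp [p1b, ballw]), lw_sq _ (by simp [p2a]),
    lw_sq _ (by simp [p2b, ballw])]
  simp only [items, sel1, sel2, sel3, sel4, List.flatMap_cons, List.flatMap_nil,
    List.append_assoc, List.replicate_zero, List.nil_append, List.append_nil]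

end

end COMPLETE

open COMPLETE in
theorem stCOMPLETE (hA : St_A3) (hC : St_CNT) (hW : St_WORD) (hF : St_FINAL) (hO : St_OW)
    (hI : St_FILL) (hL : St_LINK) (hP : St_PATHS) : St_COMPLETE := by
  intro w hw hx
  obtain ⟨sl, h3, hi, hsu, hz⟩ := exists_slot hw hx
  obtain ⟨n1, n2, n3, n4, n5⟩ := nums hw
  obtain ⟨A1, S1, A2, S2, p1, p2, cA, cS⟩ := hP (pk w) (pm w) (pL w) n2 (by omega) n4
  obtain ⟨v, fl⟩ := hI (pk w) (by omega)
  have lk' := fun p o => lk A1 S1 A2 S2 hL hw h3 hi hz (p := p) (o := o)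
  have fl' := fl.sym (fun p => (p.2.1, p.1, -p.2.2)) (fun p => (p.2.1, p.1, -p.2.2))
    (fun p q h => by unfold adj at *; dsimp only; omega) (by simp) (by simp)
  have s0 := (fl.revRep.app (Seg.atom (6 * (pk w : ℤ), 6 * (pk w : ℤ) + 1, 0))
    (by unfold adj; dsimp only; omega)).app (Seg.site (psite (pL w) (6 * pk w + 1)))
    (by rw [psite, if_pos (by omega)]; unfold adj; dsimp only; omega)
  have s1 := Items.run (ok A1 S1 A2 S2 hw h3 hi)
    (w.length :: (w.length + 1) :: (ord w ++ [w.length + 2, w.length + 3])) _ (w.length + 4) _ _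
    {w.length + 4} (s0.congr rfl rfl (by simp only [items, sel5]) subset_rfl subset_rfl (by simp))
    rfl (by rintro _ rfl; exact Nat.lt_succ_self _) ?_ ?_ ?_
  rotate_left
  · intro o ho
    simp only [List.mem_cons, List.mem_append, mem_ord hw, List.not_mem_nil, or_false] at ho
    refine ⟨by change o < w.length + 5; omega, by change o ≠ _; omega, ?_⟩
    rcases ho with rfl | rfl | ho | rfl | rfl
    · simpa only [Items.Sg, items, sel1] using p1
    · simp only [Items.Sg, items, sel2]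
      refine ((Seg.site _).app ((Seg.atom ((pL w : ℤ), 0, 0)).app (Seg.site _) ?_) ?_).congr rfl
        rfl rfl (by simp) ?_ subset_rfl
      · rw [psite, if_pos le_rfl]; unfold adj; dsimp only; omega
      · rw [psite, if_neg (by omega)]; unfold adj; dsimp only; omega
      · rintro _ (rfl | rfl) <;> simp
    · exact sg_unit A1 S1 A2 S2 hO hw h3 ho
    · simpa only [Items.Sg, items, sel3] using p2
    · simp only [Items.Sg, items, sel4]
      exact Seg.site _
  · simp only [List.nodup_cons, List.mem_cons, List.mem_append, mem_ord hw, List.nodup_append,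
      nodup_ord, List.not_mem_nil, List.nodup_nil]
    simp only [or_false, not_false_eq_true, and_true, true_and]
    refine ⟨by omega, by omega, by omega, fun a ha b hb => by omega⟩
  · rw [List.isChain_cons_cons, List.isChain_cons_cons, ← List.cons_append, List.isChain_append]
    refine ⟨lk' _ _ (by omega) (by omega) (by omega) (by omega),
      lk' _ _ (by omega) (by omega) (by omega) (by omega), ?_, ?_, fun a ha b hb => ?_⟩
    · refine (chain_ord w _ _).imp_of_mem_tail_imp fun a b ha hb h => ?_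
      have hb' := (mem_ord hw).1 hb
      have : a = w.length + 1 ∨ a < w.length :=
        (List.mem_cons.1 ha).imp_right (mem_ord hw).1
      exact lk' _ _ (by omega) (by omega) (by omega) fun _ => h
    · exact List.isChain_pair.2 (lk' _ _ (by omega) (by omega) (by omega) (by omega))
    · obtain rfl : w.length + 2 = b := Option.some.inj hb
      have : a = w.length + 1 ∨ a < w.length :=
        (List.mem_cons.1 (List.mem_of_mem_getLast? ha)).imp_right (mem_ord hw).1
      exact lk' _ _ (by omega) (by omega) (by omega) (by omega)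
  have e1 : (w.length :: (w.length + 1) :: (ord w ++ [w.length + 2, w.length + 3])).getLastD
      (w.length + 4) = w.length + 3 := by simp [List.getLastD_eq_getLast?, List.getLast?_cons]
  rw [e1] at s1
  have s2 := s1.appR ((Seg.atom (6 * (pk w : ℤ) + 1, 6 * (pk w : ℤ), 0)).app fl'
    (by unfold adj; dsimp only; omega)) (by
      simp only [items, sel4]; rw [psite, if_pos (by omega)]; unfold adj; dsimp only; omega)
  have tk := hC w hw
  obtain ⟨-, -, c0, c1, c2⟩ := hW (pF w) (toks w) (by simp [toks])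
  refine hF (pL w) (full (pF w) (toks w)) _ _ _ (s2.congr ?_ rfl rfl ?_ ?_ subset_rfl)
    (fun _ h => h) c2 ?_ (by rw [c1, tk.len, tk.sum]; omega)
  · rw [full, word A1 S1 A2 S2 hw (sl := sl), pF]
    nth_rw 1 [List.replicate_succ']
    simp only [List.append_assoc, List.replicate_succ, pc, List.replicate_zero, List.flatten_nil,
      List.cons_append, List.nil_append]
  · intro p hp
    by_cases h : nrm p = pL w
    · rcases cA p h with h | h | h | h | h | ⟨i, h4, s, h5, h⟩
      · exact .inl (.inr ⟨w.length, by simp, by simpa only [items, sel1] using h⟩)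
      · exact .inl (.inr ⟨w.length + 2, by simp, by simpa only [items, sel3] using h⟩)
      · exact .inl (.inl (.inl (.inr h)))
      · exact .inr (.inl h)
      · exact .inl (.inr ⟨w.length + 1, by simp, by simp only [items, sel2]; exact h⟩)
      · obtain ⟨o, rfl, rfl⟩ := hsu i s h5
        have ho : o < w.length := by omega
        exact .inl (.inr ⟨o, by simp [mem_ord hw, ho], by simpa only [items, sel0 ho] using h⟩)
    · by_cases h' : p.2.2 < 0 ∨ p.2.2 = 0 ∧ p.1 < p.2.1
      · refine .inl (.inl (.inl (.inl ⟨?_, h'⟩)))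
        simp only [InO, Set.mem_ofPred_eq] at hp ⊢
        omega
      · refine .inr (.inr ?_)
        simp only [InO, nrm, Set.mem_ofPred_eq] at hp h ⊢
        omega
  · rintro p ⟨h1, h2⟩
    rcases cS p h1 h2 with h | h | h | h | h | h | ⟨i, h4, s, h5, h⟩
    · exact .inl (.inr ⟨w.length, by simp, by simpa only [items, sel1] using h⟩)
    · exact .inl (.inr ⟨w.length + 2, by simp, by simpa only [items, sel3] using h⟩)
    · exact .inl (.inl (.inr h))
    · exact .inl (.inr ⟨w.length + 3, by simp, by simp only [items, sel4]; exact h⟩)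
    · exact .inl (.inr ⟨w.length + 1, by simp, by simp only [items, sel2]; exact .inr h⟩)
    · exact .inl (.inr ⟨w.length + 1, by simp, by simp only [items, sel2]; exact .inl h⟩)
    · obtain ⟨o, rfl, rfl⟩ := hsu i s h5
      have ho : o < w.length := by omega
      exact .inl (.inr ⟨o, by simp [mem_ord hw, ho], by simpa only [items, sel0 ho] using h⟩)
  · have := (hA (pL w)).1
    rw [c0, tk.sum, pF]
    rw [n4] at this ⊢
    nlinarith

end Pool.Agent.Lib.FCC
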