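import Pool.Agent.Lib.FCC.Blue

/-! The calculus of labelled walks. -/

namespace Pool.Agent.Lib.FCC

theorem pc_succ (a : ℕ) : pc (a + 1) = 1 :: 0 :: pc a := by
  simp [pc, List.replicate_succ]

theorem pc_succ' (a : ℕ) : pc (a + 1) = pc a ++ [0, 1] := by
  simp [pc, List.replicate_succ']

theorem pc_reverse (a : ℕ) : (pc a).reverse = pc a := by
  induction a with
  | zero => rfl
  | succ a ih => rw [pc_succ', List.reverse_append, ih, ← pc_succ', pc_succ]; rfl

theorem pw_nil : pw [] = [] := rfl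

theorem pw_cons (a : ℕ) (l : List ℕ) : pw (a :: l) = pc a ++ pw l := rfl

theorem pw_single (a : ℕ) : pw [a] = pc a := by simp [pw]

theorem pw_append (l l' : List ℕ) : pw (l ++ l') = pw l ++ pw l' := List.flatMap_append

theorem pw_reverse (l : List ℕ) : pw l.reverse = (pw l).reverse := by
  induction l with
  | nil => rfl
  | cons a l ih => rw [List.reverse_cons, pw_append, ih, pw_single, pw_cons, List.reverse_append,
      pc_reverse]

theorem pw_flatMap {α : Type} (l : List α) (F : α → List ℕ) :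
    pw (l.flatMap F) = l.flatMap fun x => pw (F x) := List.flatMap_assoc

theorem pw_map {α : Type} (l : List α) (F : α → ℕ) :
    pw (l.map F) = l.flatMap fun x => pc (F x) := List.flatMap_map _ _ _

theorem lw_append (p q : List (ℕ × ℕ)) : lw (p ++ q) = lw p ++ lw q := List.flatMap_append

theorem lw_single (g a : ℕ) : lw [(g, a)] = List.replicate g 2 ++ pc a := by simp [lw, tw]

theorem lw_flatMap {α : Type} (l : List α) (F : α → List (ℕ × ℕ)) :
    lw (l.flatMap F) = l.flatMap fun x => lw (F x) := List.flatMap_assoc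

theorem sq_cons (g a : ℕ) (l : List ℕ) : sq g (a :: l) = (g, a) :: l.map (0, ·) := rfl

theorem lw_sq (g : ℕ) {l : List ℕ} (h : l ≠ []) : lw (sq g l) = List.replicate g 2 ++ pw l := by
  obtain ⟨a, l, rfl⟩ := List.exists_cons_of_ne_nil h
  simp [sq_cons, lw, tw, pw, List.flatMap_map]

theorem map_snd_sq (g : ℕ) (l : List ℕ) : (sq g l).map Prod.snd = l := by
  cases l <;> simp [sq, Function.comp_def]

namespace Seg

variable {w w' : List ℕ} {u v u' v' : Pt} {A S T A' S' T' : Set Pt}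

theorem mono (h : Seg w u v A S T) (hA : A' ⊆ A) (hS : S' ⊆ S) (hT : T ⊆ T') :
    Seg w u v A' S' T' := by
  obtain ⟨l, h1, h2, h3, h4, h5, h6, h7, h8⟩ := h
  exact ⟨l, h1, h2, h3, h4, fun x hx => h5 x (hA hx), fun x hx => h6 x (hS hx), h7,
    fun x hx => hT (h8 x hx)⟩

theorem congr (h : Seg w u v A S T) (e : w = w') (eu : u = u') (ev : v = v') (hA : A' ⊆ A)
    (hS : S' ⊆ S) (hT : T ⊆ T') : Seg w' u' v' A' S' T' := by
  subst e eu ev
  exact h.mono hA hS hT

theorem atom (u : Pt) : Seg [0] u u {u} ∅ ∅ :=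
  ⟨[(0, u)], rfl, by simp, rfl, rfl, by simp, by simp, by simp, by simp⟩

theorem site (u : Pt) : Seg [1] u u ∅ {u} ∅ :=
  ⟨[(1, u)], rfl, by simp, rfl, rfl, by simp, by simp, by simp, by simp⟩

theorem cell (u : Pt) : Seg [2] u u ∅ ∅ {u} :=
  ⟨[(2, u)], rfl, by simp, rfl, rfl, by simp, by simp, by simp, by simp⟩

theorem append (h : Seg w u v A S T) (h' : Seg w' u' v' A' S' T') (a : adj v u')
    (d : Disjoint T T') : Seg (w ++ w') u v' (A ∪ A') (S ∪ S') (T ∪ T') := by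
  obtain ⟨l, h1, h2, h3, h4, h5, h6, h7, h8⟩ := h
  obtain ⟨l', k1, k2, k3, k4, k5, k6, k7, k8⟩ := h'
  refine ⟨l ++ l', by rw [List.map_append, h1, k1], ?_, ?_, ?_, ?_, ?_, ?_, ?_⟩
  · rw [List.map_append, List.isChain_append]
    refine ⟨h2, k2, fun x hx y hy => ?_⟩
    rw [h4] at hx
    rw [k3] at hy
    obtain rfl := Option.some.inj hx
    obtain rfl := Option.some.inj hy
    exact a
  · rw [List.map_append, List.head?_append, h3]; rfl
  · rw [List.map_append, List.getLast?_append, k4]; rfl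
  · exact fun x hx => List.mem_append.2 (hx.imp (h5 x) (k5 x))
  · exact fun x hx => List.mem_append.2 (hx.imp (h6 x) (k6 x))
  · rw [List.filter_append, List.nodup_append]
    refine ⟨h7, k7, ?_⟩
    rintro ⟨i, x⟩ hx _ hy rfl
    rw [List.mem_filter, decide_eq_true_eq] at hx hy
    obtain rfl : i = 2 := hx.2
    exact Set.disjoint_left.1 d (h8 x hx.1) (k8 x hy.1)
  · exact fun x hx => (List.mem_append.1 hx).imp (h8 x) (k8 x)

/-- Concatenation of two walks without letters `2`. -/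
theorem app (h : Seg w u v A S ∅) (h' : Seg w' u' v' A' S' ∅) (a : adj v u') :
    Seg (w ++ w') u v' (A ∪ A') (S ∪ S') ∅ :=
  (h.append h' a (by simp)).mono subset_rfl subset_rfl (by simp)

/-- Concatenation where only the second walk has letters `2`. -/
theorem appL (h : Seg w u v A S ∅) (h' : Seg w' u' v' A' S' T') (a : adj v u') :
    Seg (w ++ w') u v' (A ∪ A') (S ∪ S') T' :=
  (h.append h' a (by simp)).mono subset_rfl subset_rfl (by simp)

/-- Concatenation where only the first walk has letters `2`. -/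
theorem appR (h : Seg w u v A S T) (h' : Seg w' u' v' A' S' ∅) (a : adj v u') :
    Seg (w ++ w') u v' (A ∪ A') (S ∪ S') T :=
  (h.append h' a (by simp)).mono subset_rfl subset_rfl (by simp)

theorem rev (h : Seg w u v A S T) : Seg w.reverse v u A S T := by
  obtain ⟨l, h1, h2, h3, h4, h5, h6, h7, h8⟩ := h
  refine ⟨l.reverse, by rw [List.map_reverse, h1], ?_, ?_, ?_, ?_, ?_, ?_, ?_⟩
  · rw [List.map_reverse, List.isChain_reverse]
    exact h2.imp fun _ _ h => adj_symm h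
  · rwa [List.map_reverse, List.head?_reverse]
  · rwa [List.map_reverse, List.getLast?_reverse]
  · exact fun x hx => List.mem_reverse.2 (h5 x hx)
  · exact fun x hx => List.mem_reverse.2 (h6 x hx)
  · rwa [List.filter_reverse, List.nodup_reverse]
  · exact fun x hx => h8 x (List.mem_reverse.1 hx)

theorem revPw {l : List ℕ} (h : Seg (pw l) u v A S T) : Seg (pw l.reverse) v u A S T :=
  pw_reverse l ▸ h.rev

theorem revPc {a : ℕ} (h : Seg (pc a) u v A S T) : Seg (pc a) v u A S T :=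
  pc_reverse a ▸ h.rev

theorem revRep {n c : ℕ} (h : Seg (List.replicate n c) u v A S T) :
    Seg (List.replicate n c) v u A S T := by
  simpa using h.rev

theorem map (φ : Pt → Pt) (hφ : ∀ p q, adj p q → adj (φ p) (φ q)) (hi : Function.Injective φ)
    (h : Seg w u v A S T) : Seg w (φ u) (φ v) (φ '' A) (φ '' S) (φ '' T) := by
  obtain ⟨l, h1, h2, h3, h4, h5, h6, h7, h8⟩ := h
  have e : (l.map fun e => (e.1, φ e.2)).map Prod.snd = (l.map Prod.snd).map φ := by
    simp [Function.comp_def]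
  refine ⟨l.map fun e => (e.1, φ e.2), by simpa [Function.comp_def] using h1, ?_, ?_, ?_, ?_, ?_,
    ?_, ?_⟩
  · rw [e, List.isChain_map]
    exact h2.imp fun _ _ h => hφ _ _ h
  · rw [e, List.head?_map, h3]; rfl
  · rw [e, List.getLast?_map, h4]; rfl
  · rintro _ ⟨x, hx, rfl⟩
    exact List.mem_map.2 ⟨_, h5 x hx, rfl⟩
  · rintro _ ⟨x, hx, rfl⟩
    exact List.mem_map.2 ⟨_, h6 x hx, rfl⟩
  · rw [List.filter_map]
    refine List.Nodup.map ?_ h7
    rintro ⟨i, x⟩ ⟨j, y⟩ h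
    obtain ⟨h9, h10⟩ := Prod.mk.inj h
    exact Prod.ext h9 (hi h10)
  · intro x hx
    obtain ⟨⟨i, y⟩, h9, h10⟩ := List.mem_map.1 hx
    obtain ⟨rfl, rfl⟩ := Prod.mk.inj h10
    exact ⟨y, h8 y h9, rfl⟩

/-- Transport along a symmetry `φ` with inverse `ψ`, for a walk without letters `2`. -/
theorem sym (φ ψ : Pt → Pt) (hφ : ∀ p q, adj p q → adj (φ p) (φ q)) (h1 : ∀ p, ψ (φ p) = p)
    (h2 : ∀ p, φ (ψ p) = p) (h : Seg w u v A S ∅) :
    Seg w (φ u) (φ v) {p | ψ p ∈ A} {p | ψ p ∈ S} ∅ :=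
  (h.map φ hφ (Function.LeftInverse.injective h1)).mono (fun p hp => ⟨_, hp, h2 p⟩)
    (fun p hp => ⟨_, hp, h2 p⟩) (by simp)

theorem chain (n : ℕ) (W : ℕ → List ℕ) (s e : ℕ → Pt) (A S T : ℕ → Set Pt)
    (h : ∀ i ≤ n, Seg (W i) (s i) (e i) (A i) (S i) (T i)) (ha : ∀ i < n, adj (e i) (s (i + 1)))
    (hd : ∀ i ≤ n, ∀ j < i, Disjoint (T j) (T i)) :
    Seg ((List.range (n + 1)).flatMap W) (s 0) (e n) {p | ∃ i ≤ n, p ∈ A i}
      {p | ∃ i ≤ n, p ∈ S i} {p | ∃ i ≤ n, p ∈ T i} := by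
  induction n with
  | zero =>
    refine (h 0 le_rfl).congr (by simp) rfl rfl ?_ ?_ fun p hp => ⟨0, le_rfl, hp⟩ <;>
    · rintro p ⟨i, hi, hp⟩
      rwa [Nat.le_zero.1 hi] at hp
  | succ n ih =>
    have h1 := (ih (fun i hi => h i (by omega)) (fun i hi => ha i (by omega))
      fun i hi => hd i (by omega)).append (h (n + 1) le_rfl) (ha n (by omega)) (by
        rw [Set.disjoint_left]
        rintro p ⟨i, hi, hp⟩
        exact Set.disjoint_left.1 (hd (n + 1) le_rfl i (by omega)) hp)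
    refine h1.congr (by rw [List.range_succ (n := n + 1), List.flatMap_append]; simp) rfl rfl
      ?_ ?_ ?_
    · rintro p ⟨i, hi, hp⟩
      rcases Nat.le_succ_iff.1 hi with h2 | rfl
      exacts [.inl ⟨i, h2, hp⟩, .inr hp]
    · rintro p ⟨i, hi, hp⟩
      rcases Nat.le_succ_iff.1 hi with h2 | rfl
      exacts [.inl ⟨i, h2, hp⟩, .inr hp]
    · rintro p (⟨i, hi, hp⟩ | hp)
      exacts [⟨i, by omega, hp⟩, ⟨n + 1, le_rfl, hp⟩]

/-- A chain of `n ≥ 1` walks without letters `2`. -/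
theorem chain0 {n : ℕ} (hn : 1 ≤ n) (W : ℕ → List ℕ) (s e : ℕ → Pt) (A S : ℕ → Set Pt)
    (h : ∀ i < n, Seg (W i) (s i) (e i) (A i) (S i) ∅)
    (ha : ∀ i, i + 1 < n → adj (e i) (s (i + 1))) :
    Seg ((List.range n).flatMap W) (s 0) (e (n - 1)) {p | ∃ i < n, p ∈ A i}
      {p | ∃ i < n, p ∈ S i} ∅ := by
  obtain ⟨n, rfl⟩ : ∃ k, n = k + 1 := ⟨n - 1, by omega⟩
  refine (chain n W s e A S (fun _ => ∅) (fun i hi => h i (by omega)) (fun i hi => ha i (by omega))
    (by simp)).mono ?_ ?_ (by simp) <;>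
  · rintro p ⟨i, hi, hp⟩
    exact ⟨i, by omega, hp⟩

/-- A snake: row `i` joins `s i` and `e i`; the rows are traversed alternately. -/
theorem snake {n : ℕ} (hn : 1 ≤ n) (W : ℕ → List ℕ) (s e : ℕ → Pt) (A S : ℕ → Set Pt)
    (hW : ∀ i, (W i).reverse = W i) (h : ∀ i < n, Seg (W i) (s i) (e i) (A i) (S i) ∅)
    (hs : ∀ i, i + 1 < n → adj (s i) (s (i + 1))) (he : ∀ i, i + 1 < n → adj (e i) (e (i + 1))) :
    Seg ((List.range n).flatMap W) (s 0) (if n % 2 = 0 then s (n - 1) else e (n - 1))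
      {p | ∃ i < n, p ∈ A i} {p | ∃ i < n, p ∈ S i} ∅ := by
  refine (chain0 hn W (fun i => if i % 2 = 0 then s i else e i)
    (fun i => if i % 2 = 0 then e i else s i) A S (fun i hi => ?_) fun i hi => ?_).congr rfl
    (by simp) ?_ subset_rfl subset_rfl subset_rfl
  · by_cases h1 : i % 2 = 0
    · simpa only [h1, if_true] using h i hi
    · simpa only [h1, if_false, hW] using (h i hi).rev
  · by_cases h1 : i % 2 = 0
    · simpa only [h1, if_true, show ¬ (i + 1) % 2 = 0 by omega, if_false] using he i hi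
    · simpa only [h1, if_false, show (i + 1) % 2 = 0 by omega, if_true] using hs i hi
  · by_cases h1 : n % 2 = 0
    · simp only [h1, if_true, show ¬ (n - 1) % 2 = 0 by omega, if_false]
    · simp only [h1, if_false, show (n - 1) % 2 = 0 by omega, if_true]

/-- A piece with sites `P t` and atoms `H t`. -/
theorem piece (a : ℕ) (P H : ℕ → Pt) (h1 : ∀ t < a, adj (P t) (H t))
    (h2 : ∀ t < a, adj (H t) (P (t + 1))) :
    Seg (pc a) (P 0) (P a) {p | ∃ t < a, p = H t} {p | ∃ t ≤ a, p = P t} ∅ := by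
  induction a with
  | zero => exact (site (P 0)).mono (by simp) (by simp) subset_rfl
  | succ a ih =>
    refine ((ih (fun t ht => h1 t (by omega)) fun t ht => h2 t (by omega)).app
      ((atom (H a)).app (site (P (a + 1))) (h2 a (by omega))) (h1 a (by omega))).congr
      (pc_succ' a).symm rfl rfl ?_ ?_ subset_rfl
    · rintro p ⟨i, hi, hp⟩
      rcases Nat.lt_succ_iff_lt_or_eq.1 hi with h3 | rfl
      exacts [.inl ⟨i, h3, hp⟩, .inr (.inl hp)]
    · rintro p ⟨i, hi, hp⟩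
      rcases Nat.le_succ_iff.1 hi with h3 | rfl
      exacts [.inl ⟨i, h3, hp⟩, .inr (.inr hp)]

theorem flatMap_single (n c : ℕ) :
    ((List.range n).flatMap fun _ => [c]) = List.replicate n c := by
  induction n with
  | zero => rfl
  | succ n ih => rw [List.range_succ, List.flatMap_append, ih, List.replicate_succ']; rfl

/-- A run of `n ≥ 1` atoms. -/
theorem run {n : ℕ} (hn : 1 ≤ n) (H : ℕ → Pt) (h : ∀ t, t + 1 < n → adj (H t) (H (t + 1))) :
    Seg (List.replicate n 0) (H 0) (H (n - 1)) {p | ∃ t < n, p = H t} ∅ ∅ :=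
  (chain0 hn (fun _ => [0]) H H (fun i => {H i}) (fun _ => ∅) (fun i _ => atom (H i)) h).congr
    (flatMap_single n 0) rfl rfl (fun _ hp => hp) (by simp) subset_rfl

/-- A run of `n ≥ 1` distinct cells. -/
theorem cells {n : ℕ} (hn : 1 ≤ n) (G : ℕ → Pt) (h : ∀ t, t + 1 < n → adj (G t) (G (t + 1)))
    (hi : ∀ i < n, ∀ j < i, G j ≠ G i) :
    Seg (List.replicate n 2) (G 0) (G (n - 1)) ∅ ∅ {p | ∃ t < n, p = G t} := by
  obtain ⟨n, rfl⟩ : ∃ k, n = k + 1 := ⟨n - 1, by omega⟩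
  refine (chain n (fun _ => [2]) G G (fun _ => ∅) (fun _ => ∅) (fun i => {G i})
    (fun i _ => cell (G i)) (fun i hi => h i (by omega)) fun i h1 j hj => ?_).congr
    (flatMap_single _ 2) rfl rfl (by simp) (by simp) ?_
  · simpa using hi i (by omega) j hj
  · rintro p ⟨i, hi, hp⟩
    exact ⟨i, by omega, hp⟩

end Seg

theorem fr_two (n : ℕ) (p : Pt) (h0 : n = 0 → False) (h1 : n = 1 → False) :
    fr n p = (p.2.2, -p.1, p.2.1) := fr.eq_3 n p h0 h1

theorem fr_zero (p : Pt) : fr 0 p = (p.1, p.2.2, p.2.1) := fr.eq_1 p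

theorem fr_one (p : Pt) : fr 1 p = (p.2.2, p.1, -p.2.1) := fr.eq_2 p

theorem GT_mono {L : ℕ} {P P' E E' : Set ℕ} (h1 : P ⊆ P') (h2 : E ⊆ E') : GT L P E ⊆ GT L P' E' := by
  rintro p ⟨a, b, ⟨c, u, hu, d⟩ | ⟨c, u, hu, d⟩⟩
  exacts [⟨a, b, .inl ⟨c, u, h1 hu, d⟩⟩, ⟨a, b, .inr ⟨c, u, h2 hu, d⟩⟩]

theorem GT_disjoint {L : ℕ} {P P' E E' : Set ℕ} (h1 : Disjoint P P') (h2 : Disjoint E E') :
    Disjoint (GT L P E) (GT L P' E') := by
  rw [Set.disjoint_left] at *
  rintro p ⟨-, -, ⟨c, u, hu, d⟩ | ⟨c, u, hu, d⟩⟩ ⟨-, -, ⟨c', u', hu', d'⟩ | ⟨c', u', hu', d'⟩⟩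
  · exact h1 hu (show u ∈ P' by rwa [show u = u' by omega])
  · omega
  · omega
  · exact h2 hu (show u ∈ E' by rwa [show u = u' by omega])

end Pool.Agent.Lib.FCC
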