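import Pool.Agent.Lib.FCC.Calc

/-! The filler: half of the equatorial slice followed by a pyramid. -/

namespace Pool.Agent.Lib.FCC

namespace FILL

theorem flatMap_rep (n m c : ℕ) :
    ((List.range n).flatMap fun _ => List.replicate m c) = List.replicate (n * m) c := by
  induction n with
  | zero => simp
  | succ n ih =>
    rw [List.range_succ, List.flatMap_append, ih, Nat.succ_mul, List.replicate_add]
    simp

/-- A tilted rectangle in the plane of height `z`. -/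
def Rect (a b z : ℤ) (n m : ℕ) : Set Pt :=
  {p | p.2.2 = z ∧ (a - p.1 + (p.2.1 - b)) % 2 = 0 ∧ 0 ≤ a - p.1 + (p.2.1 - b) ∧
    a - p.1 + (p.2.1 - b) < 2 * n ∧ 0 ≤ a - p.1 - (p.2.1 - b) ∧ a - p.1 - (p.2.1 - b) < 2 * m}

theorem row (a b z : ℤ) (m : ℕ) :
    Seg (List.replicate (m + 1) 0) (a, b, z) (a - m, b - m, z)
      {p | ∃ t : ℕ, t < m + 1 ∧ p = (a - t, b - t, z)} ∅ ∅ := by
  refine (Seg.run (n := m + 1) (by omega) (fun t => (a - t, b - t, z)) fun t _ => ?_).congr rfl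
    (by simp) (by simp) subset_rfl subset_rfl subset_rfl
  unfold adj
  dsimp only
  omega

theorem rect (a b z : ℤ) (n m : ℕ) :
    Seg (List.replicate ((n + 1) * (m + 1)) 0) (a, b, z)
      (if (n + 1) % 2 = 0 then (a - n, b + n, z) else (a - n - m, b + n - m, z))
      (Rect a b z (n + 1) (m + 1)) ∅ ∅ := by
  refine (Seg.snake (n := n + 1) (by omega) (fun _ => List.replicate (m + 1) 0)
    (fun i => (a - i, b + i, z)) (fun i => (a - i - m, b + i - m, z))
    (fun i => {p | ∃ t : ℕ, t < m + 1 ∧ p = (a - i - t, b + i - t, z)}) (fun _ => ∅)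
    (fun _ => List.reverse_replicate) (fun i _ => row (a - i) (b + i) z m) (fun i _ => ?_)
    fun i _ => ?_).congr (flatMap_rep _ _ _) (by simp) (by simp) ?_ (by simp) subset_rfl
  · unfold adj
    dsimp only
    omega
  · unfold adj
    dsimp only
    omega
  · rintro ⟨x, y, w⟩ ⟨h1, h2, h3, h4, h5, h6⟩
    dsimp only at h1 h2 h3 h4 h5 h6
    refine ⟨((a - x + (y - b)) / 2).toNat, by omega, ((a - x - (y - b)) / 2).toNat, by omega, ?_⟩
    simp only [Prod.mk.injEq]
    omega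

/-- The pyramid of radius `r` that hangs below the plane of height `z`. -/
def Pyr (r : ℕ) (z : ℤ) : Set Pt :=
  {p | p.2.2 ≤ z ∧ (p.1.natAbs + p.2.1.natAbs : ℤ) + (z - p.2.2) ≤ r ∧
    ((p.1.natAbs + p.2.1.natAbs : ℤ) + (z - p.2.2)) % 2 = r % 2}

def cnt : ℕ → ℕ
  | 0 => 1
  | r + 1 => (r + 2) * (r + 2) + cnt r

theorem six_cnt (r : ℕ) : 6 * cnt r = (r + 1) * (r + 2) * (2 * r + 3) := by
  induction r with
  | zero => rfl
  | succ r ih => rw [cnt, Nat.mul_add, ih]; ring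

def sw (p : Pt) : Pt := (p.2.1, p.1, p.2.2)

def ng (p : Pt) : Pt := (-p.1, p.2.1, p.2.2)

theorem swap {w : List ℕ} {r : ℕ} {z : ℤ} {u v : Pt} (h : Seg w u v (Pyr r z) ∅ ∅) :
    Seg w (sw u) (sw v) (Pyr r z) ∅ ∅ := by
  refine (h.sym sw sw (fun p q h => ?_) (fun _ => rfl) fun _ => rfl).mono (fun p hp => ?_)
    (by simp) subset_rfl
  · unfold adj sw at *
    dsimp only
    omega
  · simp only [Pyr, sw, Set.mem_ofPred_eq] at *
    omega

theorem negx {w : List ℕ} {r : ℕ} {z : ℤ} {u v : Pt} (h : Seg w u v (Pyr r z) ∅ ∅) :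
    Seg w (ng u) (ng v) (Pyr r z) ∅ ∅ := by
  refine (h.sym ng ng (fun p q h => ?_) (fun _ => by simp [ng]) fun _ => by simp [ng]).mono
    (fun p hp => ?_) (by simp) subset_rfl
  · unfold adj ng at *
    dsimp only
    omega
  · simp only [Pyr, ng, Set.mem_ofPred_eq] at *
    omega

theorem pyr (r : ℕ) : ∀ z : ℤ, ∃ v, Seg (List.replicate (cnt r) 0) (r, 0, z) v (Pyr r z) ∅ ∅ := by
  induction r with
  | zero =>
    intro z
    refine ⟨_, (Seg.atom (0, 0, z)).mono ?_ subset_rfl subset_rfl⟩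
    rintro ⟨x, y, w⟩ hp
    simp only [Pyr, Set.mem_ofPred_eq, Set.mem_singleton_iff, Prod.mk.injEq] at *
    omega
  | succ r ih =>
    intro z
    obtain ⟨v, hv⟩ := ih (z - 1)
    have h1 := rect ((r + 1 : ℕ) : ℤ) 0 z (r + 1) (r + 1)
    have hc : Pyr (r + 1) z ⊆ Rect ((r + 1 : ℕ) : ℤ) 0 z (r + 1 + 1) (r + 1 + 1) ∪ Pyr r (z - 1) := by
      rintro ⟨x, y, w⟩ hp
      simp only [Pyr, Rect, Set.mem_ofPred_eq, Set.mem_union] at *
      omega
    by_cases h : (r + 1 + 1) % 2 = 0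
    · rw [if_pos h] at h1
      refine ⟨_, (h1.app (swap hv) ?_).congr (by rw [cnt, List.replicate_add]) rfl rfl hc
        (by simp) subset_rfl⟩
      unfold adj sw
      dsimp only
      omega
    · rw [if_neg h] at h1
      refine ⟨_, (h1.app (negx hv) ?_).congr (by rw [cnt, List.replicate_add]) rfl rfl hc
        (by simp) subset_rfl⟩
      unfold adj ng
      dsimp only
      omega

end FILL

open FILL in
theorem stFILL : St_FILL := by
  intro k hk
  obtain ⟨j, rfl⟩ : ∃ j, k = j + 1 := ⟨k - 1, by omega⟩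
  obtain ⟨v, hv⟩ := pyr (12 * j + 10) (-1)
  have h1 := rect (6 * ((j + 1 : ℕ) : ℤ) - 1) (6 * ((j + 1 : ℕ) : ℤ)) 0 (6 * j + 5) (12 * j + 11)
  rw [if_pos (by omega)] at h1
  refine ⟨_, (h1.app (swap hv) ?_).congr ?_ rfl rfl ?_ (by simp) subset_rfl⟩
  · unfold adj sw
    dsimp only
    omega
  · rw [← List.replicate_add]
    congr 1
    have := six_cnt (12 * j + 10)
    have h2 : 6 * ((6 * j + 5 + 1) * (12 * j + 11 + 1) + cnt (12 * j + 10)) =
        6 * (576 * (j + 1) ^ 3 + 2 * (j + 1)) := by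
      rw [Nat.mul_add, this]; ring
    omega
  · rintro ⟨x, y, w⟩ hp
    simp only [Pyr, Rect, InO, nrm, Set.mem_ofPred_eq, Set.mem_union] at *
    omega

end Pool.Agent.Lib.FCC
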