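import Pool.Agent.Lib.FCC.Blue

/-! A labelled walk that covers the octahedron and its shell is self-avoiding. -/

namespace Pool.Agent.Lib.FCC

open Finset
open Pool.Agent.Lib.MP_dec383_lc (hs mem_hs lt_of_getD)

namespace FINAL

theorem cover (l : List (ℕ × Pt)) (c : ℕ) (A : Finset Pt) (h : ∀ x ∈ A, (c, x) ∈ l)
    (hc : (l.map Prod.fst).count c ≤ A.card) :
    (l.filter fun e => decide (e.1 = c)).Nodup ∧ ∀ x, (c, x) ∈ l → x ∈ A := by
  have h1 : (l.filter fun e => decide (e.1 = c)).length = (l.map Prod.fst).count c := by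
    rw [List.count, List.countP_map, List.countP_eq_length_filter]
    exact congrArg List.length (List.filter_congr fun e _ => by simp [beq_eq_decide])
  have h2 : A.image (Prod.mk c) ⊆ (l.filter fun e => decide (e.1 = c)).toFinset := by
    intro e he
    obtain ⟨x, hx, rfl⟩ := mem_image.1 he
    simpa using h x hx
  have h3 : (A.image (Prod.mk c)).card = A.card :=
    card_image_of_injective _ (Prod.mk_right_injective c)
  have h4 := card_le_card h2
  have h5 := List.toFinset_card_le (l.filter fun e => decide (e.1 = c))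
  refine ⟨?_, fun x hx => ?_⟩
  · rw [← List.dedup_eq_self]
    refine (List.dedup_sublist _).eq_of_length ?_
    rw [← List.card_toFinset]
    omega
  · have h6 := eq_of_subset_of_card_le h2 (by omega)
    have h7 : (c, x) ∈ A.image (Prod.mk c) := by rw [h6]; simpa using hx
    obtain ⟨y, hy, e⟩ := mem_image.1 h7
    exact (Prod.mk.inj e).2 ▸ hy

theorem shell (h : St_A3) (L : ℕ) :
    4 * L ^ 2 + 16 * L ≤ ((octa (L + 2) \ octa L) \ (bad L).toFinset).card := by
  have h1 := (h L).1
  have h2 := (h (L + 2)).1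
  have h3 := le_card_sdiff (octa L) (octa (L + 2))
  have h4 := le_card_sdiff (bad L).toFinset (octa (L + 2) \ octa L)
  have h5 : (bad L).toFinset.card ≤ 18 := List.toFinset_card_le _
  have h6 : 2 * (L + 2) ^ 3 + 6 * (L + 2) ^ 2 + 7 * (L + 2) + 3 =
      2 * L ^ 3 + 6 * L ^ 2 + 7 * L + 3 + 3 * (4 * L ^ 2 + 16 * L + 18) := by ring
  omega

end FINAL

open FINAL in
theorem stFINAL (h : St_A3) : St_FINAL := by
  rintro L w u v T ⟨l, rfl, h2, -, -, h5, h6, h7, h8⟩ hT hw c0 c1
  obtain ⟨n0, m0⟩ := cover l 0 (octa L) (fun x hx => h5 x (mem_octa.1 hx)) c0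
  have hS : ∀ x, x ∈ (octa (L + 2) \ octa L) \ (bad L).toFinset ↔ nrm x = L + 2 ∧ x ∉ bad L := by
    intro x
    simp only [mem_sdiff, mem_octa, InO, List.mem_toFinset]
    exact and_congr_left fun _ => by omega
  obtain ⟨n1, m1⟩ := cover l 1 _ (fun x hx => h6 x ((hS x).1 hx)) (c1.trans (shell h L))
  have hk : ∀ e ∈ l, e.1 = 0 ∧ nrm e.2 ≤ L ∨ e.1 = 1 ∧ nrm e.2 = L + 2 ∨
      e.1 = 2 ∧ L + 4 ≤ nrm e.2 := by
    rintro ⟨c, x⟩ he
    have h1 := hw c (List.mem_map.2 ⟨_, he, rfl⟩)
    obtain rfl | rfl | rfl : c = 0 ∨ c = 1 ∨ c = 2 := by omega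
    · exact .inl ⟨rfl, (mem_octa.1 (m0 x he)).1⟩
    · exact .inr (.inl ⟨rfl, ((hS x).1 (m1 x he)).1⟩)
    · exact .inr (.inr ⟨rfl, hT x (h8 x he)⟩)
  have hl : l.Nodup := by
    refine List.nodup_iff_count_le_one.2 fun e => ?_
    by_cases he : e ∈ l
    · have h1 : (l.filter fun e' => decide (e'.1 = e.1)).Nodup := by
        rcases hk e he with h1 | h1 | h1 <;> rw [h1.1] <;> assumption
      rw [← List.count_filter (p := fun e' => decide (e'.1 = e.1)) (by simp)]
      exact List.nodup_iff_count_le_one.1 h1 e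
    · rw [List.count_eq_zero_of_not_mem he]
      omega
  have hn : (l.map Prod.snd).Nodup := hl.map_on fun e he e' he' h1 => by
    have h3 := hk e he
    have h4 := hk e' he'
    rw [h1] at h3
    exact Prod.ext (by omega) h1
  have hb : ∀ i, (bits (l.map Prod.fst)).getD i false = true ↔
      ∃ hi : i < l.length, l[i].1 = 0 := by
    intro i
    by_cases hi : i < l.length
    · simp [bits, hi]
    · simp [bits, hi]
  have hf : ∀ i (hi : i < l.length), (l.map Prod.snd).getD i 0 = l[i].2 := fun i hi => by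
    simp [hi]
  have hlen : (bits (l.map Prod.fst)).length = l.length := by simp [bits]
  refine ⟨fun i => (l.map Prod.snd).getD i 0, ⟨fun i hi j hj e => ?_, fun i hi => ?_⟩, ?_⟩
  · rw [hlen] at hi hj
    simp only [hf i hi, hf j hj] at e
    refine (hn.getElem_inj_iff (hi := by simpa using hi) (hj := by simpa using hj)).1 ?_
    simpa using e
  · rw [hlen] at hi
    simp only [hf i (by omega), hf (i + 1) hi]
    have h1 := List.isChain_iff_getElem.1 h2 i (by simpa using hi)
    rwa [List.getElem_map, List.getElem_map] at h1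
  · ext x
    simp only [mem_image, mem_hs, hb]
    constructor
    · rintro ⟨i, ⟨hi, h1⟩, rfl⟩
      rw [hf i hi]
      exact m0 _ (h1 ▸ List.getElem_mem hi)
    · intro hx
      obtain ⟨i, hi, e⟩ := List.getElem_of_mem (h5 x (mem_octa.1 hx))
      exact ⟨i, ⟨hi, by rw [e]⟩, by rw [hf i hi, e]⟩

end Pool.Agent.Lib.FCC
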