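import Pool.Agent.Lib.FCC.Defs
import Pool.Agent.Lib.MP_dec383_lc.Blocks

/-! Foldings as walks; contacts against the edge boundary of the `H` set. -/

namespace Pool.Agent.Lib.FCC

open Finset
open Pool.Agent.Lib.MP_dec383_lc (hs bonds lt_of_getD mem_hs)

abbrev Pt : Type := ℤ × ℤ × ℤ

/-- Adjacency in a form that `omega` understands. -/
def adj (p q : Pt) : Prop :=
  ((q.1 = p.1 + 1 ∨ q.1 + 1 = p.1) ∧ (q.2.1 = p.2.1 + 1 ∨ q.2.1 + 1 = p.2.1) ∧ q.2.2 = p.2.2) ∨
  ((q.1 = p.1 + 1 ∨ q.1 + 1 = p.1) ∧ q.2.1 = p.2.1 ∧ (q.2.2 = p.2.2 + 1 ∨ q.2.2 + 1 = p.2.2)) ∨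
  (q.1 = p.1 ∧ (q.2.1 = p.2.1 + 1 ∨ q.2.1 + 1 = p.2.1) ∧ (q.2.2 = p.2.2 + 1 ∨ q.2.2 + 1 = p.2.2))

instance : DecidableRel adj := fun _ _ => by unfold adj; infer_instance

theorem Adj_iff (p q : Pt) : Adj p q ↔ adj p q := by
  obtain ⟨a, b, c⟩ := p
  obtain ⟨d, e, f⟩ := q
  unfold Adj adj
  dsimp only
  constructor
  · intro h
    obtain ⟨x, rfl⟩ : ∃ x, a = d + x := ⟨a - d, by ring⟩
    obtain ⟨y, rfl⟩ : ∃ y, b = e + y := ⟨b - e, by ring⟩
    obtain ⟨z, rfl⟩ : ∃ z, c = f + z := ⟨c - f, by ring⟩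
    simp only [add_sub_cancel_left] at h
    have h1 : x ≤ 1 := by nlinarith [sq_nonneg y, sq_nonneg z]
    have h2 : -1 ≤ x := by nlinarith [sq_nonneg y, sq_nonneg z]
    have h3 : y ≤ 1 := by nlinarith [sq_nonneg x, sq_nonneg z]
    have h4 : -1 ≤ y := by nlinarith [sq_nonneg x, sq_nonneg z]
    have h5 : z ≤ 1 := by nlinarith [sq_nonneg x, sq_nonneg y]
    have h6 : -1 ≤ z := by nlinarith [sq_nonneg x, sq_nonneg y]
    interval_cases x <;> interval_cases y <;> interval_cases z <;> omega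
  · rintro (⟨h1 | h1, h2 | h2, h3⟩ | ⟨h1 | h1, h2, h3 | h3⟩ | ⟨h1, h2 | h2, h3 | h3⟩) <;>
      subst h1 h2 h3 <;> ring

theorem adj_symm {p q : Pt} (h : adj p q) : adj q p := by
  unfold adj at *
  omega

theorem adj_comm {p q : Pt} : adj p q ↔ adj q p := ⟨adj_symm, adj_symm⟩

theorem adj_irrefl (p : Pt) : ¬ adj p p := by
  unfold adj
  omega

theorem adj_add {p q c : Pt} : adj (p + c) (q + c) ↔ adj p q := by
  simp only [adj, Prod.fst_add, Prod.snd_add]
  omega

theorem adj_sub {p q c : Pt} : adj (p - c) (q - c) ↔ adj p q := by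
  simp only [adj, Prod.fst_sub, Prod.snd_sub]
  omega

/-- The twelve steps. -/
def dirs : Finset Pt := {(1, 1, 0), (1, -1, 0), (-1, 1, 0), (-1, -1, 0), (1, 0, 1), (1, 0, -1),
  (-1, 0, 1), (-1, 0, -1), (0, 1, 1), (0, 1, -1), (0, -1, 1), (0, -1, -1)}

theorem card_dirs : dirs.card = 12 := by decide

theorem adj_iff_dirs (p q : Pt) : adj p q ↔ q - p ∈ dirs := by
  obtain ⟨a, b, c⟩ := p
  obtain ⟨d, e, f⟩ := q
  constructor
  · unfold adj
    dsimp only
    rintro (⟨h1 | h1, h2 | h2, h3⟩ | ⟨h1 | h1, h2, h3 | h3⟩ | ⟨h1, h2 | h2, h3 | h3⟩) <;>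
      subst h1 h2 h3 <;> simp [dirs]
  · simp only [adj, dirs, mem_insert, mem_singleton, Prod.mk_sub_mk, Prod.mk.injEq]
    rintro (h | h | h | h | h | h | h | h | h | h | h | h) <;> omega

theorem adj_add_dir (p d : Pt) : adj p (p + d) ↔ d ∈ dirs := by
  rw [adj_iff_dirs, add_sub_cancel_left]

theorem neg_mem_dirs {d : Pt} (h : d ∈ dirs) : -d ∈ dirs := by
  revert d
  decide

theorem sum_dirs (F : Pt → ℕ) : ∑ d ∈ dirs, F d =
    F (1, 1, 0) + F (1, -1, 0) + F (-1, 1, 0) + F (-1, -1, 0) + F (1, 0, 1) + F (1, 0, -1) +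
      F (-1, 0, 1) + F (-1, 0, -1) + F (0, 1, 1) + F (0, 1, -1) + F (0, -1, 1) +
      F (0, -1, -1) := by
  simp only [dirs]
  rw [sum_insert (by decide), sum_insert (by decide), sum_insert (by decide),
    sum_insert (by decide), sum_insert (by decide), sum_insert (by decide),
    sum_insert (by decide), sum_insert (by decide), sum_insert (by decide),
    sum_insert (by decide), sum_insert (by decide), sum_singleton]
  omega

/-- The neighbours of a point. -/
def nb (p : Pt) : Finset Pt := dirs.image (p + ·)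

theorem mem_nb {p q : Pt} : q ∈ nb p ↔ adj p q := by
  rw [nb, mem_image, adj_iff_dirs]
  exact ⟨fun ⟨d, hd, h⟩ => by rwa [← h, add_sub_cancel_left], fun h => ⟨_, h, by simp⟩⟩

theorem card_nb (p : Pt) : (nb p).card = 12 := by
  rw [nb, card_image_of_injective _ (add_right_injective p), card_dirs]

/-- The number of neighbours inside `X`. -/
def inn (X : Finset Pt) (p : Pt) : ℕ := ((nb p).filter (· ∈ X)).card

/-- The number of neighbours outside `X`. -/
def out (X : Finset Pt) (p : Pt) : ℕ := ((nb p).filter (· ∉ X)).card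

theorem inn_add_out (X : Finset Pt) (p : Pt) : inn X p + out X p = 12 := by
  rw [inn, out, card_filter_add_card_filter_not, card_nb]

theorem inn_eq_card (X : Finset Pt) (p : Pt) : inn X p = (X.filter (adj p ·)).card := by
  unfold inn
  congr 1
  ext q
  simp only [mem_filter, mem_nb, and_comm]

theorem inn_eq_sum (X : Finset Pt) (p : Pt) :
    inn X p = ∑ d ∈ dirs, if p + d ∈ X then 1 else 0 := by
  rw [inn, card_filter, nb, sum_image (add_right_injective p).injOn]

theorem out_eq_sum (X : Finset Pt) (p : Pt) :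
    out X p = ∑ d ∈ dirs, if p + d ∈ X then 0 else 1 := by
  rw [out, card_filter, nb, sum_image (add_right_injective p).injOn]
  exact sum_congr rfl fun d _ => ite_not _ _ _

/-- The edge boundary. -/
def bd (X : Finset Pt) : ℕ := ∑ p ∈ X, out X p

/-- The sites outside `X` with a neighbour in `X`. -/
def halo (X : Finset Pt) : Finset Pt := X.biUnion nb \ X

theorem mem_halo {X : Finset Pt} {q : Pt} : q ∈ halo X ↔ q ∉ X ∧ ∃ p ∈ X, adj p q := by
  simp only [halo, mem_sdiff, mem_biUnion, mem_nb, and_comm]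

theorem mem_halo' {X : Finset Pt} {q : Pt} : q ∈ halo X ↔ q ∉ X ∧ inn X q ≠ 0 := by
  rw [mem_halo, inn_eq_card, card_ne_zero, filter_nonempty_iff]
  simp only [adj_comm (p := q)]

theorem bd_eq_halo (X : Finset Pt) : bd X = ∑ q ∈ halo X, inn X q := by
  have h1 : ∀ p ∈ X, out X p = ∑ q ∈ halo X, if adj p q then 1 else 0 := by
    intro p hp
    rw [← card_filter, out]
    congr 1
    ext q
    simp only [mem_filter, mem_nb, mem_halo]
    exact ⟨fun h => ⟨⟨h.2, p, hp, h.1⟩, h.1⟩, fun h => ⟨h.2, h.1.1⟩⟩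
  rw [bd, sum_congr rfl h1, sum_comm]
  refine sum_congr rfl fun q _ => ?_
  rw [inn_eq_card, card_filter]
  simp only [adj_comm (p := q)]

/-- The boundary counted from any set of outside sites containing the halo. -/
theorem bd_eq_sum {X Y : Finset Pt} (h1 : ∀ q ∈ Y, q ∉ X) (h2 : halo X ⊆ Y) :
    bd X = ∑ q ∈ Y, inn X q := by
  rw [bd_eq_halo]
  refine sum_subset h2 fun q hq hq' => ?_
  by_contra h
  exact hq' (mem_halo'.2 ⟨h1 q hq, h⟩)

theorem sum_inn_le {X Y : Finset Pt} (h1 : ∀ q ∈ Y, q ∉ X) : ∑ q ∈ Y, inn X q ≤ bd X := by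
  rw [bd_eq_sum (X := X) (Y := Y ∪ halo X) ?_ subset_union_right]
  · exact sum_le_sum_of_subset subset_union_left
  · intro q hq
    exact (mem_union.1 hq).elim (h1 q) fun h => (mem_halo.1 h).1

theorem edge_count (X : Finset Pt) :
    ((X ×ˢ X).filter fun e => adj e.1 e.2).card + bd X = 12 * X.card := by
  have h1 : ((X ×ˢ X).filter fun e => adj e.1 e.2).card = ∑ p ∈ X, inn X p := by
    rw [card_filter, sum_product]
    exact sum_congr rfl fun p _ => by rw [inn_eq_card, card_filter]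
  rw [h1, bd, ← sum_add_distrib, sum_congr rfl fun p _ => inn_add_out X p, sum_const,
    smul_eq_mul, mul_comm]

/-- A self-avoiding walk on the first `n` indices. -/
def Walk (n : ℕ) (f : ℕ → Pt) : Prop :=
  (∀ i < n, ∀ j < n, f i = f j → i = j) ∧ ∀ i, i + 1 < n → adj (f i) (f (i + 1))

/-- Even coordinate sum. -/
def ev (p : Pt) : Prop := (p.1 + p.2.1 + p.2.2) % 2 = 0

theorem InL_iff (p : Pt) : InL p ↔ ev p := Int.even_iff

theorem ev_adj {p q : Pt} (h : adj p q) : ev p ↔ ev q := by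
  unfold adj at h
  unfold ev
  omega

theorem Walk.ev {n : ℕ} {f : ℕ → Pt} (hf : Walk n f) (h0 : ev (f 0)) : ∀ i < n, ev (f i)
  | 0, _ => h0
  | i + 1, hi => (ev_adj (hf.2 i hi)).1 (hf.ev h0 i (by omega))

theorem Walk.sub {n : ℕ} {f : ℕ → Pt} (hf : Walk n f) (c : Pt) : Walk n fun i => f i - c :=
  ⟨fun i hi j hj e => hf.1 i hi j hj (by simpa using e), fun i hi => adj_sub.2 (hf.2 i hi)⟩

/-- The contacts of a walk. -/
def con (σ : List Bool) (f : ℕ → Pt) : ℕ :=
  ((hs σ ×ˢ hs σ).filter fun e => e.1 + 2 ≤ e.2 ∧ adj (f e.1) (f e.2)).card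

theorem con_sub (σ : List Bool) (f : ℕ → Pt) (c : Pt) : con σ (fun i => f i - c) = con σ f := by
  simp only [con, adj_sub]

theorem Walk.injOn {σ : List Bool} {f : ℕ → Pt} (hf : Walk σ.length f) : Set.InjOn f (hs σ) :=
  fun i hi j hj => hf.1 i (lt_of_getD (mem_hs.1 hi)) j (lt_of_getD (mem_hs.1 hj))

theorem Walk.card_image {σ : List Bool} {f : ℕ → Pt} (hf : Walk σ.length f) :
    ((hs σ).image f).card = (hs σ).card := card_image_of_injOn hf.injOn

/-- Contacts, bonds and the edge boundary. -/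
theorem con_add {σ : List Bool} {f : ℕ → Pt} (hf : Walk σ.length f) :
    2 * (con σ f + bonds σ) + bd ((hs σ).image f) = 12 * (hs σ).card := by
  have hinj := hf.injOn
  have h1 := edge_count ((hs σ).image f)
  rw [hf.card_image] at h1
  set P := (hs σ ×ˢ hs σ).filter fun e => adj (f e.1) (f e.2) with hP
  have h2 : P.card = (((hs σ).image f ×ˢ (hs σ).image f).filter fun e => adj e.1 e.2).card := by
    refine card_bij (fun e _ => (f e.1, f e.2)) ?_ ?_ ?_
    · intro e he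
      simp only [hP, mem_filter, mem_product] at he ⊢
      exact ⟨⟨mem_image_of_mem _ he.1.1, mem_image_of_mem _ he.1.2⟩, he.2⟩
    · intro e he e' he' h
      simp only [hP, mem_filter, mem_product, Prod.mk.injEq] at he he' h
      exact Prod.ext (hinj he.1.1 he'.1.1 h.1) (hinj he.1.2 he'.1.2 h.2)
    · rintro ⟨p, q⟩ h
      simp only [mem_filter, mem_product, mem_image] at h
      obtain ⟨⟨⟨i, hi, rfl⟩, j, hj, rfl⟩, h⟩ := h
      exact ⟨(i, j), by simp [hP, hi, hj, h], rfl⟩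
  have h3 := card_filter_add_card_filter_not (s := P) fun e => e.1 < e.2
  have h4 : (P.filter fun e => ¬ e.1 < e.2).card = (P.filter fun e => e.1 < e.2).card := by
    refine card_bij (fun e _ => e.swap) ?_ (by simp) ?_
    · rintro ⟨i, j⟩ h
      simp only [hP, mem_filter, mem_product, Prod.swap] at h ⊢
      refine ⟨⟨h.1.1.symm, adj_symm h.1.2⟩, lt_of_le_of_ne (by omega) ?_⟩
      rintro rfl
      exact adj_irrefl _ h.1.2
    · rintro ⟨i, j⟩ h
      refine ⟨(j, i), ?_, rfl⟩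
      simp only [hP, mem_filter, mem_product] at h ⊢
      exact ⟨⟨h.1.1.symm, adj_symm h.1.2⟩, by omega⟩
  have h5 := card_filter_add_card_filter_not (s := P.filter fun e => e.1 < e.2)
    fun e => e.1 + 2 ≤ e.2
  have h6 : ((P.filter fun e => e.1 < e.2).filter fun e => e.1 + 2 ≤ e.2).card = con σ f := by
    unfold con
    congr 1
    ext e
    simp only [hP, mem_filter]
    constructor
    · exact fun h => ⟨h.1.1.1, h.2, h.1.1.2⟩
    · exact fun h => ⟨⟨⟨h.1, h.2.2⟩, by omega⟩, h.2.1⟩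
  have h7 : bonds σ = ((P.filter fun e => e.1 < e.2).filter fun e => ¬ e.1 + 2 ≤ e.2).card := by
    refine card_bij (fun i _ => (i, i + 1)) ?_ (by simp) ?_
    · intro i hi
      simp only [hP, mem_filter, mem_product, mem_hs] at hi ⊢
      exact ⟨⟨⟨hi.2, hf.2 i (lt_of_getD hi.2.2)⟩, by omega⟩, by omega⟩
    · rintro ⟨i, j⟩ h
      simp only [hP, mem_filter, mem_product, mem_hs] at h
      obtain rfl : j = i + 1 := by omega
      exact ⟨i, mem_filter.2 ⟨mem_range.2 (lt_of_getD h.1.1.1.1), h.1.1.1⟩, rfl⟩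
  omega

theorem contacts_eq (σ : List Bool) (f : ℕ → Pt) :
    contacts σ (fun i => f i.val) = con σ f := by
  unfold contacts con
  rw [← Set.ncard_coe_finset]
  refine Set.ncard_congr (fun e _ => (e.1.val, e.2.val)) ?_ ?_ ?_
  · rintro ⟨i, j⟩ ⟨h1, h2, h3, h4⟩
    simp only [coe_filter, mem_product, mem_hs, Set.mem_ofPred_eq]
    refine ⟨⟨?_, ?_⟩, h1, (Adj_iff _ _).1 h4⟩
    · rwa [List.getD_eq_getElem _ _ i.2]
    · rwa [List.getD_eq_getElem _ _ j.2]
  · rintro ⟨i, j⟩ ⟨i', j'⟩ _ _ h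
    simp only [Prod.mk.injEq] at h ⊢
    exact ⟨Fin.ext h.1, Fin.ext h.2⟩
  · rintro ⟨i, j⟩ h
    simp only [coe_filter, mem_product, mem_hs, Set.mem_ofPred_eq] at h
    obtain ⟨⟨h1, h2⟩, h3, h4⟩ := h
    refine ⟨(⟨i, lt_of_getD h1⟩, ⟨j, lt_of_getD h2⟩), ⟨h3, ?_, ?_, (Adj_iff _ _).2 h4⟩, rfl⟩
    · rwa [List.getD_eq_getElem _ _ (lt_of_getD h1)] at h1
    · rwa [List.getD_eq_getElem _ _ (lt_of_getD h2)] at h2

/-- Foldings are walks in `ℤ³`; the parity condition costs nothing. -/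
theorem folding_iff (σ : List Bool) (k : ℕ) :
    (∃ f, IsFolding σ f ∧ k ≤ contacts σ f) ↔ ∃ f, Walk σ.length f ∧ k ≤ con σ f := by
  constructor
  · rintro ⟨f, ⟨-, h1, h2⟩, h3⟩
    let g : ℕ → Pt := fun i => if h : i < σ.length then f ⟨i, h⟩ else 0
    have e : f = fun i => g i.val := funext fun i => by simp [g]
    refine ⟨g, ⟨fun i hi j hj h => ?_, fun i hi => ?_⟩, by rwa [← contacts_eq, ← e]⟩
    · simp only [g, hi, hj, dif_pos] at h
      exact congrArg Fin.val (h1 h)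
    · simp only [g, hi, show i < σ.length by omega, dif_pos]
      exact (Adj_iff _ _).1 (h2 _ _ rfl)
  · rintro ⟨f, hf, h3⟩
    have hg := hf.sub (f 0)
    refine ⟨fun i => f i.val - f 0, ⟨fun i => (InL_iff _).2 (hg.ev (by simp [ev]) _ i.2),
      fun i j h => Fin.ext (hg.1 _ i.2 _ j.2 h), fun i j h => ?_⟩,
      by rwa [contacts_eq σ fun i => f i - f 0, con_sub]⟩
    rw [Adj_iff, adj_sub]
    rw [h]
    exact hf.2 _ (h ▸ j.2)

/-- The decision problem in terms of the edge boundary of the `H` set. -/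
theorem folding_iff_bd (σ : List Bool) (k K : ℕ) (hk : 2 * (k + bonds σ) + K = 12 * (hs σ).card) :
    (∃ f, IsFolding σ f ∧ k ≤ contacts σ f) ↔
      ∃ f, Walk σ.length f ∧ bd ((hs σ).image f) ≤ K := by
  rw [folding_iff]
  refine exists_congr fun f => and_congr_right fun hf => ?_
  have := con_add hf
  omega

end Pool.Agent.Lib.FCC
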