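import Pool.Agent.Lib.FCC.A1Blue
import Pool.Agent.Lib.FCC.B0a

/-! The peak inequality from its parts. -/

namespace Pool.Agent.Lib.FCC

open Finset

namespace GLOB

theorem mem_dl {X : Finset Pt} {h d : Pt} : d ∈ dl X h ↔ d ∈ axes ∧ Top X d h := mem_filter

theorem psi_empty {X A : Finset Pt} {h : Pt} (e : dl X h = ∅) : psi X A h = del X A h := by
  have : Sq X h = ∅ := eq_empty_of_forall_notMem fun q hq => by
    obtain ⟨d, hd, -⟩ := (mem_filter.1 hq).2
    exact notMem_empty d (e ▸ hd)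
  rw [psi, del, this, sdiff_empty, card_empty, Nat.cast_zero, add_zero]

theorem dot_neg (p d : Pt) : dot p (-d) = - dot p d := by
  simp only [dot, Prod.fst_neg, Prod.snd_neg]; ring

theorem mem_upS {d h q : Pt} : q ∈ upS d h ↔ adj h q ∧ dot q d = dot h d + 1 := by
  rw [upS, mem_filter, mem_nb]

theorem mem_Sq {X : Finset Pt} {h q : Pt} (hq : q ∈ Sq X h) :
    ∃ d ∈ dl X h, dot q d = dot h d + 1 := (mem_filter.1 hq).2

end GLOB

attribute [local irreducible] nb lat psi del out inn Sq dl upS halo bd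

open GLOB in
theorem stGLOB (h1 : St_SLICE) (h2 : St_LOC0) (h3 : St_LOC1) (h4 : St_LOC2) (h5 : St_LOCF)
    (h6 : St_ACC) : St_A1 := by
  intro X T g hev hA hX hD
  obtain ⟨a1, a2⟩ := h6 X T g hA
  set A : Pt → Finset Pt := fun h => T.filter (g · = h) with hAd
  have mA : ∀ h p, p ∈ A h ↔ p ∈ T ∧ g p = h := fun h p => mem_filter
  have loc : ∀ h ∈ X, LocA X (A h) h := fun h hh =>
    ⟨hh, fun p hp => ⟨hA.out p ((mA _ _).1 hp).1, ((mA _ _).1 hp).2 ▸ hA.nbr p ((mA _ _).1 hp).1⟩,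
      hA.two h⟩
  have nf : ∀ h ∈ X, ∀ d ∈ dl X h, -d ∉ dl X h := by
    intro h hh d hd hd'
    have e : ∀ q ∈ X, dot q d = dot h d := fun q hq => by
      have x := (mem_dl.1 hd).2 q hq
      have y := (mem_dl.1 hd').2 q hq
      rw [dot_neg, dot_neg] at y
      omega
    have : ∑ q ∈ X, (1 : ℤ) ≤ ∑ q ∈ X, del X (A q) q := sum_le_sum fun q hq =>
      h5 X _ q (loc q hq) d (mem_dl.1 hd).1 fun r hr => by rw [e r hr, e q hq]
    rw [sum_const, nsmul_eq_mul, mul_one] at this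
    change ∑ q ∈ X, del X (A q) q ≤ _ at a1
    omega
  have two : ∀ h, ∀ d ∈ dl X h, dl X h ≠ {d} → 2 ≤ (dl X h).card := fun h d hd hne => by
    by_contra hlt
    exact hne (eq_singleton_iff_unique_mem.2 ⟨hd, fun x hx => card_le_one.1 (by omega) x hx d hd⟩)
  have pr : ∀ d h, ∃ u, h ∈ X → d ∈ dl X h → dl X h ≠ {d} →
      u ∈ upS d h ∧ ∀ q ∈ X, adj q u → q = h := fun d h => by
    by_cases c : h ∈ X ∧ d ∈ dl X h ∧ dl X h ≠ {d}
    · obtain ⟨u, hu⟩ := (h4 X _ h (loc h c.1) (two h d c.2.1 c.2.2) (nf h c.1)).2 d c.2.1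
      exact ⟨u, fun _ _ _ => hu⟩
    · exact ⟨0, fun x y z => absurd ⟨x, y, z⟩ c⟩
  choose pv pr using pr
  let w : Pt → Pt → ℤ := fun d h => if dl X h = {d} then psi X (A h) h else lat X d h
  let K : Pt → Pt → Finset Pt := fun d h => if dl X h = {d} then A h ∩ upS d h else {pv d h}
  have w1 : ∀ d ∈ axes, ∀ h ∈ X, Top X d h → K d h ⊆ upS d h ∧ (lat X d h : ℤ) - 1 ≤ w d h ∧
      (lat X d h : ℤ) + 1 ≤ w d h + (K d h).card := fun d hd h hh ht => by
    by_cases c : dl X h = {d}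
    · simp only [w, K, c, if_true]
      obtain ⟨x, y, -⟩ := h3 X _ h d (loc h hh) c
      exact ⟨inter_subset_right, x, y⟩
    · simp only [w, K, c, if_false]
      exact ⟨singleton_subset_iff.2 (pr d h hh (mem_dl.2 ⟨hd, ht⟩) c).1, by omega,
        by rw [card_singleton]; omega⟩
  have w2 : ∀ d ∈ axes, ∀ h ∈ X, ∀ h' ∈ X, Top X d h → Top X d h' → h ≠ h' →
      Disjoint (K d h) (K d h') := fun d hd h hh h' hh' ht ht' hne => by
    rw [disjoint_left]
    intro u hu hu'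
    have b := (mem_upS.1 ((w1 d hd h hh ht).1 hu)).1
    have b' := (mem_upS.1 ((w1 d hd h' hh' ht').1 hu')).1
    by_cases c : dl X h = {d}
    · by_cases c' : dl X h' = {d}
      · simp only [K, c, c', if_true, mem_inter, mA] at hu hu'
        exact hne (hu.1.2.symm.trans hu'.1.2)
      · simp only [K, c', if_false, mem_singleton] at hu'
        exact hne ((pr d h' hh' (mem_dl.2 ⟨hd, ht'⟩) c').2 h hh (hu' ▸ b))
    · simp only [K, c, if_false, mem_singleton] at hu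
      exact hne ((pr d h hh (mem_dl.2 ⟨hd, ht⟩) c).2 h' hh' (hu ▸ b')).symm
  have hne : X.Nonempty := card_pos.1 (by omega)
  have sl := fun d hd => h1 X hne hev d hd (w d) (K d) (w1 d hd) (w2 d hd)
  have W3 : ∀ d ∈ axes, (3 : ℤ) ≤ ∑ h ∈ X.filter (Top X d), w d h := fun d hd => by
    rcases sl d hd with c | ⟨v, e, c⟩
    · omega
    · have hv : v ∈ X.filter (Top X d) := by rw [e]; exact mem_singleton_self _
      have := (w1 d hd v (mem_filter.1 hv).1 (mem_filter.1 hv).2).2.1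
      rw [e, sum_singleton]
      omega
  have r0 : ∀ h ∈ X, ∑ d ∈ dl X h, w d h ≤ psi X (A h) h := fun h hh => by
    rcases (dl X h).eq_empty_or_nonempty with e | ⟨d, hd⟩
    · rw [psi_empty e, e, sum_empty]
      exact (h2 X _ h (loc h hh)).1
    · by_cases c : dl X h = {d}
      · rw [c, sum_singleton]
        exact (if_pos c).le
      · have t := two h d hd c
        refine le_of_eq_of_le (sum_congr rfl fun d' _ => if_neg fun e => ?_)
          (h4 X _ h (loc h hh) t (nf h hh)).1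
        rw [e, card_singleton] at t
        omega
  have sw : ∑ h ∈ X, ∑ d ∈ dl X h, w d h = ∑ d ∈ axes, ∑ h ∈ X.filter (Top X d), w d h := by
    simp only [dl, sum_filter]
    exact sum_comm
  have s1 := sum_le_sum r0
  have s2 := sum_le_sum W3
  have s3 : 0 ≤ ∑ u ∈ halo X \ (T ∪ X.biUnion (Sq X)), (inn X u : ℤ) :=
    sum_nonneg fun _ _ => Int.natCast_nonneg _
  have s4 : ∑ _d ∈ axes, (3 : ℤ) = 18 := by decide
  change ∑ h ∈ X, psi X (A h) h + _ = _ at a2
  have t1 := (sum_eq_sum_iff_of_le r0).1 (by omega)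
  have t2 := (sum_eq_sum_iff_of_le W3).1 (by omega)
  have t3 := (sum_eq_zero_iff_of_nonneg fun u _ => Int.natCast_nonneg (inn X u)).1
    (show ∑ u ∈ halo X \ (T ∪ X.biUnion (Sq X)), (inn X u : ℤ) = 0 by omega)
  have ver : ∀ d, ∃ v, d ∈ axes → X.filter (Top X d) = {v} ∧ (A v).card = 2 ∧ A v ⊆ upS d v ∧
      ∀ e ∈ dirs, dot e d = -1 → v + e ∈ X := fun d => by
    by_cases hd : d ∈ axes
    · have x := t2 d hd
      rcases sl d hd with c | ⟨v, e, c⟩
      · omega
      · have hv : v ∈ X.filter (Top X d) := by rw [e]; exact mem_singleton_self _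
        rw [e, sum_singleton] at x
        by_cases c' : dl X v = {d}
        · simp only [w, c', if_true] at x
          exact ⟨v, fun _ => ⟨e, (h3 X _ v d (loc v (mem_filter.1 hv).1) c').2.2 (by omega)⟩⟩
        · simp only [w, c', if_false] at x
          omega
    · exact ⟨0, fun h => absurd h hd⟩
  choose v hv using ver
  have vm : ∀ d ∈ axes, ∀ h, h ∈ X ∧ Top X d h ↔ h = v d := fun d hd h => by
    rw [← mem_filter, (hv d hd).1, mem_singleton]
  have vtop : ∀ d ∈ axes, ∀ h ∈ X, h ≠ v d → dot h d < dot (v d) d := fun d hd h hh hne => by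
    by_contra c
    exact hne ((vm d hd h).1 ⟨hh, fun q hq => (((vm d hd _).2 rfl).2 q hq).trans (by omega)⟩)
  have cl : ∀ h ∈ X, (∀ d ∈ axes, h ≠ v d) → del X (A h) h = 0 := fun h hh hn => by
    have e : dl X h = ∅ := eq_empty_of_forall_notMem fun d hd =>
      hn d (mem_dl.1 hd).1 ((vm d (mem_dl.1 hd).1 h).1 ⟨hh, (mem_dl.1 hd).2⟩)
    rw [← psi_empty e, ← t1 h hh, e, sum_empty]
  have vup : ∀ d ∈ axes, ∀ p ∈ T, g p = v d → dot p d = dot (v d) d + 1 := fun d hd p hp e =>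
    (mem_upS.1 ((hv d hd).2.2.1 ((mA _ _).2 ⟨hp, e⟩))).2
  refine ⟨v, fun d hd => ((vm d hd _).2 rfl).1, vtop, fun d hd => (hv d hd).2.2.2, vup,
    fun d hd => (hv d hd).2.1, fun u hu => ?_, fun h hh hn => ?_, fun p hp q hq a => ?_,
    fun p hp h1 => ?_, fun p hp p' hp' e hne hn => ?_⟩
  · by_contra c
    rw [not_or] at c
    refine (mem_halo'.1 hu).2 (Int.natCast_eq_zero.1 (t3 u (mem_sdiff.2 ⟨hu, fun x => ?_⟩)))
    rcases mem_union.1 x with x | x
    · exact c.1 x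
    · obtain ⟨h, hh, x⟩ := mem_biUnion.1 x
      obtain ⟨d, hd, x⟩ := mem_Sq x
      exact c.2 ⟨d, (mem_dl.1 hd).1, (vm d (mem_dl.1 hd).1 h).1 ⟨hh, (mem_dl.1 hd).2⟩ ▸ x⟩
  · have e : A h = ∅ := eq_empty_of_forall_notMem fun p hp =>
      hn (mem_image.2 ⟨p, (mA _ _).1 hp⟩)
    refine ((h2 X _ h (loc h hh)).2 (cl h hh fun d hd x => ?_)).1 e
    have := (hv d hd).2.1
    rw [← x, e] at this
    simp at this
  · by_cases c : ∀ d ∈ axes, g p ≠ v d
    · exact ((h2 X _ _ (loc _ (hA.mem p hp))).2 (cl _ (hA.mem p hp) c)).2.1 p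
        ((mA _ _).2 ⟨hp, rfl⟩) q hq a
    · push Not at c
      obtain ⟨d, hd, c⟩ := c
      left
      by_contra x
      have := vtop d hd q hq (c ▸ x)
      have := vup d hd p hp c
      have := B0.dot_adj hd a
      omega
  · have e : A (g p) = {p} := eq_singleton_iff_unique_mem.2 ⟨(mA _ _).2 ⟨hp, rfl⟩,
      fun x hx => h1 x ((mA _ _).1 hx).1 ((mA _ _).1 hx).2⟩
    refine ((h2 X _ _ (loc _ (hA.mem p hp))).2 (cl _ (hA.mem p hp) fun d hd x => ?_)).2.2.1 p e
    have := (hv d hd).2.1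
    rw [← x, e] at this
    simp at this
  · exact ((h2 X _ _ (loc _ (hA.mem p hp))).2 (cl _ (hA.mem p hp) hn)).2.2.2 p
      ((mA _ _).2 ⟨hp, rfl⟩) p' ((mA _ _).2 ⟨hp', e.symm⟩) hne

end Pool.Agent.Lib.FCC
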