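import Pool.Agent.Lib.FCC.Fold
import Pool.Agent.Lib.MP_dec383_lc.NP

/-! The folding problem on the face-centred cubic lattice is in NP. -/

namespace Pool.Agent.Lib.FCC

open Pool.Agent.Lib.helper82 N487b59b3
open Pool.Agent.Lib.MP_dec383_lc (hs bonds lt_of_getD mem_hs UN ptGetD sum_range_list)

abbrev N3 : Type := ℕ × ℕ × ℕ

def near (a b : ℕ) : Bool := decide (b = a + 1) || decide (b + 1 = a)

def adjN (p q : N3) : Bool :=
  (near p.1 q.1 && near p.2.1 q.2.1 && decide (q.2.2 = p.2.2)) ||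
  (near p.1 q.1 && decide (q.2.1 = p.2.1) && near p.2.2 q.2.2) ||
  (decide (q.1 = p.1) && near p.2.1 q.2.1 && near p.2.2 q.2.2)

def ptOf (W : List N3) (i : ℕ) : Pt :=
  ((W.getD i (0, 0, 0)).1, (W.getD i (0, 0, 0)).2.1, (W.getD i (0, 0, 0)).2.2)

theorem adjN_iff (W : List N3) (i j : ℕ) :
    adjN (W.getD i (0, 0, 0)) (W.getD j (0, 0, 0)) = true ↔ adj (ptOf W i) (ptOf W j) := by
  simp only [adjN, near, adj, ptOf, Bool.or_eq_true, Bool.and_eq_true, decide_eq_true_eq]
  omega

theorem near_pt {α : Type} [Enc α] {a b : α → ℕ} (ha : PT a) (hb : PT b) :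
    PT fun x => near (a x) (b x) := PT.or (PT.eq hb ha.succ) (PT.eq hb.succ ha)

theorem adjN_pt {α : Type} [Enc α] {p q : α → N3} (hp : PT p) (hq : PT q) :
    PT fun a => adjN (p a) (q a) := by
  have a1 := PT.fst hp
  have a2 := PT.fst (PT.snd hp)
  have a3 := PT.snd (PT.snd hp)
  have b1 := PT.fst hq
  have b2 := PT.fst (PT.snd hq)
  have b3 := PT.snd (PT.snd hq)
  exact PT.or (PT.or (PT.and (PT.and (near_pt a1 b1) (near_pt a2 b2)) (PT.eq b3 a3))
    (PT.and (PT.and (near_pt a1 b1) (PT.eq b2 a2)) (near_pt a3 b3)))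
    (PT.and (PT.and (PT.eq b1 a1) (near_pt a2 b2)) (near_pt a3 b3))

def walkB (s : List Bool) (W : List N3) : Bool :=
  (List.range s.length).all fun i => (List.range s.length).all fun j =>
    (!decide (W.getD i (0, 0, 0) = W.getD j (0, 0, 0)) || decide (i = j)) &&
    (!decide (j = i + 1) || adjN (W.getD i (0, 0, 0)) (W.getD j (0, 0, 0)))

def conN (s : List Bool) (W : List N3) : ℕ :=
  ((List.range s.length).map fun i => ((List.range s.length).map fun j =>
    bif s.getD i false && s.getD j false && decide (i + 2 ≤ j) &&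
      adjN (W.getD i (0, 0, 0)) (W.getD j (0, 0, 0)) then 1 else 0).sum).sum

theorem walkB_iff (s : List Bool) (W : List N3) :
    walkB s W = true ↔ Walk s.length (ptOf W) := by
  have e : ∀ i j, W.getD i (0, 0, 0) = W.getD j (0, 0, 0) ↔ ptOf W i = ptOf W j := fun i j => by
    simp only [ptOf, Prod.ext_iff, Nat.cast_inj]
  simp only [walkB, Walk, List.all_eq_true, List.mem_range, Bool.and_eq_true, Bool.or_eq_true,
    Bool.not_eq_true', decide_eq_false_iff_not, decide_eq_true_eq, adjN_iff, e]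
  constructor
  · intro h
    refine ⟨fun i hi j hj hij => (h i hi j hj).1.resolve_left fun h' => h' hij, fun i hi => ?_⟩
    exact (h i (by omega) (i + 1) hi).2.resolve_left fun h' => h' rfl
  · rintro ⟨h1, h2⟩ i hi j hj
    refine ⟨or_iff_not_imp_left.2 fun h => h1 i hi j hj (not_not.1 h),
      or_iff_not_imp_left.2 fun h => ?_⟩
    obtain rfl := not_not.1 h
    exact h2 i hj

theorem conN_eq (s : List Bool) (W : List N3) : conN s W = con s (ptOf W) := by
  simp only [conN, sum_range_list]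
  rw [← Finset.sum_product', con]
  have : ((hs s ×ˢ hs s).filter fun e => e.1 + 2 ≤ e.2 ∧ adj (ptOf W e.1) (ptOf W e.2)) =
      (Finset.range s.length ×ˢ Finset.range s.length).filter fun e =>
        (s.getD e.1 false && s.getD e.2 false && decide (e.1 + 2 ≤ e.2) &&
          adjN (W.getD e.1 (0, 0, 0)) (W.getD e.2 (0, 0, 0))) = true := by
    ext e
    simp only [hs, Finset.mem_filter, Finset.mem_product, Bool.and_eq_true, decide_eq_true_eq,
      adjN_iff]
    tauto
  rw [this, Finset.card_filter]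
  exact Finset.sum_congr rfl fun e _ => by rw [Bool.cond_eq_ite]

theorem walk_bound {n : ℕ} {f : ℕ → Pt} (hf : Walk n f) : ∀ i < n,
    ((f 0).1 - i ≤ (f i).1 ∧ (f i).1 ≤ (f 0).1 + i) ∧
      ((f 0).2.1 - i ≤ (f i).2.1 ∧ (f i).2.1 ≤ (f 0).2.1 + i) ∧
      ((f 0).2.2 - i ≤ (f i).2.2 ∧ (f i).2.2 ≤ (f 0).2.2 + i)
  | 0, _ => by simp
  | i + 1, hi => by
    have h1 := walk_bound hf i (by omega)
    have h2 := hf.2 i hi
    unfold adj at h2
    omega

theorem exists_nat_walk {s : List Bool} {f : ℕ → Pt} (hf : Walk s.length f) :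
    ∃ W : List N3, W.length = s.length ∧
      (∀ a ∈ W, a.1 ≤ 2 * s.length ∧ a.2.1 ≤ 2 * s.length ∧ a.2.2 ≤ 2 * s.length) ∧
      Walk s.length (ptOf W) ∧ con s (ptOf W) = con s f := by
  let W : List N3 := (List.range s.length).map fun i =>
    (((f i).1 - (f 0).1 + s.length).toNat, ((f i).2.1 - (f 0).2.1 + s.length).toNat,
      ((f i).2.2 - (f 0).2.2 + s.length).toNat)
  have e : ∀ i < s.length, ptOf W i = ((f i).1 - (f 0).1 + s.length,
      (f i).2.1 - (f 0).2.1 + s.length, (f i).2.2 - (f 0).2.2 + s.length) := fun i hi => by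
    have := walk_bound hf i hi
    simp only [ptOf, W, List.getD_eq_getElem?_getD, List.getElem?_map, List.getElem?_range hi,
      Option.map_some, Option.getD_some, Prod.mk.injEq]
    omega
  have e2 : ∀ i < s.length, ∀ j < s.length, adj (ptOf W i) (ptOf W j) ↔ adj (f i) (f j) := by
    intro i hi j hj
    rw [e i hi, e j hj]
    unfold adj
    dsimp only
    omega
  refine ⟨W, by simp [W], fun a ha => ?_, ⟨fun i hi j hj h => hf.1 i hi j hj ?_, fun i hi =>
    (e2 i (by omega) _ hi).2 (hf.2 i hi)⟩, ?_⟩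
  · obtain ⟨i, hi, rfl⟩ := List.mem_map.1 ha
    have := walk_bound hf i (List.mem_range.1 hi)
    have := List.mem_range.1 hi
    dsimp only
    omega
  · rw [e i hi, e j hj, Prod.mk.injEq, Prod.mk.injEq] at h
    exact Prod.ext (by omega) (Prod.ext (by omega) (by omega))
  · unfold con
    congr 1
    refine Finset.filter_congr fun x hx => and_congr Iff.rfl ?_
    rw [Finset.mem_product, mem_hs, mem_hs] at hx
    exact e2 _ (lt_of_getD hx.1) _ (lt_of_getD hx.2)

abbrev SW : Type := List Bool × List N3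

theorem getW1 : PT fun p : (SW × ℕ) × ℕ => p.1.1.2.getD p.1.2 (0, 0, 0) :=
  ptGetD (PT.snd (PT.fst PT.fst')) (PT.snd PT.fst') _

theorem getW2 : PT fun p : (SW × ℕ) × ℕ => p.1.1.2.getD p.2 (0, 0, 0) :=
  ptGetD (PT.snd (PT.fst PT.fst')) PT.snd' _

theorem walkB_pt : PT fun p : SW => walkB p.1 p.2 :=
  PT.all (P := fun (p : SW) i => (List.range p.1.length).all fun j =>
      (!decide (p.2.getD i (0, 0, 0) = p.2.getD j (0, 0, 0)) || decide (i = j)) &&
      (!decide (j = i + 1) || adjN (p.2.getD i (0, 0, 0)) (p.2.getD j (0, 0, 0))))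
    (PT.range PT.fst')
    (PT.all (P := fun (p : SW × ℕ) j =>
      (!decide (p.1.2.getD p.2 (0, 0, 0) = p.1.2.getD j (0, 0, 0)) || decide (p.2 = j)) &&
      (!decide (j = p.2 + 1) || adjN (p.1.2.getD p.2 (0, 0, 0)) (p.1.2.getD j (0, 0, 0))))
      (PT.range (PT.fst PT.fst'))
      (PT.and (PT.or (PT.not (PT.eq getW1 getW2)) (PT.eq (PT.snd PT.fst') PT.snd'))
        (PT.or (PT.not (PT.eq PT.snd' (PT.snd PT.fst').succ)) (adjN_pt getW1 getW2))))

theorem conN_un : UN fun p : SW => conN p.1 p.2 :=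
  UN.sum (f := fun (p : SW) i => ((List.range p.1.length).map fun j =>
      bif p.1.getD i false && p.1.getD j false && decide (i + 2 ≤ j) &&
        adjN (p.2.getD i (0, 0, 0)) (p.2.getD j (0, 0, 0)) then 1 else 0).sum) (PT.range PT.fst')
    (UN.sum (f := fun (p : SW × ℕ) j =>
      bif p.1.1.getD p.2 false && p.1.1.getD j false && decide (p.2 + 2 ≤ j) &&
        adjN (p.1.2.getD p.2 (0, 0, 0)) (p.1.2.getD j (0, 0, 0)) then 1 else 0)
      (PT.range (PT.fst PT.fst'))
      (UN.cond (PT.and (PT.and (PT.and (ptGetD (PT.fst (PT.fst PT.fst')) (PT.snd PT.fst') _)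
        (ptGetD (PT.fst (PT.fst PT.fst')) PT.snd' _))
        (PT.le (PT.add (PT.snd PT.fst') (PT.const 2)) PT.snd')) (adjN_pt getW1 getW2))
        (UN.const 1) (UN.const 0)))

theorem hpf_np : HPF ∈ N68a2faeb.NP := by
  obtain ⟨p, hp, ep⟩ := (Prs.list Prs.bool).prod Prs.nat
  obtain ⟨q, hq, eq⟩ := Prs.list (Prs.nat.prod (Prs.nat.prod Prs.nat))
  have h1 : PT fun a : List Bool × List Bool => p a.1 := PT.comp hp PT.fst'
  have h2 : PT fun a : List Bool × List Bool => ((p a.1).1, q a.2) :=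
    PT.pair (PT.fst h1) (PT.comp hq PT.snd')
  have h3 : PT fun a : List Bool × List Bool => decide (enc (p a.1) = a.1) &&
      walkB (p a.1).1 (q a.2) && decide ((p a.1).2 ≤ conN (p a.1).1 (q a.2)) :=
    PT.and (PT.and (PT.eq (PT.comp PT.encList h1) PT.fst') (PT.comp walkB_pt h2 :))
      (PT.le (PT.snd h1) (PT.comp conN_un.pt h2 :))
  refine ⟨Polynomial.X * (40 * Polynomial.X + 10), _, h3.isPolyTime, fun x => ?_⟩
  simp only [HPF, decide_eq_true_eq, Bool.and_eq_true, walkB_iff, conN_eq, folding_iff]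
  constructor
  · rintro ⟨s, k, rfl, f, hf, hk⟩
    obtain ⟨W, i1, i2, i3, i4⟩ := exists_nat_walk hf
    have e1 : p (bitEncode (s, k)) = (s, k) := ep _
    refine ⟨enc W, ?_, by rw [e1, eq, i4]; exact ⟨⟨rfl, i3⟩, hk⟩⟩
    have i5 := sz_le_of_forall (20 * s.length + 4) W fun a ha => by
      obtain ⟨u, v, w⟩ := a
      have := i2 _ ha
      have := sz_nat_le_self u
      have := sz_nat_le_self v
      have := sz_nat_le_self w
      rw [sz_prod, sz_prod]
      dsimp only at *
      omega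
    have i6 : s.length ≤ (bitEncode (s, k)).length := by
      have := length_le_sz s
      have h : sz (s, k) = _ := sz_prod s k
      exact this.trans (by unfold sz enc at *; omega)
    simp only [Polynomial.eval_mul, Polynomial.eval_X, Polynomial.eval_add, Polynomial.eval_ofNat]
    rw [i1] at i5
    refine i5.trans ?_
    nlinarith
  · rintro ⟨w, -, ⟨i1, i2⟩, i3⟩
    exact ⟨(p x).1, (p x).2, i1, _, i2, i3⟩

end Pool.Agent.Lib.FCC
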