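import Pool.Agent.Lib.FCC.B0
import Pool.Agent.Lib.FCC.NP

/-! Soundness from its parts, and hardness from soundness and completeness. -/

namespace Pool.Agent.Lib.FCC

open Finset
open Pool.Agent.Lib.MP_dec383_lc (hs bonds)
open Pool.Agent.Lib.helper82 N487b59b3

theorem WF.bound {w : List ℕ} (h : WF w) : 1 ≤ pm w ∧ w.length = 3 * pm w ∧ 30 * pm w ≤ pk w := by
  obtain ⟨⟨m, h1, h2⟩, -⟩ := h
  have e : pm w = m := by unfold pm; omega
  refine ⟨by omega, by omega, ?_⟩
  unfold pk pK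
  rw [e, h2]
  nlinarith

theorem card_octa_pL (h3 : St_A3) (w : List ℕ) :
    (octa (pL w)).card = 2 * pF w + 2 + 4 * pL w ^ 2 := by
  have := (h3 (pL w)).1
  have e : 2 * pL w ^ 3 + 6 * pL w ^ 2 + 7 * pL w + 3 = 3 * (2 * pF w + 2 + 4 * pL w ^ 2) := by
    unfold pL pF
    ring
  omega

theorem card_filter_getD (ps : List (ℕ × ℕ)) (j : ℕ) :
    ((range ps.length).filter fun i => (ps.getD i (1, 1)).2 = j).card =
      (ps.map Prod.snd).count j := by
  induction ps with
  | nil => rfl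
  | cons k ps ih =>
    rw [card_filter, List.length_cons, sum_range_succ', List.map_cons, List.count_cons, ← ih,
      card_filter]
    simp

theorem dot_two {p d d' : Pt} (hd : d ∈ axes) (hd' : d' ∈ axes) (h : d ≠ d') :
    dot p d + dot p d' ≤ nrm p := by
  simp only [axes, mem_insert, mem_singleton] at hd hd'
  rcases hd with rfl | rfl | rfl | rfl | rfl | rfl <;>
    rcases hd' with rfl | rfl | rfl | rfl | rfl | rfl <;>
    first
    | exact absurd rfl h
    | simp only [dot, nrm]; omega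

theorem stSOUND (h3 : St_A3) (hC : St_CNT) (h0 : St_B0) (h1 : St_B1) (hS : St_S) : St_SOUND := by
  intro w hw f hf hb
  obtain ⟨b1, b2, b3⟩ := hw.bound
  have hL : pL w = 12 * pk w + 1 := rfl
  have hT := hC w hw
  obtain ⟨H, S, hP, hc⟩ := h0 _ _ _ _ f (by omega) hT (card_octa_pL h3 w) hf hb
  obtain ⟨ver, v1, v2⟩ := h1 _ _ (2 * pm w) _ H S hP (by omega) fun j a b => by
    rw [card_filter_getD, hT.cnt j a b]
  refine hS w hw ver ⟨fun i hi a b => (v1 i hi a b).1, fun i hi a b c d e => ?_, v2⟩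
  have i0 : i ≠ 0 := fun h => by
    rw [h, hT.first] at a
    omega
  have i1 : i + 1 ≠ (toks w).length - 1 := fun h => by
    rw [h, hT.last] at c
    omega
  obtain ⟨x1, x2⟩ := v1 i (by omega) a b
  obtain ⟨y1, y2⟩ := v1 (i + 1) hi c d
  by_contra hne
  have z1 := dot_two (p := H (i + 1) 0) x1 y1 hne
  have z2 := hP.hnrm (i + 1) hi 0 (by omega)
  have z3 := hc i (by omega) (by omega) _ x1
  have z4 := x2 (((toks w).getD i (1, 1)).2 - 1) (by omega)
  have z5 := y2 0 c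
  omega

theorem HPF_enc (s : List Bool) (k : ℕ) :
    HPF (bitEncode (s, k)) = true ↔ ∃ f, IsFolding s f ∧ k ≤ contacts s f := by
  simp only [HPF, decide_eq_true_eq]
  constructor
  · rintro ⟨s', k', e, h⟩
    obtain ⟨rfl, rfl⟩ := Prod.mk.inj (enc_injective e)
    exact h
  · exact fun h => ⟨s, k, rfl, h⟩

theorem hpf_hard (h3 : St_A3) (hC : St_CNT) (hW : St_WORD) (hX : St_X3) (hR : St_R)
    (h1 : St_SOUND) (h2 : St_COMPLETE) : ∀ L ∈ N68a2faeb.NP, ∃ F : List Bool → List Bool,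
      N68a2faeb.IsPolyTime F ∧ ∀ x, L x = HPF (F x) := by
  intro L hL
  obtain ⟨G, hG, h⟩ := hX L hL
  refine ⟨_, (PT.comp PT.encList (PT.comp hR hG)).isPolyTime, fun x => ?_⟩
  obtain ⟨hw, e⟩ := h x
  have hT := hC _ hw
  have hne : toks (G x) ≠ [] := fun e => by
    have := hT.len
    rw [e] at this
    simp [pL] at this
  obtain ⟨w1, w2, -⟩ := hW (pF (G x)) _ hne
  rw [Bool.eq_iff_iff, e]
  refine Iff.trans ?_ (HPF_enc (chain (G x)) (target (G x))).symm
  rw [folding_iff_bd _ _ (12 * (pL (G x) + 1) ^ 2) (by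
    rw [chain, w1, w2, hT.sum]
    unfold target pL pF
    ring)]
  refine ⟨fun hx => ?_, fun ⟨f, a, b⟩ => h1 _ hw f a b⟩
  obtain ⟨f, a, b⟩ := h2 _ hw hx
  exact ⟨f, a, by rw [b, (h3 _).2]⟩

end Pool.Agent.Lib.FCC
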