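import Pool.Agent.Lib.FCC.Calc

/-! Block LINK: a gap is a column, a lane and a column. -/

namespace Pool.Agent.Lib.FCC

namespace LINK

/-- The cells of the column over the port `u`; `k` is the size of the pigtail. -/
def col (L u k t : ℕ) : Pt :=
  if t < k then ((L : ℤ) + 3 - k + t, -(k : ℤ) - t - 1, 0)
  else ((u : ℤ) + t - 2 * k + 1, (L : ℤ) + 2 - u + t - 2 * k + 1, 0)

theorem col_mem {L u k : ℕ} (hu : Port L u) (hk : k = u - (L + 2)) (t : ℕ) :
    col L u k t ∈ GT L {u} ∅ := by
  obtain ⟨h1, h2, h3⟩ := hu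
  unfold col
  split_ifs with h
  · refine ⟨by dsimp only; omega, by simp only [nrm]; omega, .inl ⟨rfl, u, rfl, ?_⟩⟩
    unfold pid
    dsimp only
    split_ifs <;> omega
  · refine ⟨by dsimp only; omega, by simp only [nrm]; omega, .inl ⟨rfl, u, rfl, ?_⟩⟩
    unfold pid
    dsimp only
    split_ifs <;> omega

theorem column {L u k : ℕ} (hu : Port L u) (hk : k = u - (L + 2)) {h : ℕ} (hh : 1 ≤ h) :
    Seg (List.replicate (2 * k + h) 2) (col L u k 0) ((u : ℤ) + h, (L : ℤ) + 2 - u + h, 0) ∅ ∅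
      (GT L {u} ∅) := by
  obtain ⟨h1, h2, h3⟩ := id hu
  refine (Seg.cells (n := 2 * k + h) (by omega) (col L u k) (fun t _ => ?_)
    fun i _ j hj => ?_).congr rfl rfl ?_ subset_rfl subset_rfl ?_
  · unfold col adj
    split_ifs <;> dsimp only <;> omega
  · unfold col
    split_ifs <;> simp only [ne_eq, Prod.mk.injEq] <;> omega
  · unfold col
    rw [if_neg (by omega)]
    simp only [Prod.mk.injEq, and_true]
    omega
  · rintro p ⟨t, -, rfl⟩
    exact col_mem hu hk t

theorem adj_col {L u k : ℕ} (hu : Port L u) (hk : k = u - (L + 2)) :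
    adj (psite L u) (col L u k 0) := by
  obtain ⟨h1, h2, h3⟩ := hu
  unfold psite col adj
  split_ifs <;> dsimp only <;> omega

theorem lane (L u e : ℕ) {d : ℕ} (hd : 1 ≤ d) :
    Seg (List.replicate d 2) ((u : ℤ) + e + 1, (L : ℤ) + 2 + e - u, 1)
      ((u : ℤ) + e + d, (L : ℤ) + 3 + e - u - d, 1) ∅ ∅ (GT L ∅ {e}) := by
  refine (Seg.cells hd (fun t => ((u : ℤ) + e + 1 + t, (L : ℤ) + 2 + e - u - t, 1))
    (fun t _ => ?_) fun i _ j hj => ?_).congr rfl (by simp) ?_ subset_rfl subset_rfl ?_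
  · unfold adj
    dsimp only
    omega
  · simp only [ne_eq, Prod.mk.injEq]
    omega
  · simp only [Prod.mk.injEq, and_true]
    omega
  · rintro p ⟨t, -, rfl⟩
    exact ⟨by dsimp only; omega, by simp only [nrm]; omega,
      .inr ⟨rfl, e, rfl, by dsimp only; omega⟩⟩

theorem link {L u1 u2 e r2 : ℕ} (h1 : Port L u1) (h2 : Port L u2) (h : u1 < u2) (he : 1 ≤ e)
    (hr : r2 ≤ 1) :
    Seg (List.replicate (plen L u1 + plen L u2 + (u2 - u1) + 2 * e + r2) 2)
      (col L u1 (u1 - (L + 2)) 0) (col L u2 (u2 - (L + 2)) 0) ∅ ∅ (GT L {u1, u2} {e}) := by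
  have a := column h1 rfl he
  have b := lane L u1 e (d := u2 - u1) (by omega)
  have c := (column h2 rfl (h := e + r2) (by omega)).revRep
  have ab := a.append b (by unfold adj; dsimp only; omega) (GT_disjoint (by simp) (by simp))
  have abc := ab.append c (by unfold adj; dsimp only; omega) (by
    rw [Set.disjoint_union_left]
    exact ⟨GT_disjoint (by simpa using h.ne) (by simp), GT_disjoint (by simp) (by simp)⟩)
  refine abc.congr ?_ rfl rfl (by simp) (by simp) ?_
  · rw [← List.replicate_add, ← List.replicate_add]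
    congr 1
    unfold plen
    omega
  · refine Set.union_subset (Set.union_subset ?_ ?_) ?_ <;> apply GT_mono <;> simp

end LINK

theorem stLINK : St_LINK := by
  intro L u1 u2 e r G h1 h2 hne he hr hG
  rcases lt_or_gt_of_ne hne with h | h
  · refine ⟨_, _, (LINK.link h1 h2 h he hr).congr ?_ rfl rfl subset_rfl subset_rfl
      subset_rfl, LINK.adj_col h1 rfl, adj_symm (LINK.adj_col h2 rfl)⟩
    congr 1
    omega
  · refine ⟨_, _, (LINK.link h2 h1 h he hr).revRep.congr ?_ rfl rfl subset_rfl subset_rfl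
      (GT_mono (by rw [Set.pair_comm]) subset_rfl), LINK.adj_col h1 rfl,
      adj_symm (LINK.adj_col h2 rfl)⟩
    congr 1
    omega

end Pool.Agent.Lib.FCC
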