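import Pool.Agent.Lib.FCC.A1Blue

/-! Block LOC0: the local inequality at an atom and its equality case. -/

namespace Pool.Agent.Lib.FCC

open Finset

namespace LOC0

/-- The neighbours of `h` that are equal or adjacent to `p` or `p'`. -/
def U (h p p' : Pt) : Finset Pt := (nb h).filter fun u => u = p ∨ u = p' ∨ adj u p ∨ adj u p'

/-- The common neighbours of `h` and `p` inside `X`. -/
def Cx (X : Finset Pt) (h p : Pt) : Finset Pt := (nb h).filter fun u => adj u p ∧ u ∈ X

theorem card_U (h d d' : Pt) : (U h (h + d) (h + d')).card =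
    (dirs.filter fun e => e = d ∨ e = d' ∨ adj e d ∨ adj e d').card := by
  rw [U, nb, filter_image, card_image_of_injective _ (add_right_injective h)]
  apply congrArg card
  refine filter_congr fun e _ => ?_
  simp only [add_comm h, add_left_inj, adj_add]

theorem fin1 : ∀ d ∈ dirs, (dirs.filter fun e => e = d ∨ e = d ∨ adj e d ∨ adj e d).card = 5 := by
  decide +kernel

theorem fin2 : ∀ d ∈ dirs, ∀ d' ∈ dirs, d ≠ d' →
    7 ≤ (dirs.filter fun e => e = d ∨ e = d' ∨ adj e d ∨ adj e d').card ∧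
      ((dirs.filter fun e => e = d ∨ e = d' ∨ adj e d ∨ adj e d').card ≤ 7 → adj d d') := by
  decide +kernel

theorem exists_dir {h p : Pt} (a : adj p h) : ∃ d ∈ dirs, p = h + d :=
  ⟨p - h, (adj_iff_dirs h p).1 (adj_symm a), by simp⟩

theorem card_one {h p : Pt} (a : adj p h) : (U h p p).card = 5 := by
  obtain ⟨d, hd, rfl⟩ := exists_dir a
  rw [card_U, fin1 d hd]

theorem card_two {h p p' : Pt} (a : adj p h) (a' : adj p' h) (ne : p ≠ p') :
    7 ≤ (U h p p').card ∧ ((U h p p').card ≤ 7 → adj p p') := by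
  obtain ⟨d, hd, rfl⟩ := exists_dir a
  obtain ⟨d', hd', rfl⟩ := exists_dir a'
  rw [card_U, add_comm h, add_comm h, adj_add]
  exact fin2 d hd d' hd' fun e => ne (by rw [e])

theorem inn_ge {X : Finset Pt} {h p : Pt} (hh : h ∈ X) (a : adj p h) :
    (Cx X h p).card + 1 ≤ inn X p ∧
      (inn X p ≤ (Cx X h p).card + 1 → ∀ q ∈ X, adj p q → q = h ∨ adj q h) := by
  have h1 : h ∉ Cx X h p := fun e => adj_irrefl h (mem_nb.1 (mem_filter.1 e).1)
  have h2 : insert h (Cx X h p) ⊆ (nb p).filter (· ∈ X) := by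
    intro q hq
    rw [mem_filter, mem_nb]
    rcases mem_insert.1 hq with rfl | hq
    · exact ⟨a, hh⟩
    · exact ⟨adj_symm (mem_filter.1 hq).2.1, (mem_filter.1 hq).2.2⟩
  rw [← card_insert_of_notMem h1, inn]
  refine ⟨card_le_card h2, fun e q hq hpq => ?_⟩
  have h3 : q ∈ insert h (Cx X h p) := by
    rw [eq_of_subset_of_card_le h2 e]
    exact mem_filter.2 ⟨mem_nb.2 hpq, hq⟩
  exact (mem_insert.1 h3).imp_right fun e => adj_symm (mem_nb.1 (mem_filter.1 e).1)

theorem out_ge (X : Finset Pt) (h p p' : Pt) : ((U h p p').filter (· ∉ X)).card ≤ out X h ∧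
    (out X h ≤ ((U h p p').filter (· ∉ X)).card →
      ∀ u ∉ X, adj h u → u = p ∨ u = p' ∨ adj u p ∨ adj u p') := by
  have h2 : (U h p p').filter (· ∉ X) ⊆ (nb h).filter (· ∉ X) :=
    filter_subset_filter _ (filter_subset _ _)
  refine ⟨card_le_card h2, fun e u hu a => ?_⟩
  have h3 : u ∈ (U h p p').filter (· ∉ X) := by
    rw [eq_of_subset_of_card_le h2 e]
    exact mem_filter.2 ⟨mem_nb.2 a, hu⟩
  exact (mem_filter.1 (mem_filter.1 h3).1).2

theorem split {X : Finset Pt} (h : Pt) {p p' : Pt} (hp : p ∉ X) (hp' : p' ∉ X) :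
    (Cx X h p ∪ Cx X h p').card + ((U h p p').filter (· ∉ X)).card = (U h p p').card := by
  suffices e : Cx X h p ∪ Cx X h p' = (U h p p').filter (· ∈ X) by
    rw [e, card_filter_add_card_filter_not]
  ext u
  simp only [Cx, U, mem_union, mem_filter]
  constructor
  · rintro (⟨a, b, c⟩ | ⟨a, b, c⟩)
    · exact ⟨⟨a, .inr (.inr (.inl b))⟩, c⟩
    · exact ⟨⟨a, .inr (.inr (.inr b))⟩, c⟩
  · rintro ⟨⟨a, rfl | rfl | b | b⟩, c⟩
    · exact absurd c hp
    · exact absurd c hp'
    · exact .inl ⟨a, b, c⟩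
    · exact .inr ⟨a, b, c⟩

theorem pair {X : Finset Pt} {h p p' : Pt} (hA : LocA X {p, p'} h) (ne : p ≠ p') :
    0 ≤ del X {p, p'} h ∧ (del X {p, p'} h = 0 → (∀ q ∈ X, adj p q → q = h ∨ adj q h) ∧
      adj p p' ∧ (∀ u, adj u p → adj u p' → adj u h → u ∉ X) ∧
      ∀ u ∉ X, adj h u → u = p ∨ u = p' ∨ adj u p ∨ adj u p') := by
  have a := hA.2.1 p (by simp)
  have a' := hA.2.1 p' (by simp)
  have h1 := inn_ge hA.1 a.2
  have h2 := (inn_ge hA.1 a'.2).1
  have h3 := out_ge X h p p'
  have h4 := split h a.1 a'.1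
  have h5 := card_two a.2 a'.2 ne
  have h6 := card_union_add_card_inter (Cx X h p) (Cx X h p')
  have e : del X {p, p'} h = out X h + (inn X p + inn X p' : ℤ) - 9 := by
    rw [del, sum_pair ne, bw, card_pair ne, if_neg (insert_ne_empty _ _)]
    omega
  rw [e]
  refine ⟨by omega, fun h0 => ⟨h1.2 (by omega), h5.2 (by omega), fun u b b' c hu => ?_,
    h3.2 (by omega)⟩⟩
  have : (Cx X h p ∩ Cx X h p').card ≠ 0 := card_ne_zero.2 ⟨u, mem_inter.2
    ⟨mem_filter.2 ⟨mem_nb.2 (adj_symm c), b, hu⟩, mem_filter.2 ⟨mem_nb.2 (adj_symm c), b', hu⟩⟩⟩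
  omega

theorem one {X : Finset Pt} {h p : Pt} (hA : LocA X {p} h) :
    0 ≤ del X {p} h ∧ (del X {p} h = 0 → (∀ q ∈ X, adj p q → q = h ∨ adj q h) ∧
      ∀ u ∉ X, adj h u → u = p ∨ adj u p) := by
  have a := hA.2.1 p (by simp)
  have h1 := inn_ge hA.1 a.2
  have h3 := out_ge X h p p
  have h4 := split h a.1 a.1
  have h5 := card_one a.2
  rw [union_self] at h4
  have e : del X {p} h = out X h + (inn X p : ℤ) - 6 := by
    rw [del, sum_singleton, bw, card_singleton, if_neg (singleton_ne_empty _)]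
    omega
  rw [e]
  refine ⟨by omega, fun h0 => ⟨h1.2 (by omega), fun u hu b => ?_⟩⟩
  rcases h3.2 (by omega) u hu b with c | c | c | c
  exacts [.inl c, .inl c, .inr c, .inr c]

end LOC0

open LOC0 in
theorem stLOC0 : St_LOC0 := by
  intro X A h hA
  have hc := hA.2.2
  rcases (by omega : A.card = 0 ∨ A.card = 1 ∨ A.card = 2) with e | e | e
  · obtain rfl := card_eq_zero.1 e
    have e : del X ∅ h = out X h := by
      rw [del, sum_empty, bw, card_empty, if_pos rfl]
      omega
    rw [e]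
    refine ⟨by omega, fun h0 => ⟨fun _ => by omega, fun p hp => absurd hp (notMem_empty _),
      fun p hp => ?_, fun p hp => absurd hp (notMem_empty _)⟩⟩
    exact absurd hp.symm (singleton_ne_empty _)
  · obtain ⟨p, rfl⟩ := card_eq_one.1 e
    have := one hA
    refine ⟨this.1, fun h0 => ⟨fun e => absurd e (singleton_ne_empty _), fun p' hp' => ?_,
      fun p' hp' => ?_, fun a ha b hb ne => ?_⟩⟩
    · rw [mem_singleton.1 hp']
      exact (this.2 h0).1
    · rw [← singleton_injective hp']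
      exact (this.2 h0).2
    · exact absurd ((mem_singleton.1 ha).trans (mem_singleton.1 hb).symm) ne
  · obtain ⟨p, p', ne, rfl⟩ := card_eq_two.1 e
    have h1 := pair hA ne
    have h2 := pair (pair_comm p p' ▸ hA) ne.symm
    rw [pair_comm p' p] at h2
    refine ⟨h1.1, fun h0 => ⟨fun e => absurd e (insert_ne_empty _ _), fun a ha => ?_,
      fun a ha => ?_, fun a ha b hb ab => ?_⟩⟩
    · rcases mem_insert.1 ha with rfl | ha
      · exact (h1.2 h0).1
      · rw [mem_singleton.1 ha]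
        exact (h2.2 h0).1
    · rw [ha, card_singleton] at e
      omega
    · simp only [mem_insert, mem_singleton] at ha hb
      rcases ha with rfl | rfl <;> rcases hb with rfl | rfl
      · exact absurd rfl ab
      · exact (h1.2 h0).2
      · exact (h2.2 h0).2
      · exact absurd rfl ab

end Pool.Agent.Lib.FCC
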