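import Pool.Agent.Lib.FCC.A1Blue

/-! The local inequality at an atom that is extreme in one direction, and in the flat case. -/

namespace Pool.Agent.Lib.FCC

open Finset

namespace LOC1

theorem dot_add (p q d : Pt) : dot (p + q) d = dot p d + dot q d := by
  simp only [dot, Prod.fst_add, Prod.snd_add]
  ring

theorem card_lev (d h : Pt) (c : ℤ) : ((nb h).filter fun q => dot q d = dot h d + c).card =
    (dirs.filter fun e => dot e d = c).card := by
  rw [nb, filter_image, card_image_of_injective _ (add_right_injective h)]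
  simp only [dot_add, add_right_inj]

theorem four : ∀ d ∈ axes, (dirs.filter fun e => dot e d = 1).card = 4 ∧
    (dirs.filter fun e => dot e d = -1).card = 4 := by decide

theorem inn_ge {X A : Finset Pt} {h : Pt} (hA : LocA X A h) {B : Finset Pt} (hB : B ⊆ A) :
    (B.card : ℤ) ≤ ∑ p ∈ B, (inn X p : ℤ) := by
  rw [card_eq_sum_ones, Nat.cast_sum]
  refine sum_le_sum fun p hp => Nat.cast_le.2 (card_pos.2 ⟨h, ?_⟩)
  exact mem_filter.2 ⟨mem_nb.2 (hA.2.1 p (hB hp)).2, hA.1⟩

theorem bw_eq (A : Finset Pt) : A.card = 0 ∧ bw A = 0 ∨ 0 < A.card ∧ bw A = 3 * A.card + 3 := by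
  unfold bw
  split_ifs with h
  · simp [h]
  · exact .inr ⟨card_pos.2 (nonempty_iff_ne_empty.2 h), rfl⟩

end LOC1

open LOC1

theorem stLOC1 : St_LOC1 := by
  intro X A h d hA hd
  have h1 : d ∈ dl X h := hd ▸ mem_singleton_self d
  obtain ⟨h2, h3⟩ := mem_filter.1 h1
  have hS : Sq X h = upS d h := by simp only [Sq, upS, hd, mem_singleton, exists_eq_left]
  have h4 : (upS d h).card = 4 := (card_lev d h 1).trans (four d h2).1
  let low := (nb h).filter fun q => q ∉ X ∧ dot q d = dot h d - 1
  have h5 : (upS d h).card + lat X d h + low.card ≤ out X h := by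
    rw [lat, ← card_union_of_disjoint, ← card_union_of_disjoint]
    · refine card_le_card fun q hq => ?_
      simp only [upS, low, mem_union, mem_filter] at hq ⊢
      rcases hq with (hq | hq) | hq
      · exact ⟨hq.1, fun hx => by have := h3 q hx; omega⟩
      · exact ⟨hq.1, hq.2.1⟩
      · exact ⟨hq.1, hq.2.1⟩
    · rw [disjoint_left]
      intro q hq hq'
      simp only [upS, low, mem_union, mem_filter] at hq hq'
      omega
    · rw [disjoint_left]
      intro q hq hq'
      simp only [upS, mem_filter] at hq hq'
      omega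
  have h6 := inn_ge hA (sdiff_subset (t := upS d h))
  have h7 := card_sdiff_add_card_inter A (upS d h)
  have h8 := hA.2.2
  have h9 := bw_eq A
  rw [psi, hS]
  refine ⟨by omega, by omega, fun e => ⟨by omega, ?_, fun e' he' h10 => ?_⟩⟩
  · exact sdiff_eq_empty_iff_subset.1 (card_eq_zero.1 (by omega))
  · by_contra h11
    have h12 : 0 < low.card := card_pos.2 ⟨h + e', mem_filter.2
      ⟨mem_nb.2 ((adj_add_dir h e').2 he'), h11, by rw [dot_add, h10]; rfl⟩⟩
    omega

theorem stLOCF : St_LOCF := by
  intro X A h hA d hd hX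
  have h4 := (card_lev d h 1).trans (four d hd).1
  have h4' := (card_lev d h (-1)).trans (four d hd).2
  have h5 : ((nb h).filter fun q => dot q d = dot h d + 1).card +
      ((nb h).filter fun q => dot q d = dot h d + -1).card ≤ out X h := by
    rw [← card_union_of_disjoint]
    · refine card_le_card fun q hq => ?_
      simp only [mem_union, mem_filter] at hq ⊢
      rcases hq with hq | hq <;> exact ⟨hq.1, fun hx => by have := hX q hx; omega⟩
    · rw [disjoint_left]
      intro q hq hq'
      simp only [mem_filter] at hq hq'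
      omega
  have h6 := inn_ge hA subset_rfl
  have h8 := hA.2.2
  have h9 := bw_eq A
  rw [del]
  omega

end Pool.Agent.Lib.FCC
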