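import Pool.Agent.Lib.FCC.A1Blue

/-! The local inequality at an atom that is extreme in two or three directions. -/

namespace Pool.Agent.Lib.FCC

open Finset

namespace LOC2

theorem key : ∀ D ∈ axes.powerset, 2 ≤ D.card → (∀ d ∈ D, -d ∉ D) →
    (∀ e ∈ dirs, ∑ d ∈ D, (if dot e d = 0 then 1 else 0 : ℤ) ≤ 1) ∧
    9 ≤ ∑ e ∈ dirs, (if ∃ d ∈ D, dot e d = 1 then
      2 - ∑ d ∈ D, (if dot e d = 0 then 1 else 0 : ℤ) else 0) ∧
    ∀ d ∈ D, ∃ d' ∈ D, d + d' ∈ dirs ∧ dot (d + d') d = 1 ∧
      ∀ e ∈ dirs, dot (d + d' - e) d ≤ 0 → dot (d + d' - e) d' ≤ 0 → d + d' - e = 0 := by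
  decide +kernel

theorem dot_add (p q d : Pt) : dot (p + q) d = dot p d + dot q d := by
  simp only [dot, Prod.fst_add, Prod.snd_add]
  ring

theorem card_nb_filter (h : Pt) (P : Pt → Prop) [DecidablePred P] :
    (((nb h).filter P).card : ℤ) = ∑ e ∈ dirs, if P (h + e) then 1 else 0 := by
  rw [card_filter, nb, sum_image (add_right_injective h).injOn]
  push_cast
  rfl

end LOC2

open LOC2 in
theorem stLOC2 : St_LOC2 := by
  intro X A h hA h2 hn
  obtain ⟨k1, k2, k3⟩ := key (dl X h) (mem_powerset.2 (filter_subset _ _)) h2 hn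
  have top : ∀ d ∈ dl X h, ∀ q ∈ X, dot q d ≤ dot h d := fun d hd => (mem_filter.1 hd).2
  constructor
  · have hb : bw A ≤ 9 := by
      have := hA.2.2
      unfold bw
      split_ifs <;> omega
    have hs : 0 ≤ ∑ p ∈ A \ Sq X h, (inn X p : ℤ) := sum_nonneg fun _ _ => Int.natCast_nonneg _
    have e1 : ∀ d, (lat X d h : ℤ) =
        ∑ e ∈ dirs, if h + e ∉ X then (if dot e d = 0 then 1 else 0) else 0 := by
      intro d
      rw [lat, card_nb_filter]
      refine sum_congr rfl fun e _ => ?_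
      rw [dot_add]
      by_cases hx : h + e ∈ X <;> simp [hx]
    have e2 : (out X h : ℤ) = ∑ e ∈ dirs, if h + e ∉ X then 1 else 0 := by
      rw [out, card_nb_filter]
    have e3 : ((Sq X h).card : ℤ) =
        ∑ e ∈ dirs, if ∃ d ∈ dl X h, dot e d = 1 then 1 else 0 := by
      rw [Sq, card_nb_filter]
      refine sum_congr rfl fun e _ => if_congr ?_ rfl rfl
      simp only [dot_add, add_right_inj]
    have h1 : ∑ d ∈ dl X h, (lat X d h : ℤ) + 9 ≤ out X h + (Sq X h).card := by
      rw [e2, e3, sum_congr rfl fun d _ => e1 d, sum_comm, ← sum_add_distrib]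
      refine le_trans (b := _ + _) (Int.add_le_add_left k2 _) ?_
      rw [← sum_add_distrib]
      refine sum_le_sum fun e he => ?_
      have k4 := k1 e he
      by_cases hx : h + e ∈ X
      · have h3 : ¬ ∃ d ∈ dl X h, dot e d = 1 := by
          rintro ⟨d, hd, h4⟩
          have := top d hd _ hx
          rw [dot_add] at this
          omega
        simp only [if_neg h3, if_neg (not_not.2 hx), sum_const_zero, le_refl]
      · simp only [if_pos hx]
        generalize (∑ d ∈ dl X h, if dot e d = 0 then 1 else 0 : ℤ) = t at k4 ⊢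
        by_cases h3 : ∃ d ∈ dl X h, dot e d = 1
        · rw [if_pos h3, if_pos h3]
          omega
        · rw [if_neg h3, if_neg h3]
          omega
    unfold psi
    omega
  · intro d hd
    obtain ⟨d', hd', k4, k5, k6⟩ := k3 d hd
    refine ⟨h + (d + d'), mem_filter.2 ⟨mem_nb.2 ((adj_add_dir _ _).2 k4), by rw [dot_add, k5]⟩,
      fun q hq ha => ?_⟩
    have e1 : q = h + (d + d' - (h + (d + d') - q)) := by abel
    have h3 := top d hd q hq
    have h4 := top d' hd' q hq
    rw [e1, dot_add] at h3 h4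
    rw [e1, k6 _ ((adj_iff_dirs _ _).1 ha) (by omega) (by omega), add_zero]

end Pool.Agent.Lib.FCC
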