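import Pool.Agent.Lib.FCC.Blue

/-! The snake of half rings around a vertex of the octahedron. -/

namespace Pool.Agent.Lib.FCC

namespace OW

theorem mk0 {w : List ℕ} {u v : Pt} {A B : Set Pt} (l : List (ℕ × Pt)) (h1 : l.map Prod.fst = w)
    (h2 : (l.map Prod.snd).IsChain adj) (h3 : (l.map Prod.snd).head? = some u)
    (h4 : (l.map Prod.snd).getLast? = some v) (h5 : ∀ x ∈ A, (0, x) ∈ l)
    (h6 : ∀ x ∈ B, (1, x) ∈ l) (h7 : ∀ x, (2, x) ∉ l) : Seg w u v A B ∅ := by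
  refine ⟨l, h1, h2, h3, h4, h5, h6, ?_, fun x hx => (h7 x hx).elim⟩
  rw [List.filter_eq_nil_iff.2]
  · exact List.nodup_nil
  · rintro ⟨a, x⟩ hx h
    have : a = 2 := of_decide_eq_true h
    exact h7 x (this ▸ hx)

theorem mono {w : List ℕ} {u v : Pt} {A B A' B' : Set Pt} (h : Seg w u v A B ∅) (hA : A' ⊆ A)
    (hB : B' ⊆ B) : Seg w u v A' B' ∅ := by
  obtain ⟨l, h1, h2, h3, h4, h5, h6, h7, h8⟩ := h
  exact ⟨l, h1, h2, h3, h4, fun x hx => h5 x (hA hx), fun x hx => h6 x (hB hx), h7, h8⟩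

theorem app {w w' : List ℕ} {u v u' v' : Pt} {A B A' B' : Set Pt} (h : Seg w u v A B ∅)
    (h' : Seg w' u' v' A' B' ∅) (ha : adj v u') : Seg (w ++ w') u v' (A ∪ A') (B ∪ B') ∅ := by
  obtain ⟨l, h1, h2, h3, h4, h5, h6, -, h8⟩ := h
  obtain ⟨l', g1, g2, g3, g4, g5, g6, -, g8⟩ := h'
  refine mk0 (l ++ l') (by rw [List.map_append, h1, g1]) ?_ ?_ ?_ ?_ ?_ ?_
  · rw [List.map_append]
    refine h2.append g2 fun x hx y hy => ?_
    rw [h4, Option.mem_def, Option.some.injEq] at hx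
    rw [g3, Option.mem_def, Option.some.injEq] at hy
    exact hx ▸ hy ▸ ha
  · rw [List.map_append, List.head?_append, h3]
    rfl
  · rw [List.map_append, List.getLast?_append, g4]
    rfl
  · rintro x (hx | hx)
    exacts [List.mem_append_left _ (h5 x hx), List.mem_append_right _ (g5 x hx)]
  · rintro x (hx | hx)
    exacts [List.mem_append_left _ (h6 x hx), List.mem_append_right _ (g6 x hx)]
  · intro x hx
    rcases List.mem_append.1 hx with hx | hx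
    exacts [h8 x hx, g8 x hx]

theorem rev {w : List ℕ} {u v : Pt} {A B : Set Pt} (h : Seg w u v A B ∅) :
    Seg w.reverse v u A B ∅ := by
  obtain ⟨l, h1, h2, h3, h4, h5, h6, -, h8⟩ := h
  refine mk0 l.reverse (by rw [List.map_reverse, h1]) ?_ ?_ ?_ ?_ ?_ ?_
  · rw [List.map_reverse, List.isChain_reverse]
    exact h2.imp fun _ _ h => adj_symm h
  · rw [List.map_reverse, List.head?_reverse, h4]
  · rw [List.map_reverse, List.getLast?_reverse, h3]
  · exact fun x hx => List.mem_reverse.2 (h5 x hx)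
  · exact fun x hx => List.mem_reverse.2 (h6 x hx)
  · exact fun x hx => h8 x (List.mem_reverse.1 hx)

theorem map {w : List ℕ} {u v : Pt} {A B : Set Pt} (φ : Pt → Pt)
    (hφ : ∀ p q, adj p q → adj (φ p) (φ q)) (h : Seg w u v A B ∅) :
    Seg w (φ u) (φ v) (φ '' A) (φ '' B) ∅ := by
  obtain ⟨l, h1, h2, h3, h4, h5, h6, -, h8⟩ := h
  have e : (l.map fun e => (e.1, φ e.2)).map Prod.snd = (l.map Prod.snd).map φ := by
    simp [List.map_map, Function.comp_def]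
  refine mk0 (l.map fun e => (e.1, φ e.2)) ?_ ?_ ?_ ?_ ?_ ?_ ?_
  · rw [← h1]
    simp [List.map_map, Function.comp_def]
  · rw [e, List.isChain_map]
    exact h2.imp fun _ _ h => hφ _ _ h
  · rw [e, List.head?_map, h3]
    rfl
  · rw [e, List.getLast?_map, h4]
    rfl
  · rintro _ ⟨x, hx, rfl⟩
    exact List.mem_map.2 ⟨(0, x), h5 x hx, rfl⟩
  · rintro _ ⟨x, hx, rfl⟩
    exact List.mem_map.2 ⟨(1, x), h6 x hx, rfl⟩
  · intro x hx
    obtain ⟨⟨a, y⟩, hy, hh⟩ := List.mem_map.1 hx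
    have : a = 2 := congrArg Prod.fst hh
    exact h8 y (this ▸ hy)

theorem one (a : ℕ) (ha : a ≠ 2) (u : Pt) :
    Seg [a] u u {p | a = 0 ∧ p = u} {p | a = 1 ∧ p = u} ∅ := by
  refine mk0 [(a, u)] rfl (by simp) rfl rfl ?_ ?_ ?_
  · rintro x ⟨rfl, rfl⟩
    simp
  · rintro x ⟨rfl, rfl⟩
    simp
  · intro x hx
    rw [List.mem_singleton, Prod.mk.injEq] at hx
    exact ha hx.1.symm

theorem pc_succ (a : ℕ) : pc (a + 1) = pc a ++ [0] ++ [1] := by
  simp [pc, List.replicate_succ']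

theorem pc_succ' (a : ℕ) : pc (a + 1) = [1, 0] ++ pc a := by
  simp [pc, List.replicate_succ]

theorem pc_rev : ∀ a, (pc a).reverse = pc a
  | 0 => rfl
  | a + 1 => by
    conv_lhs => rw [pc_succ]
    rw [pc_succ', List.reverse_append, List.reverse_append, pc_rev a]
    rfl

theorem pw_append (l l' : List ℕ) : pw (l ++ l') = pw l ++ pw l' := List.flatMap_append

theorem pw_rev : ∀ l : List ℕ, (pw l).reverse = pw l.reverse
  | [] => rfl
  | a :: l => by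
    rw [List.reverse_cons, pw_append, ← pw_rev l]
    simp [pw, pc_rev]

/-- A straight row in direction `(-1, 1, 0)`. -/
theorem row (x y z : ℤ) : ∀ a : ℕ, Seg (pc a) (x, y, z) (x - a, y + a, z)
    {p | p.1 + p.2.1 = x + y - 1 ∧ y ≤ p.2.1 ∧ p.2.1 < y + a ∧ p.2.2 = z - 1}
    {p | p.1 + p.2.1 = x + y ∧ y ≤ p.2.1 ∧ p.2.1 ≤ y + a ∧ p.2.2 = z} ∅
  | 0 => by
    have h := one 1 (by omega) (x, y, z)
    simp only [Nat.cast_zero, sub_zero, add_zero]
    refine mono h ?_ ?_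
    · rintro ⟨a, b, c⟩ hp
      simp only [Set.mem_ofPred_eq] at hp
      omega
    · rintro ⟨a, b, c⟩ hp
      simp only [Set.mem_ofPred_eq, Prod.mk.injEq, true_and] at hp ⊢
      omega
  | a + 1 => by
    have h := app (app (row x y z a) (one 0 (by omega) (x - a - 1, y + a, z - 1))
      (by unfold adj; dsimp only; omega))
      (one 1 (by omega) (x - (a + 1 : ℕ), y + (a + 1 : ℕ), z)) (by unfold adj; dsimp only; omega)
    rw [pc_succ]
    refine mono h ?_ ?_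
    · rintro ⟨a, b, c⟩ hp
      simp only [Set.mem_ofPred_eq, Set.mem_union, Prod.mk.injEq, true_and] at hp ⊢
      omega
    · rintro ⟨a, b, c⟩ hp
      simp only [Set.mem_ofPred_eq, Set.mem_union, Prod.mk.injEq, true_and] at hp ⊢
      omega

def rot (p : Pt) : Pt := (-p.2.1, p.1, p.2.2)

def r180 (p : Pt) : Pt := (-p.1, -p.2.1, p.2.2)

theorem rot_adj (p q : Pt) (h : adj p q) : adj (rot p) (rot q) := by
  unfold adj rot at *
  dsimp only
  omega

theorem r180_adj (p q : Pt) (h : adj p q) : adj (r180 p) (r180 q) := by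
  unfold adj r180 at *
  dsimp only
  omega

theorem mem_rot {A : Set Pt} {a b c : ℤ} : (a, b, c) ∈ rot '' A ↔ (b, -a, c) ∈ A := by
  constructor
  · rintro ⟨⟨x, y, z⟩, h, e⟩
    simp only [rot, Prod.mk.injEq] at e
    obtain ⟨rfl, rfl, rfl⟩ := e
    rwa [neg_neg]
  · exact fun h => ⟨_, h, by simp [rot]⟩

theorem mem_r180 {A : Set Pt} {a b c : ℤ} : (a, b, c) ∈ r180 '' A ↔ (-a, -b, c) ∈ A := by
  constructor
  · rintro ⟨⟨x, y, z⟩, h, e⟩
    simp only [r180, Prod.mk.injEq] at e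
    obtain ⟨rfl, rfl, rfl⟩ := e
    rwa [neg_neg, neg_neg]
  · exact fun h => ⟨_, h, by simp [r180]⟩

/-- The second quarter of a half ring. -/
theorem q2 (L j : ℕ) : Seg (pc j) (0, (j : ℤ) + 1, (L : ℤ) - j + 1) (-(j : ℤ), 1, (L : ℤ) - j + 1)
    {p | p.2.1 - p.1 = j ∧ p.1 ≤ 0 ∧ 0 < p.2.1 ∧ p.2.2 = (L : ℤ) - j}
    {p | p.2.1 - p.1 = j + 1 ∧ p.1 ≤ 0 ∧ 0 < p.2.1 ∧ p.2.2 = (L : ℤ) - j + 1} ∅ := by
  have h := map rot rot_adj (row ((j : ℤ) + 1) 0 ((L : ℤ) - j + 1) j)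
  have e1 : rot ((j : ℤ) + 1, 0, (L : ℤ) - j + 1) = (0, (j : ℤ) + 1, (L : ℤ) - j + 1) := by
    simp [rot]
  have e2 : rot ((j : ℤ) + 1 - j, 0 + j, (L : ℤ) - j + 1) = (-(j : ℤ), 1, (L : ℤ) - j + 1) := by
    simp [rot]
  rw [e1, e2] at h
  refine mono h ?_ ?_
  · rintro ⟨a, b, c⟩ hp
    simp only [mem_rot, Set.mem_ofPred_eq] at hp ⊢
    omega
  · rintro ⟨a, b, c⟩ hp
    simp only [mem_rot, Set.mem_ofPred_eq] at hp ⊢
    omega

theorem hrow (L j : ℕ) (hj : j ≤ L) : Seg (pc j ++ pc j) (sp L j) (-(j : ℤ), 1, (L : ℤ) - j + 1)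
    (HA L j j) (HS L j j) ∅ := by
  have h := app (row ((j : ℤ) + 1) 0 ((L : ℤ) - j + 1) j) (q2 L j)
    (by unfold adj; dsimp only; omega)
  refine mono h ?_ ?_
  · rintro ⟨a, b, c⟩ hp
    simp only [HA, nrm, FCC.hp, Set.mem_ofPred_eq, Set.mem_union] at hp ⊢
    omega
  · rintro ⟨a, b, c⟩ hp
    simp only [HS, nrm, FCC.hp, Set.mem_ofPred_eq, Set.mem_union] at hp ⊢
    omega

theorem hdoor (L j : ℕ) (hj : j + 1 ≤ L) : Seg (pc j ++ pc (j + 1))
    ((j : ℤ) + 1, 1, (L : ℤ) - j) (-((j + 1 : ℕ) : ℤ), 1, (L : ℤ) - (j + 1 : ℕ) + 1)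
    (HA L (j + 1) (j + 1) \ {((j : ℤ) + 1, 0, (L : ℤ) - j - 1)})
    (HS L (j + 1) (j + 1) \ {sp L (j + 1)}) ∅ := by
  have h := app (row ((j : ℤ) + 1) 1 ((L : ℤ) - j) j) (q2 L (j + 1))
    (by unfold adj; dsimp only; omega)
  refine mono h ?_ ?_
  · rintro ⟨a, b, c⟩ hp
    simp only [HA, nrm, FCC.hp, Set.mem_ofPred_eq, Set.mem_union, Set.mem_sdiff,
      Set.mem_singleton_iff, Prod.mk.injEq] at hp ⊢
    omega
  · rintro ⟨a, b, c⟩ hp
    simp only [HS, sp, nrm, FCC.hp, Set.mem_ofPred_eq, Set.mem_union, Set.mem_sdiff,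
      Set.mem_singleton_iff, Prod.mk.injEq] at hp ⊢
    omega

theorem unit (L j : ℕ) (hj : j + 1 ≤ L) : Seg (pw (un j)) (sp L j) (sp L (j + 1))
    (HA L j (j + 1)) (HS L j (j + 1)) ∅ := by
  have h := app (hrow L j (by omega)) (rev (hrow L (j + 1) hj))
    (by unfold adj; dsimp only; omega)
  have e : pw (un j) = pc j ++ pc j ++ (pc (j + 1) ++ pc (j + 1)).reverse := by
    simp [pw, un, pc_rev]
  rw [e]
  refine mono h ?_ ?_
  · rintro ⟨a, b, c⟩ hp
    simp only [HA, Set.mem_ofPred_eq, Set.mem_union] at hp ⊢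
    obtain ⟨h1, h2, h3⟩ := hp
    simp only [h1, h2, true_and]
    omega
  · rintro ⟨a, b, c⟩ hp
    simp only [HS, Set.mem_ofPred_eq, Set.mem_union] at hp ⊢
    obtain ⟨h1, h2, h3⟩ := hp
    simp only [h1, h2, true_and]
    omega

theorem udoor (L j : ℕ) (hj : j + 1 ≤ L) : Seg (pw [j, j, j + 1, j]) (sp L j)
    ((j : ℤ) + 1, 1, (L : ℤ) - j) (HA L j (j + 1) \ {((j : ℤ) + 1, 0, (L : ℤ) - j - 1)})
    (HS L j (j + 1) \ {sp L (j + 1)}) ∅ := by
  have h := app (hrow L j (by omega)) (rev (hdoor L j hj))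
    (by unfold adj; dsimp only; omega)
  have e : pw [j, j, j + 1, j] = pc j ++ pc j ++ (pc j ++ pc (j + 1)).reverse := by
    simp [pw, pc_rev]
  rw [e]
  refine mono h ?_ ?_
  · rintro ⟨a, b, c⟩ hp
    simp only [HA, Set.mem_ofPred_eq, Set.mem_union, Set.mem_sdiff] at hp ⊢
    obtain ⟨⟨h1, h2, h3⟩, h4⟩ := hp
    simp only [h1, h2, h4, true_and, not_false_eq_true, and_true]
    omega
  · rintro ⟨a, b, c⟩ hp
    simp only [HS, Set.mem_ofPred_eq, Set.mem_union, Set.mem_sdiff] at hp ⊢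
    obtain ⟨⟨h1, h2, h3⟩, h4⟩ := hp
    simp only [h1, h2, h4, true_and, not_false_eq_true, and_true]
    omega

theorem ow_succ (j n : ℕ) : ow j (n + 1) = ow j n ++ un (j + 2 * n) := by
  simp [ow, List.range_succ]

theorem sp_adj (L k : ℕ) : adj (sp L k) (sp L (k + 1)) := by
  unfold adj sp
  dsimp only
  omega

theorem HA_split {L j k m : ℕ} : HA L j m ⊆ HA L j k ∪ HA L (k + 1) m := by
  rintro ⟨a, b, c⟩ hp
  simp only [HA, Set.mem_ofPred_eq, Set.mem_union] at hp ⊢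
  obtain ⟨h1, h2, h3⟩ := hp
  simp only [h1, h2, true_and]
  omega

theorem HS_split {L j k m : ℕ} : HS L j m ⊆ HS L j k ∪ HS L (k + 1) m := by
  rintro ⟨a, b, c⟩ hp
  simp only [HS, Set.mem_ofPred_eq, Set.mem_union] at hp ⊢
  obtain ⟨h1, h2, h3⟩ := hp
  simp only [h1, h2, true_and]
  omega

theorem out (L j : ℕ) : ∀ n : ℕ, j + 2 * n + 1 ≤ L → Seg (pw (ow j (n + 1))) (sp L j)
    (sp L (j + 2 * n + 1)) (HA L j (j + 2 * n + 1)) (HS L j (j + 2 * n + 1)) ∅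
  | 0, h => by
    rw [ow_succ]
    exact unit L j h
  | n + 1, h => by
    rw [ow_succ, pw_append]
    exact mono (app (out L j n (by omega)) (unit L (j + 2 * n + 1 + 1) h) (sp_adj L _))
      HA_split HS_split

end OW

open OW

theorem stOW : St_OW := by
  intro L j n k _ hn hk hL
  obtain ⟨n, rfl⟩ : ∃ m, n = m + 1 := ⟨n - 1, by omega⟩
  obtain rfl : k = j + 2 * n + 1 := by omega
  exact OW.out L j n hL

theorem stAW : St_AW := by
  intro L j n k _ hk hL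
  have hd := udoor L (j + 2 * n) (by omega)
  have e1 : ((k : ℤ), (1 : ℤ), (L : ℤ) - k + 1) =
      (((j + 2 * n : ℕ) : ℤ) + 1, 1, (L : ℤ) - (j + 2 * n : ℕ)) := by
    simp only [Prod.mk.injEq, true_and]
    omega
  have e2 : ((k : ℤ), (0 : ℤ), (L : ℤ) - k) =
      (((j + 2 * n : ℕ) : ℤ) + 1, 0, (L : ℤ) - (j + 2 * n : ℕ) - 1) := by
    simp only [Prod.mk.injEq, true_and]
    omega
  rw [e1, e2, hk, Nat.add_sub_cancel]
  cases n with
  | zero => exact hd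
  | succ n =>
    rw [pw_append]
    refine OW.mono (app (OW.out L j n (by omega)) hd (sp_adj L _)) ?_ ?_
    · rintro p ⟨h1, h2⟩
      exact (HA_split (k := j + 2 * n + 1) h1).imp id fun h => ⟨h, h2⟩
    · rintro p ⟨h1, h2⟩
      exact (HS_split (k := j + 2 * n + 1) h1).imp id fun h => ⟨h, h2⟩

theorem stHALF : St_HALF := by
  intro L n hn hL
  have h0 := app (app (one 1 (by omega) (1, 0, (L : ℤ) + 1)) (one 0 (by omega) (0, 0, (L : ℤ)))
    (by unfold adj; dsimp only; omega)) (one 1 (by omega) (-1, 0, (L : ℤ) + 1))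
    (by unfold adj; dsimp only; omega)
  have h1 := OW.map r180 r180_adj (stOW L 1 n (2 * n) le_rfl hn (by omega) hL)
  have h := app h0 h1 (by unfold adj r180 sp; dsimp only; omega)
  have e : r180 (sp L (2 * n)) = (-(2 * n + 1 : ℤ), 0, (L : ℤ) - 2 * n + 1) := by
    simp [r180, sp]
  rw [e] at h
  refine OW.mono h ?_ ?_
  · rintro ⟨a, b, c⟩ hp
    simp only [mem_r180, HA, nrm, FCC.hp, Set.mem_ofPred_eq, Set.mem_union, Prod.mk.injEq,
      true_and] at hp ⊢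
    omega
  · rintro ⟨a, b, c⟩ hp
    simp only [mem_r180, HS, nrm, FCC.hp, Set.mem_ofPred_eq, Set.mem_union, Prod.mk.injEq,
      true_and] at hp ⊢
    omega

theorem stBALL : St_BALL := by
  intro L n hn hL
  have h := app (rev (stOW L 1 n (2 * n) le_rfl hn (by omega) hL)) (stHALF L n hn hL)
    (by unfold adj sp; dsimp only; omega)
  have e : sp L (2 * n) = (2 * (n : ℤ) + 1, 0, (L : ℤ) - 2 * n + 1) := by
    simp [sp]
  rw [e, pw_rev, ← pw_append] at h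
  refine OW.mono h ?_ ?_
  · rintro ⟨a, b, c⟩ hp
    simp only [HA, nrm, FCC.hp, Set.mem_ofPred_eq, Set.mem_union] at hp ⊢
    omega
  · rintro ⟨a, b, c⟩ hp
    simp only [HS, nrm, FCC.hp, Set.mem_ofPred_eq, Set.mem_union] at hp ⊢
    omega

end Pool.Agent.Lib.FCC
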