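import Pool.Agent.Lib.FCC.Calc

/-! Block PATHS: the two long walks on the surface of the octahedron. -/

namespace Pool.Agent.Lib.FCC

namespace PATHS

variable {w : List ℕ} {u v : Pt} {A S : Set Pt}

theorem sA (h : Seg w u v A S ∅) : Seg w (u.2.1, u.1, u.2.2) (v.2.1, v.1, v.2.2)
    {p | (p.2.1, p.1, p.2.2) ∈ A} {p | (p.2.1, p.1, p.2.2) ∈ S} ∅ :=
  h.sym (fun p => (p.2.1, p.1, p.2.2)) (fun p => (p.2.1, p.1, p.2.2))
    (fun p q h => by simp only [adj] at h ⊢; omega) (fun _ => rfl) fun _ => rfl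

theorem sB (h : Seg w u v A S ∅) : Seg w (u.1, u.2.2, u.2.1) (v.1, v.2.2, v.2.1)
    {p | (p.1, p.2.2, p.2.1) ∈ A} {p | (p.1, p.2.2, p.2.1) ∈ S} ∅ :=
  h.sym (fun p => (p.1, p.2.2, p.2.1)) (fun p => (p.1, p.2.2, p.2.1))
    (fun p q h => by simp only [adj] at h ⊢; omega) (fun _ => rfl) fun _ => rfl

theorem sC (h : Seg w u v A S ∅) : Seg w (u.2.2, u.2.1, u.1) (v.2.2, v.2.1, v.1)
    {p | (p.2.2, p.2.1, p.1) ∈ A} {p | (p.2.2, p.2.1, p.1) ∈ S} ∅ :=
  h.sym (fun p => (p.2.2, p.2.1, p.1)) (fun p => (p.2.2, p.2.1, p.1))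
    (fun p q h => by simp only [adj] at h ⊢; omega) (fun _ => rfl) fun _ => rfl

theorem nX (h : Seg w u v A S ∅) : Seg w (-u.1, u.2.1, u.2.2) (-v.1, v.2.1, v.2.2)
    {p | (-p.1, p.2.1, p.2.2) ∈ A} {p | (-p.1, p.2.1, p.2.2) ∈ S} ∅ :=
  h.sym (fun p => (-p.1, p.2.1, p.2.2)) (fun p => (-p.1, p.2.1, p.2.2))
    (fun p q h => by simp only [adj] at h ⊢; omega) (fun _ => by simp) fun _ => by simp

theorem nY (h : Seg w u v A S ∅) : Seg w (u.1, -u.2.1, u.2.2) (v.1, -v.2.1, v.2.2)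
    {p | (p.1, -p.2.1, p.2.2) ∈ A} {p | (p.1, -p.2.1, p.2.2) ∈ S} ∅ :=
  h.sym (fun p => (p.1, -p.2.1, p.2.2)) (fun p => (p.1, -p.2.1, p.2.2))
    (fun p q h => by simp only [adj] at h ⊢; omega) (fun _ => by simp) fun _ => by simp

theorem nZ (h : Seg w u v A S ∅) : Seg w (u.1, u.2.1, -u.2.2) (v.1, v.2.1, -v.2.2)
    {p | (p.1, p.2.1, -p.2.2) ∈ A} {p | (p.1, p.2.1, -p.2.2) ∈ S} ∅ :=
  h.sym (fun p => (p.1, p.2.1, -p.2.2)) (fun p => (p.1, p.2.1, -p.2.2))
    (fun p q h => by simp only [adj] at h ⊢; omega) (fun _ => by simp) fun _ => by simp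

theorem bridge (a b c : Pt) (h1 : adj a b) (h2 : adj b c) (h3 : a ≠ c) :
    Seg (List.replicate 3 2) a c ∅ ∅ {a, b, c} := by
  have e1 : a ≠ b := fun e => adj_irrefl b (e ▸ h1)
  have e2 : b ≠ c := fun e => adj_irrefl c (e ▸ h2)
  refine ((Seg.cell a).append ((Seg.cell b).append (Seg.cell c) h2 (by simpa using e2)) h1
    (by simp [e1, h3])).congr rfl rfl rfl (by simp) (by simp) ?_
  rintro p (h | h | h) <;> simp_all

/-- The inverse frames of the three slots. -/
def ifr : ℕ → Pt → Pt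
  | 0, p => (p.1, p.2.2, p.2.1)
  | 1, p => (p.2.1, -p.2.2, p.1)
  | _, p => (-p.2.1, p.2.2, p.1)

theorem fr_ifr (s : ℕ) (p : Pt) : fr s (ifr s p) = p := by
  rcases s with _ | _ | s <;> simp [fr, ifr]

theorem nrm_ifr (s : ℕ) (p : Pt) : nrm (ifr s p) = nrm p := by
  rcases s with _ | _ | s <;> simp only [ifr, nrm, Int.natAbs_neg] <;> omega

theorem unitA {L m s : ℕ} {p : Pt} (hs : s < 3) (h : nrm p = L) (h1 : hp (ifr s p))
    (h2 : (L : ℤ) - 2 * m ≤ (ifr s p).2.2) (h3 : (ifr s p).2.2 ≤ (L : ℤ) - 1) :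
    ∃ i < m, ∃ s < 3, p ∈ fr s '' HA L (2 * i + 1) (2 * i + 2) :=
  ⟨((L : ℤ) - 1 - (ifr s p).2.2).toNat / 2, by omega, s, hs, ifr s p,
    ⟨(nrm_ifr s p).trans h, h1, by omega, by omega⟩, fr_ifr s p⟩

theorem unitS {L m s : ℕ} {p : Pt} (hs : s < 3) (h : nrm p = L + 2) (h1 : hp (ifr s p))
    (h2 : (L : ℤ) - 2 * m + 1 ≤ (ifr s p).2.2) (h3 : (ifr s p).2.2 ≤ (L : ℤ)) :
    ∃ i < m, ∃ s < 3, p ∈ fr s '' HS L (2 * i + 1) (2 * i + 2) :=
  ⟨((L : ℤ) - (ifr s p).2.2).toNat / 2, by omega, s, hs, ifr s p,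
    ⟨(nrm_ifr s p).trans h, h1, by omega, by omega⟩, fr_ifr s p⟩

end PATHS

open PATHS in
theorem stPATHS (hOW : St_OW) (hAW : St_AW) (hHALF : St_HALF) (hBALL : St_BALL)
    (hWIND : St_WIND) : St_PATHS := by
  intro k m L hm hmk hL
  have W := hWIND k (by omega)
  have B := hBALL L (3 * k) (by omega) (by omega)
  have H := hHALF L (3 * k) (by omega) (by omega)
  have A := hAW L (2 * m + 1) (3 * k - m - 1) (6 * k) (by omega) (by omega) (by omega)
  have C := hOW L (2 * m + 1) (3 * k - m) (6 * k) (by omega) (by omega) (by omega) (by omega)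
  have b1 := bridge (1, 6 * (k : ℤ) + 2, 6 * (k : ℤ) + 2) (0, 6 * (k : ℤ) + 3, 6 * (k : ℤ) + 2)
    (-1, 6 * (k : ℤ) + 2, 6 * (k : ℤ) + 2) (by unfold adj; dsimp only; omega) (by unfold adj; dsimp only; omega)
    (by simp)
  have b2 := bridge (-(6 * (k : ℤ) + 2), -(6 * (k : ℤ) + 2), 1)
    (-(6 * (k : ℤ) + 3), -(6 * (k : ℤ) + 2), 0) (-(6 * (k : ℤ) + 2), -(6 * (k : ℤ) + 2), -1)
    (by unfold adj; dsimp only; omega) (by unfold adj; dsimp only; omega) (by simp)
  have P1 := (sB A).appL ((sB (sA W)).appL (b1.appR ((nX W).app ((nX B).app ((nY (sA W)).app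
    ((nY (sB (sA B))).app ((nZ (nY (sB W))).app (nY (sA (sB C))).revPw
    (by unfold adj sp; dsimp only; omega)) (by unfold adj; dsimp only; omega)) (by unfold adj; dsimp only; omega))
    (by unfold adj; dsimp only; omega)) (by unfold adj; dsimp only; omega)) (by unfold adj; dsimp only; omega))
    (by unfold adj; dsimp only; omega)) (by unfold adj; dsimp only; omega)
  have P2 := (sB H).appL ((nZ (nX (sC W))).appL ((nZ (nX (sC B))).appL
    ((nY (nX (sA (sB W)))).appL (b2.appR ((nZ (nY (nX (sC W)))).app ((nZ (nX B)).app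
    ((nZ (sA (sB W))).app (nZ (sA (sB A))).revPw
    (by unfold adj; dsimp only; omega)) (by unfold adj; dsimp only; omega)) (by unfold adj; dsimp only; omega))
    (by unfold adj; dsimp only; omega)) (by unfold adj; dsimp only; omega)) (by unfold adj; dsimp only; omega))
    (by unfold adj; dsimp only; omega)) (by unfold adj; dsimp only; omega)
  refine ⟨_, _, _, _, P1.congr ?_ ?_ ?_ subset_rfl subset_rfl ?_,
    P2.congr ?_ ?_ ?_ subset_rfl subset_rfl ?_, ?_, ?_⟩
  · simp only [p1a, p1b, aw, ballw, pw_append, List.append_assoc]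
  · rw [psite, if_pos (show 2 * m + 2 ≤ L + 1 by omega)]
    refine Prod.ext ?_ (Prod.ext ?_ ?_) <;> simp only [sp] <;> omega
  · rw [psite, if_neg (show ¬ L + 2 * m + 4 ≤ L + 1 by omega)]
    refine Prod.ext ?_ (Prod.ext ?_ ?_) <;> simp only [sp] <;> omega
  · rintro p (rfl | rfl | rfl) <;> simp only [Set.mem_ofPred_eq, nrm] <;> omega
  · simp only [p2a, p2b, aw, ballw, pw_append, List.append_assoc]
  · rw [psite, if_pos (show 1 ≤ L + 1 by omega)]
    refine Prod.ext ?_ (Prod.ext ?_ ?_) <;> dsimp only <;> omega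
  · rw [psite, if_pos (show L - 2 * m ≤ L + 1 by omega)]
    refine Prod.ext ?_ (Prod.ext ?_ ?_) <;> simp only [sp] <;> omega
  · rintro p (rfl | rfl | rfl) <;> simp only [Set.mem_ofPred_eq, nrm] <;> omega
  · intro p h
    by_cases hE : ∃ i < m, ∃ s < 3, p ∈ fr s '' HA L (2 * i + 1) (2 * i + 2)
    · exact .inr (.inr (.inr (.inr (.inr hE))))
    have u0 := fun a b c => hE (unitA (s := 0) (by omega) h a b c)
    have u1 := fun a b c => hE (unitA (s := 1) (by omega) h a b c)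
    have u2 := fun a b c => hE (unitA (s := 2) (by omega) h a b c)
    simp only [hE, or_false]
    clear hE P1 P2 b1 b2 W B H A C
    obtain ⟨x, y, z⟩ := p
    simp only [ifr, hp] at u0 u1 u2
    simp only [Set.mem_union, Set.mem_empty_iff_false, false_or, or_assoc, Set.mem_ofPred_eq,
      Set.mem_sdiff, Set.mem_singleton_iff, Tri, HA, hp, nrm, Int.natAbs_neg, Prod.mk.injEq] at h ⊢
    have hc : (6 * (k : ℤ) + 1 ≤ z ∨ z ≤ -(6 * (k : ℤ) + 1) ∨ y ≤ -(6 * (k : ℤ) + 1) ∨
        x ≤ -(6 * (k : ℤ) + 1)) ∨ 6 * (k : ℤ) + 1 ≤ y ∨ 6 * (k : ℤ) + 1 ≤ x ∨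
        (x.natAbs ≤ 6 * k ∧ y.natAbs ≤ 6 * k ∧ z.natAbs ≤ 6 * k) := by omega
    by_contra hn
    simp only [not_or] at hn
    obtain ⟨n0, n1, n2, n3, n4, n5, n6, n7, n8, n9, n10, n11, n12, n13, n14, n15, n16, n17,
      n18⟩ := hn
    rcases hc with (hc | hc | hc | hc) | hc | hc | hc
    · exact n3 (by clear * - h hL hc; omega)
    · exact n13 (by clear * - h hL hc; omega)
    · exact n5 (by clear * - h hL hc; omega)
    · exact n10 (by clear * - h hL hc; omega)
    · by_cases h1 : 0 < z ∨ z = 0 ∧ 0 < x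
      · exact n0 ⟨⟨by clear * - h; omega, h1, by clear * - hL hc; omega,
          not_lt.1 fun h3 => u0 h1 (by clear * - h3; omega) (by clear * - h h1; omega)⟩, by clear * - hL n16; omega⟩
      · exact n8 ⟨by clear * - h; omega, not_or.1 h1, by clear * - hL hc; omega⟩
    · by_cases h1 : 0 < -z ∨ -z = 0 ∧ 0 < y
      · exact n15 ⟨⟨by clear * - h; omega, h1, by clear * - hL hc; omega,
          not_lt.1 fun h3 => u1 h1 (by clear * - h3; omega) (by clear * - h h1; omega)⟩, by clear * - hL n17; omega⟩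
      by_cases h2 : 0 < z ∨ z = 0 ∧ 0 < -y
      · exact n7 ⟨by clear * - h; omega, h2, by clear * - hL hc; omega,
          not_lt.1 fun h3 => u2 h2 (by clear * - h3; omega) (by clear * - h h2; omega)⟩
      · exact n18 (by clear * - h hc h1 h2; omega)
    · rcases le_total 0 x with hx | hx <;> rcases le_total 0 y with hy | hy <;>
        rcases le_total 0 z with hz | hz
      · exact n1 (by clear * - h hL hc hx hy hz; omega)
      · exact n14 (by clear * - h hL hc hx hy hz; omega)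
      · exact n4 (by clear * - h hL hc hx hy hz; omega)
      · exact n6 (by clear * - h hL hc hx hy hz; omega)
      · exact n2 (by clear * - h hL hc hx hy hz; omega)
      · exact n9 (by clear * - h hL hc hx hy hz; omega)
      · exact n11 (by clear * - h hL hc hx hy hz; omega)
      · exact n12 (by clear * - h hL hc hx hy hz; omega)
  · intro p h hb
    by_cases hE : ∃ i < m, ∃ s < 3, p ∈ fr s '' HS L (2 * i + 1) (2 * i + 2)
    · exact .inr (.inr (.inr (.inr (.inr (.inr hE)))))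
    have u0 := fun a b c => hE (unitS (s := 0) (by omega) h a b c)
    have u1 := fun a b c => hE (unitS (s := 1) (by omega) h a b c)
    have u2 := fun a b c => hE (unitS (s := 2) (by omega) h a b c)
    simp only [hE, or_false, psite, if_pos (show 6 * k + 1 ≤ L + 1 by omega),
      if_pos (show 6 * k + 2 ≤ L + 1 by omega), if_pos (le_refl (L + 1)),
      if_neg (show ¬ L + 3 ≤ L + 1 by omega)]
    clear hE P1 P2 b1 b2 W B H A C
    obtain ⟨x, y, z⟩ := p
    simp only [ifr, hp] at u0 u1 u2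
    simp only [bad, List.mem_cons, List.not_mem_nil, or_false, not_or, Prod.mk.injEq] at hb
    obtain ⟨m0, m1, m2, m3, m4, m5, m6, m7, m8, m9, m10, m11, m12, m13, m14, m15, m16, m17⟩ := hb
    simp only [Set.mem_union, Set.mem_empty_iff_false, false_or, or_assoc, Set.mem_ofPred_eq,
      Set.mem_sdiff, Set.mem_singleton_iff, Tri, HS, sp, hp, nrm, Int.natAbs_neg,
      Prod.mk.injEq] at h ⊢
    have hc : (6 * (k : ℤ) + 2 ≤ z ∨ z ≤ -(6 * (k : ℤ) + 2) ∨ y ≤ -(6 * (k : ℤ) + 2) ∨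
        x ≤ -(6 * (k : ℤ) + 2)) ∨ 6 * (k : ℤ) + 2 ≤ y ∨ 6 * (k : ℤ) + 2 ≤ x ∨
        (x.natAbs ≤ 6 * k + 1 ∧ y.natAbs ≤ 6 * k + 1 ∧ z.natAbs ≤ 6 * k + 1) := by
      clear * -
      omega
    by_contra hn
    simp only [not_or] at hn
    obtain ⟨n0, n1, n2, n3, n4, n5, n6, n7, n8, n9, n10, n11, n12, n13, n14, n15, n16, n17,
      n18, n19⟩ := hn
    rcases hc with (hc | hc | hc | hc) | hc | hc | hc
    · exact n3 (by clear * - h hL hc m4 m10 m11; omega)
    · exact n13 (by clear * - h hL hc m5 m12 m13; omega)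
    · exact n5 (by clear * - h hL hc m3 m8 m9; omega)
    · exact n10 (by clear * - h hL hc m1 m6 m7; omega)
    · by_cases h0 : y ≤ L
      · by_cases h1 : 0 < z ∨ z = 0 ∧ 0 < x
        · exact n0 ⟨⟨by clear * - h; omega, h1, by clear * - hL hc; omega,
            not_lt.1 fun h3 => u0 h1 (by clear * - h3; omega) h0⟩, by clear * - hL n16; omega⟩
        · exact n8 ⟨by clear * - h; omega, by clear * - hL hc; omega, .inl ⟨not_or.1 h1, h0⟩⟩
      · exact n8 ⟨by clear * - h; omega, by clear * - hL hc; omega,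
          .inr (by clear * - h h0 m2 m14 m15; omega)⟩
    · by_cases h0 : x ≤ L
      · by_cases h1 : 0 < -z ∨ -z = 0 ∧ 0 < y
        · exact n15 ⟨⟨by clear * - h; omega, h1, by clear * - hL hc; omega,
            not_lt.1 fun h3 => u1 h1 (by clear * - h3; omega) h0⟩, by clear * - hL n17; omega⟩
        by_cases h2 : 0 < z ∨ z = 0 ∧ 0 < -y
        · exact n7 ⟨by clear * - h; omega, h2, by clear * - hL hc; omega,
            not_lt.1 fun h3 => u2 h2 (by clear * - h3; omega) h0⟩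
        · clear * - h hc h0 h1 h2
          omega
      · clear * - h h0 m0 m16 m17 n18 n19
        omega
    · rcases le_total 0 x with hx | hx <;> rcases le_total 0 y with hy | hy <;>
        rcases le_total 0 z with hz | hz
      · exact n1 (by clear * - h hL hc hx hy hz; omega)
      · exact n14 (by clear * - h hL hc hx hy hz; omega)
      · exact n4 (by clear * - h hL hc hx hy hz; omega)
      · exact n6 (by clear * - h hL hc hx hy hz; omega)
      · exact n2 (by clear * - h hL hc hx hy hz; omega)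
      · exact n9 (by clear * - h hL hc hx hy hz; omega)
      · exact n11 (by clear * - h hL hc hx hy hz; omega)
      · exact n12 (by clear * - h hL hc hx hy hz; omega)

end Pool.Agent.Lib.FCC
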