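import Mathlib

/-! The planar counting lemma for an extreme slice. -/

set_option linter.unusedSectionVars false

namespace Pool.Agent.Lib.FCC.P91

open Finset

variable {G : Type} [AddCommGroup G] [DecidableEq G]

/-- Indicator of the complement. -/
def ni (Z : Finset G) (p : G) : ℕ := if p ∈ Z then 0 else 1

lemma ni_le (Z : Finset G) (p : G) : ni Z p ≤ 1 := by unfold ni; split_ifs <;> omega

lemma ni_of_not {Z : Finset G} {p : G} (h : p ∉ Z) : ni Z p = 1 := if_neg h

lemma ni_eq_zero {Z : Finset G} {p : G} : ni Z p = 0 ↔ p ∈ Z := by simp [ni]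

/-- The number of missing neighbours in the plane. -/
def ed (Z : Finset G) (b c h : G) : ℕ :=
  ni Z (h + (b + c)) + ni Z (h + (b - c)) + ni Z (h + (-b + c)) + ni Z (h + (-b - c))

lemma sum_ni (Z : Finset G) (s : G) :
    ∑ h ∈ Z, ni Z (h + s) = (Z.filter fun h => h + s ∉ Z).card := by
  rw [card_filter]
  exact sum_congr rfl fun h _ => (ite_not _ _ _).symm

variable {Z : Finset G} {b c : G} {β γ : G →+ ℤ}

lemma case1 (h1 : β b = 1) (h2 : β c = 0) (h3 : γ b = 0) (h4 : γ c = 1)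
    (hinj : ∀ p ∈ Z, ∀ q ∈ Z, β p = β q → γ p = γ q → p = q) (hZ : 2 ≤ Z.card)
    (he : ∀ h ∈ Z, ed Z b c h ≠ 0) : Z.card + 4 ≤ ∑ h ∈ Z, ed Z b c h := by
  have hne : Z.Nonempty := card_pos.1 (by omega)
  obtain ⟨p1, m1, e1⟩ := exists_max_image Z β hne
  obtain ⟨p2, m2, e2⟩ := exists_min_image Z β hne
  obtain ⟨p3, m3, e3⟩ := exists_max_image Z γ hne
  obtain ⟨p4, m4, e4⟩ := exists_min_image Z γ hne
  have key : ∀ h ∈ Z, 1 + ((if h = p1 then 1 else 0) + (if h = p2 then 1 else 0) +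
      (if h = p3 then 1 else 0) + (if h = p4 then 1 else 0)) ≤ ed Z b c h := by
    intro h hh
    have k0 := he h hh
    have k1 : h = p1 → ni Z (h + (b + c)) = 1 ∧ ni Z (h + (b - c)) = 1 := fun e =>
      ⟨ni_of_not fun m => by have := e1 _ m; simp [e, h1, h2] at this,
        ni_of_not fun m => by have := e1 _ m; simp [e, h1, h2] at this⟩
    have k2 : h = p2 → ni Z (h + (-b + c)) = 1 ∧ ni Z (h + (-b - c)) = 1 := fun e =>
      ⟨ni_of_not fun m => by have := e2 _ m; simp [e, h1, h2] at this,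
        ni_of_not fun m => by have := e2 _ m; simp [e, h1, h2] at this⟩
    have k3 : h = p3 → ni Z (h + (b + c)) = 1 ∧ ni Z (h + (-b + c)) = 1 := fun e =>
      ⟨ni_of_not fun m => by have := e3 _ m; simp [e, h3, h4] at this,
        ni_of_not fun m => by have := e3 _ m; simp [e, h3, h4] at this⟩
    have k4 : h = p4 → ni Z (h + (b - c)) = 1 ∧ ni Z (h + (-b - c)) = 1 := fun e =>
      ⟨ni_of_not fun m => by have := e4 _ m; simp [e, h3, h4] at this,
        ni_of_not fun m => by have := e4 _ m; simp [e, h3, h4] at this⟩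
    have k5 : ¬(h = p1 ∧ h = p2 ∧ h = p3 ∧ h = p4) := by
      rintro ⟨rfl, rfl, rfl, rfl⟩
      have : Z.card ≤ 1 := card_le_one.2 fun p hp q hq => hinj p hp q hq
        (by have := e1 p hp; have := e2 p hp; have := e1 q hq; have := e2 q hq; omega)
        (by have := e3 p hp; have := e4 p hp; have := e3 q hq; have := e4 q hq; omega)
      omega
    unfold ed at k0 ⊢
    split_ifs with a1 a2 a3 a4 <;> simp_all <;> omega
  have := sum_le_sum key
  simpa [sum_add_distrib, m1, m2, m3, m4] using this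

lemma case2 (h1 : β b = 1) (h2 : β c = 0) (h3 : γ b = 0) (h4 : γ c = 1) {o : G} (ho : o ∈ Z)
    (he : ed Z b c o = 0) (a : G) (U : Finset G)
    (hU : ∀ q ∈ U, q - a - b ∈ Z ∨ q - a + b ∈ Z ∨ q - a - c ∈ Z ∨ q - a + c ∈ Z) :
    U.card + 4 ≤ ∑ h ∈ Z, ed Z b c h + Z.card := by
  let Z' := Z.filter fun h => h + (b + c) ∈ Z ∧ h + (b - c) ∈ Z ∧ h + (b + b) ∈ Z
  let E : G → Finset G := fun s => Z.filter fun h => h + s ∉ Z
  have hsub : U ⊆ Z'.image (· + (a + b)) ∪ (E (b + c)).image (· + (a + b)) ∪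
      (E (b - c)).image (· + (a - c)) ∪ (E (-b + c)).image (· + (a + c)) ∪
      (E (-b - c)).image (· + (a - b)) := by
    intro q hq
    have e1 : q - a - b + (b + c) = q - a + c := by abel
    have e2 : q - a - b + (b - c) = q - a - c := by abel
    have e3 : q - a - b + (b + b) = q - a + b := by abel
    have e4 : q - a + c + (b - c) = q - a + b := by abel
    have e5 : q - a - c + (-b + c) = q - a - b := by abel
    have e6 : q - a + b + (-b - c) = q - a - c := by abel
    simp only [mem_union, mem_image, Z', E, mem_filter]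
    have := hU q hq
    by_cases w : q - a - b ∈ Z <;> by_cases n : q - a + c ∈ Z <;> by_cases e : q - a + b ∈ Z <;>
      by_cases s : q - a - c ∈ Z <;>
      first
      | exact .inl (.inl (.inl (.inl ⟨q - a - b, ⟨w, e1 ▸ n, e2 ▸ s, e3 ▸ e⟩, by abel⟩)))
      | exact .inl (.inl (.inl (.inr ⟨q - a - b, ⟨w, e1 ▸ n⟩, by abel⟩)))
      | exact .inl (.inl (.inr ⟨q - a + c, ⟨n, e4 ▸ e⟩, by abel⟩))
      | exact .inl (.inr ⟨q - a - c, ⟨s, e5 ▸ w⟩, by abel⟩)
      | exact .inr ⟨q - a + b, ⟨e, e6 ▸ s⟩, by abel⟩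
      | tauto
  have hU2 : U.card ≤ Z'.card + ∑ h ∈ Z, ed Z b c h := by
    simp only [ed, sum_add_distrib, sum_ni]
    refine (card_le_card hsub).trans ?_
    grw [card_union_le, card_union_le, card_union_le, card_union_le, card_image_le, card_image_le,
      card_image_le, card_image_le, card_image_le]
    simp only [E]
    omega
  have hm : ∀ (μ ν : G →+ ℤ) (p : G), p ∈ Z → ∃ r ∈ Z, μ r = μ p ∧ ν p ≤ ν r ∧
      ∀ s, μ s = 0 → 0 < ν s → r + s ∉ Z := fun μ ν p hp => by
    obtain ⟨r, m, e⟩ := exists_max_image (Z.filter fun r => μ r = μ p) ν ⟨p, by simp [hp]⟩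
    rw [mem_filter] at m
    refine ⟨r, m.1, m.2, e p (by simp [hp]), fun s s1 s2 s3 => ?_⟩
    have := e (r + s) (by simp [s3, s1, m.2])
    simp at this
    omega
  simp only [ed, Nat.add_eq_zero_iff, ni_eq_zero] at he
  obtain ⟨r1, m1, a1, b1, c1⟩ := hm (β - γ) (β + γ) _ he.1.2
  obtain ⟨r2, m2, a2, b2, c2⟩ := hm (β - γ) (β + γ) _ ho
  obtain ⟨r3, m3, a3, b3, c3⟩ := hm (β - γ) (β + γ) _ he.1.1.2
  obtain ⟨r4, m4, a4, -, c4⟩ := hm (β + γ) (β - γ) _ he.2
  simp only [AddMonoidHom.sub_apply, AddMonoidHom.add_apply, map_add, map_sub, map_neg, h1, h2, h3,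
    h4] at a1 a2 a3 a4 b1 b2 b3
  have d1 := c1 (b + c) (by simp [h1, h2, h3, h4]) (by simp [h1, h2, h3, h4])
  have d2 := c2 (b + c) (by simp [h1, h2, h3, h4]) (by simp [h1, h2, h3, h4])
  have d3 := c3 (b + c) (by simp [h1, h2, h3, h4]) (by simp [h1, h2, h3, h4])
  have d4 := c4 (b - c) (by simp [h1, h2, h3, h4]) (by simp [h1, h2, h3, h4])
  have hc : ({r1, r2, r3, r4} : Finset G).card = 4 := by
    rw [card_eq_four]
    refine ⟨r1, r2, r3, r4, ?_, ?_, ?_, ?_, ?_, ?_, rfl⟩ <;> (rintro rfl; omega)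
  have hd : Disjoint Z' {r1, r2, r3, r4} := by
    simp only [disjoint_insert_right, disjoint_singleton_right, Z', mem_filter]
    tauto
  have := card_le_card (show Z' ∪ {r1, r2, r3, r4} ⊆ Z from union_subset (filter_subset _ _) (by
    simp [insert_subset_iff, m1, m2, m3, m4]))
  rw [card_union_of_disjoint hd, hc] at this
  omega

end Pool.Agent.Lib.FCC.P91
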