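import Pool.Agent.Lib.FCC.Fold
import Pool.Agent.Lib.FCC.Slice91

/-! The loss at the six extreme slices. -/

set_option linter.unusedSectionVars false

namespace Pool.Agent.Lib.FCC.P91

open Finset

/-- The six axis directions. -/
def ax : Finset Pt := {(1, 0, 0), (-1, 0, 0), (0, 1, 0), (0, -1, 0), (0, 0, 1), (0, 0, -1)}

/-- The scalar product. -/
def dt (d p : Pt) : ℤ := d.1 * p.1 + d.2.1 * p.2.1 + d.2.2 * p.2.2

lemma dt_add (d p q : Pt) : dt d (p + q) = dt d p + dt d q := by simp [dt]; ring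

lemma dt_sub (d p q : Pt) : dt d (p - q) = dt d p - dt d q := by simp [dt]; ring

lemma dt_neg (d p : Pt) : dt (-d) p = -dt d p := by simp [dt]; ring

/-- The scalar product as a homomorphism. -/
def dot (d : Pt) : Pt →+ ℤ := ⟨⟨dt d, by simp [dt]⟩, dt_add d⟩

def fb (d : Pt) : Pt := (d.2.2, d.1, d.2.1)

def fc (d : Pt) : Pt := (d.2.1, d.2.2, d.1)

/-- A step with the four steps at sixty degrees. -/
def cap (u : Pt) : Finset Pt := dirs.filter fun c => c = u ∨ c - u ∈ dirs

lemma out_eq_card (X : Finset Pt) (h : Pt) : out X h = (dirs.filter fun c => h + c ∉ X).card := by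
  rw [out_eq_sum, card_filter]
  exact sum_congr rfl fun d _ => (ite_not _ _ _).symm

lemma out_eq_ni (X : Finset Pt) (h : Pt) : out X h = ∑ c ∈ dirs, ni X (h + c) := out_eq_sum X h

lemma zero_not_mem : (0 : Pt) ∉ dirs := by decide

lemma cap_sub {X : Finset Pt} {h u : Pt} (hh : h ∈ X) (hu : u ∈ dirs) (hp : h + u ∉ X) :
    (insert 0 ((cap u).filter fun c => h + c ∈ X)).image (h + ·) ⊆ X.filter (adj (h + u) ·) := by
  intro q hq
  simp only [mem_image, mem_insert, mem_filter, cap] at hq ⊢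
  obtain ⟨c, rfl | ⟨⟨-, rfl | h2⟩, h3⟩, rfl⟩ := hq
  · exact ⟨by simpa using hh, by rw [add_zero, adj_comm, adj_add_dir]; exact hu⟩
  · exact absurd h3 hp
  · exact ⟨h3, by rw [adj_iff_dirs, add_sub_add_left_eq_sub]; exact h2⟩

lemma card_ins (X : Finset Pt) (h u : Pt) :
    ((insert 0 ((cap u).filter fun c => h + c ∈ X)).image (h + ·)).card =
      ((cap u).filter fun c => h + c ∈ X).card + 1 := by
  rw [card_image_of_injective _ (add_right_injective h), card_insert_of_notMem]
  simp [cap, zero_not_mem]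

lemma inn_ge {X : Finset Pt} {h u : Pt} (hh : h ∈ X) (hu : u ∈ dirs) (hp : h + u ∉ X) :
    ((cap u).filter fun c => h + c ∈ X).card + 1 ≤ inn X (h + u) := by
  rw [inn_eq_card, ← card_ins]
  exact card_le_card (cap_sub hh hu hp)

lemma card_cap : ∀ u ∈ dirs, (cap u).card = 5 := by decide

lemma card_cap2 : ∀ u ∈ dirs, ∀ v ∈ dirs, u ≠ v → 7 ≤ (cap u ∪ cap v).card := by decide

lemma bond1 {X : Finset Pt} {h u : Pt} (hh : h ∈ X) (hu : u ∈ dirs) (hp : h + u ∉ X) :
    6 ≤ out X h + inn X (h + u) := by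
  have h1 := inn_ge hh hu hp
  have h2 := card_filter_add_card_filter_not (s := cap u) fun c => h + c ∈ X
  have h3 : ((cap u).filter fun c => h + c ∉ X).card ≤ out X h :=
    out_eq_card X h ▸ card_le_card (filter_subset_filter _ (filter_subset _ _))
  rw [card_cap u hu] at h2
  omega

lemma bond2 {X : Finset Pt} {h u v : Pt} (hh : h ∈ X) (hu : u ∈ dirs) (hp : h + u ∉ X)
    (hv : v ∈ dirs) (hq : h + v ∉ X) (hne : u ≠ v) :
    9 ≤ out X h + (inn X (h + u) + inn X (h + v)) := by
  have h1 := inn_ge hh hu hp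
  have h1' := inn_ge hh hv hq
  have h2 := card_filter_add_card_filter_not (s := cap u ∪ cap v) fun c => h + c ∈ X
  have h3 : ((cap u ∪ cap v).filter fun c => h + c ∉ X).card ≤ out X h :=
    out_eq_card X h ▸ card_le_card (filter_subset_filter _
      (union_subset (filter_subset _ _) (filter_subset _ _)))
  have h4 := card_cap2 u hu v hv hne
  rw [filter_union] at h2
  have h5 := card_union_le ((cap u).filter fun c => h + c ∈ X) ((cap v).filter fun c => h + c ∈ X)
  omega

/-- An assignment of outer sites to adjacent atoms. -/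
structure Asg (X T : Finset Pt) (g : Pt → Pt) : Prop where
  out : ∀ p ∈ T, p ∉ X
  mem : ∀ p ∈ T, g p ∈ X
  adj : ∀ p ∈ T, adj (g p) p
  two : ∀ h, (T.filter fun p => g p = h).card ≤ 2

variable {X T : Finset Pt} {g : Pt → Pt}

/-- The forced cost of an atom. -/
def bb (T : Finset Pt) (g : Pt → Pt) (h : Pt) : ℕ :=
  3 * (T.filter fun p => g p = h).card + if h ∈ T.image g then 3 else 0

lemma sum_bb (A : Asg X T g) : ∑ h ∈ X, bb T g h = 3 * T.card + 3 * (T.image g).card := by
  simp only [bb, sum_add_distrib]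
  rw [← mul_sum, ← card_eq_sum_card_fiberwise (fun p hp => A.mem p hp), sum_ite_mem,
    inter_eq_right.2 (image_subset_iff.2 A.mem)]
  simp [mul_comm]

lemma bb_le (A : Asg X T g) (h : Pt) : bb T g h ≤ (T.filter fun p => g p = h).card + 7 ∧
    bb T g h ≤ 9 ∧ (bb T g h = 9 → (T.filter fun p => g p = h).card = 2) := by
  have := A.two h
  unfold bb
  split_ifs <;> omega

lemma bond (A : Asg X T g) {h : Pt} (hh : h ∈ X) :
    bb T g h ≤ out X h + ∑ p ∈ T.filter fun p => g p = h, inn X p := by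
  have k : ∀ p ∈ T.filter fun p => g p = h, p - h ∈ dirs ∧ h + (p - h) ∉ X := fun p hp => by
    rw [mem_filter] at hp
    exact ⟨(adj_iff_dirs _ _).1 (hp.2 ▸ A.adj p hp.1), by simpa using A.out p hp.1⟩
  have h2 := A.two h
  unfold bb
  rcases (by omega : (T.filter fun p => g p = h).card = 0 ∨ (T.filter fun p => g p = h).card = 1 ∨
    (T.filter fun p => g p = h).card = 2) with e | e | e
  · rw [e, if_neg]
    · omega
    · simpa using e
  · obtain ⟨p, hp⟩ := card_eq_one.1 e
    rw [hp] at k ⊢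
    have := bond1 hh (k p (by simp)).1 (k p (by simp)).2
    simp only [add_sub_cancel, card_singleton, sum_singleton] at this ⊢
    split_ifs <;> omega
  · obtain ⟨p, q, hpq, hp⟩ := card_eq_two.1 e
    rw [hp] at k ⊢
    have := bond2 hh (k p (by simp)).1 (k p (by simp)).2 (k q (by simp)).1 (k q (by simp)).2
      (by simpa using hpq)
    simp only [add_sub_cancel, card_pair hpq, sum_pair hpq] at this ⊢
    split_ifs <;> omega

lemma Asg.halo (A : Asg X T g) : T ⊆ halo X := fun p hp =>
  mem_halo.2 ⟨A.out p hp, _, A.mem p hp, A.adj p hp⟩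

lemma card_le_inn (A : Asg X T g) {Y : Finset Pt} (hY : Y ⊆ T) : Y.card ≤ ∑ p ∈ Y, inn X p := by
  rw [card_eq_sum_ones]
  exact sum_le_sum fun p hp => Nat.one_le_iff_ne_zero.2 (mem_halo'.1 (A.halo (hY hp))).2

/-- The flat case. -/
lemma flat (A : Asg X T g) {d : Pt} (hd : d ∈ ax) (h0 : ∀ h ∈ X, ∀ k ∈ X, dt d h = dt d k) :
    3 * T.card + 3 * (T.image g).card + X.card ≤ 2 * bd X := by
  have h1 : ∀ h ∈ X, bb T g h + 1 ≤ out X h + ∑ p ∈ T.filter fun p => g p = h, inn X p := by
    intro h hh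
    have h2 : 8 ≤ out X h := by
      have h3 : ∀ d ∈ ax, (dirs.filter fun c => dt d c ≠ 0).card = 8 := by decide
      rw [out_eq_card, ← h3 d hd]
      refine card_le_card fun c hc => ?_
      rw [mem_filter] at hc ⊢
      refine ⟨hc.1, fun m => hc.2 ?_⟩
      have := h0 _ m h hh
      rw [dt_add] at this
      omega
    have := (bb_le A h).1
    have := card_le_inn A (filter_subset (fun p => g p = h) T)
    omega
  have h2 := sum_le_sum h1
  rw [sum_add_distrib, sum_add_distrib, sum_bb A, sum_fiberwise_of_maps_to A.mem] at h2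
  have h3 := sum_inn_le A.out
  simp only [sum_const, smul_eq_mul, mul_one] at h2
  unfold bd at *
  omega

end Pool.Agent.Lib.FCC.P91
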