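import Pool.Agent.Lib.FCC.Blue

/-! The chain and the target are computable in polynomial time. -/

namespace Pool.Agent.Lib.FCC

open Pool.Agent.Lib.helper82 N487b59b3
open Pool.Agent.Lib.MP_dec383_lc (UN ptGetD)

namespace R

variable {α β γ : Type} [Enc α] [Enc β] [Enc γ]

/-- A list of numbers that can be written in unary. -/
def UL (l : α → List ℕ) : Prop :=
  ∃ u : α → List (List Bool), PT u ∧ ∀ x, (u x).map List.length = l x

theorem un_snd : UN fun p : α × List Bool => p.2.length := UN.length PT.snd'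

namespace UL

variable {l l' : α → List ℕ}

theorem congr (h : UL l) (e : ∀ x, l x = l' x) : UL l' := by
  obtain ⟨u, h1, h2⟩ := h
  exact ⟨u, h1, fun x => (h2 x).trans (e x)⟩

theorem nil : UL fun _ : α => [] := ⟨fun _ => [], PT.const _, fun _ => rfl⟩

theorem cons {a : α → ℕ} (ha : UN a) (h : UL l) : UL fun x => a x :: l x := by
  obtain ⟨u, h1, h2⟩ := h
  exact ⟨_, PT.cons ha h1, fun x => by simp [h2]⟩

theorem append (h : UL l) (h' : UL l') : UL fun x => l x ++ l' x := by
  obtain ⟨u, h1, h2⟩ := h
  obtain ⟨u', h3, h4⟩ := h'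
  exact ⟨_, PT.append h1 h3, fun x => by simp [h2, h4]⟩

theorem reverse (h : UL l) : UL fun x => (l x).reverse := by
  obtain ⟨u, h1, h2⟩ := h
  exact ⟨_, PT.reverse h1, fun x => by rw [List.map_reverse, h2]⟩

theorem tail (h : UL l) : UL fun x => (l x).tail := by
  obtain ⟨u, h1, h2⟩ := h
  exact ⟨_, PT.tail h1, fun x => by rw [List.map_tail, h2]⟩

theorem take1 (h : UL l) : UL fun x => (l x).take 1 := by
  obtain ⟨u, h1, h2⟩ := h
  refine ⟨_, PT.cond (PT.isEmpty h1) (PT.const []) (PT.cons (PT.headD h1 []) (PT.const [])),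
    fun x => ?_⟩
  beta_reduce
  rw [← h2]
  cases u x <;> rfl

theorem range {n : α → ℕ} (hn : UN n) : UL fun x => List.range (n x) := by
  refine ⟨_, UN.list (f := fun x i => min (n x) i) hn.range
    ((hn.comp PT.fst').min PT.snd'), fun x => ?_⟩
  rw [List.map_map]
  refine (List.map_congr_left fun i hi => ?_).trans (List.map_id _)
  simp only [Function.comp, List.length_replicate, id]
  exact min_eq_right (List.mem_range.1 hi).le

theorem flatMapPT {F : α → ℕ → List γ} (h : UL l)
    (hF : PT fun p : α × List Bool => F p.1 p.2.length) : PT fun x => (l x).flatMap (F x) := by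
  obtain ⟨u, h1, h2⟩ := h
  refine (PT.flatMap (F := fun x (b : List Bool) => F x b.length) h1 hF).congr fun x => ?_
  rw [← h2, List.flatMap_map]

theorem flatMap {F : α → ℕ → List ℕ} (h : UL l)
    (hF : UL fun p : α × List Bool => F p.1 p.2.length) : UL fun x => (l x).flatMap (F x) := by
  obtain ⟨u, h1, h2⟩ := h
  obtain ⟨v, h3, h4⟩ := hF
  refine ⟨_, PT.flatMap (F := fun x (b : List Bool) => v (x, b)) h1 h3, fun x => ?_⟩
  beta_reduce
  rw [← h2, List.flatMap_map, List.map_flatMap]
  exact List.flatMap_congr fun b _ => h4 (x, b)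

theorem map {f : α → ℕ → ℕ} (h : UL l) (hf : UN fun p : α × List Bool => f p.1 p.2.length) :
    UL fun x => (l x).map (f x) :=
  (flatMap (F := fun x i => [f x i]) h (cons hf nil)).congr fun _ =>
    List.map_eq_flatMap.symm

theorem filter {P : α → ℕ → Bool} (h : UL l)
    (hP : PT fun p : α × List Bool => P p.1 p.2.length) : UL fun x => (l x).filter (P x) := by
  obtain ⟨u, h1, h2⟩ := h
  refine ⟨_, PT.filter (P := fun x (b : List Bool) => P x b.length) h1 hP, fun x => ?_⟩
  beta_reduce
  rw [← h2, List.filter_map]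
  rfl

end UL

variable {j k m n g a : α → ℕ} {l : α → List ℕ}

theorem ul_un (hj : UN j) : UL fun x => un (j x) :=
  .cons hj (.cons hj (.cons (hj.add (UN.const 1)) (.cons (hj.add (UN.const 1)) .nil)))

theorem ul_ow (hj : UN j) (hn : UN n) : UL fun x => ow (j x) (n x) :=
  UL.flatMap (F := fun x i => un (j x + 2 * i)) (.range hn)
    (ul_un ((hj.comp PT.fst').add ((UN.const 2).mul un_snd)))

theorem ul_ballw (hk : UN k) : UL fun x => ballw (k x) :=
  have h := ul_ow (UN.const 1) ((UN.const 3).mul hk)
  h.reverse.append (.cons (UN.const 1) h)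

theorem ul_windw (hk : UN k) : UL fun x => windw (k x) :=
  have h : UN fun p : α × List Bool => k p.1 := hk.comp PT.fst'
  ((UL.map (f := fun x i => 4 * k x - 1 - i) (.range ((UN.const 2).mul hk))
    ((((UN.const 4).mul h).sub (PT.const 1)).sub un_snd.pt)).append
    (UL.map (f := fun x i => 4 * k x - i) (.range ((UN.const 2).mul hk))
      (((UN.const 4).mul h).sub un_snd.pt))).append
    (UL.map (f := fun x i => 2 * k x + i) (.range (((UN.const 2).mul hk).add (UN.const 1)))
      (((UN.const 2).mul h).add un_snd))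

theorem ul_aw (hk : UN k) (hm : UN m) : UL fun x => aw (k x) (m x) :=
  have h6 := (UN.const 6).mul hk
  have h5 := h6.sub (PT.const 1)
  (ul_ow (((UN.const 2).mul hm).add (UN.const 1))
    ((((UN.const 3).mul hk).sub hm.pt).sub (PT.const 1))).append
    (.cons h5 (.cons h5 (.cons h6 (.cons h5 .nil))))

theorem ul_p1a (hk : UN k) (hm : UN m) : UL fun x => p1a (k x) (m x) :=
  (ul_aw hk hm).append (ul_windw hk)

theorem ul_p1b (hk : UN k) (hm : UN m) : UL fun x => p1b (k x) (m x) :=
  (((((ul_windw hk).append (ul_ballw hk)).append (ul_windw hk)).append (ul_ballw hk)).append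
    (ul_windw hk)).append (ul_ow (((UN.const 2).mul hm).add (UN.const 1))
      (((UN.const 3).mul hk).sub hm.pt)).reverse

theorem ul_p2a (hk : UN k) : UL fun x => p2a (k x) :=
  (((UL.cons (UN.const 1) (ul_ow (UN.const 1) ((UN.const 3).mul hk))).append
    (ul_windw hk)).append (ul_ballw hk)).append (ul_windw hk)

theorem ul_p2b (hk : UN k) (hm : UN m) : UL fun x => p2b (k x) (m x) :=
  (((ul_windw hk).append (ul_ballw hk)).append (ul_windw hk)).append (ul_aw hk hm).reverse

theorem pt_tw (hg : UN g) (ha : UN a) : PT fun x => tw (g x, a x) :=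
  PT.append (hg.replicate (PT.const 2))
    (PT.cons (PT.const 1) (PT.flatten (ha.replicate (PT.const [0, 1]))))

theorem lw_append (p q : List (ℕ × ℕ)) : lw (p ++ q) = lw p ++ lw q := List.flatMap_append

/-- The word of a token list is computable. -/
def LW (ps : α → List (ℕ × ℕ)) : Prop := PT fun x => lw (ps x)

theorem LW.append {p q : α → List (ℕ × ℕ)} (hp : LW p) (hq : LW q) : LW fun x => p x ++ q x :=
  (PT.append hp hq).congr fun _ => (lw_append _ _).symm

theorem lw_one (hg : UN g) (ha : UN a) : LW fun x => [(g x, a x)] :=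
  (pt_tw hg ha).congr fun _ => by simp [lw]

theorem lw_map (hg : UN g) (hl : UL l) : LW fun x => (l x).map (g x, ·) :=
  (UL.flatMapPT (F := fun x i => tw (g x, i)) hl (pt_tw (hg.comp PT.fst') un_snd)).congr
    fun _ => by rw [lw, List.flatMap_map]

theorem lw_sq (hg : UN g) (hl : UL l) : LW fun x => sq (g x) (l x) :=
  (lw_map hg hl.take1).append (lw_map (UN.const 0) hl.tail)

theorem lw_flatMap {F : α → ℕ → List (ℕ × ℕ)} (hl : UL l)
    (hF : LW fun p : α × List Bool => F p.1 p.2.length) : LW fun x => (l x).flatMap (F x) :=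
  (UL.flatMapPT (F := fun x i => lw (F x i)) hl hF).congr fun _ => by
    rw [lw, List.flatMap_assoc]
    rfl

variable {w : α → List ℕ} {o : α → ℕ}

theorem un_pm (hw : PT w) : UN fun x => pm (w x) := (UN.length hw).div (PT.const 3)

theorem un_pK (hw : PT w) : UN fun x => pK (w x) :=
  ((UN.const 6).mul (un_pm hw)).add (UN.const 4)

theorem un_pk (hw : PT w) : UN fun x => pk (w x) := (un_pK hw).mul (UN.length hw)

theorem un_pL (hw : PT w) : UN fun x => pL (w x) :=
  ((UN.const 12).mul (un_pk hw)).add (UN.const 1)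

theorem un_pF (hw : PT w) : UN fun x => pF (w x) :=
  ((UN.const 576).mul ((un_pk hw).pow 3)).add ((UN.const 2).mul (un_pk hw))

theorem un_gap (hw : PT w) (ho : UN o) : UN fun x => gap (w x) (o x) := by
  have h1 : PT fun x => (List.range (o x)).any
      fun o' => decide ((w x).getD o' 0 = (w x).getD (o x) 0) :=
    PT.any (P := fun x o' => decide ((w x).getD o' 0 = (w x).getD (o x) 0)) ho.range
      (PT.eq (ptGetD (PT.comp hw PT.fst') PT.snd' 0)
        (ptGetD (PT.comp hw PT.fst') (PT.comp ho.pt PT.fst') 0))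
  have h2 := ho.add (UN.const 1)
  refine (UN.cond (PT.and (PT.lt ho.pt (PT.length hw)) h1)
    (((UN.const 2).mul (un_pK hw)).mul h2) (((UN.const 4).mul (un_pL hw)).mul h2)).congr
    fun x => ?_
  rw [gap, Bool.cond_eq_ite]
  exact if_congr (by rw [Bool.and_eq_true, decide_eq_true_eq]) rfl rfl

theorem ul_occ (hw : PT w) (ho : PT o) : UL fun x => occ (w x) (o x) :=
  UL.filter (P := fun x i => decide ((w x).getD i 0 = o x)) (.range (UN.length hw))
    (PT.eq (ptGetD (PT.comp hw PT.fst') un_snd.pt 0) (PT.comp ho PT.fst'))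

theorem ul_ord (hw : PT w) : UL fun x => ord (w x) :=
  UL.flatMap (F := fun x => occ (w x)) (.range (UN.length hw))
    (ul_occ (PT.comp hw PT.fst') un_snd.pt)

theorem lw_utok (hw : PT w) (ho : UN o) : LW fun x => utok (w x) (o x) :=
  lw_sq (un_gap hw ho) (ul_un (((UN.const 2).mul (ho.div (PT.const 3))).add (UN.const 1)))

theorem lw_toks (hw : PT w) : LW fun x => toks (w x) :=
  have hk := un_pk hw
  have hm := un_pm hw
  have hn := UN.length hw
  (((((lw_one (UN.const 0) (UN.const 0)).append
    ((lw_sq (un_gap hw hn) (ul_p1a hk hm)).append (lw_sq (UN.const 3) (ul_p1b hk hm)))).append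
    (lw_one (un_gap hw (hn.add (UN.const 1))) (UN.const 1))).append
    (lw_flatMap (F := fun x => utok (w x)) (ul_ord hw)
      (lw_utok (PT.comp hw PT.fst') un_snd))).append
    ((lw_sq (un_gap hw (hn.add (UN.const 2))) (ul_p2a hk)).append
      (lw_sq (UN.const 3) (ul_p2b hk hm)))).append
    (lw_one (un_gap hw (hn.add (UN.const 3))) (UN.const 0))

theorem pt_chain (hw : PT w) : PT fun x => chain (w x) :=
  have h := ((un_pF hw).add (UN.const 1)).replicate (PT.const (0 : ℕ))
  PT.map (F := fun _ (y : ℕ) => decide (y = 0)) (PT.append (PT.append h (lw_toks hw)) h)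
    (PT.eq PT.snd' (PT.const 0))

theorem un_target (hw : PT w) : UN fun x => target (w x) :=
  ((((UN.const 5760).mul ((un_pk hw).pow 3)).add ((UN.const 2592).mul ((un_pk hw).pow 2))).add
    ((UN.const 308).mul (un_pk hw))).add (UN.const 12)

end R

theorem stR : St_R := PT.pair (R.pt_chain PT.id) (R.un_target PT.id).pt

end Pool.Agent.Lib.FCC
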