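import Pool.Agent.Lib.FCC.Blue

/-! Block S: a labelling of the tokens yields a one-in-three assignment. -/

namespace Pool.Agent.Lib.FCC

namespace S

abbrev Z : Type := (ℕ × ℕ) × Pt

def R (G J : ℕ) (x y : Z) : Prop :=
  1 ≤ x.1.2 → x.1.2 ≤ J → 1 ≤ y.1.2 → y.1.2 ≤ J → y.1.1 ≤ G → x.2 = y.2

def R' (J : ℕ) (x y : Z) : Prop :=
  1 ≤ x.1.2 → x.1.2 ≤ J → 1 ≤ y.1.2 → y.1.2 ≤ J → x.2 = y.2

def cnt (j : ℕ) (d : Pt) (zs : List Z) : ℕ := zs.countP fun x => decide (x.1.2 = j ∧ x.2 = d)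

def Lb (G J : ℕ) (zs : List Z) (ps : List (ℕ × ℕ)) : Prop :=
  zs.map Prod.fst = ps ∧ zs.IsChain (R G J)

def Lz (J : ℕ) (zs : List Z) (l : List ℕ) : Prop :=
  zs.map (fun x => x.1.2) = l ∧ zs.IsChain (R' J)

theorem cnt_append (j : ℕ) (d : Pt) (a b : List Z) : cnt j d (a ++ b) = cnt j d a + cnt j d b :=
  List.countP_append

theorem Lb.split {G J : ℕ} {zs : List Z} {p q : List (ℕ × ℕ)} (h : Lb G J zs (p ++ q)) :
    ∃ a b, zs = a ++ b ∧ Lb G J a p ∧ Lb G J b q := by
  obtain ⟨a, b, rfl, ha, hb⟩ := List.map_eq_append_iff.1 h.1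
  exact ⟨a, b, rfl, ⟨ha, h.2.left_of_append⟩, ⟨hb, h.2.right_of_append⟩⟩

theorem Lz.split {J : ℕ} {zs : List Z} {p q : List ℕ} (h : Lz J zs (p ++ q)) :
    ∃ a b, zs = a ++ b ∧ Lz J a p ∧ Lz J b q := by
  obtain ⟨a, b, rfl, ha, hb⟩ := List.map_eq_append_iff.1 h.1
  exact ⟨a, b, rfl, ⟨ha, h.2.left_of_append⟩, ⟨hb, h.2.right_of_append⟩⟩

theorem chain_of {G J : ℕ} : ∀ zs : List Z, zs.IsChain (R G J) → (∀ x ∈ zs.tail, x.1.1 ≤ G) →
    zs.IsChain (R' J)
  | [], _, _ => List.isChain_nil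
  | [_], _, _ => List.isChain_singleton _
  | a :: b :: l, h, hg => by
    rw [List.isChain_cons_cons] at h ⊢
    refine ⟨fun h1 h2 h3 h4 => h.1 h1 h2 h3 h4 (hg b (by simp)), chain_of (b :: l) h.2 ?_⟩
    intro x hx
    exact hg x (List.mem_cons_of_mem _ hx)

theorem Lb.toLz {G J : ℕ} {zs : List Z} {ps : List (ℕ × ℕ)} (h : Lb G J zs ps)
    (hg : ∀ x ∈ ps.tail, x.1 ≤ G) : Lz J zs (ps.map Prod.snd) := by
  obtain ⟨rfl, h2⟩ := h
  refine ⟨by rw [List.map_map]; rfl, chain_of zs h2 fun x hx => hg x.1 ?_⟩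
  rw [← List.map_tail]
  exact List.mem_map_of_mem hx

theorem Lz.zero {J : ℕ} {zs : List Z} {l : List ℕ} (h : Lz J zs l) {j : ℕ} (d : Pt)
    (hj : j ∉ l) : cnt j d zs = 0 := by
  rw [cnt, List.countP_eq_zero]
  intro x hx hc
  simp only [decide_eq_true_eq] at hc
  apply hj
  rw [← h.1, ← hc.1]
  exact List.mem_map_of_mem (f := fun x : Z => x.1.2) hx

theorem unif_aux {J : ℕ} : ∀ (zs : List Z) (a : Z), (a :: zs).IsChain (R' J) →
    (∀ x ∈ a :: zs, 1 ≤ x.1.2 ∧ x.1.2 ≤ J) → ∀ x ∈ a :: zs, x.2 = a.2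
  | [], a, _, _ => by simp
  | b :: l, a, h, hs => by
    rw [List.isChain_cons_cons] at h
    have ha := hs a (by simp)
    have hb := hs b (by simp)
    have e := h.1 ha.1 ha.2 hb.1 hb.2
    have ih := unif_aux l b h.2 fun x hx => hs x (List.mem_cons_of_mem _ hx)
    intro x hx
    rcases List.mem_cons.1 hx with rfl | hx
    · rfl
    · rw [ih x hx, e]

theorem cnt_const {zs : List Z} {e : Pt} (he : ∀ z ∈ zs, z.2 = e) (j : ℕ) (d : Pt) :
    cnt j d zs = if e = d then (zs.map fun x => x.1.2).count j else 0 := by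
  split_ifs with h
  · rw [cnt, List.count, List.countP_map]
    apply List.countP_congr
    intro x hx
    simp [he x hx, h]
  · rw [cnt, List.countP_eq_zero]
    intro x hx hc
    simp only [decide_eq_true_eq] at hc
    exact h ((he x hx).symm.trans hc.2)

theorem Lz.unif {J : ℕ} {zs : List Z} {l : List ℕ} (h : Lz J zs l)
    (hs : ∀ x ∈ l, 1 ≤ x ∧ x ≤ J) :
    ∃ e, (∀ z ∈ zs, z.2 = e) ∧ ∀ j d, cnt j d zs = if e = d then l.count j else 0 := by
  obtain ⟨rfl, h2⟩ := h
  have : ∃ e, ∀ z ∈ zs, z.2 = e := by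
    cases zs with
    | nil => exact ⟨0, by simp⟩
    | cons a t =>
      exact ⟨a.2, unif_aux t a h2 fun x hx =>
        hs _ (List.mem_map_of_mem (f := fun x : Z => x.1.2) hx)⟩
  obtain ⟨e, he⟩ := this
  exact ⟨e, he, cnt_const he⟩

theorem sq_snd (g : ℕ) (l : List ℕ) : (sq g l).map Prod.snd = l := by
  cases l <;> simp [sq, Function.comp_def]

theorem sq_tail (g : ℕ) (l : List ℕ) : ∀ x ∈ (sq g l).tail, x.1 = 0 := by
  cases l with
  | nil => simp [sq]
  | cons a t =>
    intro x hx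
    simp only [sq, List.take_succ_cons, List.take_zero, List.map_cons, List.map_nil,
      List.tail_cons, List.cons_append, List.nil_append, List.mem_map] at hx
    obtain ⟨y, -, rfl⟩ := hx
    rfl

theorem Lb.sq {G J g : ℕ} {zs : List Z} {l : List ℕ} (h : Lb G J zs (sq g l)) : Lz J zs l := by
  have := h.toLz fun x hx => by rw [sq_tail g l x hx]; exact Nat.zero_le _
  rwa [sq_snd] at this

theorem ow_succ (j n : ℕ) : ow j (n + 1) = ow j n ++ un (j + 2 * n) := by
  simp [ow, List.range_succ, List.flatMap_append]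

theorem ow_add (j a b : ℕ) : ow j (a + b) = ow j a ++ ow (j + 2 * a) b := by
  induction b with
  | zero => simp [ow]
  | succ b ih =>
    rw [← Nat.add_assoc, ow_succ, ow_succ, ih, List.append_assoc, Nat.mul_add, Nat.add_assoc]

theorem count_un (x c : ℕ) : (un c).count x = if c = x ∨ c + 1 = x then 2 else 0 := by
  simp only [un, List.count_cons, List.count_nil, beq_iff_eq]
  split_ifs <;> omega

theorem count_ow (x j n : ℕ) : (ow j n).count x = if j ≤ x ∧ x < j + 2 * n then 2 else 0 := by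
  induction n with
  | zero => simp [ow]
  | succ n ih =>
    rw [ow_succ, List.count_append, ih, count_un]
    split_ifs <;> omega

theorem mem_ow {x j n : ℕ} (h : x ∈ ow j n) : j ≤ x ∧ x < j + 2 * n := by
  have := List.count_pos_iff.2 h
  rw [count_ow] at this
  by_contra hc
  rw [if_neg hc] at this
  omega

theorem mem_windw {x k : ℕ} (h : x ∈ windw k) : 2 * k ≤ x := by
  simp only [windw, List.mem_append, List.mem_map, List.mem_range] at h
  rcases h with (⟨y, hy, rfl⟩ | ⟨y, hy, rfl⟩) | ⟨y, hy, rfl⟩ <;> omega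

theorem mem_aw {x k m : ℕ} (hk : m < k) (h : x ∈ aw k m) : 2 * m < x := by
  simp only [aw, List.mem_append, List.mem_cons, List.not_mem_nil, or_false] at h
  rcases h with h | h
  · have := mem_ow h
    omega
  · omega

section
variable {k m j : ℕ} {zs : List Z}

theorem wind0 (hk : m < k) (hj : j ≤ 2 * m) (d : Pt) (h : Lz (2 * m) zs (windw k)) :
    cnt j d zs = 0 :=
  h.zero d fun hx => by have := mem_windw hx; omega

theorem aw0 (hk : m < k) (hj : j ≤ 2 * m) (d : Pt) (h : Lz (2 * m) zs (aw k m)) :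
    cnt j d zs = 0 :=
  h.zero d fun hx => by have := mem_aw hk hx; omega

theorem awr0 (hk : m < k) (hj : j ≤ 2 * m) (d : Pt) (h : Lz (2 * m) zs (aw k m).reverse) :
    cnt j d zs = 0 :=
  h.zero d fun hx => by have := mem_aw hk (List.mem_reverse.1 hx); omega

theorem ow0 {n : ℕ} (hj : j ≤ 2 * m) (d : Pt) (h : Lz (2 * m) zs (ow (1 + 2 * m) n)) :
    cnt j d zs = 0 :=
  h.zero d fun hx => by have := mem_ow hx; omega

theorem owr0 {n c : ℕ} (hj : j ≤ 2 * m) (hc : 2 * m < c) (d : Pt)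
    (h : Lz (2 * m) zs (ow c n).reverse) : cnt j d zs = 0 :=
  h.zero d fun hx => by have := mem_ow (List.mem_reverse.1 hx); omega

theorem ow_split (hk : m < k) : ow 1 (3 * k) = ow 1 m ++ ow (1 + 2 * m) (3 * k - m) := by
  rw [← ow_add, show m + (3 * k - m) = 3 * k by omega]

theorem ball4 (hm : 1 ≤ m) (hk : m < k) (h2 : 2 ≤ j) (hj : j ≤ 2 * m) (d : Pt)
    (h : Lz (2 * m) zs (ballw k)) : 4 ∣ cnt j d zs := by
  have e : ballw k = (ow (1 + 2 * m) (3 * k - m)).reverse ++
      (((ow 1 m).reverse ++ 1 :: ow 1 m) ++ ow (1 + 2 * m) (3 * k - m)) := by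
    rw [ballw, ow_split hk]
    simp
  rw [e] at h
  obtain ⟨a, b, rfl, ha, hb⟩ := h.split
  obtain ⟨b, c, rfl, hb, hc⟩ := hb.split
  obtain ⟨e, -, he⟩ := hb.unif (by
    intro x hx
    simp only [List.mem_append, List.mem_reverse, List.mem_cons] at hx
    rcases hx with hx | rfl | hx
    · have := mem_ow hx; omega
    · omega
    · have := mem_ow hx; omega)
  rw [cnt_append, cnt_append, owr0 hj (by omega) d ha, ow0 hj d hc, he]
  split_ifs
  · rw [List.count_append, List.count_reverse, List.count_cons_of_ne (by omega), count_ow,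
      if_pos (by omega)]
  · simp

theorem half2 (hm : 1 ≤ m) (hk : m < k) (h : Lz (2 * m) zs (1 :: ow 1 (3 * k))) :
    ∃ z ∈ zs, z.1.2 = 1 ∧ ∀ j, 2 ≤ j → j ≤ 2 * m → cnt j z.2 zs = 2 := by
  rw [ow_split hk, ← List.cons_append] at h
  obtain ⟨a, b, rfl, ha, hb⟩ := h.split
  obtain ⟨e, h1, he⟩ := ha.unif (by
    intro x hx
    rcases List.mem_cons.1 hx with rfl | hx
    · omega
    · have := mem_ow hx; omega)
  obtain ⟨z, t, rfl, hz, -⟩ := List.map_eq_cons_iff.1 ha.1
  refine ⟨z, by simp, hz, fun j h2 hj => ?_⟩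
  rw [cnt_append, ow0 hj _ hb, he, if_pos (h1 z (by simp)).symm,
    List.count_cons_of_ne (by omega), count_ow, if_pos (by omega)]

end

theorem blocks {G J : ℕ} (B : ℕ → List (ℕ × ℕ)) (n : ℕ)
    (hs : ∀ v, ∀ x ∈ (B v).map Prod.snd, 1 ≤ x ∧ x ≤ J) (hg : ∀ v, ∀ x ∈ (B v).tail, x.1 ≤ G) :
    ∀ zs, Lb G J zs ((List.range n).flatMap B) → ∃ lab : ℕ → Pt, ∀ j d, cnt j d zs =
      ∑ v ∈ Finset.range n, if lab v = d then ((B v).map Prod.snd).count j else 0 := by
  induction n with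
  | zero =>
    intro zs h
    have : zs = [] := by simpa using h.1
    exact ⟨fun _ => 0, fun j d => by simp [this, cnt]⟩
  | succ n ih =>
    intro zs h
    rw [List.range_succ, List.flatMap_append, List.flatMap_singleton] at h
    obtain ⟨a, b, rfl, ha, hb⟩ := h.split
    obtain ⟨lab, hl⟩ := ih a ha
    obtain ⟨e, -, he⟩ := (hb.toLz (hg n)).unif (hs n)
    refine ⟨fun v => if v = n then e else lab v, fun j d => ?_⟩
    rw [cnt_append, hl, he, Finset.sum_range_succ]
    beta_reduce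
    rw [if_pos (rfl : n = n)]
    apply congrArg (· + _)
    refine Finset.sum_congr rfl fun v hv => ?_
    rw [if_neg (Finset.mem_range.1 hv).ne]

theorem mem_occ {w : List ℕ} {v o : ℕ} : o ∈ occ w v ↔ o < w.length ∧ w.getD o 0 = v := by
  simp [occ]

theorem utok_snd (w : List ℕ) (l : List ℕ) :
    (l.flatMap (utok w)).map Prod.snd = l.flatMap fun o => un (2 * (o / 3) + 1) := by
  rw [List.map_flatMap]
  simp only [utok, sq_snd]

theorem gap_le {w : List ℕ} {o o' : ℕ} (ho : o < w.length) (h : o' < o)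
    (e : w.getD o' 0 = w.getD o 0) : gap w o ≤ 2 * pk w := by
  rw [gap, if_pos, pk, Nat.mul_assoc]
  · exact Nat.mul_le_mul_left _ (Nat.mul_le_mul_left _ ho)
  · refine ⟨ho, ?_⟩
    rw [List.any_eq_true]
    exact ⟨o', List.mem_range.2 h, decide_eq_true e⟩

theorem utok_gap {w : List ℕ} {o G : ℕ} (h : gap w o ≤ G) : ∀ x ∈ utok w o, x.1 ≤ G := by
  intro x hx
  simp only [utok, sq, un, List.take_succ_cons, List.take_zero, List.map_cons, List.map_nil,
    List.tail_cons, List.cons_append, List.nil_append, List.mem_cons, List.not_mem_nil,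
    or_false] at hx
  rcases hx with rfl | rfl | rfl | rfl <;> simp [h]

theorem tail_gap (w : List ℕ) (v : ℕ) :
    ∀ x ∈ ((occ w v).flatMap (utok w)).tail, x.1 ≤ 2 * pk w := by
  have hp : (occ w v).Pairwise (· < ·) := List.Pairwise.filter _ List.pairwise_lt_range
  have hm : ∀ o ∈ occ w v, o < w.length ∧ w.getD o 0 = v := fun o ho => mem_occ.1 ho
  generalize occ w v = l at hp hm
  cases l with
  | nil => simp
  | cons a t =>
    intro x hx
    rw [List.flatMap_cons, List.tail_append_of_ne_nil (by simp [utok, sq, un]),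
      List.mem_append] at hx
    rcases hx with hx | hx
    · rw [sq_tail _ _ x hx]
      exact Nat.zero_le _
    · obtain ⟨o, ho, hx⟩ := List.mem_flatMap.1 hx
      have h1 := hm o (List.mem_cons_of_mem _ ho)
      have h2 := hm a (by simp)
      exact utok_gap (gap_le h1.1 (List.rel_of_pairwise_cons hp ho) (h2.2.trans h1.2.symm)) x hx

theorem count_occ (w : List ℕ) (v i : ℕ) :
    (((occ w v).flatMap (utok w)).map Prod.snd).count (2 * i + 2) =
      ∑ o ∈ Finset.range w.length, if w.getD o 0 = v ∧ o / 3 = i then 2 else 0 := by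
  rw [utok_snd, occ]
  generalize w.length = n
  induction n with
  | zero => simp
  | succ n ih =>
    rw [List.range_succ, List.filter_append, List.flatMap_append, List.count_append, ih,
      Finset.sum_range_succ]
    apply congrArg (_ + ·)
    by_cases h : w.getD n 0 = v
    · rw [List.filter_cons_of_pos (by simpa using h), List.filter_nil, List.flatMap_singleton,
        count_un]
      simp only [h, true_and]
      split_ifs <;> omega
    · rw [List.filter_cons_of_neg (by simpa using h), if_neg fun hc => h hc.1]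
      simp

theorem sum_three (f : ℕ → ℕ) (n i : ℕ) (h : 3 * i + 2 < n) :
    (∑ o ∈ Finset.range n, if o / 3 = i then f o else 0) =
      f (3 * i) + f (3 * i + 1) + f (3 * i + 2) := by
  rw [← Finset.sum_filter]
  have : (Finset.range n).filter (fun o => o / 3 = i) = {3 * i, 3 * i + 1, 3 * i + 2} := by
    ext o
    simp only [Finset.mem_filter, Finset.mem_range, Finset.mem_insert, Finset.mem_singleton]
    omega
  rw [this, Finset.sum_insert (by simp), Finset.sum_pair (by omega), Nat.add_assoc]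

theorem units {w : List ℕ} (hw : WF w) {zs : List Z}
    (h : Lb (2 * pk w) (2 * pm w) zs ((ord w).flatMap (utok w))) :
    ∃ lab : ℕ → Pt, ∀ d i, 3 * i + 2 < w.length → cnt (2 * i + 2) d zs =
      2 * ((decide (lab (w.getD (3 * i) 0) = d)).toNat +
        (decide (lab (w.getD (3 * i + 1) 0) = d)).toNat +
        (decide (lab (w.getD (3 * i + 2) 0) = d)).toNat) := by
  rw [ord, List.flatMap_assoc] at h
  obtain ⟨lab, hl⟩ := blocks (fun v => (occ w v).flatMap (utok w)) w.length (by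
    intro v x hx
    rw [utok_snd] at hx
    obtain ⟨o, ho, hx⟩ := List.mem_flatMap.1 hx
    have h1 := (mem_occ.1 ho).1
    obtain ⟨⟨m, -, hm⟩, -⟩ := hw
    simp only [un, List.mem_cons, List.not_mem_nil, or_false] at hx
    rw [pm]
    omega) (tail_gap w) zs h
  refine ⟨lab, fun d i hi => ?_⟩
  have e1 : ∀ v, (if lab v = d then (((occ w v).flatMap (utok w)).map Prod.snd).count (2 * i + 2)
      else 0) = ∑ o ∈ Finset.range w.length, if w.getD o 0 = v then
        (if o / 3 = i then 2 * (decide (lab (w.getD o 0) = d)).toNat else 0) else 0 := by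
    intro v
    rw [count_occ]
    split_ifs with hv
    · refine Finset.sum_congr rfl fun o _ => ?_
      by_cases h1 : w.getD o 0 = v
      · by_cases h2 : o / 3 = i
        · rw [if_pos ⟨h1, h2⟩, if_pos h1, if_pos h2, h1, decide_eq_true hv]
          rfl
        · rw [if_neg fun hc => h2 hc.2, if_pos h1, if_neg h2]
      · rw [if_neg fun hc => h1 hc.1, if_neg h1]
    · symm
      refine Finset.sum_eq_zero fun o _ => ?_
      by_cases h1 : w.getD o 0 = v
      · rw [if_pos h1, h1, decide_eq_false hv]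
        simp
      · rw [if_neg h1]
  rw [hl]
  simp only [e1]
  rw [Finset.sum_comm]
  have e2 : ∀ o ∈ Finset.range w.length, (∑ v ∈ Finset.range w.length, if w.getD o 0 = v then
      (if o / 3 = i then 2 * (decide (lab (w.getD o 0) = d)).toNat else 0) else 0) =
      if o / 3 = i then 2 * (decide (lab (w.getD o 0) = d)).toNat else 0 := by
    intro o ho
    rw [Finset.sum_ite_eq, if_pos]
    rw [Finset.mem_range] at ho ⊢
    apply hw.2
    rw [List.getD_eq_getElem _ _ ho]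
    exact List.getElem_mem ho
  rw [Finset.sum_congr rfl e2, sum_three _ _ _ hi]
  omega

theorem toList {G J : ℕ} {ps : List (ℕ × ℕ)} {ver : ℕ → Pt} (h : Lab G J ps ver) :
    ∃ zs, Lb G J zs ps ∧ (∀ z ∈ zs, 1 ≤ z.1.2 → z.1.2 ≤ J → z.2 ∈ axes) ∧
      ∀ d ∈ axes, ∀ j, 2 ≤ j → j ≤ J → cnt j d zs = 4 := by
  refine ⟨(List.range ps.length).map fun i => (ps.getD i (1, 1), ver i), ⟨?_, ?_⟩, ?_, ?_⟩
  · apply List.ext_getElem (by simp)
    intro i h1 h2
    simp [List.getElem?_eq_getElem h2]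
  · rw [List.isChain_map, List.isChain_range]
    intro i hi h1 h2 h3 h4 h5
    exact h.same i (by omega) h1 h2 h3 h4 h5
  · intro z hz
    obtain ⟨i, hi, rfl⟩ := List.mem_map.1 hz
    exact h.mem i (List.mem_range.1 hi)
  · intro d hd j h2 hj
    rw [← h.four d hd j h2 hj, cnt, List.countP_map, List.countP_eq_length_filter]
    rfl

theorem single {G J g c j : ℕ} {zs : List Z} (h : Lb G J zs [(g, c)]) (d : Pt) (hj : j ≠ c) :
    cnt j d zs = 0 :=
  (h.toLz (by simp)).zero d (by simpa using hj)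

end S

open S in
theorem stS : St_S := by
  intro w hw ver hlab
  obtain ⟨zs, hz, hax, h4⟩ := toList hlab
  have hm : 1 ≤ pm w := by
    obtain ⟨⟨m, h1, hm⟩, -⟩ := hw
    rw [pm]
    omega
  have hk : pm w < pk w := by
    obtain ⟨⟨m, h1, hm⟩, -⟩ := hw
    have : pK w * 1 ≤ pK w * w.length := Nat.mul_le_mul_left _ (by omega)
    rw [pk]
    rw [pK] at this ⊢
    omega
  rw [toks] at hz
  obtain ⟨zs, z7, rfl, hz, h7⟩ := hz.split
  obtain ⟨zs, z5, rfl, hz, h5⟩ := hz.split
  obtain ⟨zs, zU, rfl, hz, hU⟩ := hz.split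
  obtain ⟨zs, z3, rfl, hz, h3⟩ := hz.split
  obtain ⟨z0, z1, rfl, h0, h1⟩ := hz.split
  obtain ⟨z1, z2, rfl, h1, h2⟩ := h1.split
  obtain ⟨z5, z6, rfl, h5, h6⟩ := h5.split
  obtain ⟨a1, a2, rfl, ha1, ha2⟩ := Lz.split h1.sq
  obtain ⟨b, b6, rfl, hb, hb6⟩ := Lz.split h2.sq
  obtain ⟨b, b5, rfl, hb, hb5⟩ := hb.split
  obtain ⟨b, b4, rfl, hb, hb4⟩ := hb.split
  obtain ⟨b, b3, rfl, hb, hb3⟩ := hb.split
  obtain ⟨b1, b2, rfl, hb1, hb2⟩ := hb.split
  obtain ⟨c, c4, rfl, hc, hc4⟩ := Lz.split h5.sq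
  obtain ⟨c, c3, rfl, hc, hc3⟩ := hc.split
  obtain ⟨c1, c2, rfl, hc1, hc2⟩ := hc.split
  obtain ⟨e, e4, rfl, he, he4⟩ := Lz.split h6.sq
  obtain ⟨e, e3, rfl, he, he3⟩ := he.split
  obtain ⟨e1, e2, rfl, he1, he2⟩ := he.split
  obtain ⟨z, hzm, hz1, hz2⟩ := half2 hm hk hc1
  have hτ : z.2 ∈ axes := hax z (by simp [hzm]) (by omega) (by omega)
  obtain ⟨lab, hl⟩ := units hw hU
  refine ⟨fun v => decide (lab v = z.2), fun i hi => ?_⟩
  have hj : 2 * i + 2 ≤ 2 * pm w := by
    rw [pm]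
    omega
  have h2j : 2 ≤ 2 * i + 2 := by omega
  have H := h4 z.2 hτ _ h2j hj
  simp only [cnt_append] at H
  rw [single h0 _ (by omega), single h3 _ (by omega), single h7 _ (by omega),
    aw0 hk hj _ ha1, wind0 hk hj _ ha2, wind0 hk hj _ hb1, wind0 hk hj _ hb3,
    wind0 hk hj _ hb5, owr0 hj (by omega) _ hb6, wind0 hk hj _ hc2, wind0 hk hj _ hc4,
    wind0 hk hj _ he1, wind0 hk hj _ he3, awr0 hk hj _ he4, hz2 _ h2j hj, hl _ _ hi] at H
  have d1 := ball4 hm hk h2j hj z.2 hb2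
  have d2 := ball4 hm hk h2j hj z.2 hb4
  have d3 := ball4 hm hk h2j hj z.2 hc3
  have d4 := ball4 hm hk h2j hj z.2 he2
  beta_reduce
  omega

end Pool.Agent.Lib.FCC
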