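import Pool.Agent.Lib.FCC.A1Blue

/-! The slice lemma. -/

namespace Pool.Agent.Lib.FCC

open Finset

namespace SLICE

theorem dot_add (x y e : Pt) : dot (x + y) e = dot x e + dot y e := by
  simp only [dot, Prod.fst_add, Prod.snd_add]; ring

theorem dot_neg (x e : Pt) : dot (-x) e = -dot x e := by
  simp only [dot, Prod.fst_neg, Prod.snd_neg]; ring

theorem dot_neg' (x e : Pt) : dot x (-e) = -dot x e := by
  simp only [dot, Prod.fst_neg, Prod.snd_neg]; ring

theorem dot_comm (x e : Pt) : dot x e = dot e x := by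
  simp only [dot]; ring

theorem frame {d : Pt} (hd : d ∈ axes) : ∃ a u v : Pt,
    (dirs.filter (dot · d = 0) = [u, -u, v, -v].toFinset ∧ [u, -u, v, -v].Nodup ∧
    (∀ e ∈ dirs, dot e d = 1 → e + a = 0 ∨ e + a + u = 0 ∨ e + a + v = 0 ∨ e + a + u + v = 0) ∧
    dot u u = 2 ∧ dot v v = 2 ∧ dot u v = 0 ∧ dot u d = 0 ∧ dot v d = 0) ∧
    ∀ x y, dot x d = dot y d → dot x u = dot y u → dot x v = dot y v → x = y := by
  simp only [axes, mem_insert, mem_singleton] at hd
  rcases hd with rfl | rfl | rfl | rfl | rfl | rfl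
  on_goal 1 => refine ⟨(-1, -1, 0), (0, 1, 1), (0, 1, -1), by decide, ?_⟩
  on_goal 2 => refine ⟨(1, -1, 0), (0, 1, 1), (0, 1, -1), by decide, ?_⟩
  on_goal 3 => refine ⟨(-1, -1, 0), (1, 0, 1), (1, 0, -1), by decide, ?_⟩
  on_goal 4 => refine ⟨(-1, 1, 0), (1, 0, 1), (1, 0, -1), by decide, ?_⟩
  on_goal 5 => refine ⟨(-1, 0, -1), (1, 1, 0), (1, -1, 0), by decide, ?_⟩
  on_goal 6 => refine ⟨(-1, 0, 1), (1, 1, 0), (1, -1, 0), by decide, ?_⟩
  all_goals
    rintro ⟨x, y, z⟩ ⟨x', y', z'⟩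
    simp only [dot, Prod.mk.injEq]
    omega

/-- The points of `Z` whose neighbour in direction `e` is missing. -/
def en (Z : Finset Pt) (e : Pt) : Finset Pt := Z.filter (· + e ∉ Z)

theorem mem_en {Z : Finset Pt} {e x : Pt} : x ∈ en Z e ↔ x ∈ Z ∧ x + e ∉ Z := mem_filter

theorem en_neg (Z : Finset Pt) (e : Pt) : (en Z (-e)).card ≤ (en Z e).card := by
  have h1 := card_filter_add_card_filter_not (s := Z) (· + e ∈ Z)
  have h2 := card_filter_add_card_filter_not (s := Z) (· + -e ∈ Z)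
  have : (Z.filter (· + e ∈ Z)).card ≤ (Z.filter (· + -e ∈ Z)).card :=
    card_le_card_of_injOn (· + e) (fun x m => by
      simp only [mem_coe, mem_filter] at m ⊢
      exact ⟨m.2, by simpa using m.1⟩) (add_left_injective e).injOn
  unfold en
  omega

theorem lex {Z : Finset Pt} (u v : Pt) {z : Pt} (hz : z ∈ Z) :
    ∃ p ∈ Z, dot p v = dot z v ∧ ∀ q ∈ Z, dot q v = dot z v → dot q u ≤ dot p u := by
  obtain ⟨p, m, h⟩ := exists_max_image (Z.filter (dot · v = dot z v)) (dot · u)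
    ⟨z, mem_filter.2 ⟨hz, rfl⟩⟩
  exact ⟨p, (mem_filter.1 m).1, (mem_filter.1 m).2, fun q a b => h q (mem_filter.2 ⟨a, b⟩)⟩

theorem corner {Z : Finset Pt} (hZ : Z.Nonempty) {u v : Pt} (h1 : dot u u = 2) (h2 : dot v v = 2)
    (h3 : dot u v = 0) : ∃ p ∈ Z, p + u ∉ Z ∧ p + v ∉ Z ∧
      ∀ q ∈ Z, dot q v ≤ dot p v ∧ (dot q v = dot p v → dot q u ≤ dot p u) := by
  obtain ⟨z, m, h⟩ := exists_max_image Z (dot · v) hZ
  obtain ⟨p, p1, p2, p3⟩ := lex u v m
  refine ⟨p, p1, fun k => ?_, fun k => ?_, fun q a => ⟨p2 ▸ h q a, fun b => p3 q a (b.trans p2)⟩⟩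
  · have := p3 _ k (by rw [dot_add, h3, p2, add_zero])
    rw [dot_add] at this
    omega
  · have := h _ k
    rw [dot_add] at this
    omega

theorem plaq {Z P : Finset Pt} {u v z : Pt} (h1 : dot u u = 2) (h2 : dot v v = 2)
    (h3 : dot u v = 0) (z0 : z ∈ Z) (z1 : z + u ∈ Z) (z2 : z + v ∈ Z) (z3 : z + -v ∈ Z)
    (hP : ∀ c ∈ P, c ∈ Z ∨ c + u ∈ Z ∨ c + v ∈ Z ∨ c + u + v ∈ Z) :
    P.card + 4 ≤ Z.card + ((en Z u).card + (en Z (-u)).card + (en Z v).card +
      (en Z (-v)).card) := by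
  have a1 : 3 ≤ (en Z u).card := by
    have : ({dot z v, dot z v + 2, dot z v - 2} : Finset ℤ) ⊆ (en Z u).image (dot · v) := by
      have k : ∀ y ∈ Z, dot y v ∈ (en Z u).image (dot · v) := fun y hy => by
        obtain ⟨p, p1, p2, p3⟩ := lex u v hy
        refine mem_image.2 ⟨p, mem_en.2 ⟨p1, fun k => ?_⟩, p2⟩
        have := p3 _ k (by rw [dot_add, h3, p2, add_zero])
        rw [dot_add] at this
        omega
      have k2 := k _ z2
      have k3 := k _ z3
      rw [dot_add, h2] at k2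
      rw [dot_add, dot_neg, h2] at k3
      exact insert_subset (k z z0) (insert_subset k2 (singleton_subset_iff.2 k3))
    have := (card_le_card this).trans card_image_le
    rwa [card_eq_three.2 ⟨_, _, _, by omega, by omega, by omega, rfl⟩] at this
  set B := (en Z (-v)).filter (· + -v + u ∉ Z) with hB
  set B' := (en Z (-v)).filter (· + -u ∉ Z) with hB'
  have a2 : B.card + B'.card < 2 * (en Z (-v)).card := by
    obtain ⟨x, m, h⟩ := exists_min_image (Z.filter (· + u ∈ Z)) (dot · v)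
      ⟨z, mem_filter.2 ⟨z0, z1⟩⟩
    rw [mem_filter] at m
    have b : B.card ≤ _ := card_filter_le _ _
    have b' : B'.card ≤ _ := card_filter_le _ _
    by_cases e : x + -v + u ∈ Z
    · have : B.card < _ := card_lt_card (filter_ssubset.2 ⟨x, mem_en.2 ⟨m.1, fun k => by
        have := h _ (mem_filter.2 ⟨k, e⟩)
        rw [dot_add, dot_neg] at this
        omega⟩, not_not.2 e⟩)
      omega
    · have : B'.card < _ := card_lt_card (filter_ssubset.2 ⟨x + u,
        mem_en.2 ⟨m.2, by rwa [add_right_comm]⟩, by simpa using m.1⟩)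
      omega
  have a3 : P ⊆ Z ∪ (en Z (-u)).image (· - u) ∪ B.image (· - v) ∪ B'.image (· - v - u) := by
    intro c hc
    have := hP c hc
    simp only [mem_union, mem_image, hB, hB', mem_filter, mem_en]
    by_cases c0 : c ∈ Z
    · exact .inl (.inl (.inl c0))
    by_cases c1 : c + u ∈ Z
    · exact .inl (.inl (.inr ⟨c + u, by simpa using ⟨c1, c0⟩, by simp⟩))
    by_cases c2 : c + v ∈ Z
    · exact .inl (.inr ⟨c + v, by simpa using ⟨⟨c2, c0⟩, c1⟩, by simp⟩)
    refine .inr ⟨c + u + v, ⟨⟨by tauto, by simpa⟩, ?_⟩, by simp⟩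
    rwa [add_right_comm c, add_neg_cancel_right]
  have a4 := (card_le_card a3).trans ((card_union_le _ _).trans (add_le_add
    ((card_union_le _ _).trans (add_le_add ((card_union_le _ _).trans
      (add_le_add le_rfl card_image_le)) card_image_le)) card_image_le))
  have := en_neg Z v
  omega

theorem four {p q r s a b c d : Prop} [Decidable p] [Decidable q] [Decidable r] [Decidable s]
    [Decidable a] [Decidable b] [Decidable c] [Decidable d]
    (n : (if a then 1 else 0) + (if b then 1 else 0) + (if c then 1 else 0) +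
      (if d then 1 else 0) ≠ 0) (h1 : p → a ∧ c) (h2 : q → b ∧ c) (h3 : r → a ∧ d)
    (h4 : s → b ∧ d) (h5 : ¬ (p ∧ q ∧ r)) :
    (if p then 1 else 0) + (if q then 1 else 0) + (if r then 1 else 0) + (if s then 1 else 0) ≤
      (((if a then 1 else 0) + (if b then 1 else 0) + (if c then 1 else 0) +
        (if d then 1 else 0) : ℕ) : ℤ) - 1 := by
  split_ifs at n ⊢ <;> first | omega | simp_all

end SLICE

open SLICE in
theorem stSLICE : St_SLICE := by
  intro X hX _ d hd w K hw hK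
  obtain ⟨a, u, v, ⟨f1, f2, f3, f4, f5, f6, f7, f8⟩, f9⟩ := frame hd
  set Z := X.filter (Top X d) with hZ
  have zn : Z.Nonempty := by
    obtain ⟨x, m, h⟩ := exists_max_image X (dot · d) hX
    exact ⟨x, mem_filter.2 ⟨m, h⟩⟩
  have zm : ∀ h ∈ Z, ∀ e, dot e d = 0 → (h + e ∈ X ↔ h + e ∈ Z) := fun h m e k =>
    ⟨fun x => mem_filter.2 ⟨x, fun q y => by
      rw [dot_add, k, add_zero]; exact (mem_filter.1 m).2 q y⟩, fun x => (mem_filter.1 x).1⟩
  have zl : ∀ h ∈ Z, lat X d h = (if h + u ∉ Z then 1 else 0) + (if h + -u ∉ Z then 1 else 0) +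
      (if h + v ∉ Z then 1 else 0) + if h + -v ∉ Z then 1 else 0 := fun h m => by
    have : lat X d h = ∑ e ∈ dirs.filter (dot · d = 0), if h + e ∉ Z then 1 else 0 := by
      rw [lat, card_filter, nb, sum_image (add_right_injective h).injOn, sum_filter]
      refine sum_congr rfl fun e _ => ?_
      by_cases k : dot e d = 0 <;> simp [dot_add, k, zm h m e]
    rw [this, f1, List.sum_toFinset _ f2]
    simp only [List.map, List.sum_cons, List.sum_nil]
    omega
  have hw' := fun h (m : h ∈ Z) => hw h (mem_filter.1 m).1 (mem_filter.1 m).2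
  by_cases e : ∃ z ∈ Z, lat X d z = 0
  · obtain ⟨z, m, e⟩ := e
    rw [zl z m] at e
    have k := plaq (P := (Z.biUnion K).image (· + a)) f4 f5 f6 m
      (by_contra fun n => by rw [if_pos n] at e; omega)
      (by_contra fun n => by rw [if_pos n] at e; omega)
      (by_contra fun n => by rw [if_pos n] at e; omega) fun c hc => by
        obtain ⟨s, hs, rfl⟩ := mem_image.1 hc
        obtain ⟨h, m, hs⟩ := mem_biUnion.1 hs
        obtain ⟨s1, s2⟩ := mem_filter.1 ((hw' h m).1 hs)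
        obtain ⟨e, e1, rfl⟩ := mem_image.1 s1
        rw [dot_add, add_right_inj] at s2
        have := f3 e e1 s2
        simp only [add_assoc] at this ⊢
        rcases this with k | k | k | k <;> simp [k, m]
    rw [card_image_of_injective _ (add_left_injective a), card_biUnion (s := Z) fun h m h' m' n =>
      hK h (mem_filter.1 m).1 h' (mem_filter.1 m').1 (mem_filter.1 m).2 (mem_filter.1 m').2 n] at k
    simp only [en, card_filter, ← sum_add_distrib] at k
    rw [← sum_congr rfl zl] at k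
    change _ ≤ _ + ∑ x ∈ Z, lat X d x at k
    have := sum_le_sum fun h m => (hw' h m).2.2
    simp only [sum_add_distrib, sum_const, nsmul_eq_mul, mul_one, ← Nat.cast_sum] at this
    omega
  obtain ⟨p1, m1, a1, b1, c1⟩ := corner zn f4 f5 f6
  obtain ⟨p2, m2, a2, b2, c2⟩ := corner zn (u := -u) (by rw [dot_neg, dot_neg', f4]; rfl) f5
    (by rw [dot_neg, f6]; rfl)
  obtain ⟨p3, m3, a3, b3, c3⟩ := corner zn (v := -v) f4 (by rw [dot_neg, dot_neg', f5]; rfl)
    (by rw [dot_neg', f6]; rfl)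
  obtain ⟨p4, m4, a4, b4, -⟩ := corner zn (u := -u) (v := -v) (by rw [dot_neg, dot_neg', f4]; rfl)
    (by rw [dot_neg, dot_neg', f5]; rfl) (by rw [dot_neg, dot_neg', f6]; rfl)
  by_cases s : p1 = p2 ∧ p1 = p3
  · obtain ⟨rfl, rfl⟩ := s
    refine .inr ⟨p1, eq_singleton_iff_unique_mem.2 ⟨m1, fun q m => ?_⟩, by
      rw [zl p1 m1, if_pos a1, if_pos a2, if_pos b1, if_pos b3]⟩
    have k1 := c1 q m
    have k2 := c2 q m
    have k3 := c3 q m
    simp only [dot_neg'] at k2 k3
    exact f9 _ _ (le_antisymm ((mem_filter.1 m1).2 q (mem_filter.1 m).1)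
      ((mem_filter.1 m).2 p1 (mem_filter.1 m1).1)) (by omega) (by omega)
  refine .inl (le_trans ?_ (sum_le_sum (f := fun h => (if p1 = h then 1 else 0) +
    (if p2 = h then 1 else 0) + (if p3 = h then 1 else 0) + if p4 = h then 1 else 0)
    fun h m => le_trans ?_ (hw' h m).2.1))
  · simp [sum_add_distrib, m1, m2, m3, m4]
  · have n : lat X d h ≠ 0 := fun k => e ⟨h, m, k⟩
    rw [zl h m] at n ⊢
    exact four n (fun k => k ▸ ⟨a1, b1⟩) (fun k => k ▸ ⟨a2, b2⟩) (fun k => k ▸ ⟨a3, b3⟩)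
      (fun k => k ▸ ⟨a4, b4⟩) fun k => s ⟨k.1.trans k.2.1.symm, k.1.trans k.2.2.symm⟩

end Pool.Agent.Lib.FCC
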