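import Pool.Agent.Lib.FCC.Blue

/-! Block WIND: the windmill that covers the central triangle of a face. -/

namespace Pool.Agent.Lib.FCC

namespace WIND

theorem mono {w : List ℕ} {u v : Pt} {A B A' B' : Set Pt} (h : Seg w u v A B ∅) (hA : A' ⊆ A)
    (hB : B' ⊆ B) : Seg w u v A' B' ∅ := by
  obtain ⟨l, h1, h2, h3, h4, h5, h6, h7⟩ := h
  exact ⟨l, h1, h2, h3, h4, fun x hx => h5 x (hA hx), fun x hx => h6 x (hB hx), h7⟩

theorem nil_of {l : List (ℕ × Pt)} (h : ∀ x, (2, x) ∈ l → x ∈ (∅ : Set Pt)) :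
    (l.filter fun e => decide (e.1 = 2)) = [] := by
  rw [List.filter_eq_nil_iff]
  rintro ⟨a, x⟩ hx h2
  simp only [decide_eq_true_eq] at h2
  subst h2
  exact h x hx

theorem app {w w' : List ℕ} {u v u' v' : Pt} {A B A' B' : Set Pt} (h : Seg w u v A B ∅)
    (h' : Seg w' u' v' A' B' ∅) (ha : adj v u') : Seg (w ++ w') u v' (A ∪ A') (B ∪ B') ∅ := by
  obtain ⟨l, h1, h2, h3, h4, h5, h6, -, h8⟩ := h
  obtain ⟨l', k1, k2, k3, k4, k5, k6, -, k8⟩ := h'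
  have h9 : ∀ x, (2, x) ∈ l ++ l' → x ∈ (∅ : Set Pt) := fun x hx =>
    (List.mem_append.1 hx).elim (h8 x) (k8 x)
  refine ⟨l ++ l', by rw [List.map_append, h1, k1], ?_, ?_, ?_, ?_, ?_, ?_, h9⟩
  · rw [List.map_append]
    refine List.IsChain.append h2 k2 fun x hx y hy => ?_
    rw [h4] at hx
    rw [k3] at hy
    obtain rfl : v = x := Option.some.inj hx
    obtain rfl : u' = y := Option.some.inj hy
    exact ha
  · rw [List.map_append, List.head?_append, h3]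
    rfl
  · rw [List.map_append, List.getLast?_append, k4]
    rfl
  · exact fun x hx => List.mem_append.2 (hx.imp (h5 x) (k5 x))
  · exact fun x hx => List.mem_append.2 (hx.imp (h6 x) (k6 x))
  · rw [nil_of h9]
    exact List.nodup_nil

theorem one0 (p : Pt) : Seg [0] p p {p} ∅ ∅ :=
  ⟨[(0, p)], rfl, by simp, rfl, rfl, by simp, by simp, by simp, by simp⟩

theorem one1 (p : Pt) : Seg [1] p p ∅ {p} ∅ :=
  ⟨[(1, p)], rfl, by simp, rfl, rfl, by simp, by simp, by simp, by simp⟩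

theorem pc_succ (a : ℕ) : pc (a + 1) = pc a ++ [0] ++ [1] := by
  simp [pc, List.replicate_succ']

/-- A straight piece with sites `f t` and atoms `g t`. -/
theorem row (f g : ℕ → Pt) (a : ℕ) (h : ∀ t < a, adj (f t) (g t) ∧ adj (g t) (f (t + 1))) :
    Seg (pc a) (f 0) (f a) {p | ∃ t < a, g t = p} {p | ∃ t ≤ a, f t = p} ∅ := by
  induction a with
  | zero =>
    refine mono (one1 (f 0)) ?_ ?_
    · rintro p ⟨t, ht, -⟩
      omega
    · rintro p ⟨t, ht, rfl⟩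
      obtain rfl : t = 0 := by omega
      rfl
  | succ a ih =>
    rw [pc_succ]
    refine mono (app (app (ih fun t ht => h t (by omega)) (one0 (g a)) (h a (by omega)).1)
      (one1 (f (a + 1))) (h a (by omega)).2) ?_ ?_
    · rintro p ⟨t, ht, rfl⟩
      rcases Nat.lt_succ_iff_lt_or_eq.1 ht with h1 | rfl
      · exact Or.inl (Or.inl ⟨t, h1, rfl⟩)
      · exact Or.inl (Or.inr rfl)
    · rintro p ⟨t, ht, rfl⟩
      rcases Nat.lt_or_eq_of_le ht with h1 | rfl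
      · exact Or.inl (Or.inl ⟨t, by omega, rfl⟩)
      · exact Or.inr rfl

/-- A chain of pieces. -/
theorem chain (a : ℕ → ℕ) (u v : ℕ → Pt) (A B : ℕ → Set Pt) (n : ℕ)
    (h : ∀ i ≤ n, Seg (pc (a i)) (u i) (v i) (A i) (B i) ∅)
    (ha : ∀ i < n, adj (v i) (u (i + 1))) :
    Seg (pw ((List.range (n + 1)).map a)) (u 0) (v n) {p | ∃ i ≤ n, p ∈ A i}
      {p | ∃ i ≤ n, p ∈ B i} ∅ := by
  induction n with
  | zero =>
    have e : pw ((List.range (0 + 1)).map a) = pc (a 0) := by simp [pw]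
    rw [e]
    refine mono (h 0 le_rfl) ?_ ?_ <;> rintro p ⟨i, hi, hp⟩ <;>
      obtain rfl : i = 0 := by omega
    · exact hp
    · exact hp
  | succ n ih =>
    have e : pw ((List.range (n + 1 + 1)).map a) =
        pw ((List.range (n + 1)).map a) ++ pc (a (n + 1)) := by
      rw [List.range_succ (n := n + 1)]
      simp [pw]
    rw [e]
    refine mono (app (ih (fun i hi => h i (by omega)) fun i hi => ha i (by omega))
      (h (n + 1) le_rfl) (ha n (by omega))) ?_ ?_ <;> rintro p ⟨i, hi, hp⟩ <;>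
      rcases Nat.lt_or_eq_of_le hi with h1 | rfl
    · exact Or.inl ⟨i, by omega, hp⟩
    · exact Or.inr hp
    · exact Or.inl ⟨i, by omega, hp⟩
    · exact Or.inr hp

/-- First blade. -/
theorem rowc (k c : ℕ) (hc : c < 2 * k) : Seg (pc (4 * k - 1 - c))
    (if c % 2 = 0 then (c + 1, 6 * k + 1, 6 * k + 1 - c) else (4 * k, 2 * k + 2 + c, 6 * k + 1 - c))
    (if c % 2 = 0 then (4 * k, 2 * k + 2 + c, 6 * k + 1 - c) else (c + 1, 6 * k + 1, 6 * k + 1 - c))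
    {p | p.1 + p.2.1 + p.2.2 = 12 * k + 1 ∧ p.2.2 = 6 * k - c ∧ p.2.1 ≤ 6 * k ∧ p.1 < 4 * k}
    {p | p.1 + p.2.1 + p.2.2 = 12 * k + 3 ∧ p.2.2 = 6 * k + 1 - c ∧ p.2.1 ≤ 6 * k + 1 ∧
      p.1 ≤ 4 * k} ∅ := by
  split_ifs
  · have h := row (fun t => ((c : ℤ) + 1 + t, 6 * (k : ℤ) + 1 - t, 6 * (k : ℤ) + 1 - c))
      (fun t => ((c : ℤ) + 1 + t, 6 * (k : ℤ) - t, 6 * (k : ℤ) - c)) (4 * k - 1 - c)
      fun t _ => by unfold adj; dsimp only; omega
    have e1 : ((c : ℤ) + 1 + (4 * k - 1 - c : ℕ), 6 * (k : ℤ) + 1 - (4 * k - 1 - c : ℕ),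
        6 * (k : ℤ) + 1 - c) = (4 * (k : ℤ), 2 * (k : ℤ) + 2 + c, 6 * (k : ℤ) + 1 - c) := by
      simp only [Prod.mk.injEq, and_true]
      omega
    simp only [e1, Nat.cast_zero, add_zero, sub_zero] at h
    refine mono h ?_ ?_ <;> rintro ⟨x, y, z⟩ hp <;> simp only [Set.mem_ofPred_eq] at hp <;>
      refine ⟨(x - c - 1).toNat, by omega, ?_⟩ <;> simp only [Prod.mk.injEq] <;> omega
  · have h := row (fun t => (4 * (k : ℤ) - t, 2 * (k : ℤ) + 2 + c + t, 6 * (k : ℤ) + 1 - c))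
      (fun t => (4 * (k : ℤ) - 1 - t, 2 * (k : ℤ) + 2 + c + t, 6 * (k : ℤ) - c)) (4 * k - 1 - c)
      fun t _ => by unfold adj; dsimp only; omega
    have e1 : (4 * (k : ℤ) - (4 * k - 1 - c : ℕ), 2 * (k : ℤ) + 2 + c + (4 * k - 1 - c : ℕ),
        6 * (k : ℤ) + 1 - c) = ((c : ℤ) + 1, 6 * (k : ℤ) + 1, 6 * (k : ℤ) + 1 - c) := by
      simp only [Prod.mk.injEq, and_true]
      omega
    simp only [e1, Nat.cast_zero, add_zero, sub_zero] at h
    refine mono h ?_ ?_ <;> rintro ⟨x, y, z⟩ hp <;> simp only [Set.mem_ofPred_eq] at hp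
    · refine ⟨(4 * k - 1 - x).toNat, by omega, ?_⟩
      simp only [Prod.mk.injEq]
      omega
    · refine ⟨(4 * k - x).toNat, by omega, ?_⟩
      simp only [Prod.mk.injEq]
      omega

/-- Second blade. -/
theorem rowb (k b : ℕ) (hb : b < 2 * k) : Seg (pc (4 * k - b))
    (if b % 2 = 0 then (2 * k + 1 + b, 6 * k + 1 - b, 4 * k + 1) else (6 * k + 1, 6 * k + 1 - b, b + 1))
    (if b % 2 = 0 then (6 * k + 1, 6 * k + 1 - b, b + 1) else (2 * k + 1 + b, 6 * k + 1 - b, 4 * k + 1))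
    {p | p.1 + p.2.1 + p.2.2 = 12 * k + 1 ∧ p.2.1 = 6 * k - b ∧ p.1 ≤ 6 * k ∧ p.2.2 ≤ 4 * k}
    {p | p.1 + p.2.1 + p.2.2 = 12 * k + 3 ∧ p.2.1 = 6 * k + 1 - b ∧ p.1 ≤ 6 * k + 1 ∧
      p.2.2 ≤ 4 * k + 1} ∅ := by
  split_ifs
  · have h := row (fun t => (2 * (k : ℤ) + 1 + b + t, 6 * (k : ℤ) + 1 - b, 4 * (k : ℤ) + 1 - t))
      (fun t => (2 * (k : ℤ) + 1 + b + t, 6 * (k : ℤ) - b, 4 * (k : ℤ) - t)) (4 * k - b)
      fun t _ => by unfold adj; dsimp only; omega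
    have e1 : (2 * (k : ℤ) + 1 + b + (4 * k - b : ℕ), 6 * (k : ℤ) + 1 - b,
        4 * (k : ℤ) + 1 - (4 * k - b : ℕ)) = (6 * (k : ℤ) + 1, 6 * (k : ℤ) + 1 - b, (b : ℤ) + 1) := by
      simp only [Prod.mk.injEq, true_and]
      omega
    simp only [e1, Nat.cast_zero, add_zero, sub_zero] at h
    refine mono h ?_ ?_ <;> rintro ⟨x, y, z⟩ hp <;> simp only [Set.mem_ofPred_eq] at hp <;>
      refine ⟨(x - 2 * k - 1 - b).toNat, by omega, ?_⟩ <;> simp only [Prod.mk.injEq] <;> omega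
  · have h := row (fun t => (6 * (k : ℤ) + 1 - t, 6 * (k : ℤ) + 1 - b, (b : ℤ) + 1 + t))
      (fun t => (6 * (k : ℤ) - t, 6 * (k : ℤ) - b, (b : ℤ) + 1 + t)) (4 * k - b)
      fun t _ => by unfold adj; dsimp only; omega
    have e1 : (6 * (k : ℤ) + 1 - (4 * k - b : ℕ), 6 * (k : ℤ) + 1 - b, (b : ℤ) + 1 + (4 * k - b : ℕ)) =
        (2 * (k : ℤ) + 1 + b, 6 * (k : ℤ) + 1 - b, 4 * (k : ℤ) + 1) := by
      simp only [Prod.mk.injEq, true_and]
      omega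
    simp only [e1, Nat.cast_zero, add_zero, sub_zero] at h
    refine mono h ?_ ?_ <;> rintro ⟨x, y, z⟩ hp <;> simp only [Set.mem_ofPred_eq] at hp <;>
      refine ⟨(z - b - 1).toNat, by omega, ?_⟩ <;> simp only [Prod.mk.injEq] <;> omega

/-- Third blade. -/
theorem rowa (k i : ℕ) : Seg (pc (2 * k + i))
    (if i % 2 = 0 then (4 * k + 1 + i, 4 * k + 1, 4 * k + 1 - i)
      else (4 * k + 1 + i, 2 * k + 1 - i, 6 * k + 1))
    (if i % 2 = 0 then (4 * k + 1 + i, 2 * k + 1 - i, 6 * k + 1)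
      else (4 * k + 1 + i, 4 * k + 1, 4 * k + 1 - i))
    {p | p.1 + p.2.1 + p.2.2 = 12 * k + 1 ∧ p.1 = 4 * k + i ∧ p.2.2 ≤ 6 * k ∧ p.2.1 ≤ 4 * k}
    {p | p.1 + p.2.1 + p.2.2 = 12 * k + 3 ∧ p.1 = 4 * k + 1 + i ∧ p.2.2 ≤ 6 * k + 1 ∧
      p.2.1 ≤ 4 * k + 1} ∅ := by
  split_ifs
  · have h := row (fun t => (4 * (k : ℤ) + 1 + i, 4 * (k : ℤ) + 1 - t, 4 * (k : ℤ) + 1 - i + t))
      (fun t => (4 * (k : ℤ) + i, 4 * (k : ℤ) - t, 4 * (k : ℤ) + 1 - i + t)) (2 * k + i)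
      fun t _ => by unfold adj; dsimp only; omega
    have e1 : (4 * (k : ℤ) + 1 + i, 4 * (k : ℤ) + 1 - (2 * k + i : ℕ),
        4 * (k : ℤ) + 1 - i + (2 * k + i : ℕ)) =
        (4 * (k : ℤ) + 1 + i, 2 * (k : ℤ) + 1 - i, 6 * (k : ℤ) + 1) := by
      simp only [Prod.mk.injEq, true_and]
      omega
    simp only [e1, Nat.cast_zero, add_zero, sub_zero] at h
    refine mono h ?_ ?_ <;> rintro ⟨x, y, z⟩ hp <;> simp only [Set.mem_ofPred_eq] at hp <;>
      refine ⟨(z - 4 * k - 1 + i).toNat, by omega, ?_⟩ <;> simp only [Prod.mk.injEq] <;> omega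
  · have h := row (fun t => (4 * (k : ℤ) + 1 + i, 2 * (k : ℤ) + 1 - i + t, 6 * (k : ℤ) + 1 - t))
      (fun t => (4 * (k : ℤ) + i, 2 * (k : ℤ) + 1 - i + t, 6 * (k : ℤ) - t)) (2 * k + i)
      fun t _ => by unfold adj; dsimp only; omega
    have e1 : (4 * (k : ℤ) + 1 + i, 2 * (k : ℤ) + 1 - i + (2 * k + i : ℕ),
        6 * (k : ℤ) + 1 - (2 * k + i : ℕ)) =
        (4 * (k : ℤ) + 1 + i, 4 * (k : ℤ) + 1, 4 * (k : ℤ) + 1 - i) := by
      simp only [Prod.mk.injEq, true_and]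
      omega
    simp only [e1, Nat.cast_zero, add_zero, sub_zero] at h
    refine mono h ?_ ?_ <;> rintro ⟨x, y, z⟩ hp <;> simp only [Set.mem_ofPred_eq] at hp <;>
      refine ⟨(y - 2 * k - 1 + i).toNat, by omega, ?_⟩ <;> simp only [Prod.mk.injEq] <;> omega

end WIND

open WIND in
theorem stWIND : St_WIND := by
  intro k hk
  obtain ⟨n, hn⟩ : ∃ n, 2 * k = n + 1 := ⟨2 * k - 1, by omega⟩
  have h1 := WIND.chain _ _ _ _ _ n (fun c hc => rowc k c (by omega)) fun c hc => by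
    split_ifs <;> unfold adj <;> dsimp only <;> omega
  have h2 := WIND.chain _ _ _ _ _ n (fun b hb => rowb k b (by omega)) fun b hb => by
    split_ifs <;> unfold adj <;> dsimp only <;> omega
  have h3 := WIND.chain _ _ _ _ _ (2 * k) (fun i _ => rowa k i) fun i hi => by
    split_ifs <;> unfold adj <;> dsimp only <;> omega
  have h := app (app h1 h2 (by split_ifs <;> unfold adj <;> dsimp only <;> omega)) h3
    (by split_ifs <;> unfold adj <;> dsimp only <;> omega)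
  have e : pw (windw k) = pw ((List.range (n + 1)).map fun c => 4 * k - 1 - c) ++
      pw ((List.range (n + 1)).map fun b => 4 * k - b) ++
      pw ((List.range (2 * k + 1)).map fun i => 2 * k + i) := by
    simp only [windw, pw, List.flatMap_append, ← hn]
  rw [← e, if_pos (by norm_num), if_pos (by omega)] at h
  have e1 : ((((0 : ℕ) : ℤ) + 1, 6 * (k : ℤ) + 1, 6 * (k : ℤ) + 1 - (0 : ℕ)) : Pt) =
      (1, 6 * (k : ℤ) + 1, 6 * (k : ℤ) + 1) := by simp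
  have e2 : ((4 * (k : ℤ) + 1 + (2 * k : ℕ), 2 * (k : ℤ) + 1 - (2 * k : ℕ), 6 * (k : ℤ) + 1) : Pt) =
      (6 * (k : ℤ) + 1, 1, 6 * (k : ℤ) + 1) := by
    simp only [Prod.mk.injEq, and_true]
    omega
  rw [e1, e2] at h
  refine mono h ?_ ?_ <;> rintro ⟨x, y, z⟩ hp <;> simp only [Tri, Set.mem_ofPred_eq] at hp
  · by_cases c1 : x < 4 * k ∧ 4 * k < z
    · refine Or.inl (Or.inl ⟨(6 * k - z).toNat, by omega, ?_⟩)
      simp only [Set.mem_ofPred_eq]
      omega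
    by_cases c2 : 4 * k ≤ x ∧ y ≤ 4 * k
    · refine Or.inr ⟨(x - 4 * k).toNat, by omega, ?_⟩
      simp only [Set.mem_ofPred_eq]
      omega
    · refine Or.inl (Or.inr ⟨(6 * k - y).toNat, by omega, ?_⟩)
      simp only [Set.mem_ofPred_eq]
      omega
  · by_cases c1 : x ≤ 4 * k ∧ 4 * k + 1 < z
    · refine Or.inl (Or.inl ⟨(6 * k + 1 - z).toNat, by omega, ?_⟩)
      simp only [Set.mem_ofPred_eq]
      omega
    by_cases c2 : 4 * k < x ∧ y ≤ 4 * k + 1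
    · refine Or.inr ⟨(x - 4 * k - 1).toNat, by omega, ?_⟩
      simp only [Set.mem_ofPred_eq]
      omega
    · refine Or.inl (Or.inr ⟨(6 * k + 1 - y).toNat, by omega, ?_⟩)
      simp only [Set.mem_ofPred_eq]
      omega

end Pool.Agent.Lib.FCC
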