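import Pool.Agent.Lib.MP_dec383_lc.EBP

/-! Positive one-in-three satisfiability is NP-hard. -/

namespace Pool.Agent.Lib.FCC

open Pool.Agent.Lib.helper82 N487b59b3
open Pool.Agent.Lib.MP_dec383_lc (UN ptGetD Fm lit sat_iff_lit lit_pt len_un)

namespace X3h

/-- The instance as a flat list. -/
def One (w : List ℕ) : Prop := ∃ al : ℕ → Bool, ∀ i, 3 * i + 2 < w.length →
  (al (w.getD (3 * i) 0)).toNat + (al (w.getD (3 * i + 1) 0)).toNat +
    (al (w.getD (3 * i + 2) 0)).toNat = 1

abbrev Tr : Type := ℕ × ℕ × ℕ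

def R (al : ℕ → Bool) (t : Tr) : Prop :=
  (al t.1).toNat + (al t.2.1).toNat + (al t.2.2).toNat = 1

def flat (T : List Tr) : List ℕ := T.flatMap fun t => [t.1, t.2.1, t.2.2]

theorem length_flat : ∀ T : List Tr, (flat T).length = 3 * T.length
  | [] => rfl
  | t :: T => by
    have := length_flat T
    simp only [flat, List.flatMap_cons, List.length_append, List.length_cons,
      List.length_nil] at this ⊢
    omega

theorem flat_iff (al : ℕ → Bool) : ∀ T : List Tr, (∀ i < T.length,
    (al ((flat T).getD (3 * i) 0)).toNat + (al ((flat T).getD (3 * i + 1) 0)).toNat +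
      (al ((flat T).getD (3 * i + 2) 0)).toNat = 1) ↔ ∀ t ∈ T, R al t
  | [] => by simp
  | t :: T => by
    have e : ∀ k, (flat (t :: T)).getD (k + 3) 0 = (flat T).getD k 0 := fun k => by
      simp [flat]
    rw [List.forall_mem_cons, ← flat_iff al T, List.length_cons, Nat.forall_lt_succ_left]
    refine and_congr (by simp [flat, R]) (forall₂_congr fun i _ => ?_)
    rw [show 3 * (i + 1) = 3 * i + 3 by ring, show 3 * i + 3 + 1 = 3 * i + 1 + 3 by ring,
      show 3 * i + 3 + 2 = 3 * i + 2 + 3 by ring, e, e, e]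

theorem one_flat (T : List Tr) : One (flat T) ↔ ∃ al, ∀ t ∈ T, R al t := by
  refine exists_congr fun al => ?_
  rw [← flat_iff, length_flat]
  exact forall_congr' fun i => imp_congr_left (by omega)

/-- First position of a value. -/
def idx (w : List ℕ) (v : ℕ) : ℕ :=
  ((List.range w.length).filter fun i => decide (w.getD i 0 = v)).headD 0

theorem idx_spec {w : List ℕ} {v : ℕ} (h : v ∈ w) : idx w v < w.length ∧ w.getD (idx w v) 0 = v := by
  obtain ⟨i, hi, rfl⟩ := List.getElem_of_mem h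
  have h1 : i ∈ (List.range w.length).filter fun j => decide (w.getD j 0 = w[i]) := by
    rw [List.mem_filter, List.mem_range, List.getD_eq_getElem _ _ hi]
    exact ⟨hi, by simp⟩
  have h2 : idx w w[i] ∈ (List.range w.length).filter fun j => decide (w.getD j 0 = w[i]) := by
    unfold idx
    revert h1
    cases (List.range w.length).filter fun j => decide (w.getD j 0 = w[i]) <;> simp
  rw [List.mem_filter, List.mem_range] at h2
  exact ⟨h2.1, of_decide_eq_true h2.2⟩

def nrm (w : List ℕ) : List ℕ := w.map (idx w)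

theorem getD_nrm {w : List ℕ} {i : ℕ} (h : i < w.length) :
    (nrm w).getD i 0 = idx w (w.getD i 0) := by
  rw [List.getD_eq_getElem _ _ h, List.getD_eq_getElem _ _ (by simpa [nrm] using h)]
  simp [nrm]

theorem getD_mem {w : List ℕ} {i : ℕ} (h : i < w.length) : w.getD i 0 ∈ w := by
  rw [List.getD_eq_getElem _ _ h]
  exact List.getElem_mem _

theorem one_nrm (w : List ℕ) : One (nrm w) ↔ One w := by
  have hl : (nrm w).length = w.length := List.length_map _
  constructor
  · rintro ⟨al, h⟩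
    refine ⟨fun v => al (idx w v), fun i hi => ?_⟩
    have := h i (by omega)
    rwa [getD_nrm (by omega), getD_nrm (by omega), getD_nrm (by omega)] at this
  · rintro ⟨al, h⟩
    refine ⟨fun k => al (w.getD k 0), fun i hi => ?_⟩
    rw [hl] at hi
    beta_reduce
    rw [getD_nrm (by omega), getD_nrm (by omega), getD_nrm (by omega),
      (idx_spec (getD_mem (by omega))).2, (idx_spec (getD_mem (by omega))).2,
      (idx_spec (getD_mem (by omega))).2]
    exact h i hi

theorem nrm_pt : PT nrm :=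
  PT.map (F := fun (w : List ℕ) v => idx w v) PT.id
    (PT.headD (PT.filter (P := fun (p : List ℕ × ℕ) i => decide (p.1.getD i 0 = p.2))
      (UN.length PT.fst').range
      (PT.eq (ptGetD (PT.fst PT.fst') PT.snd' 0) (PT.snd PT.fst'))) 0)

theorem flat_pt : PT flat :=
  PT.flatMap (F := fun (_ : List Tr) (t : Tr) => [t.1, t.2.1, t.2.2]) PT.id
    (PT.cons (PT.fst PT.snd') (PT.cons (PT.fst (PT.snd PT.snd'))
      (PT.cons (PT.snd (PT.snd PT.snd')) (PT.const []))))

/-- The name of a literal and of its negation. -/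
def ps (l : ℕ × Bool) : ℕ := bif l.2 then 8 * l.1 else 8 * l.1 + 1
def ng (l : ℕ × Bool) : ℕ := bif l.2 then 8 * l.1 + 1 else 8 * l.1
def lk (l : ℕ × Bool) : Tr := (8 * l.1, 8 * l.1 + 1, 6)

def gad (φ : Fm) (j : ℕ) : List Tr :=
  [(ng (lit φ (3 * j + 0)), 8 * j + 2, 8 * j + 3), (ps (lit φ (3 * j + 1)), 8 * j + 3, 8 * j + 4),
    (8 * j + 4, 8 * j + 5, ng (lit φ (3 * j + 2))), lk (lit φ (3 * j + 0)), lk (lit φ (3 * j + 1)),
    lk (lit φ (3 * j + 2))]

def red (φ : Fm) : List Tr := (6, 6, 7) :: (List.range φ.length).flatMap (gad φ)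

theorem red_pt : PT red := by
  have i0 : ∀ k, PT fun p : Fm × ℕ => 8 * p.2 + k := fun k =>
    PT.add (PT.mul (PT.const 8) PT.snd') (PT.const k)
  have i2 : ∀ k, PT fun p : Fm × ℕ => lit p.1 (3 * p.2 + k) := fun k =>
    (PT.comp lit_pt (F := fun p : Fm × ℕ => (p.1, 3 * p.2 + k))
      (PT.pair PT.fst' (PT.add (PT.mul (PT.const 3) PT.snd') (PT.const k))) :)
  have a0 : PT fun l : ℕ × Bool => 8 * l.1 := PT.mul (PT.const 8) PT.fst'
  have a1 : PT fun l : ℕ × Bool => 8 * l.1 + 1 := PT.add a0 (PT.const 1)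
  have hp : PT ps := PT.cond PT.snd' a0 a1
  have hn : PT ng := PT.cond PT.snd' a1 a0
  have hk : PT lk := PT.pair a0 (PT.pair a1 (PT.const 6))
  exact PT.cons (PT.const _) (PT.flatMap (F := fun (φ : Fm) j => gad φ j) len_un.range
    (PT.cons (PT.pair (PT.comp hn (i2 0)) (PT.pair (i0 2) (i0 3)))
      (PT.cons (PT.pair (PT.comp hp (i2 1)) (PT.pair (i0 3) (i0 4)))
        (PT.cons (PT.pair (i0 4) (PT.pair (i0 5) (PT.comp hn (i2 2))))
          (PT.cons (PT.comp hk (i2 0)) (PT.cons (PT.comp hk (i2 1))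
            (PT.cons (PT.comp hk (i2 2)) (PT.const []))))))))

theorem red_iff (φ : Fm) : (∃ al, ∀ t ∈ red φ, R al t) ↔
    ∃ a : ℕ → Bool, ∀ j < φ.length, ∃ k < 3, a (lit φ (3 * j + k)).1 = (lit φ (3 * j + k)).2 := by
  simp only [red, List.forall_mem_cons, List.mem_flatMap, List.mem_range, forall_exists_index,
    and_imp]
  constructor
  · rintro ⟨al, h0, h⟩
    have h6 : al 6 = false := by
      revert h0
      simp only [R]
      cases al 6 <;> cases al 7 <;> simp
    refine ⟨fun x => al (8 * x), fun j hj => ?_⟩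
    have hj' := fun t => h t j hj
    simp only [gad, List.forall_mem_cons, R, lk, h6] at hj'
    obtain ⟨h1, h2, h3, h4, h5, h7, -⟩ := hj'
    have key : ∀ l : ℕ × Bool, (al (8 * l.1)).toNat + (al (8 * l.1 + 1)).toNat + false.toNat = 1 →
        al (8 * l.1) ≠ l.2 → al (ps l) = false ∧ al (ng l) = true := by
      rintro ⟨x, b⟩
      cases b <;> simp only [ps, ng, cond_true, cond_false] <;> cases al (8 * x) <;>
        cases al (8 * x + 1) <;> simp
    by_contra hne
    push Not at hne
    rw [(key _ h4 (hne 0 (by omega))).2] at h1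
    rw [(key _ h5 (hne 1 (by omega))).1] at h2
    rw [(key _ h7 (hne 2 (by omega))).2] at h3
    revert h1 h2 h3
    cases al (8 * j + 2) <;> cases al (8 * j + 3) <;> cases al (8 * j + 4) <;>
      cases al (8 * j + 5) <;> simp
  · rintro ⟨a, ha⟩
    let tr : ℕ → ℕ → Bool := fun j k => a (lit φ (3 * j + k)).1 == (lit φ (3 * j + k)).2
    let al : ℕ → Bool := fun v =>
      if v % 8 = 0 then a (v / 8) else if v % 8 = 1 then !a (v / 8)
      else if v % 8 = 2 then tr (v / 8) 0 && tr (v / 8) 1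
      else if v % 8 = 3 then tr (v / 8) 0 && !tr (v / 8) 1
      else if v % 8 = 4 then !tr (v / 8) 0 && !tr (v / 8) 1
      else if v % 8 = 5 then tr (v / 8) 2 && (tr (v / 8) 0 || tr (v / 8) 1)
      else decide (v % 8 = 7)
    have d : ∀ x r, r < 8 → (8 * x + r) % 8 = r ∧ (8 * x + r) / 8 = x := fun x r hr => by omega
    have e0 : ∀ x, al (8 * x) = a x := fun x => by simp [al]
    have e1 : ∀ x, al (8 * x + 1) = !a x := fun x => by simp [al, d x 1 (by omega)]
    have e2 : ∀ x, al (8 * x + 2) = (tr x 0 && tr x 1) := fun x => by simp [al, d x 2 (by omega)]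
    have e3 : ∀ x, al (8 * x + 3) = (tr x 0 && !tr x 1) := fun x => by simp [al, d x 3 (by omega)]
    have e4 : ∀ x, al (8 * x + 4) = (!tr x 0 && !tr x 1) := fun x => by
      simp [al, d x 4 (by omega)]
    have e5 : ∀ x, al (8 * x + 5) = (tr x 2 && (tr x 0 || tr x 1)) := fun x => by
      simp [al, d x 5 (by omega)]
    have e6 : al 6 = false := by simp [al]
    have e7 : al 7 = true := by simp [al]
    have ep : ∀ l : ℕ × Bool, al (ps l) = (a l.1 == l.2) := by
      rintro ⟨x, b⟩
      cases b <;> simp [ps, e0, e1]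
    have en : ∀ l : ℕ × Bool, al (ng l) = !(a l.1 == l.2) := by
      rintro ⟨x, b⟩
      cases b <;> simp [ng, e0, e1]
    have ek : ∀ l : ℕ × Bool, R al (lk l) := fun l => by
      simp only [R, lk, e0, e1, e6]
      cases a l.1 <;> rfl
    refine ⟨al, by simp [R, e6, e7], fun t j hj => ?_⟩
    revert t
    have h : tr j 0 = true ∨ tr j 1 = true ∨ tr j 2 = true := by
      obtain ⟨k, hk, h⟩ := ha j hj
      interval_cases k
      exacts [.inl (beq_iff_eq.2 h), .inr (.inl (beq_iff_eq.2 h)), .inr (.inr (beq_iff_eq.2 h))]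
    simp only [gad, List.forall_mem_cons, ek, true_and, List.not_mem_nil, false_imp_iff,
      implies_true, and_true]
    simp only [R, ep, en, e2, e3, e4, e5]
    change (!tr j 0).toNat + _ + _ = 1 ∧ (tr j 1).toNat + _ + _ = 1 ∧ _ + _ + (!tr j 2).toNat = 1
    revert h
    cases tr j 0 <;> cases tr j 1 <;> cases tr j 2 <;> simp

end X3h

open X3h in
theorem x3_hard {L : N68a2faeb.DecisionProblem} (hL : L ∈ N68a2faeb.NP) :
    ∃ F : List Bool → List ℕ, PT F ∧ ∀ x, (∃ m, 1 ≤ m ∧ (F x).length = 3 * m) ∧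
      (∀ v ∈ F x, v < (F x).length) ∧ (L x = true ↔ One (F x)) := by
  obtain ⟨G, hG, h⟩ := cook_levin hL
  refine ⟨fun x => nrm (flat (red (G x))), PT.comp nrm_pt (PT.comp flat_pt (PT.comp red_pt hG)),
    fun x => ⟨⟨(red (G x)).length, by simp [red], ?_⟩, fun v hv => ?_, ?_⟩⟩
  · rw [← length_flat]
    exact List.length_map _
  · obtain ⟨u, hu, rfl⟩ := List.mem_map.1 hv
    exact (idx_spec hu).1.trans_eq (List.length_map _).symm
  · rw [one_nrm, one_flat, red_iff, (h x).2]
    exact exists_congr fun a => sat_iff_lit a _ (h x).1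

end Pool.Agent.Lib.FCC
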