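import Pool.Agent.Lib.FCC.Blue
import Pool.Agent.Lib.FCC.X3

namespace Pool.Agent.Lib.FCC

theorem stX3 : St_X3 := fun _ hL => by
  obtain ⟨F, hF, h⟩ := x3_hard hL
  exact ⟨F, hF, fun x => ⟨⟨(h x).1, (h x).2.1⟩, (h x).2.2⟩⟩

end Pool.Agent.Lib.FCC
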